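import Mathlib

/-!
# Counting tuples coordinate by coordinate

PROOF. For fixed `t` the map `x ↦ (fun i => x (t.succAbove i))` sends `piFinset (fun _ : Fin (n + 1) => U)` to
`piFinset (fun _ : Fin n => U)`, which has `#U ^ n` elements, and on the fibre over `y` the tuple is
`x = Fin.insertNth t (x t) y` (`Fin.insertNth_self_removeNth` or ext), so `x ↦ x t` injects the `x` in the fibre with `Q t x` into
`{a ∈ U | Q t (Fin.insertNth t a y)}`: at most `N` (`Finset.card_le_mul_card_image` or `card_eq_sum_card_fiberwise`). Sum over `t`.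
-/

set_option autoImplicit false

open Finset

namespace Pool.Agent.DCA

open Classical in
theorem fiber_count (n N : ℕ) (U : Finset ℕ) (Q : Fin (n + 1) → (Fin (n + 1) → ℕ) → Prop)
    (hQ : ∀ t : Fin (n + 1), ∀ y : Fin n → ℕ, (∀ i, y i ∈ U) →
      #{a ∈ U | Q t (Fin.insertNth t a y)} ≤ N) :
    #{x ∈ Fintype.piFinset (fun _ : Fin (n + 1) => U) | ∃ t, Q t x} ≤
      (n + 1) * (N * #U ^ n) := by
  have hone : ∀ t : Fin (n + 1),
      #{x ∈ Fintype.piFinset (fun _ : Fin (n + 1) => U) | Q t x} ≤ N * #U ^ n := by
    intro t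
    have h1 : ∀ x ∈ ({x ∈ Fintype.piFinset (fun _ : Fin (n + 1) => U) | Q t x}),
        (fun i => x (t.succAbove i)) ∈ Fintype.piFinset (fun _ : Fin n => U) := by
      intro x hx
      rw [Fintype.mem_piFinset]
      intro i
      exact Fintype.mem_piFinset.mp (Finset.mem_filter.mp hx).1 _
    have h2 := Finset.card_le_mul_card_image_of_maps_to h1 N (by
      intro y hy
      have hy' : ∀ i, y i ∈ U := fun i => Fintype.mem_piFinset.mp hy i
      refine le_trans ?_ (hQ t y hy')
      apply Finset.card_le_card_of_injOn (fun x => x t)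
      · intro x hx
        rw [Finset.mem_coe, Finset.mem_filter, Finset.mem_filter] at hx
        obtain ⟨⟨hx1, hx2⟩, hx3⟩ := hx
        rw [Finset.mem_coe, Finset.mem_filter]
        refine ⟨Fintype.mem_piFinset.mp hx1 t, ?_⟩
        have hx4 : Fin.insertNth t (x t) y = x := by
          rw [← hx3]
          exact Fin.insertNth_self_removeNth t x
        rw [hx4]
        exact hx2
      · intro x hx x' hx' he
        rw [Finset.mem_coe, Finset.mem_filter, Finset.mem_filter] at hx hx'
        funext s
        rcases eq_or_ne s t with rfl | hs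
        · exact he
        · obtain ⟨i, rfl⟩ := Fin.exists_succAbove_eq hs
          have e1 := congrFun hx.2 i
          have e2 := congrFun hx'.2 i
          exact e1.trans e2.symm)
    rwa [Fintype.card_piFinset_const] at h2
  calc #{x ∈ Fintype.piFinset (fun _ : Fin (n + 1) => U) | ∃ t, Q t x}
      ≤ #((univ : Finset (Fin (n + 1))).biUnion fun t =>
          {x ∈ Fintype.piFinset (fun _ : Fin (n + 1) => U) | Q t x}) := by
        apply Finset.card_le_card
        intro x hx
        obtain ⟨hx1, t, hx2⟩ := Finset.mem_filter.mp hx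
        exact Finset.mem_biUnion.mpr ⟨t, Finset.mem_univ t, Finset.mem_filter.mpr ⟨hx1, hx2⟩⟩
    _ ≤ ∑ t : Fin (n + 1), #{x ∈ Fintype.piFinset (fun _ : Fin (n + 1) => U) | Q t x} :=
        Finset.card_biUnion_le
    _ ≤ ∑ _t : Fin (n + 1), N * #U ^ n := Finset.sum_le_sum fun t _ => hone t
    _ = (n + 1) * (N * #U ^ n) := by
        rw [Finset.sum_const, Finset.card_univ, Fintype.card_fin, smul_eq_mul]

end Pool.Agent.DCA
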