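import Pool.Agent.Lib.DCA.CRst
import Pool.Agent.Lib.DCA.CFiber

/-!
# Few tuples are bad

Put `Ω = Fintype.piFinset (fun _ : Fin (n + 1) => W.U)`, `#Ω = #U ^ (n + 1)`, `C = (n + 1) ^ (3 * ((n + 1) * d₀))`.
Use `fiber_count` (CFiber).
`bad_card`. PROOF. A bad tuple satisfies (for some `t`) one of
(1) `x t ∉ F ∨ d < #(T (x t))`: `N = #{x ∈ U | x ∉ F ∨ d < #(T x)}`;
(2) all `x u ∈ F` and there are `s ≠ t`, `a ∈ L (x t)`, `b ∈ L (x s) ∪ H (x s)`, `|a - b| ≤ 6`: for fixed other coordinates, `x t` is in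
  `⋃ over s ≠ t, b ∈ L (x s) ∪ H (x s), a ∈ [b - 6, b + 6]` of `{x ∈ U | a ∈ L x}`: `N = n * (lam * (13 * h₂))` (`LH_card`, `h2`);
(3) some `a ∈ L (x t)` is in `Rst n tol (SZ x - x t)`; `SZ x - x t` depends only on the other coordinates (`SZ_succAbove`):
  `N = 5 * ((1 + n * lam) * n ^ (3 * (n * d₀))) * h₂` (`rst_card`, `h2`);
(4) all `x u ∈ F` and for some `q ∈ T (x t)` all `h ∈ Hv (x t) q` have `q ∈ Rst (n + 1) tol (SZ x - x t + h)`: `R1` with
  `Rr h = Rst (n + 1) tol (Y + h)`, `Y` the sum of the other coordinates; `#(Rr h) ≤ 5 (1 + (n + 1) lam) C ≤ c (lam + 1)`: `c * N ≤ #U`.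
Add up, multiply by `K`: `K (n + 1) [13 n lam h₂ + 5 (1 + n lam) C h₂] + K (n + 1) N₄ ≤ #U` because
`K (n + 1) (13 n lam + 5 (1 + n lam) C) ≤ 18 K (n + 1)^2 C (lam + 1)`, `c (lam + 1) h₂ ≤ #U`, `c N₄ ≤ #U`, `20 (K + 1) (n + 1)^2 C ≤ c` [so
`20 (K + 1) (n + 1)^2 C * (each quantity) ≤ #U`].
-/

set_option autoImplicit false

open Finset

namespace Pool.Agent.DCA

variable {p B d₀ lam h₂ D₁ c : ℕ}

section aux

private def CBad_Q1 (W : Tower p B d₀ lam h₂ D₁ c) (d : ℕ) {n : ℕ} (t : Fin (n + 1))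
    (x : Fin (n + 1) → ℕ) : Prop := x t ∉ W.F ∨ d < #(W.T (x t))

private def CBad_Q2 (W : Tower p B d₀ lam h₂ D₁ c) {n : ℕ} (t : Fin (n + 1))
    (x : Fin (n + 1) → ℕ) : Prop := ∃ s, s ≠ t ∧ ∃ e ∈ W.L (x t),
      ∃ b ∈ W.L (x s) ∪ W.H (x s), e ≤ b + 6 ∧ b ≤ e + 6

private def CBad_Q3 (W : Tower p B d₀ lam h₂ D₁ c) (tol : ℕ) {n : ℕ} (t : Fin (n + 1))
    (x : Fin (n + 1) → ℕ) : Prop := ∃ e ∈ W.L (x t), e ∈ W.Rst n tol (SZ x - x t)

private def CBad_Q4 (W : Tower p B d₀ lam h₂ D₁ c) (tol : ℕ) {n : ℕ} (t : Fin (n + 1))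
    (x : Fin (n + 1) → ℕ) : Prop := x t ∈ W.F ∧ ∃ q ∈ W.T (x t),
      ∀ h ∈ W.Hv (x t) q, q ∈ W.Rst (n + 1) tol (SZ x - x t + h)

open Classical in
private theorem CBad_f2 (W : Tower p B d₀ lam h₂ D₁ c) (n : ℕ) (t : Fin (n + 1)) (y : Fin n → ℕ)
    (hy : ∀ i, y i ∈ W.U) :
    #{a ∈ W.U | CBad_Q2 W t (Fin.insertNth t a y)} ≤
      n * (lam * (13 * h₂)) := by
  have hsub : {a ∈ W.U | CBad_Q2 W t (Fin.insertNth t a y)} ⊆
      (univ : Finset (Fin n)).biUnion (fun i => (W.L (y i) ∪ W.H (y i)).biUnion fun b =>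
        (Icc (b - 6) (b + 6)).biUnion fun e => {x ∈ W.U | e ∈ W.L x}) := by
    intro a ha
    obtain ⟨haU, s, hs, e, he, b, hb, h1, h2⟩ := mem_filter.1 ha
    obtain ⟨i, rfl⟩ := Fin.exists_succAbove_eq hs
    rw [Fin.insertNth_apply_same] at he
    rw [Fin.insertNth_apply_succAbove] at hb
    rw [mem_biUnion]
    refine ⟨i, mem_univ _, ?_⟩
    rw [mem_biUnion]
    refine ⟨b, hb, ?_⟩
    rw [mem_biUnion]
    refine ⟨e, mem_Icc.2 ⟨by omega, by omega⟩, mem_filter.2 ⟨haU, he⟩⟩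
  refine (card_le_card hsub).trans (card_biUnion_le.trans ?_)
  refine (sum_le_card_nsmul _ _ (lam * (13 * h₂)) fun i _ => ?_).trans ?_
  · refine card_biUnion_le.trans ?_
    refine (sum_le_card_nsmul _ _ (13 * h₂) fun b _ => ?_).trans ?_
    · refine card_biUnion_le.trans ?_
      refine (sum_le_card_nsmul _ _ h₂ fun e _ => W.h2 e).trans ?_
      rw [smul_eq_mul]
      refine Nat.mul_le_mul_right _ ?_
      rw [Nat.card_Icc]
      omega
    · rw [smul_eq_mul]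
      exact Nat.mul_le_mul_right _ (W.LH_card _ (hy i))
  · rw [smul_eq_mul, card_univ, Fintype.card_fin]

private theorem CBad_SZ {n : ℕ} (t : Fin (n + 1)) (a : ℕ) (y : Fin n → ℕ) :
    SZ (Fin.insertNth t a y : Fin (n + 1) → ℕ) - (Fin.insertNth t a y : Fin (n + 1) → ℕ) t =
      SZ y := by
  rw [← SZ_succAbove]
  congr 1
  funext i
  rw [Fin.insertNth_apply_succAbove]

open Classical in
private theorem CBad_f3 (W : Tower p B d₀ lam h₂ D₁ c) (n tol : ℕ) (hn : 1 ≤ n)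
    (hc : 8 * (n + 1) ≤ c) (hc16 : 16 ≤ c) (htol : 16 * tol ≤ W.θ 0) (t : Fin (n + 1))
    (y : Fin n → ℕ) :
    #{a ∈ W.U | CBad_Q3 W tol t (Fin.insertNth t a y)} ≤
      5 * ((1 + n * lam) * n ^ (3 * (n * d₀))) * h₂ := by
  have hsub : {a ∈ W.U | CBad_Q3 W tol t (Fin.insertNth t a y)} ⊆
      (W.Rst n tol (SZ y)).biUnion (fun e => {x ∈ W.U | e ∈ W.L x}) := by
    intro a ha
    obtain ⟨haU, e, he, he2⟩ := mem_filter.1 ha
    rw [CBad_SZ] at he2
    rw [Fin.insertNth_apply_same] at he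
    rw [mem_biUnion]
    exact ⟨e, he2, mem_filter.2 ⟨haU, he⟩⟩
  refine (card_le_card hsub).trans (card_biUnion_le.trans ?_)
  refine (sum_le_card_nsmul _ _ h₂ fun e _ => W.h2 e).trans ?_
  rw [smul_eq_mul]
  exact Nat.mul_le_mul_right _ (W.rst_card n hn hc hc16 tol htol (SZ y))

open Classical in
private theorem CBad_f4 (W : Tower p B d₀ lam h₂ D₁ c) (n tol : ℕ)
    (hc : 8 * (n + 1 + 1) ≤ c) (hc16 : 16 ≤ c) (htol : 16 * tol ≤ W.θ 0)
    (hR : 5 * ((1 + (n + 1) * lam) * (n + 1) ^ (3 * ((n + 1) * d₀))) ≤ c * (lam + 1))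
    (t : Fin (n + 1)) (y : Fin n → ℕ) :
    #{a ∈ W.U | CBad_Q4 W tol t (Fin.insertNth t a y)} ≤ #W.U / c := by
  have hsub : {a ∈ W.U | CBad_Q4 W tol t (Fin.insertNth t a y)} ⊆
      {x ∈ W.F | ∃ q ∈ W.L x \ W.H x, ∀ h ∈ W.Hv x q, q ∈ W.Rst (n + 1) tol (SZ y + h)} := by
    intro a ha
    obtain ⟨_, haF, q, hq, hq2⟩ := mem_filter.1 ha
    rw [CBad_SZ] at hq2
    rw [Fin.insertNth_apply_same] at haF hq hq2
    exact mem_filter.2 ⟨haF, q, hq, hq2⟩
  have h1 := W.R1 (fun h => W.Rst (n + 1) tol (SZ y + h))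
    (fun h => (W.rst_card (n + 1) (by omega) hc hc16 tol htol (SZ y + h)).trans hR)
  rw [Nat.le_div_iff_mul_le (by omega), mul_comm]
  refine le_trans (Nat.mul_le_mul_left c (card_le_card hsub)) ?_
  convert h1

private theorem CBad_arith (n K lam h₂ c C C' u N4 : ℕ) (hC : 1 ≤ C) (hCC : C' ≤ C)
    (hc : 20 * (K + 1) * (n + 1) ^ 2 * C ≤ c) (h1 : c * (lam + 1) * h₂ ≤ u) (h4 : c * N4 ≤ u) :
    K * ((n + 1) * (n * (lam * (13 * h₂)) + 5 * ((1 + n * lam) * C') * h₂ + N4)) ≤ u := by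
  set X := K * (n + 1) ^ 2 * C * (lam + 1) * h₂ with hX
  set Z := K * (n + 1) ^ 2 * C * N4 with hZ
  have e1 : 20 * X ≤ u := by
    refine le_trans ?_ h1
    have h2 : 20 * X = (20 * K * (n + 1) ^ 2 * C) * ((lam + 1) * h₂) := by rw [hX]; ring
    have h3 : 20 * K * (n + 1) ^ 2 * C ≤ c := by
      refine le_trans ?_ hc
      gcongr
      omega
    calc 20 * X = (20 * K * (n + 1) ^ 2 * C) * ((lam + 1) * h₂) := h2
      _ ≤ c * ((lam + 1) * h₂) := Nat.mul_le_mul_right _ h3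
      _ = c * (lam + 1) * h₂ := by ring
  have e2 : 20 * Z ≤ u := by
    refine le_trans ?_ h4
    have h3 : 20 * K * (n + 1) ^ 2 * C ≤ c := by
      refine le_trans ?_ hc
      gcongr
      omega
    calc 20 * Z = (20 * K * (n + 1) ^ 2 * C) * N4 := by rw [hZ]; ring
      _ ≤ c * N4 := Nat.mul_le_mul_right _ h3
  have a1 : K * ((n + 1) * (n * (lam * (13 * h₂)))) ≤ 13 * X := by
    have h2 : n * lam ≤ (n + 1) * (C * (lam + 1)) := by
      have h5 : n * lam ≤ (n + 1) * (lam + 1) := Nat.mul_le_mul (by omega) (by omega)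
      refine h5.trans (Nat.mul_le_mul_left _ ?_)
      exact Nat.le_mul_of_pos_left _ hC
    calc K * ((n + 1) * (n * (lam * (13 * h₂)))) = 13 * (K * (n + 1) * h₂ * (n * lam)) := by ring
      _ ≤ 13 * (K * (n + 1) * h₂ * ((n + 1) * (C * (lam + 1)))) := by gcongr
      _ = 13 * X := by rw [hX]; ring
  have a2 : K * ((n + 1) * (5 * ((1 + n * lam) * C') * h₂)) ≤ 5 * X := by
    have h2 : 1 + n * lam ≤ (n + 1) * (lam + 1) := by nlinarith
    calc K * ((n + 1) * (5 * ((1 + n * lam) * C') * h₂)) =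
        5 * (K * (n + 1) * h₂ * ((1 + n * lam) * C')) := by ring
      _ ≤ 5 * (K * (n + 1) * h₂ * (((n + 1) * (lam + 1)) * C)) := by gcongr
      _ = 5 * X := by rw [hX]; ring
  have a3 : K * ((n + 1) * N4) ≤ Z := by
    have h2 : 1 ≤ (n + 1) * C := Nat.mul_pos (by omega) hC
    calc K * ((n + 1) * N4) = K * (n + 1) * N4 * 1 := by ring
      _ ≤ K * (n + 1) * N4 * ((n + 1) * C) := Nat.mul_le_mul_left _ h2
      _ = Z := by rw [hZ]; ring
  have e : K * ((n + 1) * (n * (lam * (13 * h₂)) + 5 * ((1 + n * lam) * C') * h₂ + N4)) =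
      K * ((n + 1) * (n * (lam * (13 * h₂)))) + K * ((n + 1) * (5 * ((1 + n * lam) * C') * h₂)) +
        K * ((n + 1) * N4) := by ring
  rw [e]
  omega

end aux

open Classical in
theorem Tower.bad_card (W : Tower p B d₀ lam h₂ D₁ c) (n K d tol : ℕ) (hn : 1 ≤ n)
    (hc : 20 * (K + 1) * (n + 1) ^ 2 * (n + 1) ^ (3 * ((n + 1) * d₀)) ≤ c)
    (htol : 16 * tol ≤ W.θ 0) :
    K * #{x ∈ Fintype.piFinset (fun _ : Fin (n + 1) => W.U) | ¬ W.Good d tol x} ≤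
      K * ((n + 1) * (#{x ∈ W.U | x ∉ W.F ∨ d < #(W.T x)} * #W.U ^ n)) + #W.U ^ (n + 1) := by
  set C := (n + 1) ^ (3 * ((n + 1) * d₀)) with hCd
  have hC : 1 ≤ C := Nat.one_le_pow _ _ (by omega)
  have hn2 : 4 ≤ (n + 1) ^ 2 := by nlinarith
  have hcn : 20 * (n + 1) ^ 2 ≤ c := by
    refine le_trans ?_ hc
    calc 20 * (n + 1) ^ 2 = 20 * 1 * (n + 1) ^ 2 * 1 := by ring
      _ ≤ 20 * (K + 1) * (n + 1) ^ 2 * C := by gcongr; omega
  have hc1 : 8 * (n + 1) ≤ c := by nlinarith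
  have hc2 : 8 * (n + 1 + 1) ≤ c := by nlinarith
  have hc16 : 16 ≤ c := by nlinarith
  have hR : 5 * ((1 + (n + 1) * lam) * (n + 1) ^ (3 * ((n + 1) * d₀))) ≤ c * (lam + 1) := by
    rw [← hCd]
    have h1 : 1 + (n + 1) * lam ≤ (n + 1) ^ 2 * (lam + 1) := by
      have h2 : (n + 1) * (lam + 1) ≤ (n + 1) ^ 2 * (lam + 1) := by
        refine Nat.mul_le_mul_right _ ?_
        nlinarith
      nlinarith
    calc 5 * ((1 + (n + 1) * lam) * C) ≤ 5 * (((n + 1) ^ 2 * (lam + 1)) * C) := by gcongr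
      _ = (5 * 1 * (n + 1) ^ 2 * C) * (lam + 1) := by ring
      _ ≤ (20 * (K + 1) * (n + 1) ^ 2 * C) * (lam + 1) := by gcongr <;> omega
      _ ≤ c * (lam + 1) := Nat.mul_le_mul_right _ hc
  have hsub : {x ∈ Fintype.piFinset (fun _ : Fin (n + 1) => W.U) | ¬ W.Good d tol x} ⊆
      (({x ∈ Fintype.piFinset (fun _ : Fin (n + 1) => W.U) | ∃ t, CBad_Q1 W d t x} ∪
      {x ∈ Fintype.piFinset (fun _ : Fin (n + 1) => W.U) | ∃ t, CBad_Q2 W t x}) ∪
      {x ∈ Fintype.piFinset (fun _ : Fin (n + 1) => W.U) | ∃ t, CBad_Q3 W tol t x}) ∪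
      {x ∈ Fintype.piFinset (fun _ : Fin (n + 1) => W.U) | ∃ t, CBad_Q4 W tol t x} := by
    intro x hx
    obtain ⟨hxU, hbad⟩ := mem_filter.1 hx
    by_contra hcon
    rw [mem_union, mem_union, mem_union, mem_filter, mem_filter, mem_filter, mem_filter] at hcon
    unfold CBad_Q1 CBad_Q2 CBad_Q3 CBad_Q4 at hcon
    push Not at hcon
    obtain ⟨⟨⟨g1, g2⟩, g3⟩, g4⟩ := hcon
    have g1' := g1 hxU
    have g2' := g2 hxU
    have g3' := g3 hxU
    have g4' := g4 hxU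
    refine hbad ⟨fun t => (g1' t).2, ⟨fun s => (g1' s).1, ?_⟩, g3', ?_⟩
    · intro s t hst a ha b hb
      by_contra h5
      push Not at h5
      have h6 := g2' s t hst.symm a ha b hb h5.2
      omega
    · intro t q hq
      exact g4' t (g1' t).1 q hq
  have hcard := (card_le_card hsub).trans ((card_union_le _ _).trans
    (Nat.add_le_add_right ((card_union_le _ _).trans
      (Nat.add_le_add_right (card_union_le _ _) _)) _))
  have b1 := fiber_count n (#{x ∈ W.U | x ∉ W.F ∨ d < #(W.T x)}) W.U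
    (fun t x => CBad_Q1 W d t x) (fun t y _ => by
      refine le_of_eq ?_
      congr 1
      ext a
      rw [mem_filter, mem_filter]
      unfold CBad_Q1
      rw [Fin.insertNth_apply_same])
  have b2 := fiber_count n (n * (lam * (13 * h₂))) W.U
    (fun t x => CBad_Q2 W t x)
    (fun t y hy => CBad_f2 W n t y hy)
  have b3 := fiber_count n (5 * ((1 + n * lam) * n ^ (3 * (n * d₀))) * h₂) W.U
    (fun t x => CBad_Q3 W tol t x)
    (fun t y _ => CBad_f3 W n tol hn hc1 hc16 htol t y)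
  have b4 := fiber_count n (#W.U / c) W.U
    (fun t x => CBad_Q4 W tol t x)
    (fun t y _ => CBad_f4 W n tol hc2 hc16 htol hR t y)
  have hCC : n ^ (3 * (n * d₀)) ≤ C := by
    rw [hCd]
    refine (Nat.pow_le_pow_left (by omega) _).trans (Nat.pow_le_pow_right (by omega) ?_)
    gcongr
    omega
  have harith := CBad_arith n K lam h₂ c C (n ^ (3 * (n * d₀))) #W.U (#W.U / c) hC hCC hc
    W.h2_small (Nat.mul_div_le _ _)
  have hfin := Nat.mul_le_mul_right (#W.U ^ n) harith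
  have e1 : #W.U * #W.U ^ n = #W.U ^ (n + 1) := by ring
  rw [e1] at hfin
  calc K * #{x ∈ Fintype.piFinset (fun _ : Fin (n + 1) => W.U) | ¬ W.Good d tol x} ≤
      K * ((n + 1) * (#{x ∈ W.U | x ∉ W.F ∨ d < #(W.T x)} * #W.U ^ n) +
        (n + 1) * (n * (lam * (13 * h₂)) * #W.U ^ n) +
        (n + 1) * (5 * ((1 + n * lam) * n ^ (3 * (n * d₀))) * h₂ * #W.U ^ n) +
        (n + 1) * (#W.U / c * #W.U ^ n)) := by
        refine Nat.mul_le_mul_left _ (hcard.trans ?_)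
        exact Nat.add_le_add (Nat.add_le_add (Nat.add_le_add b1 b2) b3) b4
    _ = K * ((n + 1) * (#{x ∈ W.U | x ∉ W.F ∨ d < #(W.T x)} * #W.U ^ n)) +
        K * ((n + 1) * (n * (lam * (13 * h₂)) +
          5 * ((1 + n * lam) * n ^ (3 * (n * d₀))) * h₂ + #W.U / c)) * #W.U ^ n := by ring
    _ ≤ _ := Nat.add_le_add_left hfin _

end Pool.Agent.DCA
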