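import Mathlib

/-!
# Choice of the number of letters

PROOF. Work with `a j = G' ^ ...`; for example define naturals `N 1 = 2`, `N (j + 1) = 4 * (G + 1) * (2 * N j) ^ (n + 1)` (so `1 / N j` is the threshold `η_j`),
`c₁ = 4 * (G + 1) * (2 * N (d₀ + 1)) ^ (n + 1)` (or anything larger), `K = (G + 1) * (2 * N d₀) ^ (n + 1)` (`N` is monotone). Let `p j = #{x ∈ F | j ≤ τ x}`.
`p 1 = #F ≥ #U / 2`, that is `#U ≤ N 1 * p 1`, and `p (d₀ + 1) = 0`. `d₀ = 0` is impossible (then `F = ∅` and `c₁ #U ≤ #U` with `c₁ ≥ 2`). Let `d` be the largest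
`j ∈ [1, d₀]` with `#U ≤ N j * p j`. Then `N (d + 1) * p (d + 1) < #U` (if `d = d₀` because `p (d₀+1) = 0`). `#{x ∈ F | τ x = d} = p d - p (d + 1)`, and
`2 N d * (p d - p (d+1)) ≥ 2 #U - #U = #U` because `2 N d p (d+1) ≤ N (d+1) p (d+1) < #U`. So with `A = #{x ∈ F | τ x = d}`: `#U ≤ 2 N d A`, `#U ^ (n+1) ≤ (2 N d) ^ (n+1) A ^ (n+1)`:
second claim. First claim: `#{x ∈ U | x ∉ F ∨ d < τ x} ≤ #(U \ F) + p (d + 1)`, and `4 (G+1) (2 N d)^(n+1) * (each of both) ≤ #U` (resp. `<`), so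
`G * (both) * #U ^ n * (2 N d)^(n+1) < #U ^ (n+1) ≤ (2 N d)^(n+1) A^(n+1)`; cancel.
-/

set_option autoImplicit false

open Finset

namespace Pool.Agent.DCA

/-- The thresholds. -/
private def CChoose_M (G n : ℕ) : ℕ → ℕ
  | 0 => 2
  | j + 1 => 4 * (G + 1) * (2 * CChoose_M G n j) ^ (n + 1)

private theorem CChoose_pos (G n : ℕ) (i : ℕ) : 0 < CChoose_M G n i := by
  induction i with
  | zero => simp [CChoose_M]
  | succ i ih => simp only [CChoose_M]; positivity

private theorem CChoose_succ (G n : ℕ) (i : ℕ) :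
    2 * CChoose_M G n i ≤ CChoose_M G n (i + 1) := by
  simp only [CChoose_M]
  have h0 : 1 ≤ 2 * CChoose_M G n i := by have := CChoose_pos G n i; omega
  have h1 : 2 * CChoose_M G n i ≤ (2 * CChoose_M G n i) ^ (n + 1) := by
    calc 2 * CChoose_M G n i = (2 * CChoose_M G n i) ^ 1 := (pow_one _).symm
      _ ≤ _ := Nat.pow_le_pow_right h0 (by omega)
  have h2 : 1 ≤ 4 * (G + 1) := by omega
  calc 2 * CChoose_M G n i ≤ (2 * CChoose_M G n i) ^ (n + 1) := h1
    _ = 1 * (2 * CChoose_M G n i) ^ (n + 1) := (one_mul _).symm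
    _ ≤ _ := Nat.mul_le_mul_right _ h2

private theorem CChoose_mono (G n : ℕ) : Monotone (CChoose_M G n) := by
  refine monotone_nat_of_le_succ fun i => ?_
  have := CChoose_succ G n i
  omega

open Classical in
theorem choose_d (n d₀ G : ℕ) : ∃ K c₁ : ℕ, ∀ (U F : Finset ℕ) (τ : ℕ → ℕ), F ⊆ U →
    U.Nonempty → (∀ x ∈ F, 1 ≤ τ x ∧ τ x ≤ d₀) → c₁ * #(U \ F) ≤ #U →
    ∃ d, 1 ≤ d ∧ d ≤ d₀ ∧
      G * (#{x ∈ U | x ∉ F ∨ d < τ x} * #U ^ n) < #{x ∈ F | τ x = d} ^ (n + 1) ∧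
      G * #U ^ (n + 1) ≤ K * #{x ∈ F | τ x = d} ^ (n + 1) := by
  set M := CChoose_M G n with hM
  refine ⟨(G + 1) * (2 * M d₀) ^ (n + 1), 4 * (G + 1) * (2 * M d₀) ^ (n + 1), ?_⟩
  intro U F τ hFU hU hτ hc
  have hUpos : 0 < #U := hU.card_pos
  set p : ℕ → ℕ := fun j => #{x ∈ F | j ≤ τ x} with hp
  have hMpos : ∀ i, 0 < M i := CChoose_pos G n
  have hMS : ∀ i, M (i + 1) = 4 * (G + 1) * (2 * M i) ^ (n + 1) := fun i => by
    rw [hM]; simp only [CChoose_M]
  have hc2 : 2 * #(U \ F) ≤ #U := by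
    refine le_trans (Nat.mul_le_mul_right _ ?_) hc
    have h1 : 1 ≤ (2 * M d₀) ^ (n + 1) := Nat.one_le_pow _ _ (by have := hMpos d₀; omega)
    calc 2 ≤ 4 * (G + 1) * 1 := by omega
      _ ≤ _ := Nat.mul_le_mul_left _ h1
  have hsd : #(U \ F) + #F = #U := Finset.card_sdiff_add_card_eq_card hFU
  have hp1 : p 1 = #F := by
    rw [hp]
    simp only
    rw [Finset.filter_true_of_mem fun x hx => (hτ x hx).1]
  have hpd : p (d₀ + 1) = 0 := by
    rw [hp]
    simp only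
    rw [Finset.card_eq_zero, Finset.filter_eq_empty_iff]
    intro x hx
    have := (hτ x hx).2
    omega
  have hP0 : #U ≤ M 0 * p 1 := by
    have : M 0 = 2 := by rw [hM]; simp [CChoose_M]
    rw [this, hp1]; omega
  have hex : ∃ i, i < d₀ ∧ #U ≤ M i * p (i + 1) ∧ ¬ #U ≤ M (i + 1) * p (i + 1 + 1) := by
    by_contra hcon
    push Not at hcon
    have hall : ∀ i, i ≤ d₀ → #U ≤ M i * p (i + 1) := by
      intro i
      induction i with
      | zero => intro _; exact hP0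
      | succ i ih => intro hi; exact hcon i (by omega) (ih (by omega))
    have := hall d₀ le_rfl
    rw [hpd] at this
    omega
  obtain ⟨i, hi, hPi, hPi1⟩ := hex
  push Not at hPi1
  refine ⟨i + 1, by omega, by omega, ?_⟩
  set A := #{x ∈ F | τ x = i + 1} with hA
  have hsplit : p (i + 1) = A + p (i + 1 + 1) := by
    rw [hp, hA]
    simp only
    rw [← Finset.card_union_of_disjoint]
    · congr 1
      ext x
      simp only [Finset.mem_filter, Finset.mem_union]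
      constructor
      · rintro ⟨h1, h2⟩
        by_cases h3 : τ x = i + 1
        · exact Or.inl ⟨h1, h3⟩
        · exact Or.inr ⟨h1, by omega⟩
      · rintro (⟨h1, h2⟩ | ⟨h1, h2⟩)
        · exact ⟨h1, by omega⟩
        · exact ⟨h1, by omega⟩
    · rw [Finset.disjoint_left]
      intro x hx hx'
      rw [Finset.mem_filter] at hx hx'
      omega
  have hq : 2 * M i * p (i + 1 + 1) < #U :=
    lt_of_le_of_lt (Nat.mul_le_mul_right _ (CChoose_succ G n i)) hPi1
  have hA1 : #U ≤ 2 * M i * A := by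
    have h1 : 2 * M i * p (i + 1) = 2 * M i * A + 2 * M i * p (i + 1 + 1) := by
      rw [hsplit]; ring
    have h2 : 2 * #U ≤ 2 * M i * p (i + 1) := by
      calc 2 * #U ≤ 2 * (M i * p (i + 1)) := Nat.mul_le_mul_left _ hPi
        _ = _ := by ring
    omega
  have hA2 : #U ^ (n + 1) ≤ (2 * M i) ^ (n + 1) * A ^ (n + 1) := by
    rw [← mul_pow]
    exact Nat.pow_le_pow_left hA1 _
  have hMi : (2 * M i) ^ (n + 1) ≤ (2 * M d₀) ^ (n + 1) := by
    refine Nat.pow_le_pow_left ?_ _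
    have := CChoose_mono G n (le_of_lt hi)
    exact Nat.mul_le_mul_left _ this
  have hpos : 0 < (2 * M i) ^ (n + 1) := Nat.pow_pos (by have := hMpos i; omega)
  constructor
  · set B := #{x ∈ U | x ∉ F ∨ i + 1 < τ x} with hB
    have hBle : B ≤ #(U \ F) + p (i + 1 + 1) := by
      refine le_trans (Finset.card_le_card ?_) (Finset.card_union_le _ _)
      intro x hx
      rw [Finset.mem_filter] at hx
      rw [Finset.mem_union, Finset.mem_sdiff, Finset.mem_filter]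
      by_cases hxF : x ∈ F
      · right
        refine ⟨hxF, ?_⟩
        rcases hx.2 with h | h
        · exact absurd hxF h
        · omega
      · left
        exact ⟨hx.1, hxF⟩
    have h1 : 4 * (G + 1) * (2 * M i) ^ (n + 1) * #(U \ F) ≤ #U :=
      le_trans (Nat.mul_le_mul_right _ (Nat.mul_le_mul_left _ hMi)) hc
    have h2 : 4 * (G + 1) * (2 * M i) ^ (n + 1) * p (i + 1 + 1) < #U := by
      rw [← hMS]; exact hPi1
    have h3 : 4 * (G + 1) * (2 * M i) ^ (n + 1) * B < 2 * #U := by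
      have h31 := Nat.mul_le_mul_left (4 * (G + 1) * (2 * M i) ^ (n + 1)) hBle
      have h32 : 4 * (G + 1) * (2 * M i) ^ (n + 1) * (#(U \ F) + p (i + 1 + 1)) =
          4 * (G + 1) * (2 * M i) ^ (n + 1) * #(U \ F) +
            4 * (G + 1) * (2 * M i) ^ (n + 1) * p (i + 1 + 1) := mul_add _ _ _
      omega
    have h4 : (G + 1) * (2 * M i) ^ (n + 1) * B < #U := by
      have h5 : 4 * (G + 1) * (2 * M i) ^ (n + 1) * B = 4 * ((G + 1) * (2 * M i) ^ (n + 1) * B) := by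
        ring
      omega
    have h6 : (2 * M i) ^ (n + 1) * (G * (B * #U ^ n)) < (2 * M i) ^ (n + 1) * A ^ (n + 1) := by
      calc (2 * M i) ^ (n + 1) * (G * (B * #U ^ n))
          ≤ (2 * M i) ^ (n + 1) * ((G + 1) * (B * #U ^ n)) :=
            Nat.mul_le_mul_left _ (Nat.mul_le_mul_right _ (by omega))
        _ = (G + 1) * (2 * M i) ^ (n + 1) * B * #U ^ n := by ring
        _ < #U * #U ^ n := Nat.mul_lt_mul_of_pos_right h4 (Nat.pow_pos hUpos)
        _ = #U ^ (n + 1) := by ring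
        _ ≤ _ := hA2
    exact Nat.lt_of_mul_lt_mul_left h6
  · calc G * #U ^ (n + 1) ≤ G * ((2 * M i) ^ (n + 1) * A ^ (n + 1)) := Nat.mul_le_mul_left _ hA2
      _ ≤ (G + 1) * ((2 * M d₀) ^ (n + 1) * A ^ (n + 1)) :=
        Nat.mul_le_mul (by omega) (Nat.mul_le_mul_right _ hMi)
      _ = _ := by ring

end Pool.Agent.DCA
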