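import Pool.Agent.Lib.DCA.COmB

/-!
# The block determines the point

PROOF. `aux` (asymmetric part): let `x, x'` be reachable, `bet Q (x s) = bet Q (x' t)`, and let `q` (`1 ≤ q ≤ B`) satisfy `q ∈ L (x s)`,
`θ (q - 1) ≤ 2 |x s - x' t|`, `|x s - x' t| ≤ θ (q + 1)`. Contradiction: `Y = SZ x - x s`, the tuple `z = (x' (t.succAbove i))_i : Fin n → ℕ` is separated
(`Sepd_succAbove`), `SZ z = SZ x' - x' t` (`SZ_succAbove`). `Y - SZ z = (SZ x - SZ x') - (x s - x' t)`, `|SZ x - SZ x'| ≤ tol` (`drift` twice), so `θ (q - 1) ≤ 2 |Y - SZ z| + 2 tol` and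
`|Y - SZ z| ≤ θ (q + 1) + tol`. By `Good` (third part) for `x`: `q ∉ Rst n tol Y`. So `z` has a `T`-level near `q`: there are `u ≠ t` (`u = t.succAbove i`) and `a ∈ T (x' u)`,
`a ≤ q + 2`, `q ≤ a + 2`. By `omega_b` for `x'`: `e ∈ bet Q (x' u)` with `|a - Q e| ≤ 2`; `e ∉ bet Q (x' t) = bet Q (x s)` by disjointness. By `hit` for `x`: `e ∈ bet Q (x v)` for some `v`, and
`v ≠ s`. So there is `a' ∈ T (x v) ⊆ L (x v)` with `|a' - Q e| ≤ 2`; `|a' - q| ≤ 6`. This contradicts `Sepd x` (`q ∈ L (x s)`, `a' ∈ L (x v)`, `s ≠ v`).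
`omega_c`: if `x s ≠ x' t` take `J` from `exists_sep` (`x s, x' t ∈ F`), `J ∈ L (x s)` or `J ∈ L (x' t)`: apply `aux` to `(x, x')` or `(x', x)`.
-/

set_option autoImplicit false

open Finset

namespace Pool.Agent.DCA

variable {p B d₀ lam h₂ D₁ c : ℕ}

private theorem COmC_aux (W : Tower p B d₀ lam h₂ D₁ c) {n d tol : ℕ} {x₀ : Fin (n + 1) → ℕ}
    {Q : Fin (n + 1) → Fin d → ℕ} (h : W.Typ n d tol x₀ Q) (x x' : Fin (n + 1) → ℕ)
    (hx : Reach W.E univ x₀ x) (hx' : Reach W.E univ x₀ x') (s t : Fin (n + 1))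
    (hst : W.bet Q (x s) = W.bet Q (x' t)) (q : ℕ) (hq1 : 1 ≤ q) (hqB : q ≤ B)
    (hqL : q ∈ W.L (x s)) (h1 : (W.θ (q - 1) : ℤ) ≤ 2 * |(x s : ℤ) - x' t|)
    (h2 : |(x s : ℤ) - x' t| ≤ W.θ (q + 1)) : False := by
  classical
  have hnot := (h.good x hx).2.2.1 s q hqL
  have hz : W.Sepd (fun i => x' (t.succAbove i)) := W.Sepd_succAbove (h.good x' hx').2.1 t
  have hS := SZ_succAbove x' t
  have d1 := h.drift x hx
  have d2 := h.drift x' hx'
  have hc1 : (W.θ (q - 1) : ℤ) ≤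
      2 * |SZ x - x s - SZ (fun i => x' (t.succAbove i))| + 2 * tol := by
    rw [hS]
    rcases abs_cases ((x s : ℤ) - x' t) with ha | ha <;>
      rcases abs_cases (SZ x - (x s : ℤ) - (SZ x' - x' t)) with hb | hb <;>
      rcases abs_cases (SZ x₀ - SZ x) with hd | hd <;>
      rcases abs_cases (SZ x₀ - SZ x') with he | he <;> linarith
  have hc2 : |SZ x - x s - SZ (fun i => x' (t.succAbove i))| ≤ W.θ (q + 1) + tol := by
    rw [hS]
    rcases abs_cases ((x s : ℤ) - x' t) with ha | ha <;>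
      rcases abs_cases (SZ x - (x s : ℤ) - (SZ x' - x' t)) with hb | hb <;>
      rcases abs_cases (SZ x₀ - SZ x) with hd | hd <;>
      rcases abs_cases (SZ x₀ - SZ x') with he | he <;> linarith
  have hex : ¬ ∀ i : Fin n, ∀ a ∈ W.T (x' (t.succAbove i)), a + 2 < q ∨ q + 2 < a := by
    intro hall
    apply hnot
    unfold Tower.Rst
    rw [mem_filter]
    exact ⟨mem_Icc.2 ⟨hq1, hqB⟩, _, hz, hall, hc1, hc2⟩
  push Not at hex
  obtain ⟨i, a, ha, haq1, haq2⟩ := hex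
  obtain ⟨-, hdis, hcov⟩ := W.omega_b h x' hx'
  obtain ⟨e, he, he1, he2⟩ := hcov _ a ha
  have hne : e ∉ W.bet Q (x s) := by
    rw [hst]
    exact Finset.disjoint_left.1 (hdis _ t (Fin.succAbove_ne t i)) he
  obtain ⟨v, hv⟩ := W.hit h x hx e
  have hvs : s ≠ v := by
    rintro rfl
    exact hne hv
  unfold Tower.bet at hv
  rw [mem_filter] at hv
  obtain ⟨-, a', ha', ha1, ha2⟩ := hv
  have h5 := (h.good x hx).2.1.2 s v hvs q hqL a' (mem_union_left _ (W.T_sub _ ha'))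
  omega

theorem Tower.omega_c (W : Tower p B d₀ lam h₂ D₁ c) {n d tol : ℕ} {x₀ : Fin (n + 1) → ℕ}
    {Q : Fin (n + 1) → Fin d → ℕ} (h : W.Typ n d tol x₀ Q) (x x' : Fin (n + 1) → ℕ)
    (hx : Reach W.E univ x₀ x) (hx' : Reach W.E univ x₀ x') (s t : Fin (n + 1))
    (hst : W.bet Q (x s) = W.bet Q (x' t)) : x s = x' t := by
  by_contra hne
  have hF : x s ∈ W.F := (h.good x hx).2.1.1 s
  have hF' : x' t ∈ W.F := (h.good x' hx').2.1.1 t
  obtain ⟨J, hJ1, hJB, -, -, hJL, h1, h2⟩ := W.exists_sep hF (W.F_sub hF') hne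
  rcases hJL with hJL | hJL
  · exact COmC_aux W h x x' hx hx' s t hst J hJ1 hJB hJL h1 h2
  · refine COmC_aux W h x' x hx' hx t s hst.symm J hJ1 hJB hJL ?_ ?_
    · rw [abs_sub_comm]
      exact h1
    · rw [abs_sub_comm]
      exact h2

end Pool.Agent.DCA
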