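import Mathlib

/-!
# Typical elements: no bad element can be reached

Let `R' a b := Good a ∧ R a b` and `GR = ReflTransGen R'`.
`short_path`. PROOF. For `x` and `k` let `b k` be the set of all `y` reachable from `x` by at most `k` steps of `R'` (define
`b : ℕ → Set α` recursively: `b 0 = {x}`, `b (k+1) = b k ∪ {y | ∃ z ∈ b k, R' z y}`); elements of `b k` satisfy `|σ x - σ y| ≤ k D₁` (triangle inequality, `hR`).
The good elements `g k` of `b k`, `k ≤ C₁ + 1`, are pairwise within `2 (C₁ + 1) D₁`, so (any finite subset has at most `C₁` elements) `g k` is finite with at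
most `C₁` elements. `g 0 ⊆ g 1 ⊆ …`: if `x` is good, `#g 0 = 1`, so the sizes cannot increase strictly `C₁` times: `g (k+1) = g k` for some `k ≤ C₁ - 1` (`C₁ ≥ 1` as `{x}` is admissible in `hC`). Then every
element reachable through good elements is in `b (k + 1)`: by induction on the path, its predecessor is a good element of `b (k+1)`, so in `g (k+1) = g k ⊆ b k`. If `x` is not good
then only `x` is reachable by `R'`.
(b) for each `y`, all good `x` with `GR x y` are within `(C₁ + 1) D₁` of `y`, so at most `C₁` of them (any finset).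
`reach_typical`. PROOF. Suppose for every `x ∈ A` some `y` with `ReflTransGen R x y` is not good or not in `Ω`. Take a shortest such path, or: if all elements `y` with `GR x y` are good then by
induction `ReflTransGen R x y → GR x y` and also `y ∈ Ω` (`hΩ`). So for every `x ∈ A` there is a bad `y` with `GR x y` (first bad element on the path; `y ∈ Ω` by induction along the path, as all previous elements are
good and in `Ω`). For a given bad `y ∈ Ω` there are at most `C₁` good `x` and at most one bad `x` (`x = y`, as `R'` needs `x` good) with `GR x y`. So `#A ≤ (1 + C₁) #{x ∈ Ω | ¬ Good x}`,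
contradiction. The last claim is `short_path`.
-/

set_option autoImplicit false

open Finset

namespace Pool.Agent.DCA

private theorem creach_fun {α : Type} (S : α → α → Prop) (x y : α)
    (h : Relation.ReflTransGen S x y) :
    ∃ k : ℕ, ∃ f : ℕ → α, f 0 = x ∧ f k = y ∧ ∀ i < k, S (f i) (f (i + 1)) := by
  classical
  induction h with
  | refl => exact ⟨0, fun _ => x, rfl, rfl, fun i hi => absurd hi (Nat.not_lt_zero i)⟩
  | @tail b c _ hbc ih =>
    obtain ⟨k, f, f0, fk, hf⟩ := ih
    refine ⟨k + 1, fun i => if i ≤ k then f i else c, ?_, ?_, ?_⟩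
    · simp [f0]
    · simp
    · intro i hi
      have h1 : i ≤ k := by omega
      by_cases h2 : i + 1 ≤ k
      · simp only [h1, h2, if_true]
        exact hf i (by omega)
      · have h3 : i = k := by omega
        subst h3
        simp only [le_refl, if_true, h2, if_false]
        rw [fk]
        exact hbc

theorem short_path {α : Type} (R : α → α → Prop) (Good : α → Prop) (σ : α → ℤ) (D₁ C₁ : ℕ)
    (hR : ∀ x y, Good x → R x y → |σ x - σ y| ≤ D₁)
    (hC : ∀ Z : Finset α, (∀ z ∈ Z, Good z) →
      (∀ z ∈ Z, ∀ z' ∈ Z, |σ z - σ z'| ≤ 2 * (((C₁ : ℤ) + 1) * D₁)) → #Z ≤ C₁)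
    (x y : α) (hxy : Relation.ReflTransGen (fun a b => Good a ∧ R a b) x y) :
    |σ x - σ y| ≤ ((C₁ : ℤ) + 1) * D₁ := by
  classical
  have hex := creach_fun _ x y hxy
  obtain ⟨f, f0, fk, hf⟩ := Nat.find_spec hex
  have hmin := fun (m : ℕ) (hm : m < Nat.find hex) => Nat.find_min hex hm
  generalize Nat.find hex = k at f0 fk hf hmin
  have hinj : ∀ i j, i < j → j < k → f i ≠ f j := by
    intro i j hij hjk heq
    apply hmin (k - (j - i)) (by omega)
    refine ⟨fun m => if m ≤ i then f m else f (m + (j - i)), ?_, ?_, ?_⟩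
    · simp [f0]
    · have h1 : ¬ (k - (j - i) ≤ i) := by omega
      simp only [h1, if_false]
      rw [show k - (j - i) + (j - i) = k by omega]
      exact fk
    · intro m hm
      by_cases h1 : m + 1 ≤ i
      · have h2 : m ≤ i := by omega
        simp only [h1, h2, if_true]
        exact hf m (by omega)
      · by_cases h2 : m ≤ i
        · have h3 : m = i := by omega
          subst h3
          simp only [le_refl, if_true, h1, if_false]
          rw [heq, show m + 1 + (j - m) = j + 1 by omega]
          exact hf j hjk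
        · simp only [h1, h2, if_false]
          rw [show m + 1 + (j - i) = m + (j - i) + 1 by omega]
          exact hf _ (by omega)
  have hdist : ∀ i ≤ k, |σ x - σ (f i)| ≤ (i : ℤ) * D₁ := by
    intro i
    induction i with
    | zero => intro _; simp [f0]
    | succ i ih =>
      intro hi
      have h1 := ih (by omega)
      have h2 := hf i (by omega)
      have h3 := hR (f i) (f (i + 1)) h2.1 h2.2
      have h4 : |σ x - σ (f (i + 1))| ≤ |σ x - σ (f i)| + |σ (f i) - σ (f (i + 1))| :=
        abs_sub_le _ _ _
      push_cast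
      linarith
  have hD : (0 : ℤ) ≤ D₁ := Int.natCast_nonneg _
  have hkC : k ≤ C₁ := by
    by_contra hcon
    have hZ := hC ((Finset.range (C₁ + 1)).image f) ?_ ?_
    · rw [Finset.card_image_of_injOn, Finset.card_range] at hZ
      · omega
      · intro i hi j hj hij
        simp only [Finset.coe_range, Set.mem_Iio] at hi hj
        rcases lt_trichotomy i j with h | h | h
        · exact absurd hij (hinj i j h (by omega))
        · exact h
        · exact absurd hij.symm (hinj j i h (by omega))
    · intro z hz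
      obtain ⟨i, hi, rfl⟩ := Finset.mem_image.1 hz
      rw [Finset.mem_range] at hi
      exact (hf i (by omega)).1
    · intro z hz z' hz'
      obtain ⟨i, hi, rfl⟩ := Finset.mem_image.1 hz
      obtain ⟨j, hj, rfl⟩ := Finset.mem_image.1 hz'
      rw [Finset.mem_range] at hi hj
      have h1 := hdist i (by omega)
      have h2 := hdist j (by omega)
      have h3 : |σ (f i) - σ (f j)| ≤ |σ (f i) - σ x| + |σ x - σ (f j)| := abs_sub_le _ _ _
      rw [abs_sub_comm (σ (f i)) (σ x)] at h3
      have h4 : (i : ℤ) * D₁ ≤ ((C₁ : ℤ) + 1) * D₁ :=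
        mul_le_mul_of_nonneg_right (by exact_mod_cast (by omega : i ≤ C₁ + 1)) hD
      have h5 : (j : ℤ) * D₁ ≤ ((C₁ : ℤ) + 1) * D₁ :=
        mul_le_mul_of_nonneg_right (by exact_mod_cast (by omega : j ≤ C₁ + 1)) hD
      linarith
  have h1 := hdist k le_rfl
  rw [fk] at h1
  have h2 : (k : ℤ) * D₁ ≤ ((C₁ : ℤ) + 1) * D₁ :=
    mul_le_mul_of_nonneg_right (by exact_mod_cast (by omega : k ≤ C₁ + 1)) hD
  linarith

open Classical in
theorem reach_typical {α : Type} (R : α → α → Prop) (Good : α → Prop) (σ : α → ℤ)
    (D₁ C₁ : ℕ) (hR : ∀ x y, Good x → R x y → |σ x - σ y| ≤ D₁)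
    (hC : ∀ Z : Finset α, (∀ z ∈ Z, Good z) →
      (∀ z ∈ Z, ∀ z' ∈ Z, |σ z - σ z'| ≤ 2 * (((C₁ : ℤ) + 1) * D₁)) → #Z ≤ C₁)
    (Ω A : Finset α) (hA : A ⊆ Ω) (hΩ : ∀ x ∈ Ω, Good x → ∀ y, R x y → y ∈ Ω)
    (hcard : (1 + C₁) * #{x ∈ Ω | ¬ Good x} < #A) :
    ∃ x ∈ A, ∀ y, Relation.ReflTransGen R x y →
      Good y ∧ |σ x - σ y| ≤ ((C₁ : ℤ) + 1) * D₁ := by
  by_contra hcon
  have hbad : ∀ x ∈ A, ∃ y, y ∈ Ω ∧ ¬ Good y ∧
      Relation.ReflTransGen (fun a b => Good a ∧ R a b) x y := by
    intro x hx
    by_contra hno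
    have hgood : ∀ y ∈ Ω, Relation.ReflTransGen (fun a b => Good a ∧ R a b) x y → Good y := by
      intro y hy hxy
      by_contra hb
      exact hno ⟨y, hy, hb, hxy⟩
    have hall : ∀ y, Relation.ReflTransGen R x y →
        Relation.ReflTransGen (fun a b => Good a ∧ R a b) x y ∧ y ∈ Ω := by
      intro y hy
      induction hy with
      | refl => exact ⟨Relation.ReflTransGen.refl, hA hx⟩
      | @tail b c _ hbc ih =>
        have hb := hgood b ih.2 ih.1
        exact ⟨ih.1.tail ⟨hb, hbc⟩, hΩ b ih.2 hb c hbc⟩
    exact hcon ⟨x, hx, fun y hy => ⟨hgood y (hall y hy).2 (hall y hy).1,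
      short_path R Good σ D₁ C₁ hR hC x y (hall y hy).1⟩⟩
  choose! f hf using hbad
  have hle : #A ≤ (1 + C₁) * #{x ∈ Ω | ¬ Good x} := by
    apply Finset.card_le_mul_card_image_of_maps_to (f := f)
    · intro x hx
      exact Finset.mem_filter.2 ⟨(hf x hx).1, (hf x hx).2.1⟩
    · intro y _
      have h1 : #{x ∈ {a ∈ A | f a = y} | Good x} ≤ C₁ := by
        apply hC
        · intro z hz
          exact (Finset.mem_filter.1 hz).2
        · intro z hz z' hz'
          simp only [Finset.mem_filter] at hz hz'
          have e1 := short_path R Good σ D₁ C₁ hR hC z (f z) (hf z hz.1.1).2.2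
          have e2 := short_path R Good σ D₁ C₁ hR hC z' (f z') (hf z' hz'.1.1).2.2
          rw [hz.1.2] at e1
          rw [hz'.1.2] at e2
          have e3 : |σ z - σ z'| ≤ |σ z - σ y| + |σ y - σ z'| := abs_sub_le _ _ _
          rw [abs_sub_comm (σ y) (σ z')] at e3
          linarith
      have h2 : #{x ∈ {a ∈ A | f a = y} | ¬ Good x} ≤ 1 := by
        have hsub : ({x ∈ {a ∈ A | f a = y} | ¬ Good x} : Finset α) ⊆ {y} := by
          intro z hz
          simp only [Finset.mem_filter] at hz
          rw [Finset.mem_singleton]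
          have e1 := (hf z hz.1.1).2.2
          rw [hz.1.2] at e1
          rcases Relation.ReflTransGen.cases_head e1 with h | ⟨c, hc, _⟩
          · exact h
          · exact absurd hc.1 hz.2
        exact (Finset.card_le_card hsub).trans (by simp)
      have h3 := Finset.card_filter_add_card_filter_not (s := ({a ∈ A | f a = y} : Finset α)) (fun x => Good x)
      omega
  omega

end Pool.Agent.DCA
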