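import Mathlib

/-!
# Kraft type inequality

PROOF. For `k : Fin M` let `G k` be the finset of all `f : Fin (B + 2) → Fin n` with `f j = s` for all `s`, all
`a ∈ T k s` and all `j` with `a ≤ j + 1`, `j ≤ a + 1` (three consecutive positions, all in `[0, B + 1]`). `G k` is the `Fintype.piFinset` of
`C j = {s}` if `j` is constrained by `s` and `C j = univ` otherwise; the constraints are compatible by `hsep` (if `j` is
constrained by `s` via `a` and by `t` via `b` then `a ≤ b + 2 ∧ b ≤ a + 2`, so `s = t`). At most `3 * D` positions are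
constrained, so `n ^ (B + 2) ≤ #(G k) * n ^ (3 * D)` (`∏ j, #(C j)` with `#(C j) = 1` on at most `3 D` positions, `n` on the others).
If `i < k` and `f ∈ G i ∩ G k` then there are no `s ≠ t`, `a ∈ T i s`, `b ∈ T k t` with `a ≤ b + 2 ∧ b ≤ a + 2` (there would be a
common position `j` constrained by `s` and by `t`: `j = max a b - 1` works, or `j = a` if `a = b`, ...). So for every `f` the
set `I f = {k | f ∈ G k}` has at most `1 + Δ` elements: let `k` be its maximum, all other elements are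
among the at most `Δ` indices of `hΔ k`. Double counting:
`M * n ^ (B + 2) ≤ (∑ k, #(G k)) * n ^ (3 * D) = (∑ f, #(I f)) * n ^ (3 * D) ≤ n ^ (B + 2) * (1 + Δ) * n ^ (3 * D)`; cancel `n ^ (B + 2) > 0`.
-/

set_option autoImplicit false

open Finset

namespace Pool.Agent.DCA

private theorem CKraft_three (B a : ℕ) :
    #{j : Fin (B + 2) | a ≤ (j : ℕ) + 1 ∧ (j : ℕ) ≤ a + 1} ≤ 3 := by
  have h1 : #{j : Fin (B + 2) | a ≤ (j : ℕ) + 1 ∧ (j : ℕ) ≤ a + 1} ≤ #(Icc (a - 1) (a + 1)) := by
    apply card_le_card_of_injOn (fun j : Fin (B + 2) => (j : ℕ))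
    · intro j hj
      have hj' := (mem_filter.1 (mem_coe.1 hj)).2
      have h2 : (j : ℕ) ∈ Icc (a - 1) (a + 1) := mem_Icc.2 ⟨by omega, by omega⟩
      exact mem_coe.2 h2
    · intro j _ j' _ h
      exact Fin.ext h
  rw [Nat.card_Icc] at h1
  omega

theorem kraft (n B D Δ M : ℕ) (hn : 1 ≤ n) (T : Fin M → Fin n → Finset ℕ)
    (hB : ∀ k s, ∀ a ∈ T k s, 1 ≤ a ∧ a ≤ B) (hD : ∀ k, ∑ s, #(T k s) ≤ D)
    (hsep : ∀ k s t, s ≠ t → ∀ a ∈ T k s, ∀ b ∈ T k t, a + 2 < b ∨ b + 2 < a)
    (I : Fin M → Finset (Fin M)) (hI : ∀ k, #(I k) ≤ Δ)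
    (hΔ : ∀ i k, i < k → i ∉ I k →
      ∃ s t, s ≠ t ∧ ∃ a ∈ T i s, ∃ b ∈ T k t, a ≤ b + 2 ∧ b ≤ a + 2) :
    M ≤ (1 + Δ) * n ^ (3 * D) := by
  classical
  let con : Fin M → Fin n → Fin (B + 2) → Prop := fun k s j =>
    ∃ a ∈ T k s, a ≤ (j : ℕ) + 1 ∧ (j : ℕ) ≤ a + 1
  have hcon : ∀ k s t j, con k s j → con k t j → s = t := by
    rintro k s t j ⟨a, ha, ha1, ha2⟩ ⟨b, hb, hb1, hb2⟩
    by_contra hst
    rcases hsep k s t hst a ha b hb with h | h <;> omega
  let C : Fin M → Fin (B + 2) → Finset (Fin n) := fun k j =>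
    if h : ∃ s, con k s j then {h.choose} else univ
  let G : Fin M → Finset (Fin (B + 2) → Fin n) := fun k => Fintype.piFinset (C k)
  have hG : ∀ k f, f ∈ G k → ∀ s j, con k s j → f j = s := by
    intro k f hf s j hs
    have h1 := Fintype.mem_piFinset.1 hf j
    have h2 : ∃ s, con k s j := ⟨s, hs⟩
    have h3 : C k j = {h2.choose} := dif_pos h2
    rw [h3, mem_singleton] at h1
    rw [h1]
    exact hcon k _ _ j h2.choose_spec hs
  -- number of constrained positions
  have hK : ∀ k, #{j : Fin (B + 2) | ∃ s, con k s j} ≤ 3 * D := by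
    intro k
    have h1 : ({j : Fin (B + 2) | ∃ s, con k s j} : Finset (Fin (B + 2))) ⊆
        univ.biUnion (fun s => (T k s).biUnion
          (fun a => {j : Fin (B + 2) | a ≤ (j : ℕ) + 1 ∧ (j : ℕ) ≤ a + 1})) := by
      intro j hj
      obtain ⟨s, a, ha, hja⟩ := (mem_filter.1 hj).2
      rw [mem_biUnion]
      refine ⟨s, mem_univ _, ?_⟩
      rw [mem_biUnion]
      exact ⟨a, ha, mem_filter.2 ⟨mem_univ _, hja⟩⟩
    calc #{j : Fin (B + 2) | ∃ s, con k s j}
        ≤ _ := card_le_card h1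
      _ ≤ ∑ s, #((T k s).biUnion
          (fun a => {j : Fin (B + 2) | a ≤ (j : ℕ) + 1 ∧ (j : ℕ) ≤ a + 1})) := card_biUnion_le
      _ ≤ ∑ s, #(T k s) * 3 := by
          apply sum_le_sum
          intro s _
          exact card_biUnion_le_card_mul _ _ _ (fun a _ => CKraft_three B a)
      _ = 3 * ∑ s, #(T k s) := by rw [← sum_mul, mul_comm]
      _ ≤ 3 * D := Nat.mul_le_mul_left _ (hD k)
  have hGc : ∀ k, n ^ (B + 2) ≤ #(G k) * n ^ (3 * D) := by
    intro k
    have h1 : #(G k) = ∏ j, (if ∃ s, con k s j then 1 else n) := by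
      rw [Fintype.card_piFinset]
      apply prod_congr rfl
      intro j _
      by_cases h : ∃ s, con k s j
      · rw [if_pos h, show C k j = {h.choose} from dif_pos h, card_singleton]
      · rw [if_neg h, show C k j = univ from dif_neg h, card_univ, Fintype.card_fin]
    rw [h1, prod_ite, prod_const_one, one_mul, prod_const]
    have h2 := card_filter_add_card_filter_not (s := (univ : Finset (Fin (B + 2))))
      (fun j => ∃ s, con k s j)
    rw [card_univ, Fintype.card_fin] at h2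
    calc n ^ (B + 2) = n ^ (#{j : Fin (B + 2) | ∃ s, con k s j} +
          #{j : Fin (B + 2) | ¬ ∃ s, con k s j}) := by rw [h2]
      _ = n ^ #{j : Fin (B + 2) | ¬ ∃ s, con k s j} *
          n ^ #{j : Fin (B + 2) | ∃ s, con k s j} := by rw [pow_add, mul_comm]
      _ ≤ _ := Nat.mul_le_mul_left _ (Nat.pow_le_pow_right hn (hK k))
  have hint : ∀ i k, i < k → ∀ f, f ∈ G i → f ∈ G k → i ∈ I k := by
    intro i k hik f hfi hfk
    by_contra hcI
    obtain ⟨s, t, hst, a, ha, b, hb, hab, hba⟩ := hΔ i k hik hcI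
    have ha' := hB i s a ha
    have hb' := hB k t b hb
    have hj : (a + b) / 2 < B + 2 := by omega
    have h1 := hG i f hfi s ⟨(a + b) / 2, hj⟩ ⟨a, ha, by simp only; omega, by simp only; omega⟩
    have h2 := hG k f hfk t ⟨(a + b) / 2, hj⟩ ⟨b, hb, by simp only; omega, by simp only; omega⟩
    exact hst (h1.symm.trans h2)
  have hS : ∀ f : Fin (B + 2) → Fin n, #{k : Fin M | f ∈ G k} ≤ 1 + Δ := by
    intro f
    rcases Finset.eq_empty_or_nonempty ({k : Fin M | f ∈ G k} : Finset (Fin M)) with h | h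
    · rw [h]
      simp
    · set k := ({k : Fin M | f ∈ G k} : Finset (Fin M)).max' h with hk
      have hkm : f ∈ G k := (mem_filter.1 (max'_mem _ h)).2
      have hsub : ({k : Fin M | f ∈ G k} : Finset (Fin M)) ⊆ insert k (I k) := by
        intro i hi
        rw [mem_insert]
        rcases eq_or_lt_of_le (le_max' _ i hi) with h1 | h1
        · left
          rw [hk]
          exact h1
        · right
          exact hint i k h1 f (mem_filter.1 hi).2 hkm
      calc #{k : Fin M | f ∈ G k} ≤ #(insert k (I k)) := card_le_card hsub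
        _ ≤ #(I k) + 1 := card_insert_le _ _
        _ ≤ 1 + Δ := by
            have := hI k
            omega
  have hdc : ∑ k, #(G k) = ∑ f : Fin (B + 2) → Fin n, #{k : Fin M | f ∈ G k} := by
    have h1 : ∀ k, #(G k) = ∑ f : Fin (B + 2) → Fin n, if f ∈ G k then 1 else 0 := by
      intro k
      rw [sum_boole]
      simp
    have h2 : ∀ f : Fin (B + 2) → Fin n, #{k : Fin M | f ∈ G k} =
        ∑ k, if f ∈ G k then 1 else 0 := by
      intro f
      rw [sum_boole]
      simp
    simp_rw [h2, h1]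
    exact sum_comm
  have hfin : M * n ^ (B + 2) ≤ ((1 + Δ) * n ^ (3 * D)) * n ^ (B + 2) := by
    calc M * n ^ (B + 2) = ∑ _k : Fin M, n ^ (B + 2) := by
          rw [sum_const, card_univ, Fintype.card_fin, smul_eq_mul]
      _ ≤ ∑ k, #(G k) * n ^ (3 * D) := sum_le_sum fun k _ => hGc k
      _ = (∑ f : Fin (B + 2) → Fin n, #{k : Fin M | f ∈ G k}) * n ^ (3 * D) := by
          rw [← sum_mul, hdc]
      _ ≤ (∑ _f : Fin (B + 2) → Fin n, (1 + Δ)) * n ^ (3 * D) :=
          Nat.mul_le_mul_right _ (sum_le_sum fun f _ => hS f)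
      _ = ((1 + Δ) * n ^ (3 * D)) * n ^ (B + 2) := by
          rw [sum_const, card_univ, Fintype.card_fun, Fintype.card_fin, Fintype.card_fin,
            smul_eq_mul]
          ring
  exact Nat.le_of_mul_le_mul_right hfin (pow_pos hn _)

end Pool.Agent.DCA
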