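import Pool.Agent.Lib.DCA.CPair
import Pool.Agent.Lib.DCA.CKraft

/-!
# Few separated tuples have nearly the same sum

PROOF. Let `M = #Z`, enumerate `Z` as `zz : Fin M → (Fin n → ℕ)` injective (`Z.equivFin.symm`). `kraft` with `B`, `D = n * d₀`, `Δ = 0`,
`T k s = W.T (zz k s)`, `I k = ∅`: `L_mem` and `T_sub`; `∑ s, #(T k s) ≤ n * d₀` by `T_card` (`zz k s ∈ F ⊆ U`); separation from
`Sepd`. For `i < k` the tuples are different, `pair` gives `Cross` or a level `J ≥ 1` with `θ 0 ≤ θ (J - 1) ≤ 4 |SZ - SZ'| ≤ 4 tol < θ 0`.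
-/

set_option autoImplicit false

open Finset

namespace Pool.Agent.DCA

variable {p B d₀ lam h₂ D₁ c : ℕ}

private theorem CSame_mono (W : Tower p B d₀ lam h₂ D₁ c) (hc : 1 ≤ c) : Monotone W.θ := by
  refine monotone_nat_of_le_succ fun q => ?_
  calc W.θ q = 1 * W.θ q := (one_mul _).symm
    _ ≤ c * W.θ q := Nat.mul_le_mul_right _ hc
    _ ≤ W.θ (q + 1) := W.θ_mul q

theorem Tower.same_sum (W : Tower p B d₀ lam h₂ D₁ c) {n : ℕ} (hn : 1 ≤ n)
    (hc : 8 * (n + 1) ≤ c) (tol : ℕ) (htol : 4 * tol < W.θ 0) (Z : Finset (Fin n → ℕ))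
    (hZ : ∀ z ∈ Z, W.Sepd z) (hZ2 : ∀ z ∈ Z, ∀ z' ∈ Z, |SZ z - SZ z'| ≤ tol) :
    #Z ≤ n ^ (3 * (n * d₀)) := by
  classical
  have hmem : ∀ k : Fin #Z, ((Z.equivFin.symm k : Z) : Fin n → ℕ) ∈ Z := fun k =>
    (Z.equivFin.symm k).2
  have hU : ∀ (k : Fin #Z) (s : Fin n), ((Z.equivFin.symm k : Z) : Fin n → ℕ) s ∈ W.U :=
    fun k s => W.F_sub ((hZ _ (hmem k)).1 s)
  have h := kraft n B (n * d₀) 0 #Z hn
    (fun k s => W.T (((Z.equivFin.symm k : Z) : Fin n → ℕ) s)) ?_ ?_ ?_ (fun _ => ∅) ?_ ?_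
  · simpa using h
  · intro k s a ha
    exact W.L_mem _ (hU k s) a (mem_sdiff.1 ha).1
  · intro k
    refine (sum_le_card_nsmul _ _ d₀ fun s _ => W.T_card _ (hU k s)).trans ?_
    rw [card_univ, Fintype.card_fin, smul_eq_mul]
  · intro k s t hst a ha b hb
    have h1 := (hZ _ (hmem k)).2 s t hst a (mem_sdiff.1 ha).1 b
      (mem_union_left _ (mem_sdiff.1 hb).1)
    omega
  · intro k
    simp
  · intro i k hik _
    have hne : ((Z.equivFin.symm i : Z) : Fin n → ℕ) ≠ ((Z.equivFin.symm k : Z) : Fin n → ℕ) := by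
      intro h1
      exact absurd (Z.equivFin.symm.injective (Subtype.ext h1)) hik.ne
    rcases W.pair hc _ _ (hZ _ (hmem i)) (hZ _ (hmem k)) hne with h1 | h1
    · exact h1
    · exfalso
      obtain ⟨s, J, hJ1, -, -, -, h2, -⟩ := h1
      have h3 := hZ2 _ (hmem i) _ (hmem k)
      have h4 : W.θ 0 ≤ W.θ (J - 1) := CSame_mono W (by omega) (Nat.zero_le _)
      have h5 : (W.θ 0 : ℤ) ≤ W.θ (J - 1) := by exact_mod_cast h4
      have h6 : (4 * tol : ℤ) < W.θ 0 := by exact_mod_cast htol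
      linarith

end Pool.Agent.DCA
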