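import Pool.Agent.Lib.DCA.EEnd
import Pool.Agent.Lib.DCA.COmC
import Pool.Agent.Lib.DCA.CBad
import Pool.Agent.Lib.DCA.CSame
import Pool.Agent.Lib.DCA.CChoose
import Pool.Agent.Lib.DCA.CReach

/-!
# There are no towers with a large constant
-/

set_option autoImplicit false

open Finset

namespace Pool.Agent.DCA

variable {p B d₀ lam h₂ D₁ c : ℕ}

/-- a typical tuple gives a play -/
def Tower.toPlay (W : Tower p B d₀ lam h₂ D₁ c) {n d tol : ℕ} {x₀ : Fin (n + 1) → ℕ}
    {Q : Fin (n + 1) → Fin d → ℕ} (h : W.Typ n d tol x₀ Q) : Play p (n + 1) d where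
  μ := W.μ
  β := W.bet Q
  E := W.E
  x₀ := x₀
  start := W.bet_start h
  card := fun x hx => (W.omega_b h x hx).1
  disj := fun x hx => (W.omega_b h x hx).2.1
  nz := fun x hx s => W.nz _ (W.F_sub ((h.good x hx).2.1.1 s))
  self := fun x hx s t _ => W.E_self _ ((h.good x hx).2.1.1 s) _ ((h.good x hx).2.1.1 t)
  zero := fun x hx s t _ => W.E_zero _ ((h.good x hx).2.1.1 s) _ ((h.good x hx).2.1.1 t)
  det := fun x y hx hy s t hst => W.omega_c h x y hx hy s t hst

theorem no_tower (p d₀ : ℕ) [Fact p.Prime] (hp : Nat.centralBinom d₀ < p) :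
    ∃ c : ℕ, 1 ≤ c ∧ ∀ B lam h₂ D₁ : ℕ, IsEmpty (Tower p B d₀ lam h₂ D₁ c) := by
  classical
  obtain ⟨n, hn, hend⟩ := endgame p d₀ hp
  set C₁ : ℕ := (n + 1) ^ (3 * ((n + 1) * d₀)) with hC₁
  have hC₁1 : 1 ≤ C₁ := Nat.one_le_pow _ _ (by omega)
  set G : ℕ := 2 * (1 + C₁) * (n + 1) with hG
  obtain ⟨K, c₁, hch⟩ := choose_d n d₀ G
  set K₂ : ℕ := 2 * K + 1 with hK₂
  refine ⟨20 * (K₂ + 1) * (n + 1) ^ 2 * C₁ + c₁ + 32 * (C₁ + 1), by omega,
    fun B lam h₂ D₁ => ⟨fun W => ?_⟩⟩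
  set c : ℕ := 20 * (K₂ + 1) * (n + 1) ^ 2 * C₁ + c₁ + 32 * (C₁ + 1) with hc
  have hcbig : 20 * (K₂ + 1) * (n + 1) ^ 2 * C₁ ≤ c := by omega
  have hc32 : 32 * (C₁ + 1) ≤ c := by omega
  have hcc₁ : c₁ ≤ c := by omega
  have hn1 : 8 * (n + 1 + 1) ≤ c := by
    have h1 : 1 * (n + 1) ^ 2 * 1 ≤ (K₂ + 1) * (n + 1) ^ 2 * C₁ := by
      gcongr
      omega
    nlinarith
  set tol : ℕ := 2 * ((C₁ + 1) * D₁) with htol
  have hθ : 16 * tol ≤ W.θ 0 ∧ 4 * tol < W.θ 0 := by
    have h1 := W.θ_zero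
    have h2 : 32 * (C₁ + 1) * (D₁ + 1) ≤ c * (D₁ + 1) := Nat.mul_le_mul_right _ hc32
    have h3 : 32 * (C₁ + 1) * (D₁ + 1) = 32 * ((C₁ + 1) * D₁) + 32 * (C₁ + 1) := by ring
    constructor <;> omega
  -- the number of letters
  obtain ⟨d, hd1, hd0, hA1, hA2⟩ := hch W.U W.F (fun x => #(W.T x)) W.F_sub W.U_ne
    (fun x hx => ⟨Finset.card_pos.2 (W.T_ne x hx), W.T_card x (W.F_sub hx)⟩)
    ((Nat.mul_le_mul_right _ hcc₁).trans W.F_big)
  set Ad : Finset ℕ := {x ∈ W.F | #(W.T x) = d} with hAd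
  set Ω : Finset (Fin (n + 1) → ℕ) := Fintype.piFinset (fun _ => W.U) with hΩ
  set A : Finset (Fin (n + 1) → ℕ) := Fintype.piFinset (fun _ => Ad) with hA
  have hAcard : #A = #Ad ^ (n + 1) := by
    rw [hA, Fintype.card_piFinset]
    simp
  have hbad := W.bad_card n K₂ d tol hn hcbig hθ.1
  have hbad2 : (1 + C₁) * #{x ∈ Ω | ¬ W.Good d tol x} < #A := by
    rw [hAcard]
    set bad := #{x ∈ Ω | ¬ W.Good d tol x} with hbaddef
    set a := #{x ∈ W.U | x ∉ W.F ∨ d < #(W.T x)} * #W.U ^ n with ha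
    set u := #W.U ^ (n + 1) with hu
    set v := #Ad ^ (n + 1) with hv
    have e1 : K₂ * bad ≤ K₂ * ((n + 1) * a) + u := hbad
    have e2 : G * a < v := hA1
    have e3 : G * u ≤ K * v := hA2
    have e4 : 2 * (1 + C₁) * u ≤ K * v := by
      refine le_trans ?_ e3
      rw [hG]
      have : 2 * (1 + C₁) * 1 ≤ 2 * (1 + C₁) * (n + 1) := by gcongr; omega
      calc 2 * (1 + C₁) * u = 2 * (1 + C₁) * 1 * u := by ring
        _ ≤ 2 * (1 + C₁) * (n + 1) * u := Nat.mul_le_mul_right _ this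
    have e5 : 2 * ((1 + C₁) * ((n + 1) * a)) < v := by
      calc 2 * ((1 + C₁) * ((n + 1) * a)) = G * a := by rw [hG]; ring
        _ < v := e2
    have e6 : (1 + C₁) * (K₂ * bad) ≤ (1 + C₁) * (K₂ * ((n + 1) * a) + u) :=
      Nat.mul_le_mul_left _ e1
    have e7 : 2 * (K₂ * ((1 + C₁) * bad)) ≤
        K₂ * (2 * ((1 + C₁) * ((n + 1) * a))) + 2 * (1 + C₁) * u := by
      nlinarith
    have hK1 : 0 < K₂ := by omega
    by_contra hcon
    push Not at hcon
    have e8 : K₂ * (2 * ((1 + C₁) * ((n + 1) * a))) < K₂ * v := Nat.mul_lt_mul_of_pos_left e5 hK1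
    have e9 : K₂ * v ≤ K₂ * ((1 + C₁) * bad) := Nat.mul_le_mul_left _ hcon
    have e10 : K * v ≤ K₂ * v := Nat.mul_le_mul_right _ (by omega)
    omega
  -- a typical tuple
  obtain ⟨x₀, hx₀A, htyp⟩ := reach_typical (Step W.E univ) (fun x => W.Good d tol x)
    (fun x => SZ x) D₁ C₁ (by
      rintro x y hx ⟨s, -, t, -, hst, a, b, hab, rfl⟩
      have h1 := W.E_sum _ (hx.2.1.1 s) _ (hx.2.1.1 t) (a, b) hab
      rw [SZ_update x s t hst a b]
      have h2 : SZ x - (SZ x - (x s : ℤ) - x t + a + b) = -(((a : ℤ) + b) - (x s + x t)) := by ring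
      rw [h2, abs_neg]
      exact h1) (by
      intro Z hZ hZ2
      refine W.same_sum (n := n + 1) (by omega) hn1 tol hθ.2 Z (fun z hz => (hZ z hz).2.1) ?_
      intro z hz z' hz'
      have := hZ2 z hz z' hz'
      rw [htol]
      push_cast
      linarith) Ω A (by
      intro x hx
      rw [hA, Fintype.mem_piFinset] at hx
      rw [hΩ, Fintype.mem_piFinset]
      exact fun i => W.F_sub (Finset.mem_filter.1 (hx i)).1) (by
      rintro x hxΩ hx y ⟨s, -, t, -, hst, a, b, hab, rfl⟩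
      rw [hΩ, Fintype.mem_piFinset] at hxΩ ⊢
      have h1 := W.E_mem _ (hx.2.1.1 s) _ (hx.2.1.1 t) (a, b) hab
      intro i
      by_cases hit : i = t
      · subst hit
        rw [Function.update_self]
        exact h1.2
      · rw [Function.update_of_ne hit]
        by_cases his : i = s
        · subst his
          rw [Function.update_self]
          exact h1.1
        · rw [Function.update_of_ne his]
          exact hxΩ i) hbad2
  rw [hA, Fintype.mem_piFinset] at hx₀A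
  have hcard : ∀ t, #(W.T (x₀ t)) = d := fun t => (Finset.mem_filter.1 (hx₀A t)).2
  have hT : W.Typ n d tol x₀ (fun t j => (W.T (x₀ t)).orderEmbOfFin (hcard t) j) := by
    refine ⟨fun x hx => (htyp x hx).1, fun x hx => ?_, fun t => ?_, fun t => ?_⟩
    · have := (htyp x hx).2
      rw [htol]
      push_cast
      linarith
    · intro j j' hjj
      exact ((W.T (x₀ t)).orderEmbOfFin (hcard t)).injective hjj
    · ext q
      simp only [Finset.mem_image, Finset.mem_univ, true_and]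
      constructor
      · rintro ⟨j, rfl⟩
        exact Finset.orderEmbOfFin_mem _ _ _
      · intro hq
        have := Finset.range_orderEmbOfFin (W.T (x₀ t)) (hcard t)
        have h2 : q ∈ Set.range ((W.T (x₀ t)).orderEmbOfFin (hcard t)) := by
          rw [this]; exact hq
        exact h2
  exact (hend d hd1 hd0).false (W.toPlay hT)

end Pool.Agent.DCA
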