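import Pool.Agent.Lib.DCA.BBridge
import Pool.Agent.Lib.DCA.CEnd
import Pool.Agent.Lib.DigitChanges.AllBases

/-!
# The final assembly
-/

set_option autoImplicit false

open Finset PowerSeries

namespace Pool.Agent.DCA

open Pool.Agent.DC3 Pool.Agent.DigitChanges

/-- there are arbitrarily large admissible primes -/
theorem exists_adm (b l n : ℕ) (hb : 2 ≤ b) (hl : 1 ≤ l) : ∃ p, n < p ∧ Adm b l p := by
  have h3 : IsUnit (3 : ZMod 8) := by decide
  obtain ⟨p, hp1, hp2, hp3⟩ := Nat.forall_exists_prime_gt_and_eq_mod h3 (n + b ^ l)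
  refine ⟨p, by omega, adm_of_prime b l p hb hp2 (by omega) hl ?_⟩
  unfold ch
  rw [hp3]
  have : ZMod.χ₈ (3 : ZMod 8) = -1 := by decide
  rw [this]
  norm_num

/-- `(log N)^A` digit changes -/
theorem all_powers (b l A : ℕ) (hb : 2 ≤ b) (hl : 1 ≤ l) :
    ∃ N₀ : ℕ, ∀ N : ℕ, N₀ ≤ N → Real.log N ^ A ≤ cnt b l N := by
  obtain ⟨p, hp, hadm⟩ := exists_adm b l (16 * (A + 1)).centralBinom hb hl
  have : Fact p.Prime := ⟨hadm.1⟩
  obtain ⟨c, hc, hT⟩ := no_tower p (16 * (A + 1)) hp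
  refine amain b l A p c (4 * c * (16 * (A + 1))) hb hl hadm hc ?_ ?_
  · exact Nat.mul_pos (by omega) (by omega)
  · exact noDil p c _ _ _ hc (by omega) le_rfl hT

end Pool.Agent.DCA
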