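import Mathlib

/-!
# Numerical conditions
-/

set_option autoImplicit false

open Finset

namespace Pool.Agent.DCA

/-- exponentials beat squares -/
theorem sq_le_two_pow (Λ : ℕ) : ∃ s₀, ∀ s, s₀ ≤ s → Λ * s ^ 2 ≤ 2 ^ s := by
  refine ⟨max (4 * Λ + 8) 8, ?_⟩
  intro s hs
  have h1 : 4 * Λ + 8 ≤ s := (le_max_left _ _).trans hs
  have key : ∀ s : ℕ, 8 ≤ s → s ^ 3 ≤ 4 * 2 ^ s := by
    intro s hs
    induction s, hs using Nat.le_induction with
    | base => norm_num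
    | succ s hs ih =>
      have h2 : (s + 1) ^ 3 ≤ 2 * s ^ 3 := by
        have h3 : (s + 1) ^ 3 = s ^ 3 + (3 * s ^ 2 + 3 * s + 1) := by ring
        have h4 : 3 * s ^ 2 + 3 * s + 1 ≤ s ^ 3 := by nlinarith
        omega
      calc (s + 1) ^ 3 ≤ 2 * s ^ 3 := h2
        _ ≤ 2 * (4 * 2 ^ s) := Nat.mul_le_mul_left _ ih
        _ = 4 * 2 ^ (s + 1) := by ring
  have h2 := key s (by omega)
  have h3 : 4 * (Λ * s ^ 2) ≤ s ^ 3 := by
    calc 4 * (Λ * s ^ 2) = (4 * Λ) * s ^ 2 := by ring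
      _ ≤ s * s ^ 2 := Nat.mul_le_mul_right _ (by omega)
      _ = s ^ 3 := by ring
  omega

/-- The size of the merging radius, and the conditions on the windows. `M = m + 1`, `cb` is the
constant of the base, `W` the number of exceptions of the dilation. -/
theorem num_windows (p cb c n1 M m r W w Q g₀ : ℕ) (hp : 1 ≤ p) (hM : M = m + 1)
    (hW : W = p * (cb * m ^ 2) * m ^ p) (hr : r = 4 * (2 * n1 * W + m + 1))
    (hw : w = cb * m ^ 2 + 2 * m ^ 3 * r)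
    (hg : g₀ = Q * (8 * c * (m ^ 2 * (w + 1) + 1) + 16 * (m + 2) * r))
    (h1 : p ≤ M) (h2 : cb ≤ M) (h3 : n1 ≤ M) (h4 : c ≤ M) (h5 : 3000 ≤ M)
    (hQ : M ^ (p + 20) ≤ Q) :
    m * r < Q ^ 2 ∧ 16 * (m + 1) ≤ Q ∧ c ≤ Q ∧ 32 * (m + 1) * g₀ ≤ Q ^ 2 * r ∧ g₀ ≤ Q ^ 2 := by
  have hM1 : 1 ≤ M := by omega
  have hmM : m ≤ M := by omega
  have hWM : W ≤ M ^ (p + 4) := by
    rw [hW]
    calc p * (cb * m ^ 2) * m ^ p ≤ M * (M * M ^ 2) * M ^ p := by gcongr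
      _ = M ^ (p + 4) := by ring
  have hr1 : 1 ≤ r := by omega
  have hrM : r ≤ M ^ (p + 6) := by
    have e1 : n1 * W ≤ M * M ^ (p + 4) := Nat.mul_le_mul h3 hWM
    have e2 : M * M ^ (p + 4) = M ^ (p + 5) := by ring
    have e3 : M ≤ M ^ (p + 5) := by
      calc M = M ^ 1 := (pow_one M).symm
        _ ≤ M ^ (p + 5) := Nat.pow_le_pow_right hM1 (by omega)
    have e4 : r = 8 * (n1 * W) + 4 * M := by rw [hr, hM]; ring
    have e5 : 12 * M ^ (p + 5) ≤ M * M ^ (p + 5) := Nat.mul_le_mul_right _ (by omega)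
    have e6 : M * M ^ (p + 5) = M ^ (p + 6) := by ring
    omega
  have hQM : ∀ i, i ≤ p + 20 → M ^ i ≤ Q := fun i hi =>
    (Nat.pow_le_pow_right hM1 hi).trans hQ
  have hQ1 : 1 ≤ Q := by
    have := hQM 0 (by omega)
    simpa using this
  have hA : 8 * c * (m ^ 2 * (w + 1) + 1) + 16 * (m + 2) * r ≤ 72 * M ^ 6 * r := by
    have e1 : w + 1 ≤ 4 * M ^ 3 * r := by
      rw [hw]
      have f1 : cb * m ^ 2 ≤ M * M ^ 2 := by gcongr
      have f2 : cb * m ^ 2 ≤ M ^ 3 * r := by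
        calc cb * m ^ 2 ≤ M * M ^ 2 := f1
          _ = M ^ 3 * 1 := by ring
          _ ≤ M ^ 3 * r := Nat.mul_le_mul_left _ hr1
      have f3 : 2 * m ^ 3 * r ≤ 2 * M ^ 3 * r := by gcongr
      have f4 : 1 ≤ M ^ 3 * r := Nat.mul_pos (Nat.pow_pos hM1) hr1
      have f5 : 4 * M ^ 3 * r = 4 * (M ^ 3 * r) := by ring
      have f6 : 2 * M ^ 3 * r = 2 * (M ^ 3 * r) := by ring
      omega
    have e2 : m ^ 2 * (w + 1) ≤ M ^ 2 * (4 * M ^ 3 * r) := by gcongr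
    have e3 : 1 ≤ M ^ 5 * r := Nat.mul_pos (Nat.pow_pos hM1) hr1
    have e4 : m ^ 2 * (w + 1) + 1 ≤ 5 * (M ^ 5 * r) := by
      have : M ^ 2 * (4 * M ^ 3 * r) = 4 * (M ^ 5 * r) := by ring
      omega
    have e5 : 8 * c * (m ^ 2 * (w + 1) + 1) ≤ 8 * M * (5 * (M ^ 5 * r)) := by gcongr
    have e6 : 16 * (m + 2) * r ≤ 32 * (M ^ 6 * r) := by
      have g1 : m + 2 ≤ 2 * M ^ 6 := by
        have : M ≤ M ^ 6 := by
          calc M = M ^ 1 := (pow_one M).symm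
            _ ≤ M ^ 6 := Nat.pow_le_pow_right hM1 (by omega)
        omega
      calc 16 * (m + 2) * r ≤ 16 * (2 * M ^ 6) * r := by gcongr
        _ = 32 * (M ^ 6 * r) := by ring
    have e7 : 8 * M * (5 * (M ^ 5 * r)) = 40 * (M ^ 6 * r) := by ring
    have e8 : 72 * M ^ 6 * r = 72 * (M ^ 6 * r) := by ring
    omega
  have hQ2 : Q ^ 2 = Q * Q := sq Q
  have hg1 : g₀ ≤ Q * (72 * M ^ 6 * r) := by
    rw [hg]
    exact Nat.mul_le_mul_left _ hA
  refine ⟨?_, ?_, ?_, ?_, ?_⟩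
  · have e1 : m * r ≤ M * M ^ (p + 6) := Nat.mul_le_mul hmM hrM
    have e2 : M * M ^ (p + 6) = M ^ (p + 7) := by ring
    have e3 : M ^ (p + 7) < M ^ (p + 8) := Nat.pow_lt_pow_right (by omega) (by omega)
    have e4 := hQM (p + 8) (by omega)
    have e5 : Q ≤ Q ^ 2 := by rw [hQ2]; exact Nat.le_mul_of_pos_left _ hQ1
    omega
  · have e1 := hQM 2 (by omega)
    have e2 : 16 * M ≤ M * M := Nat.mul_le_mul_right _ (by omega)
    rw [sq] at e1
    omega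
  · have e1 := hQM 1 (by omega)
    rw [pow_one] at e1
    omega
  · calc 32 * (m + 1) * g₀ ≤ 32 * M * (Q * (72 * M ^ 6 * r)) := by
          rw [hM] at hg1 ⊢
          exact Nat.mul_le_mul_left _ hg1
      _ = Q * r * (2304 * M ^ 7) := by ring
      _ ≤ Q * r * (M * M ^ 7) := by gcongr; omega
      _ = Q * r * M ^ 8 := by ring
      _ ≤ Q * r * Q := by gcongr; exact hQM 8 (by omega)
      _ = Q ^ 2 * r := by ring
  · refine hg1.trans ?_
    rw [hQ2]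
    refine Nat.mul_le_mul_left _ ?_
    calc 72 * M ^ 6 * r ≤ M * M ^ 6 * M ^ (p + 6) := by gcongr; omega
      _ = M ^ (p + 13) := by ring
      _ ≤ Q := hQM _ (by omega)

end Pool.Agent.DCA
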