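import Pool.Agent.Lib.DCA.Kappa
import Pool.Agent.Lib.DCA.ANum
import Pool.Agent.Lib.DigitChanges.Digits

/-!
# The choice of the parameters
-/

set_option autoImplicit false

open Finset PowerSeries

namespace Pool.Agent.DCA

open Pool.Agent.DC3 Pool.Agent.DigitChanges

/-- there is no dilation structure over `ZMod p` with suitable parameters -/
def NoDil (p : ℕ) [Fact p.Prime] (c C S d' : ℕ) : Prop :=
  ∀ (N w m r Q g₀ y j₀ j₁ ℓ : ℕ) (D : ZMod p) (_ : Dil (ZMod p) N w m r (Q ^ 2) D),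
    (∀ x : ZMod p, x ^ 2 ≠ D) → 1 ≤ m → m < 2 ^ ℓ → 16 * (m + 1) ≤ Q → c ≤ Q →
    Q * (8 * c * (m ^ 2 * (w + 1) + 1) + 16 * (m + 2) * r) ≤ g₀ →
    32 * (m + 1) * g₀ ≤ Q ^ 2 * r → g₀ * (Q ^ 2) ^ (2 ^ j₁ + 4) ≤ N → j₀ < j₁ →
    m ≤ C ^ (j₁ - j₀) → 6400 * C ^ 2 * c ^ 3 * ℓ ^ 2 ≤ y → y ^ (2 * S) ≤ 2 ^ j₀ →
    m < y ^ (S * d') → False

private theorem amain_pow (p k : ℕ) : p ^ k ≤ 2 ^ (p * k) := by
  rw [pow_mul]
  exact Nat.pow_le_pow_left Nat.lt_two_pow_self.le _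

/-- one `N`: the conditions hold when `s` is large -/
theorem amain_one (b l N A p c S s t m : ℕ) [Fact p.Prime] (hb : 2 ≤ b) (hl : 1 ≤ l) (hp : Adm b l p)
    (hc : 1 ≤ c) (hS : 1 ≤ S) (hs : 1 ≤ s) (ht : 8 * S * s ≤ t)
    (hNt : 2 ^ 2 ^ t ≤ N) (hm : m + 1 = 2 ^ (16 * (A + 1) * S * s))
    (hm' : sc (Fs b l) (N + 1) ≤ m)
    (hΛ : (p + 36 * b ^ (2 * l + 2) + c + 3000 + 192 * p * (p + 20) * (A + 1) * S +
      6400 * (2 ^ (8 * (A + 1))) ^ 2 * c ^ 3 * (16 * (A + 1) * S) ^ 2) * s ^ 2 ≤ 2 ^ s)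
    (H : NoDil p c (2 ^ (8 * (A + 1))) S (16 * (A + 1))) : False := by
  have hp1 : 1 ≤ p := hp.1.pos
  have hp2 : 2 ≤ p := hp.1.two_le
  set a := A + 1 with ha
  set ℓ := 16 * a * S * s with hℓ
  set M := m + 1 with hM
  set cb := 36 * b ^ (2 * l + 2) with hcb
  set n1 := ℓ * (p + 20) with hn1
  set Q := p ^ n1 with hQ
  set W := Wb b l p m with hW
  set r := 4 * (2 * n1 * W + m + 1) with hr
  set w := cb * m ^ 2 + 2 * m ^ 3 * r with hw
  set g₀ := Q * (8 * c * (m ^ 2 * (w + 1) + 1) + 16 * (m + 2) * r) with hg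
  set c1 := 192 * p * (p + 20) * a * S with hc1
  set c2 := 6400 * (2 ^ (8 * a)) ^ 2 * c ^ 3 * (16 * a * S) ^ 2 with hc2
  have hss : s ≤ s ^ 2 := by nlinarith
  have hs2 : 1 ≤ s ^ 2 := hs.trans hss
  have hadd : (p + cb + c + 3000 + c1 + c2) * s ^ 2 =
      p * s ^ 2 + cb * s ^ 2 + c * s ^ 2 + 3000 * s ^ 2 + c1 * s ^ 2 + c2 * s ^ 2 := by ring
  rw [hadd] at hΛ
  have ha1 : 1 ≤ a := by omega
  have hS2 : S * s ≥ s := Nat.le_mul_of_pos_left _ hS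
  have hsl : s ≤ ℓ := by
    have : ℓ = 16 * a * (S * s) := by rw [hℓ]; ring
    rw [this]
    exact hS2.trans (Nat.le_mul_of_pos_left _ (by positivity))
  have h2sM : 2 ^ s ≤ M := by
    rw [hm]
    exact Nat.pow_le_pow_right (by norm_num) hsl
  have k1 : p ≤ M := by
    have : p ≤ p * s ^ 2 := Nat.le_mul_of_pos_right _ hs2
    omega
  have k2 : cb ≤ M := by
    have : cb ≤ cb * s ^ 2 := Nat.le_mul_of_pos_right _ hs2
    omega
  have k3 : n1 ≤ M := by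
    have e1 : n1 ≤ c1 * s ^ 2 := by
      calc n1 = 16 * (p + 20) * a * S * s := by rw [hn1, hℓ]; ring
        _ ≤ 192 * p * (p + 20) * a * S * s ^ 2 := by
            have : 16 ≤ 192 * p := by omega
            gcongr
        _ = c1 * s ^ 2 := by rw [hc1]
    omega
  have k4 : c ≤ M := by
    have : c ≤ c * s ^ 2 := Nat.le_mul_of_pos_right _ hs2
    omega
  have k5 : 3000 ≤ M := by omega
  have hQM : M ^ (p + 20) ≤ Q := by
    calc M ^ (p + 20) = 2 ^ n1 := by rw [hm, ← pow_mul]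
      _ ≤ Q := Nat.pow_le_pow_left hp2 _
  obtain ⟨q1, q2, q3, q4, q5⟩ := num_windows p cb c n1 M m r W w Q g₀ hp1 hM hW
    hr hw hg k1 k2 k3 k4 k5 hQM
  have hQ2 : p ^ (2 * n1) = Q ^ 2 := by rw [hQ, ← pow_mul, mul_comm n1 2]
  have hN1 : 1 ≤ N := le_trans (Nat.pow_pos (by norm_num) : 0 < 2 ^ 2 ^ t) hNt
  obtain ⟨Y⟩ := kappa b l N m p n1 r hb hl hp hN1 hm' (by rw [hQ2]; exact q1) le_rfl
  rw [hQ2] at Y
  refine H N w m r Q g₀ (2 ^ s) (2 * S * s) (4 * S * s) ℓ _ Y (adm_nonsquare b l p hp) ?_ ?_ q2 q3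
    le_rfl q4 ?_ ?_ ?_ ?_ ?_ ?_
  · omega
  · omega
  · -- the size of `N`
    refine le_trans ?_ hNt
    have e1 : g₀ * (Q ^ 2) ^ (2 ^ (4 * S * s) + 4) ≤ (Q ^ 2) ^ (2 ^ (4 * S * s) + 5) := by
      rw [pow_succ (Q ^ 2) (2 ^ (4 * S * s) + 4), mul_comm g₀]
      exact Nat.mul_le_mul_left _ q5
    refine e1.trans ?_
    rw [hQ, ← pow_mul, ← pow_mul]
    refine (amain_pow _ _).trans (Nat.pow_le_pow_right (by norm_num) ?_)
    have e2 : 5 ≤ 5 * 2 ^ (4 * S * s) := Nat.le_mul_of_pos_right _ (Nat.pow_pos (by norm_num))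
    have e3 : 2 ^ (4 * S * s) + 5 ≤ 6 * 2 ^ (4 * S * s) := by omega
    have e4 : c1 * s ≤ 2 ^ (4 * S * s) := by
      have f1 : c1 * s ≤ c1 * s ^ 2 := Nat.mul_le_mul_left _ hss
      have f2 : 2 ^ s ≤ 2 ^ (4 * S * s) := by
        refine Nat.pow_le_pow_right (by norm_num) ?_
        have : 4 * S * s = 4 * (S * s) := by ring
        omega
      omega
    calc p * (n1 * (2 * (2 ^ (4 * S * s) + 5))) ≤ p * (n1 * (2 * (6 * 2 ^ (4 * S * s)))) := by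
          gcongr
      _ = (c1 * s) * 2 ^ (4 * S * s) := by rw [hn1, hℓ, hc1]; ring
      _ ≤ 2 ^ (4 * S * s) * 2 ^ (4 * S * s) := by gcongr
      _ = 2 ^ (8 * S * s) := by rw [← pow_add]; ring_nf
      _ ≤ 2 ^ t := Nat.pow_le_pow_right (by norm_num) ht
  · have : 1 ≤ S * s := Nat.mul_pos hS hs
    have e1 : 2 * S * s = 2 * (S * s) := by ring
    have e2 : 4 * S * s = 4 * (S * s) := by ring
    omega
  · have e1 : 4 * S * s - 2 * S * s = 2 * S * s := by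
      have e1 : 2 * S * s = 2 * (S * s) := by ring
      have e2 : 4 * S * s = 4 * (S * s) := by ring
      omega
    rw [e1, ← pow_mul]
    have e2 : 8 * a * (2 * S * s) = ℓ := by rw [hℓ]; ring
    rw [e2]
    omega
  · have e1 : 6400 * (2 ^ (8 * a)) ^ 2 * c ^ 3 * ℓ ^ 2 = c2 * s ^ 2 := by rw [hc2, hℓ]; ring
    rw [e1]
    omega
  · rw [← pow_mul]
    refine Nat.pow_le_pow_right (by norm_num) (le_of_eq ?_)
    ring
  · have e1 : (2 ^ s) ^ (S * (16 * a)) = 2 ^ ℓ := by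
      rw [← pow_mul, hℓ]
      congr 1
      ring
    rw [e1]
    omega

/-- the asymptotic statement, from the absence of dilation structures -/
theorem amain (b l A p c S : ℕ) [Fact p.Prime] (hb : 2 ≤ b) (hl : 1 ≤ l) (hp : Adm b l p)
    (hc : 1 ≤ c) (hS : 1 ≤ S) (H : NoDil p c (2 ^ (8 * (A + 1))) S (16 * (A + 1))) :
    ∃ N₀ : ℕ, ∀ N : ℕ, N₀ ≤ N → Real.log N ^ A ≤ cnt b l N := by
  set Λ := (p + 36 * b ^ (2 * l + 2) + c + 3000 + 192 * p * (p + 20) * (A + 1) * S +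
      6400 * (2 ^ (8 * (A + 1))) ^ 2 * c ^ 3 * (16 * (A + 1) * S) ^ 2) with hΛdef
  obtain ⟨s₀, hs₀⟩ := sq_le_two_pow (Λ + l + 3)
  set s₁ := max s₀ 1 with hs₁
  refine ⟨2 ^ 2 ^ (8 * S * s₁), fun N hN => ?_⟩
  by_contra hcon
  push Not at hcon
  set x := Nat.log 2 N with hx
  set t := Nat.log 2 x with htdef
  set s := t / (8 * S) with hsdef
  have hNpos : N ≠ 0 := by
    have : 0 < 2 ^ 2 ^ (8 * S * s₁) := Nat.pow_pos (by norm_num)
    omega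
  have hx1 : 2 ^ (8 * S * s₁) ≤ x := by
    rw [hx]
    exact (Nat.le_log_iff_pow_le (by norm_num) hNpos).2 hN
  have hxpos : x ≠ 0 := by
    have : 0 < 2 ^ (8 * S * s₁) := Nat.pow_pos (by norm_num)
    omega
  have ht1 : 8 * S * s₁ ≤ t := (Nat.le_log_iff_pow_le (by norm_num) hxpos).2 hx1
  have h8S : 0 < 8 * S := by omega
  have hss1 : s₁ ≤ s := (Nat.le_div_iff_mul_le h8S).2 (by rw [mul_comm]; exact ht1)
  have hs1 : 1 ≤ s := (le_max_right _ _).trans hss1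
  have hs0 : s₀ ≤ s := (le_max_left _ _).trans hss1
  have hts : 8 * S * s ≤ t := Nat.mul_div_le t (8 * S)
  have hts2 : t + 1 ≤ 8 * S * (s + 1) := by
    have := Nat.lt_mul_div_succ t h8S
    exact this
  have hbig := hs₀ s hs0
  have hs2 : 1 ≤ s ^ 2 := Nat.one_le_pow _ _ hs1
  have hbig1 : Λ * s ^ 2 ≤ 2 ^ s := le_trans (Nat.mul_le_mul_right _ (by omega)) hbig
  have hbig2 : l + 3 ≤ 2 ^ s := by
    refine le_trans ?_ hbig
    calc l + 3 ≤ (Λ + l + 3) * 1 := by omega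
      _ ≤ (Λ + l + 3) * s ^ 2 := Nat.mul_le_mul_left _ hs2
  have hNt : 2 ^ 2 ^ t ≤ N := by
    have e1 : 2 ^ t ≤ x := Nat.pow_log_le_self 2 hxpos
    have e2 : 2 ^ x ≤ N := Nat.pow_log_le_self 2 hNpos
    exact (Nat.pow_le_pow_right (by norm_num) e1).trans e2
  set ℓ := 16 * (A + 1) * S * s with hℓ
  have hlog : Real.log N ≤ 2 ^ (t + 1) := by
    have e1 : N < 2 ^ (x + 1) := Nat.lt_pow_succ_log_self (by norm_num) N
    have e2 : x < 2 ^ (t + 1) := Nat.lt_pow_succ_log_self (by norm_num) x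
    have e3 : (N : ℝ) ≤ 2 ^ (x + 1) := by exact_mod_cast e1.le
    have e4 : Real.log N ≤ Real.log (2 ^ (x + 1)) :=
      Real.log_le_log (by exact_mod_cast Nat.pos_of_ne_zero hNpos) e3
    rw [Real.log_pow] at e4
    have e5 : Real.log 2 ≤ 1 := by
      have := Real.log_two_lt_d9
      linarith
    have e6 : ((x + 1 : ℕ) : ℝ) * Real.log 2 ≤ (x + 1 : ℕ) := by
      have : (0 : ℝ) ≤ (x + 1 : ℕ) := Nat.cast_nonneg _
      nlinarith
    have e7 : ((x + 1 : ℕ) : ℝ) ≤ 2 ^ (t + 1) := by exact_mod_cast e2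
    linarith
  have hlog0 : 0 ≤ Real.log N := by
    apply Real.log_nonneg
    exact_mod_cast Nat.one_le_iff_ne_zero.2 hNpos
  have hcnt : cnt b l N ≤ 2 ^ ((t + 1) * A) := by
    have e1 : Real.log N ^ A ≤ (2 ^ (t + 1)) ^ A := pow_le_pow_left₀ hlog0 hlog A
    rw [← pow_mul] at e1
    have e2 : (cnt b l N : ℝ) ≤ 2 ^ ((t + 1) * A) := by linarith
    exact_mod_cast e2
  have hsc := sc_Fs_le_cnt b l N (by omega)
  have hpw : (t + 1) * A ≤ 16 * A * S * s := by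
    calc (t + 1) * A ≤ (8 * S * (s + 1)) * A := Nat.mul_le_mul_right _ hts2
      _ ≤ (8 * S * (2 * s)) * A := by gcongr; omega
      _ = 16 * A * S * s := by ring
  have hm : 2 ^ ℓ = 2 ^ (16 * A * S * s) * 2 ^ (16 * S * s) := by
    rw [← pow_add, hℓ]
    congr 1
    ring
  have h16 : l + 3 ≤ 2 ^ (16 * S * s) := by
    refine hbig2.trans (Nat.pow_le_pow_right (by norm_num) ?_)
    exact Nat.le_mul_of_pos_left _ (by omega)
  have hone : 1 ≤ 2 ^ (16 * A * S * s) := Nat.one_le_two_pow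
  have hmm : sc (Fs b l) (N + 1) + 1 ≤ 2 ^ ℓ := by
    have e1 : 2 ^ ((t + 1) * A) ≤ 2 ^ (16 * A * S * s) :=
      Nat.pow_le_pow_right (by norm_num) hpw
    have e2 : 2 ^ (16 * A * S * s) * (l + 3) ≤ 2 ^ ℓ := by
      rw [hm]
      exact Nat.mul_le_mul_left _ h16
    have e3 : l + 2 + 2 ^ (16 * A * S * s) ≤ 2 ^ (16 * A * S * s) * (l + 3) := by nlinarith
    linarith
  refine amain_one b l N A p c S s t (2 ^ ℓ - 1) hb hl hp hc hS hs1 hts hNt ?_ ?_ hbig1 H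
  · exact Nat.sub_add_cancel Nat.one_le_two_pow
  · exact Nat.le_sub_one_of_lt hmm

end Pool.Agent.DCA
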