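import Pool.Agent.Lib.DC3.Clean

/-!
# Pairs of points whose sums lie in one chain
-/

set_option autoImplicit false

open Finset

namespace Pool.Agent.DCA

open Pool.Agent.DC3

/-- the sums of two points -/
def SS (V : Finset ℕ) : Finset ℕ := (V ×ˢ V).image fun ab => ab.1 + ab.2

/-- the pairs of points whose sum lies in the chain of `x + y`, with gaps at most `g` -/
noncomputable def Ecl (V : Finset ℕ) (g x y : ℕ) : Finset (ℕ × ℕ) :=
  (V ×ˢ V).filter fun ab =>
    pfst (starts (SS V) g) (ab.1 + ab.2) = pfst (starts (SS V) g) (x + y)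

theorem mem_SS {V : Finset ℕ} {a b : ℕ} (ha : a ∈ V) (hb : b ∈ V) : a + b ∈ SS V :=
  mem_image.2 ⟨(a, b), mem_product.2 ⟨ha, hb⟩, rfl⟩

theorem card_SS {V : Finset ℕ} {m : ℕ} (hV : #V ≤ m) : #(SS V) ≤ m ^ 2 := by
  refine card_image_le.trans ?_
  rw [card_product, sq]
  exact Nat.mul_le_mul hV hV

theorem Ecl_self {V : Finset ℕ} {g x y : ℕ} (hx : x ∈ V) (hy : y ∈ V) : (x, y) ∈ Ecl V g x y :=
  mem_filter.2 ⟨mem_product.2 ⟨hx, hy⟩, rfl⟩

theorem Ecl_mem {V : Finset ℕ} {g x y : ℕ} {ab : ℕ × ℕ} (h : ab ∈ Ecl V g x y) :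
    ab.1 ∈ V ∧ ab.2 ∈ V :=
  mem_product.1 (mem_filter.1 h).1

theorem Ecl_sum {V : Finset ℕ} {m g x y : ℕ} (hV : #V ≤ m) (hx : x ∈ V) (hy : y ∈ V)
    {ab : ℕ × ℕ} (h : ab ∈ Ecl V g x y) :
    ab.1 + ab.2 ≤ x + y + m ^ 2 * g ∧ x + y ≤ ab.1 + ab.2 + m ^ 2 * g := by
  obtain ⟨h1, h2⟩ := Ecl_mem h
  have h3 := (mem_filter.1 h).2
  have h4 := P_bound (card_SS hV) g (mem_SS h1 h2)
  have h5 := P_bound (card_SS hV) g (mem_SS hx hy)
  have h6 := (P_mem (r := g) (mem_SS h1 h2)).2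
  have h7 := (P_mem (r := g) (mem_SS hx hy)).2
  omega

private theorem wpair_free (Z : Finset ℕ) (c r : ℕ) (h : #Z < r) :
    ∃ n, c ≤ n ∧ n < c + r ∧ n ∉ Z := by
  by_contra hcon
  push Not at hcon
  have h1 : Ico c (c + r) ⊆ Z := by
    intro n hn
    rw [mem_Ico] at hn
    exact hcon n hn.1 hn.2
  have h2 := card_le_card h1
  rw [Nat.card_Ico] at h2
  omega

theorem Ecl_zero {k : Type*} [Field k] {N w m : ℕ} {D : k} (Y : Sys k N w m D) {x y : ℕ}
    (hx : x ∈ Y.V) (hy : y ∈ Y.V) (h1 : (m ^ 2 + 1) * (w + 1) ≤ x + y)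
    (h2 : x + y + m ^ 2 * (w + 1) + w < N) :
    ∑ ab ∈ Ecl Y.V (w + 1) x y, Y.μ ab.1 * Y.μ ab.2 = 0 := by
  classical
  set V := Y.V with hV
  set g := w + 1 with hg
  set St := starts (SS V) g with hSt
  set P := pfst St (x + y) with hP
  have hxy := mem_SS hx hy
  have hPm := P_mem (r := g) hxy
  have hPb := P_bound (card_SS Y.cardV) g hxy
  have hex : (m ^ 2 + 1) * g = m ^ 2 * g + g := by ring
  -- the last element of the chain
  have hne : ((SS V).filter (fun s => pfst St s = P)).Nonempty := ⟨x + y, mem_filter.2 ⟨hxy, rfl⟩⟩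
  obtain ⟨heV, heP⟩ := mem_filter.1 (Finset.max'_mem _ hne)
  set e := ((SS V).filter (fun s => pfst St s = P)).max' hne with he
  have hmax : ∀ s ∈ SS V, pfst St s = P → s ≤ e := fun s hs h =>
    Finset.le_max' _ s (mem_filter.2 ⟨hs, h⟩)
  have heb := P_bound (card_SS Y.cardV) g heV
  have heP' : pfst (starts (SS V) g) e = P := heP
  have hPe := (P_mem (r := g) heV).2
  rw [heP'] at heb hPe
  have hP1 : P ∈ starts (SS V) g := hPm.1
  have hP2 : P ≤ x + y := hPm.2
  have hP3 : x + y ≤ P + m ^ 2 * g := hPb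
  -- membership in the chain
  have hmem : ∀ s ∈ SS V, pfst St s = P ↔ P ≤ s ∧ s ≤ e := by
    intro s hs
    constructor
    · intro h
      have h3 := (P_mem (r := g) hs).2
      have h4 : pfst (starts (SS V) g) s = P := h
      exact ⟨by omega, hmax s hs h⟩
    · rintro ⟨h3, h4⟩
      have h5 : P ≤ pfst (starts (SS V) g) s := le_pfst hP1 h3
      have h6 := P_mem (r := g) hs
      have h7 : pfst (starts (SS V) g) s ≤ pfst (starts (SS V) g) e :=
        le_pfst h6.1 (h6.2.trans h4)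
      rw [heP'] at h7
      exact le_antisymm h7 h5
  have hgap1 : ∀ s ∈ SS V, s < P → s + g < P := by
    intro s hs h
    by_contra hcon
    exact (mem_starts.1 hP1).2 s hs ⟨h, by omega⟩
  have hgap2 : ∀ s ∈ SS V, e < s → e + g < s := by
    intro s hs h
    have h6 := P_mem (r := g) hs
    have h7 : e < pfst (starts (SS V) g) s := by
      by_contra hcon
      have h8 : pfst (starts (SS V) g) s ≤ pfst (starts (SS V) g) e :=
        le_pfst h6.1 (not_lt.1 hcon)
      rw [heP'] at h8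
      have h9 : P ≤ pfst (starts (SS V) g) s := le_pfst hP1 (by omega)
      have h10 := hmax s hs (le_antisymm h8 h9)
      omega
    by_contra hcon
    exact (mem_starts.1 h6.1).2 e heV ⟨h7, by omega⟩
  -- positions outside of `Z`
  have hZ : #Y.Z < g := by
    have := Y.cardZ
    omega
  obtain ⟨t₁, ht1, ht1', ht1Z⟩ := wpair_free Y.Z (P - g) g hZ
  obtain ⟨t₂, ht2, ht2', ht2Z⟩ := wpair_free Y.Z e g hZ
  have hC1 := Y.rel t₁ (by omega) ht1Z
  have hC2 := Y.rel t₂ (by omega) ht2Z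
  have hCs : Cv Y.V Y.μ t₂ = Cv Y.V Y.μ t₁ +
      ∑ ab ∈ Ecl Y.V (w + 1) x y, Y.μ ab.1 * Y.μ ab.2 := by
    have hCv : ∀ t, Cv Y.V Y.μ t = ∑ ab ∈ (V ×ˢ V) with ab.1 + ab.2 ≤ t, Y.μ ab.1 * Y.μ ab.2 := by
      intro t
      unfold Cv
      rw [Finset.sum_filter, Finset.sum_product]
      refine Finset.sum_congr rfl fun a _ => ?_
      rw [Finset.sum_filter]
    rw [hCv, hCv]
    have hd : Disjoint ((V ×ˢ V).filter fun ab : ℕ × ℕ => ab.1 + ab.2 ≤ t₁)
        (Ecl Y.V (w + 1) x y) := by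
      rw [disjoint_left]
      intro ab h3 h4
      have h5 := (mem_filter.1 h3).2
      obtain ⟨h6, h7⟩ := Ecl_mem h4
      have h8 := ((hmem _ (mem_SS h6 h7)).1 (mem_filter.1 h4).2).1
      omega
    rw [← Finset.sum_union hd]
    refine Finset.sum_congr ?_ fun _ _ => rfl
    ext ab
    rw [mem_union, mem_filter, mem_filter, Ecl, mem_filter]
    constructor
    · rintro ⟨h3, h4⟩
      have h5 := mem_product.1 h3
      have h6 := mem_SS h5.1 h5.2
      by_cases h7 : ab.1 + ab.2 < P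
      · left
        have := hgap1 _ h6 h7
        exact ⟨h3, by omega⟩
      · right
        refine ⟨h3, (hmem _ h6).2 ⟨by omega, ?_⟩⟩
        by_contra h8
        have := hgap2 _ h6 (by omega)
        omega
    · rintro (⟨h3, h4⟩ | ⟨h3, h4⟩)
      · exact ⟨h3, by omega⟩
      · have h5 := mem_product.1 h3
        have h6 := (hmem _ (mem_SS h5.1 h5.2)).1 h4
        exact ⟨h3, by omega⟩
  rw [hC1, hC2] at hCs
  exact (left_eq_add.1 hCs)

end Pool.Agent.DCA
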