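import Pool.Agent.Lib.DCA.WBasic

/-!
# Windows: non-isolated points

`nonisol`. PROOF. Let `2 ≤ i < B`, `ρ = g K`, `V' = Wd i`. (1) if `x ∈ Wd i`, `x' ∈ V`, `|x - x'| ≤ g K` then `x' ∈ Wd i`, because of `bd` at `i` and `i + 1` (`δ K ^ i ≥ δ K ^ 2 > g K`, as `δ K ≥ r K ≥ 16 g`).
(2) `#(starts V' ρ) ≥ #(Wd (i-2))`: the map `x ↦ pfst (starts V' ρ) (kap (kap x))` on `Wd (i - 2)` is injective: for `x < y` in `Wd (i-2)`: `2 kap x + K r ≤ 2 kap y` (`kap_gap`), so by `kap_lo` (for `kap y`), `kap_hi` (for `kap x`):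
`4 (kap kap y - kap kap x) ≥ 4 K (kap y - kap x) - K r - 4 K (m+1) r ≥ 2 K K r - K r (4 m + 5) ≥ K K r > 4 m g K` (`K ≥ 16 (m+1)`, `K r ≥ 16 (m+1) g`), but two points with the same `pfst` are at distance `≤ m ρ` (`P_bound`).
(3) a non-isolated `x ∈ Wd i` is not a start, or its successor in `V'` (the smallest element `> x`; at distance `≤ ρ`) is not a start; so the number of non-isolated points is at most `2 (#V' - #(starts V' ρ)) ≤ 2 (#(Wd i) - #(Wd (i-2)))`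
(successor is injective). (4) `∑_(i=2)^(B-1) (#(Wd i) - #(Wd (i-2))) ≤ #(Wd (B-1)) + #(Wd (B-2)) ≤ 2 #(Wd B)`.
-/

set_option autoImplicit false

open Finset

namespace Pool.Agent.DCA

open Pool.Agent.DC3

variable {p m K r g δ B D₁ : ℕ}

private theorem WIso_pw (W : Win p m K r g δ B D₁) {i j x : ℕ} (hij : i ≤ j)
    (hx : x < g * K ^ (i + 1)) : x < g * K ^ (j + 1) := by
  have hK := W.K_ge
  exact lt_of_lt_of_le hx (Nat.mul_le_mul_left _ (Nat.pow_le_pow_right (by omega) (by omega)))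

private theorem WIso_rle (W : Win p m K r g δ B D₁) {i x : ℕ} (hx : g * K ^ i ≤ x) : r ≤ x := by
  have hK := W.K_ge
  have h1 := W.r_le
  have h2 : 1 * r ≤ 16 * (m + 2) * r := Nat.mul_le_mul_right _ (by omega)
  have h3 : g * 1 ≤ g * K ^ i := Nat.mul_le_mul_left _ (Nat.one_le_pow _ _ (by omega))
  omega

private theorem WIso_lt (W : Win p m K r g δ B D₁) {i x y : ℕ} (hi : 2 ≤ i) (hiB : i ≤ B)
    (hx : x ∈ W.Wd (i - 2)) (hy : y ∈ W.Wd (i - 2)) (hxy : x < y)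
    (h : pfst (starts (W.Wd i) (g * K)) (W.kap (W.kap x)) =
      pfst (starts (W.Wd i) (g * K)) (W.kap (W.kap y))) : False := by
  obtain ⟨j, rfl⟩ : ∃ j, i = j + 2 := ⟨i - 2, by omega⟩
  rw [Nat.add_sub_cancel] at hx hy
  have hKx := W.kap_win (by omega) hx
  have hKy := W.kap_win (by omega) hy
  have hKKx : W.kap (W.kap x) ∈ W.Wd (j + 2) := W.kap_win (by omega) hKx
  have hKKy : W.kap (W.kap y) ∈ W.Wd (j + 2) := W.kap_win (by omega) hKy
  have hm : #(W.Wd (j + 2)) ≤ m := (Finset.card_le_card (Finset.filter_subset _ _)).trans W.cardV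
  have h1 := P_bound hm (g * K) hKKy
  have h2 := (P_mem (r := g * K) hKKx).2
  rw [← h] at h1
  have h3 : W.kap (W.kap y) ≤ W.kap (W.kap x) + m * (g * K) := by omega
  rw [Win.Wd, mem_filter] at hx hy hKx hKy
  have h4 := W.kap_gap x hx.1 y hy.1 (WIso_rle W hx.2.1) hxy (WIso_pw W (by omega) hy.2.2)
  have h5 := W.kap_lo (W.kap y) hKy.1 (WIso_rle W hKy.2.1) (WIso_pw W (by omega) hKy.2.2)
  have h6 := W.kap_hi (W.kap x) hKx.1 (WIso_rle W hKx.2.1) (WIso_pw W (by omega) hKx.2.2)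
  have hKge := W.K_ge
  have hK := W.hK
  have hg := W.g_pos
  have h7 : 2 * K * (2 * W.kap x + K * r) ≤ 2 * K * (2 * W.kap y) := Nat.mul_le_mul_left _ h4
  have h8 : K * (16 * (m + 1) * g) ≤ K * (K * r) := Nat.mul_le_mul_left _ hK
  have h9 : 16 * (m + 1) * (K * r) ≤ K * (K * r) := Nat.mul_le_mul_right _ hKge
  have h10 : 1 * 1 ≤ K * g := Nat.mul_le_mul (by omega) hg
  obtain ⟨X, hX⟩ : ∃ X, X = K * W.kap x := ⟨_, rfl⟩
  obtain ⟨Y, hY⟩ : ∃ Y, Y = K * W.kap y := ⟨_, rfl⟩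
  obtain ⟨R, hR⟩ : ∃ R, R = K * r := ⟨_, rfl⟩
  obtain ⟨G, hG⟩ : ∃ G, G = K * g := ⟨_, rfl⟩
  have e1 : 2 * K * (2 * W.kap x + K * r) = 4 * X + 2 * (K * R) := by rw [hX, hR]; ring
  have e2 : 2 * K * (2 * W.kap y) = 4 * Y := by rw [hY]; ring
  have e3 : K * (16 * (m + 1) * g) = 16 * (m * G) + 16 * G := by rw [hG]; ring
  have e4 : K * (W.kap x + (m + 1) * r) = X + (m * R + R) := by rw [hX, hR]; ring
  have e5 : 16 * (m + 1) * (K * r) = 16 * (m * R) + 16 * R := by rw [hR]; ring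
  have e6 : m * (g * K) = m * G := by rw [hG]; ring
  rw [e1, e2] at h7
  rw [e3, ← hR] at h8
  rw [e5, ← hR] at h9
  rw [e4] at h6
  rw [e6] at h3
  rw [← hY, ← hR] at h5
  rw [← hG] at h10
  omega

/-- step (2) -/
theorem Win.starts_ge (W : Win p m K r g δ B D₁) {i : ℕ} (hi : 2 ≤ i) (hiB : i ≤ B) :
    #(W.Wd (i - 2)) ≤ #(starts (W.Wd i) (g * K)) := by
  refine Finset.card_le_card_of_injOn
    (fun x => pfst (starts (W.Wd i) (g * K)) (W.kap (W.kap x))) ?_ ?_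
  · intro x hx
    have h1 := W.kap_win (by omega) (Finset.mem_coe.mp hx)
    have h2 := W.kap_win (by omega) h1
    have e : i - 2 + 1 + 1 = i := by omega
    rw [e] at h2
    exact Finset.mem_coe.mpr (P_mem h2).1
  · intro x hx y hy hxy
    rcases lt_trichotomy x y with h | h | h
    · exact (WIso_lt W hi hiB (Finset.mem_coe.mp hx) (Finset.mem_coe.mp hy) h hxy).elim
    · exact h
    · exact (WIso_lt W hi hiB (Finset.mem_coe.mp hy) (Finset.mem_coe.mp hx) h hxy.symm).elim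

/-- step (1) -/
private theorem WIso_near (W : Win p m K r g δ B D₁) {i x x' : ℕ} (hi : 2 ≤ i) (hiB : i ≤ B)
    (hx : x ∈ W.Wd i) (hx' : x' ∈ W.V) (h : |(x : ℤ) - x'| ≤ g * K) : x' ∈ W.Wd i := by
  rw [Win.Wd, mem_filter] at hx ⊢
  obtain ⟨h1, h2⟩ := abs_le.mp h
  have hKge := W.K_ge
  have hK := W.hK
  have hg := W.g_pos
  have hδ := W.hδ
  have hrδ : r ≤ δ := by
    have : 1 * r ≤ 16 * (m + 2) * r := Nat.mul_le_mul_right _ (by omega)
    omega
  have hbig : ∀ j, 2 ≤ j → g * K < δ * K ^ j := by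
    intro j hj
    have a1 : δ * K ^ 2 ≤ δ * K ^ j :=
      Nat.mul_le_mul_left _ (Nat.pow_le_pow_right (by omega) hj)
    have a2 : K * (K * r) ≤ K * (K * δ) :=
      Nat.mul_le_mul_left _ (Nat.mul_le_mul_left _ hrδ)
    have a3 : K * (16 * (m + 1) * g) ≤ K * (K * r) := Nat.mul_le_mul_left _ hK
    have a4 : K * (K * δ) = δ * K ^ 2 := by ring
    have a5 : K * (16 * (m + 1) * g) = 16 * (m * (g * K)) + 16 * (g * K) := by ring
    have a6 : 1 * 1 ≤ g * K := Nat.mul_le_mul hg (by omega)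
    omega
  have b1 := hbig i hi
  have b2 := hbig (i + 1) (by omega)
  have e1 : ((g * K : ℕ) : ℤ) = (g : ℤ) * K := by push_cast; ring
  refine ⟨hx', ?_, ?_⟩
  · rcases W.bd i (by omega) x' hx' with h3 | h3
    · exfalso
      have h4 : x' + g * K < x := by omega
      zify at h4
      omega
    · have : g * K ^ i ≤ (g + δ) * K ^ i := Nat.mul_le_mul_right _ (by omega)
      omega
  · rcases W.bd (i + 1) (by omega) x' hx' with h3 | h3
    · omega
    · exfalso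
      have h5 : (g + δ) * K ^ (i + 1) = g * K ^ (i + 1) + δ * K ^ (i + 1) := by ring
      have h4 : x + g * K < x' := by omega
      zify at h4
      omega

/-- step (3) -/
private theorem WIso_succ (V : Finset ℕ) (ρ : ℕ) (S : Finset ℕ) (hS : S ⊆ V)
    (h : ∀ x ∈ S, ∃ x' ∈ V, x' ≠ x ∧ |(x : ℤ) - x'| ≤ ρ) :
    #S + 2 * #(starts V ρ) ≤ 2 * #V := by
  classical
  have hsub : starts V ρ ⊆ V := Finset.filter_subset _ _
  have h1 : #(V \ starts V ρ) + #(starts V ρ) = #V := Finset.card_sdiff_add_card_eq_card hsub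
  have h2 : #(S \ starts V ρ) ≤ #(V \ starts V ρ) :=
    Finset.card_le_card (Finset.sdiff_subset_sdiff hS (le_refl _))
  have hsucc : ∀ x ∈ S ∩ starts V ρ, sInf {y : ℕ | y ∈ V ∧ x < y} ∈ V ∧
      x < sInf {y : ℕ | y ∈ V ∧ x < y} ∧ sInf {y : ℕ | y ∈ V ∧ x < y} ≤ x + ρ := by
    intro x hx
    rw [mem_inter] at hx
    obtain ⟨x', hx', hne, hab⟩ := h x hx.1
    obtain ⟨a1, a2⟩ := abs_le.mp hab
    have hst := (mem_starts.mp hx.2).2 x' hx'
    have hlt : x < x' := by omega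
    have hle : x' ≤ x + ρ := by omega
    have hmem : x' ∈ {y : ℕ | y ∈ V ∧ x < y} := ⟨hx', hlt⟩
    have hin : sInf {y : ℕ | y ∈ V ∧ x < y} ∈ {y : ℕ | y ∈ V ∧ x < y} := Nat.sInf_mem ⟨x', hmem⟩
    have hle2 : sInf {y : ℕ | y ∈ V ∧ x < y} ≤ x' := Nat.sInf_le hmem
    exact ⟨hin.1, hin.2, hle2.trans hle⟩
  have h3 : #(S ∩ starts V ρ) ≤ #(V \ starts V ρ) := by
    refine Finset.card_le_card_of_injOn (fun x => sInf {y : ℕ | y ∈ V ∧ x < y}) ?_ ?_
    · intro x hx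
      have hx' := Finset.mem_coe.mp hx
      obtain ⟨a1, a2, a3⟩ := hsucc x hx'
      refine Finset.mem_coe.mpr (mem_sdiff.mpr ⟨a1, ?_⟩)
      intro hst
      exact (mem_starts.mp hst).2 x (hS (mem_inter.mp hx').1) ⟨a2, a3⟩
    · intro x hx y hy hxy
      have hx' := Finset.mem_coe.mp hx
      have hy' := Finset.mem_coe.mp hy
      obtain ⟨a1, a2, a3⟩ := hsucc x hx'
      obtain ⟨b1, b2, b3⟩ := hsucc y hy'
      dsimp only at hxy
      rcases lt_trichotomy x y with hl | hl | hl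
      · have : sInf {z : ℕ | z ∈ V ∧ x < z} ≤ y :=
          Nat.sInf_le ⟨hS (mem_inter.mp hy').1, hl⟩
        omega
      · exact hl
      · have : sInf {z : ℕ | z ∈ V ∧ y < z} ≤ x :=
          Nat.sInf_le ⟨hS (mem_inter.mp hx').1, hl⟩
        omega
  have h4 : #(S \ starts V ρ) + #(S ∩ starts V ρ) = #S := Finset.card_sdiff_add_card_inter _ _
  omega

private theorem WIso_tel (w : ℕ → ℕ) (k : ℕ)
    (h : ∀ i < k, w i ≤ w (i + 2)) :
    ∑ i ∈ range k, (w (i + 2) - w i) + w 0 + w 1 = w (k + 1) + w k := by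
  induction k with
  | zero => simp [add_comm]
  | succ k ih =>
    rw [Finset.sum_range_succ]
    have h1 := ih fun i hi => h i (by omega)
    have h2 := h k (by omega)
    have e : k + 1 + 1 = k + 2 := rfl
    rw [e]
    omega

open Classical in
theorem Win.nonisol (W : Win p m K r g δ B D₁) :
    #{x ∈ W.V | g * K ^ 2 ≤ x ∧ x < g * K ^ B ∧
      ∃ x' ∈ W.V, x' ≠ x ∧ |(x : ℤ) - x'| ≤ g * K} ≤ 4 * #(W.Wd B) := by
  have hKge := W.K_ge
  have hg := W.g_pos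
  have hK1 : 1 < K := by omega
  rcases le_or_gt B 2 with hB | hB
  · have : {x ∈ W.V | g * K ^ 2 ≤ x ∧ x < g * K ^ B ∧
      ∃ x' ∈ W.V, x' ≠ x ∧ |(x : ℤ) - x'| ≤ g * K} = ∅ := by
      refine Finset.filter_eq_empty_iff.mpr ?_
      rintro x - ⟨h1, h2, -⟩
      have : g * K ^ B ≤ g * K ^ 2 :=
        Nat.mul_le_mul_left _ (Nat.pow_le_pow_right (by omega) hB)
      omega
    rw [this, Finset.card_empty]
    exact Nat.zero_le _
  obtain ⟨k, rfl⟩ : ∃ k, B = k + 2 := ⟨B - 2, by omega⟩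
  obtain ⟨S, hS⟩ : ∃ S : ℕ → Finset ℕ, S = fun i => {x ∈ W.Wd i |
      ∃ x' ∈ W.V, x' ≠ x ∧ |(x : ℤ) - x'| ≤ g * K} := ⟨_, rfl⟩
  have hSi : ∀ i, i < k → #(S (i + 2)) ≤ 2 * (#(W.Wd (i + 2)) - #(W.Wd i)) := by
    intro i hi
    have h1 := W.starts_ge (i := i + 2) (by omega) (by omega)
    rw [Nat.add_sub_cancel] at h1
    have h2 := WIso_succ (W.Wd (i + 2)) (g * K) (S (i + 2))
      (by rw [hS]; exact Finset.filter_subset _ _) ?_
    · omega
    · intro x hx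
      rw [hS, mem_filter] at hx
      obtain ⟨hx1, x', hx', hne, hab⟩ := hx
      refine ⟨x', WIso_near W (by omega) (by omega) hx1 hx' hab, hne, ?_⟩
      push_cast
      exact hab
  have hcov : {x ∈ W.V | g * K ^ 2 ≤ x ∧ x < g * K ^ (k + 2) ∧
      ∃ x' ∈ W.V, x' ≠ x ∧ |(x : ℤ) - x'| ≤ g * K} ⊆
      (range k).biUnion fun i => S (i + 2) := by
    intro x hx
    rw [mem_filter] at hx
    obtain ⟨hxV, h1, h2, h3⟩ := hx
    have hgx : g ≤ x := by
      have : g * 1 ≤ g * K ^ 2 := Nat.mul_le_mul_left _ (Nat.one_le_pow _ _ (by omega))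
      omega
    obtain ⟨h4, h5⟩ := wi_spec K g x (by omega) hg hgx
    have h6 : K ^ 2 < K ^ (wi K g x + 1) :=
      Nat.lt_of_mul_lt_mul_left (lt_of_le_of_lt h1 h5)
    have h7 := (Nat.pow_lt_pow_iff_right hK1).mp h6
    have h8 : K ^ (wi K g x) < K ^ (k + 2) :=
      Nat.lt_of_mul_lt_mul_left (lt_of_le_of_lt h4 h2)
    have h9 := (Nat.pow_lt_pow_iff_right hK1).mp h8
    rw [mem_biUnion]
    refine ⟨wi K g x - 2, Finset.mem_range.mpr (by omega), ?_⟩
    have e : wi K g x - 2 + 2 = wi K g x := by omega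
    rw [e, hS, mem_filter]
    refine ⟨?_, h3⟩
    rw [Win.Wd, mem_filter]
    exact ⟨hxV, h4, h5⟩
  have hmono : ∀ i < k, #(W.Wd i) ≤ #(W.Wd (i + 2)) := by
    intro i hi
    exact (W.card_step (by omega)).trans (W.card_step (by omega))
  have htel := WIso_tel (fun i => #(W.Wd i)) k hmono
  have hB1 : #(W.Wd (k + 1)) ≤ #(W.Wd (k + 2)) := W.card_le (by omega)
  have hB2 : #(W.Wd k) ≤ #(W.Wd (k + 2)) := W.card_le (by omega)
  calc _ ≤ #((range k).biUnion fun i => S (i + 2)) := Finset.card_le_card hcov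
    _ ≤ ∑ i ∈ range k, #(S (i + 2)) := Finset.card_biUnion_le
    _ ≤ ∑ i ∈ range k, 2 * (#(W.Wd (i + 2)) - #(W.Wd i)) :=
        Finset.sum_le_sum fun i hi => hSi i (Finset.mem_range.mp hi)
    _ = 2 * ∑ i ∈ range k, (#(W.Wd (i + 2)) - #(W.Wd i)) := by rw [Finset.mul_sum]
    _ ≤ 4 * #(W.Wd (k + 2)) := by omega

end Pool.Agent.DCA
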