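import Pool.Agent.Lib.DCA.TDefs

/-!
# Trees: few points are in classes with few points of `W`

PROOF. Call the level `j ≤ J` bad for `v` if `P * #{u ∈ W | nd j u = nd j v} < #(cls V nd j (nd j v))`; it depends only on the class of `v` at level `j`.
For a bad `v ∈ W` let `j v` be its largest bad level and `C v = cls V nd (j v) (nd (j v) v)`. If `C u` and `C v` intersect then `C u = C v`: let `j u ≤ j v`; as the classes are nested
`nd (j v) u = nd (j v) v`, so `j v` is bad for `u`, `j v ≤ j u`, so `j u = j v` and the classes are equal. So `∑` over the different pairs `(j v, nd (j v) v)` of `#C` is at most `#V`, and for each of these classes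
`P * #{bad u with this pair} ≤ P * #(W ∩ C) ≤ #C`. Sum (`Finset.card_eq_sum_card_fiberwise` with the map `v ↦ (j v, nd (j v) v)`).
-/

set_option autoImplicit false

open Finset

namespace Pool.Agent.DCA

variable {V : Finset ℕ} {nd : ℕ → ℕ → ℕ}

private theorem TRho_up (hn : Nested V nd) {u v : ℕ} (hu : u ∈ V) (hv : v ∈ V) {i j : ℕ}
    (hij : i ≤ j) (h : nd i u = nd i v) : nd j u = nd j v := by
  induction j, hij using Nat.le_induction with
  | base => exact h
  | succ k _ ih => exact hn k u hu v hv ih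

open Classical in
theorem rho_bad (hn : Nested V nd) (W : Finset ℕ) (hW : W ⊆ V) (J P : ℕ) :
    P * #{v ∈ W | ∃ j ≤ J, P * #{u ∈ W | nd j u = nd j v} < #(cls V nd j (nd j v))} ≤ #V := by
  set bad : ℕ → ℕ → Prop := fun v j =>
    P * #{u ∈ W | nd j u = nd j v} < #(cls V nd j (nd j v)) with hbad
  set Bs : Finset ℕ := {v ∈ W | ∃ j ≤ J, bad v j} with hBs
  have hBs' : ∀ v ∈ Bs, v ∈ W ∧ bad v (Nat.findGreatest (bad v) J) := by
    intro v hv
    rw [hBs, mem_filter] at hv
    obtain ⟨hvW, j, hj, hb⟩ := hv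
    exact ⟨hvW, Nat.findGreatest_spec hj hb⟩
  have hcong : ∀ u v j, nd j u = nd j v → bad v j → bad u j := by
    intro u v j h hb
    simp only [hbad] at hb ⊢
    rw [h]
    exact hb
  set key : ℕ → ℕ × ℕ := fun v =>
    (Nat.findGreatest (bad v) J, nd (Nat.findGreatest (bad v) J) v) with hkey
  have hdis : ∀ u ∈ Bs, ∀ v ∈ Bs, ∀ x, x ∈ cls V nd (key u).1 (key u).2 →
      x ∈ cls V nd (key v).1 (key v).2 → (key u).1 ≤ (key v).1 → key u = key v := by
    intro u hu v hv x hxu hxv hle
    unfold cls at hxu hxv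
    rw [mem_filter] at hxu hxv
    simp only [hkey] at hxu hxv hle ⊢
    have h1 := TRho_up hn hxu.1 (hW (hBs' u hu).1) hle hxu.2
    have h2 : nd (Nat.findGreatest (bad v) J) u = nd (Nat.findGreatest (bad v) J) v :=
      h1.symm.trans hxv.2
    have h3 := hcong u v _ h2 (hBs' v hv).2
    have h4 : Nat.findGreatest (bad v) J ≤ Nat.findGreatest (bad u) J :=
      Nat.le_findGreatest (Nat.findGreatest_le J) h3
    have h5 : Nat.findGreatest (bad u) J = Nat.findGreatest (bad v) J := le_antisymm hle h4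
    refine Prod.ext h5 ?_
    show nd (Nat.findGreatest (bad u) J) u = nd (Nat.findGreatest (bad v) J) v
    rw [h5, h2]
  have hsum : ∑ s ∈ Bs.image key, #(cls V nd s.1 s.2) ≤ #V := by
    rw [← card_biUnion]
    · refine card_le_card ?_
      intro x hx
      rw [mem_biUnion] at hx
      obtain ⟨s, -, hx⟩ := hx
      exact (mem_filter.1 hx).1
    · intro s hs s' hs' hne
      rw [Function.onFun, Finset.disjoint_left]
      intro x hx hx'
      obtain ⟨u, hu, rfl⟩ := mem_image.1 (mem_coe.1 hs)
      obtain ⟨v, hv, rfl⟩ := mem_image.1 (mem_coe.1 hs')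
      rcases le_total (key u).1 (key v).1 with h | h
      · exact hne (hdis u hu v hv x hx hx' h)
      · exact hne (hdis v hv u hu x hx' hx h).symm
  have hcard : #Bs = ∑ s ∈ Bs.image key, #{v ∈ Bs | key v = s} := by
    rw [card_eq_sum_card_image key]
  rw [hcard, mul_sum]
  refine le_trans (sum_le_sum fun s hs => ?_) hsum
  obtain ⟨v, hv, rfl⟩ := mem_image.1 hs
  refine le_trans (Nat.mul_le_mul_left P (card_le_card ?_)) (hBs' v hv).2.le
  intro u hu
  rw [mem_filter] at hu ⊢
  obtain ⟨huB, huk⟩ := hu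
  refine ⟨(hBs' u huB).1, ?_⟩
  simp only [hkey, Prod.mk.injEq] at huk
  rw [← huk.1]
  rw [huk.2, huk.1]

end Pool.Agent.DCA
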