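import Pool.Agent.Lib.DCA.WDefs

/-!
# Windows: the chains of the top window

`V' = Wd B`, `starts V' ρ`, `pfst` (Lib/DC3/Clean: `mem_starts`, `P_mem`, `P_start`, `P_bound`, `le_pfst`, `pfst_mem`).
`nested`: `starts V' (g K ^ (j+1)) ⊆ starts V' (g K ^ j)` (`1 ≤ K`). For `v ∈ V'`: `nd (j+1) v` is a start at level `j`, `≤ v`, so `≤ nd j v`; so `nd (j+1) v = pfst (starts … (j+1)) (nd j v)`
(largest element `≤ nd j v` of the starts at level `j + 1`; both inequalities by `le_pfst`), a function of `nd j v`.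
`nd_le`: `P_bound` with `#V' ≤ #V ≤ m`: both points are in `[c, c + m g K ^ j]`, `c` the common value.
`nd_ge`: let `nd j u < nd j v` (or the converse). `nd j v` is a start. If `nd j v ≤ u` then `nd j v ≤ nd j u` by `le_pfst`: contradiction. So `u < nd j v ≤ v`; by `mem_starts` no element of `V'` is in
`[nd j v - g K ^ j, nd j v)`: `u + g K ^ j < nd j v ≤ v`.
-/

set_option autoImplicit false

open Finset

namespace Pool.Agent.DCA

open Pool.Agent.DC3

variable {p m K r g δ B D₁ : ℕ}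

private theorem WNd_gt {V : Finset ℕ} {ρ u v : ℕ} (hu : u ∈ V) (hv : v ∈ V)
    (h : pfst (starts V ρ) u < pfst (starts V ρ) v) : u + ρ < v := by
  obtain ⟨h1, h2⟩ := P_mem (r := ρ) hv
  have h3 : u < pfst (starts V ρ) v := by
    by_contra hcon
    have := le_pfst h1 (not_lt.mp hcon)
    omega
  have h4 := (mem_starts.mp h1).2 u hu
  omega

theorem Win.nested (W : Win p m K r g δ B D₁) (hK : 1 ≤ K) : Nested (W.Wd B) W.nd := by
  intro j
  have hsub : ∀ x ∈ starts (W.Wd B) (g * K ^ (j + 1)), x ∈ starts (W.Wd B) (g * K ^ j) := by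
    intro x hx
    obtain ⟨h1, h2⟩ := mem_starts.mp hx
    have hle : g * K ^ j ≤ g * K ^ (j + 1) :=
      Nat.mul_le_mul_left g (Nat.pow_le_pow_right hK (Nat.le_succ j))
    refine mem_starts.mpr ⟨h1, fun a ha => ?_⟩
    have := h2 a ha
    omega
  have key : ∀ v ∈ W.Wd B, W.nd (j + 1) v =
      pfst (starts (W.Wd B) (g * K ^ (j + 1))) (W.nd j v) := by
    intro v hv
    obtain ⟨a1, a2⟩ := P_mem (r := g * K ^ (j + 1)) hv
    obtain ⟨b1, b2⟩ := P_mem (r := g * K ^ j) hv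
    have c1 : pfst (starts (W.Wd B) (g * K ^ (j + 1))) v ≤
        pfst (starts (W.Wd B) (g * K ^ j)) v := le_pfst (hsub _ a1) a2
    have c2 : pfst (starts (W.Wd B) (g * K ^ (j + 1))) v ≤
        pfst (starts (W.Wd B) (g * K ^ (j + 1))) (pfst (starts (W.Wd B) (g * K ^ j)) v) :=
      le_pfst a1 c1
    obtain ⟨d1, d2⟩ := pfst_mem a1 c1
    have c3 : pfst (starts (W.Wd B) (g * K ^ (j + 1)))
        (pfst (starts (W.Wd B) (g * K ^ j)) v) ≤
        pfst (starts (W.Wd B) (g * K ^ (j + 1))) v := le_pfst d1 (d2.trans b2)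
    exact le_antisymm c2 c3
  intro u hu v hv h
  rw [key u hu, key v hv, h]

theorem Win.nd_le (W : Win p m K r g δ B D₁) (j : ℕ) {u v : ℕ} (hu : u ∈ W.Wd B)
    (hv : v ∈ W.Wd B) (h : W.nd j u = W.nd j v) : |(u : ℤ) - v| ≤ m * (g * K ^ j) := by
  have hc : #(W.Wd B) ≤ m :=
    (Finset.card_le_card (Finset.filter_subset _ _)).trans W.cardV
  have h1 := P_bound hc (g * K ^ j) hu
  have h2 := P_bound hc (g * K ^ j) hv
  have h3 := (P_mem (r := g * K ^ j) hu).2
  have h4 := (P_mem (r := g * K ^ j) hv).2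
  unfold Win.nd at h
  have e : ((m * (g * K ^ j) : ℕ) : ℤ) = m * (g * K ^ j) := by push_cast; ring
  rw [← e, abs_le]
  constructor <;> omega

theorem Win.nd_ge (W : Win p m K r g δ B D₁) (j : ℕ) {u v : ℕ} (hu : u ∈ W.Wd B)
    (hv : v ∈ W.Wd B) (h : W.nd j u ≠ W.nd j v) : ((g * K ^ j : ℕ) : ℤ) < |(u : ℤ) - v| := by
  unfold Win.nd at h
  rw [lt_abs]
  rcases lt_or_gt_of_ne h with h1 | h1
  · right
    have := WNd_gt hu hv h1
    omega
  · left
    have := WNd_gt hv hu h1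
    omega

end Pool.Agent.DCA
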