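import Pool.Agent.Lib.DCA.WPi
import Pool.Agent.Lib.DCA.WNd
import Pool.Agent.Lib.DCA.TRho

/-!
# Windows: few points in classes with few points of their window

PROOF. Sum over the windows `i ≤ B` (`mem_Wd`). For `x ∈ Wd i`, `s = B - i`: `rho_bad` with `V = Wd B`, `W = (Wd i).image pi` (a subset of `Wd B`, `pi_mem`), `J = B`: if `q < i` and `P * nn x q < #(cls …)` then
`j = q + s ≤ B` is a bad level of `pi x`, since `nn x q = #{u ∈ (Wd i).image pi | nd j u = nd j (pi x)}` (`pi_inj`). `pi` is injective on `Wd i`, so `P * #{x ∈ Wd i | …} ≤ #(Wd B)`.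
-/

set_option autoImplicit false

open Finset

namespace Pool.Agent.DCA

variable {p m K r g δ B D₁ : ℕ}

private theorem WRho_one (W : Win p m K r g δ B D₁) (P i : ℕ) (hi : i ≤ B) (S : Finset ℕ)
    (hS : ∀ x ∈ S, x ∈ W.Wd i ∧ ∃ q < wi K g x, P * W.nn x q <
      #(cls (W.Wd B) W.nd (q + (B - wi K g x)) (W.nd (q + (B - wi K g x)) (W.pi x)))) :
    P * #S ≤ #(W.Wd B) := by
  classical
  have hK : 1 ≤ K := by
    have := W.K_ge
    omega
  have hinj : Set.InjOn W.pi (W.Wd i : Set ℕ) := by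
    intro x hx y hy h
    exact W.pi_inj hi (mem_coe.1 hx) (mem_coe.1 hy) h
  have hsub : (W.Wd i).image W.pi ⊆ W.Wd B := by
    intro u hu
    obtain ⟨x, hx, rfl⟩ := mem_image.1 hu
    exact W.pi_mem hi hx
  have hcard : #S = #(S.image W.pi) := by
    rw [card_image_of_injOn]
    intro x hx y hy h
    exact hinj (mem_coe.2 (hS x (mem_coe.1 hx)).1) (mem_coe.2 (hS y (mem_coe.1 hy)).1) h
  rw [hcard]
  refine le_trans (Nat.mul_le_mul_left P (card_le_card ?_))
    (rho_bad (W.nested hK) ((W.Wd i).image W.pi) hsub B P)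
  intro u hu
  obtain ⟨x, hx, rfl⟩ := mem_image.1 hu
  obtain ⟨hxW, q, hq, hb⟩ := hS x hx
  have hwi : wi K g x = i := W.wi_mem hxW
  rw [mem_filter]
  refine ⟨mem_image_of_mem _ hxW, q + (B - i), ?_, ?_⟩
  · rw [hwi] at hq
    omega
  · rw [Win.nn] at hb
    rw [hwi] at hb
    refine lt_of_le_of_lt (Nat.mul_le_mul_left P (le_of_eq ?_)) hb
    rw [filter_image, card_image_of_injOn]
    intro a ha b hb' h
    rw [coe_filter] at ha hb'
    exact hinj (mem_coe.2 ha.1) (mem_coe.2 hb'.1) h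

open Classical in
theorem Win.rho (W : Win p m K r g δ B D₁) (P : ℕ) :
    P * #{x ∈ W.U | g ≤ x ∧ ∃ q < wi K g x, P * W.nn x q <
      #(cls (W.Wd B) W.nd (q + (B - wi K g x)) (W.nd (q + (B - wi K g x)) (W.pi x)))} ≤
      (B + 1) * #(W.Wd B) := by
  have hmaps : ∀ x ∈ ({x ∈ W.U | g ≤ x ∧ ∃ q < wi K g x, P * W.nn x q <
      #(cls (W.Wd B) W.nd (q + (B - wi K g x)) (W.nd (q + (B - wi K g x)) (W.pi x)))} :
      Finset ℕ), wi K g x ∈ range (B + 1) := by
    intro x hx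
    rw [mem_filter] at hx
    rw [mem_range]
    exact Nat.lt_succ_of_le (W.mem_Wd hx.1 hx.2.1).2
  rw [card_eq_sum_card_fiberwise hmaps, mul_sum]
  refine le_trans (sum_le_card_nsmul (range (B + 1)) _ (#(W.Wd B)) ?_) ?_
  · intro i hi
    refine WRho_one W P i (Nat.le_of_lt_succ (mem_range.1 hi)) _ ?_
    intro x hx
    rw [mem_filter, mem_filter] at hx
    obtain ⟨⟨hxU, hgx, hb⟩, hwi⟩ := hx
    refine ⟨?_, hb⟩
    rw [← hwi]
    exact (W.mem_Wd hxU hgx).1
  · rw [card_range, smul_eq_mul]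

end Pool.Agent.DCA
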