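import Pool.Agent.Lib.DCA.TCount

/-!
# Trees: light levels are rare and spread

`light_one`. PROOF. For a fixed level `j`: sum over the classes `c` (values of `nd j` on `V`) with `Y * lp c < #(cls c)`: the `v` counted in the class `c` are in its light
part, so there are at most `lp c` of them and `Y * lp c ≤ #(cls c)`; `∑_c #(cls c) = #V` (`Finset.card_eq_sum_card_fiberwise`).
`light_two`. PROOF. It is enough to show for every `i` with `1 ≤ i ≤ 6`: `Y * #{v ∈ V | ∃ j' , j' + i ∈ Lt v, j' ∈ Lt v, Y * lp j' < #cls j'} ≤ (log₂ #V) * #V`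
(six values of `i = j - j'`). For fixed `i` and `j'`: whether `j' + i ∈ Lt v` depends only on `nd (j' + i - 1) v` (and `nd (j'+i) v`, which is a function of it on `V` by `Nested`),
so only on the class of `v` at level `j'` (`Nested`, `j' + i - 1 ≥ j'`). For a class `c` at level `j'` whose elements have `j' + i` as a light level: the elements with `j' ∈ Lt`, `Y * lp < #cls` are at most
`lp c`, `Y * lp c ≤ #(cls c)`. Sum over `c`: `Y * #{…}_(j') ≤ #{v ∈ V | j' + i ∈ Lt v}`. Sum over `j'`: `≤ ∑_v #(Lt v) ≤ #V * log₂ #V` (`Lt_log`).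
-/

set_option autoImplicit false

open Finset

namespace Pool.Agent.DCA

variable {V : Finset ℕ} {nd : ℕ → ℕ → ℕ}

private theorem TSpread_lp {j : ℕ} {c : ℕ} (A : Finset ℕ) (hA : ∀ v ∈ A, v ∈ V ∧ nd j v = c ∧
    nd (j - 1) v ≠ hvc V nd j c) : #A ≤ lp V nd j c := by
  apply card_le_card
  intro v hv
  obtain ⟨h1, h2, h3⟩ := hA v hv
  exact mem_filter.2 ⟨mem_filter.2 ⟨h1, h2⟩, h3⟩

private theorem TSpread_nest (hn : Nested V nd) {u v : ℕ} (hu : u ∈ V) (hv : v ∈ V) {j : ℕ}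
    (h : nd j u = nd j v) (k : ℕ) : nd (j + k) u = nd (j + k) v := by
  induction k with
  | zero => exact h
  | succ k ih => exact hn (j + k) u hu v hv ih

open Classical in
theorem light_one (J Y j : ℕ) :
    Y * #{v ∈ V | j ∈ Lt V nd J v ∧ Y * lp V nd j (nd j v) < #(cls V nd j (nd j v))} ≤ #V := by
  set A : Finset ℕ := {v ∈ V | j ∈ Lt V nd J v ∧ Y * lp V nd j (nd j v) <
    #(cls V nd j (nd j v))} with hA
  have h1 : #A = ∑ c ∈ V.image (nd j), #{v ∈ A | nd j v = c} := by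
    apply card_eq_sum_card_fiberwise
    intro v hv
    exact mem_coe.2 (mem_image_of_mem _ (mem_filter.1 (mem_coe.1 hv)).1)
  have h2 : #V = ∑ c ∈ V.image (nd j), #{v ∈ V | nd j v = c} := by
    apply card_eq_sum_card_fiberwise
    intro v hv
    exact mem_coe.2 (mem_image_of_mem _ (mem_coe.1 hv))
  rw [h1, h2, mul_sum]
  apply sum_le_sum
  intro c _
  rcases Finset.eq_empty_or_nonempty ({v ∈ A | nd j v = c} : Finset ℕ) with h | h
  · rw [h]
    simp
  · obtain ⟨v, hv⟩ := h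
    rw [mem_filter] at hv
    obtain ⟨hvA, hvc⟩ := hv
    have hv2 := (mem_filter.1 hvA).2.2
    rw [hvc] at hv2
    have h3 : #{v ∈ A | nd j v = c} ≤ lp V nd j c := by
      apply TSpread_lp
      intro u hu
      rw [mem_filter] at hu
      obtain ⟨huA, huc⟩ := hu
      have hu2 := mem_filter.1 huA
      have hu3 := (mem_filter.1 hu2.2.1).2
      rw [huc] at hu3
      exact ⟨hu2.1, huc, hu3⟩
    exact le_trans (Nat.mul_le_mul_left _ h3) hv2.le

open Classical in
private theorem TSpread_pair (hn : Nested V nd) (J Y i j' : ℕ) (hi : 1 ≤ i) :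
    Y * #{v ∈ V | j' + i ∈ Lt V nd J v ∧ j' ∈ Lt V nd J v ∧
      Y * lp V nd j' (nd j' v) < #(cls V nd j' (nd j' v))} ≤
    #{v ∈ V | j' + i ∈ Lt V nd J v} := by
  set A : Finset ℕ := {v ∈ V | j' + i ∈ Lt V nd J v ∧ j' ∈ Lt V nd J v ∧
      Y * lp V nd j' (nd j' v) < #(cls V nd j' (nd j' v))} with hA
  have h1 : #A = ∑ c ∈ V.image (nd j'), #{v ∈ A | nd j' v = c} := by
    apply card_eq_sum_card_fiberwise
    intro v hv
    exact mem_coe.2 (mem_image_of_mem _ (mem_filter.1 (mem_coe.1 hv)).1)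
  have h2 : #{v ∈ V | j' + i ∈ Lt V nd J v} =
      ∑ c ∈ V.image (nd j'), #{v ∈ ({v ∈ V | j' + i ∈ Lt V nd J v} : Finset ℕ) |
        nd j' v = c} := by
    apply card_eq_sum_card_fiberwise
    intro v hv
    exact mem_coe.2 (mem_image_of_mem _ (mem_filter.1 (mem_coe.1 hv)).1)
  rw [h1, h2, mul_sum]
  apply sum_le_sum
  intro c _
  rcases Finset.eq_empty_or_nonempty ({v ∈ A | nd j' v = c} : Finset ℕ) with h | h
  · rw [h]
    simp
  · obtain ⟨v, hv⟩ := h
    rw [mem_filter] at hv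
    obtain ⟨hvA, hvc⟩ := hv
    have hv1 := mem_filter.1 hvA
    have hv2 := hv1.2.2.2
    rw [hvc] at hv2
    have h3 : #{v ∈ A | nd j' v = c} ≤ lp V nd j' c := by
      apply TSpread_lp
      intro u hu
      rw [mem_filter] at hu
      obtain ⟨huA, huc⟩ := hu
      have hu2 := mem_filter.1 huA
      have hu3 := (mem_filter.1 hu2.2.2.1).2
      rw [huc] at hu3
      exact ⟨hu2.1, huc, hu3⟩
    have h4 : cls V nd j' c ⊆ {v ∈ ({v ∈ V | j' + i ∈ Lt V nd J v} : Finset ℕ) |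
        nd j' v = c} := by
      intro u hu
      obtain ⟨huV, huc⟩ := mem_filter.1 hu
      refine mem_filter.2 ⟨mem_filter.2 ⟨huV, ?_⟩, huc⟩
      have huv : nd j' u = nd j' v := by rw [huc, hvc]
      have e1 : nd (j' + i - 1) u = nd (j' + i - 1) v := by
        have := TSpread_nest hn huV hv1.1 huv (i - 1)
        have h5 : j' + (i - 1) = j' + i - 1 := by omega
        rw [h5] at this
        exact this
      have e2 : nd (j' + i) u = nd (j' + i) v := TSpread_nest hn huV hv1.1 huv i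
      have h6 := mem_filter.1 hv1.2.1
      refine mem_filter.2 ⟨h6.1, ?_⟩
      rw [e1, e2]
      exact h6.2
    exact le_trans (Nat.mul_le_mul_left _ h3) (le_trans hv2.le (card_le_card h4))

open Classical in
theorem light_two (hn : Nested V nd) (J Y : ℕ) :
    Y * #{v ∈ V | ∃ j ∈ Lt V nd J v, ∃ j' ∈ Lt V nd J v, j' < j ∧ j ≤ j' + 6 ∧
      Y * lp V nd j' (nd j' v) < #(cls V nd j' (nd j' v))} ≤ 6 * (Nat.log 2 #V * #V) := by
  have hsub : ({v ∈ V | ∃ j ∈ Lt V nd J v, ∃ j' ∈ Lt V nd J v, j' < j ∧ j ≤ j' + 6 ∧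
      Y * lp V nd j' (nd j' v) < #(cls V nd j' (nd j' v))} : Finset ℕ) ⊆
      (Icc 1 6).biUnion (fun i => (Icc 1 J).biUnion (fun j' =>
        {v ∈ V | j' + i ∈ Lt V nd J v ∧ j' ∈ Lt V nd J v ∧
          Y * lp V nd j' (nd j' v) < #(cls V nd j' (nd j' v))})) := by
    intro v hv
    obtain ⟨hvV, j, hj, j', hj', hlt, hle, hY⟩ := mem_filter.1 hv
    rw [mem_biUnion]
    refine ⟨j - j', mem_Icc.2 ⟨by omega, by omega⟩, ?_⟩
    rw [mem_biUnion]
    refine ⟨j', (mem_filter.1 hj').1, mem_filter.2 ⟨hvV, ?_, hj', hY⟩⟩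
    have : j' + (j - j') = j := by omega
    rw [this]
    exact hj
  have hone : ∀ i ∈ Icc 1 6, Y * #((Icc 1 J).biUnion (fun j' =>
        {v ∈ V | j' + i ∈ Lt V nd J v ∧ j' ∈ Lt V nd J v ∧
          Y * lp V nd j' (nd j' v) < #(cls V nd j' (nd j' v))})) ≤ Nat.log 2 #V * #V := by
    intro i hi
    have hi1 : 1 ≤ i := (mem_Icc.1 hi).1
    calc Y * #((Icc 1 J).biUnion (fun j' =>
        {v ∈ V | j' + i ∈ Lt V nd J v ∧ j' ∈ Lt V nd J v ∧
          Y * lp V nd j' (nd j' v) < #(cls V nd j' (nd j' v))}))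
        ≤ Y * ∑ j' ∈ Icc 1 J, #{v ∈ V | j' + i ∈ Lt V nd J v ∧ j' ∈ Lt V nd J v ∧
          Y * lp V nd j' (nd j' v) < #(cls V nd j' (nd j' v))} :=
          Nat.mul_le_mul_left _ card_biUnion_le
      _ = ∑ j' ∈ Icc 1 J, Y * #{v ∈ V | j' + i ∈ Lt V nd J v ∧ j' ∈ Lt V nd J v ∧
          Y * lp V nd j' (nd j' v) < #(cls V nd j' (nd j' v))} := by rw [mul_sum]
      _ ≤ ∑ j' ∈ Icc 1 J, #{v ∈ V | j' + i ∈ Lt V nd J v} :=
          sum_le_sum fun j' _ => TSpread_pair hn J Y i j' hi1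
      _ = ∑ v ∈ V, #{j' ∈ Icc 1 J | j' + i ∈ Lt V nd J v} := by
          simp_rw [card_filter]
          exact sum_comm
      _ ≤ ∑ _v ∈ V, Nat.log 2 #V := by
          apply sum_le_sum
          intro v hv
          refine le_trans ?_ (Lt_log hn J hv)
          apply card_le_card_of_injOn (fun j' : ℕ => j' + i)
          · intro j' hj'
            exact mem_coe.2 (mem_filter.1 (mem_coe.1 hj')).2
          · intro a _ b _ hab
            simp only at hab
            omega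
      _ = Nat.log 2 #V * #V := by rw [sum_const, smul_eq_mul, mul_comm]
  calc _ ≤ Y * #((Icc 1 6).biUnion (fun i => (Icc 1 J).biUnion (fun j' =>
        {v ∈ V | j' + i ∈ Lt V nd J v ∧ j' ∈ Lt V nd J v ∧
          Y * lp V nd j' (nd j' v) < #(cls V nd j' (nd j' v))}))) :=
        Nat.mul_le_mul_left _ (card_le_card hsub)
    _ ≤ Y * ∑ i ∈ Icc 1 6, #((Icc 1 J).biUnion (fun j' =>
        {v ∈ V | j' + i ∈ Lt V nd J v ∧ j' ∈ Lt V nd J v ∧
          Y * lp V nd j' (nd j' v) < #(cls V nd j' (nd j' v))})) :=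
        Nat.mul_le_mul_left _ card_biUnion_le
    _ = ∑ i ∈ Icc 1 6, Y * #((Icc 1 J).biUnion (fun j' =>
        {v ∈ V | j' + i ∈ Lt V nd J v ∧ j' ∈ Lt V nd J v ∧
          Y * lp V nd j' (nd j' v) < #(cls V nd j' (nd j' v))})) := by rw [mul_sum]
    _ ≤ ∑ _i ∈ Icc 1 6, Nat.log 2 #V * #V := sum_le_sum hone
    _ = 6 * (Nat.log 2 #V * #V) := by
        rw [sum_const, Nat.card_Icc, smul_eq_mul]

end Pool.Agent.DCA
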