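import Pool.Agent.Lib.DCA.WPi
import Pool.Agent.Lib.DCA.WNd
import Pool.Agent.Lib.DCA.TSpread

/-!
# Windows: light levels are spread

PROOF. Sum over the windows `i ≤ B` (`mem_Wd`); let `x ∈ Wd i`, `s = B - i`, `v = pi x`, `a < b ≤ a + 6` in `L x \ H (y^e) x`. `b ≤ wi x = i`, so `a < i`: `a + s ∈ Lt v` and not `Rich (y^(e+1)) x a`, that is
`y^(e+1) * lp < #cls` at the level `j' = a + s`. (1) `b = i`: `a ∈ [i - 6, i)`, for each of the at most `6` values of `a`: `light_one` at `j' = a + s` for `V = Wd B` (`pi` is injective on `Wd i` with values in `Wd B`):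
`y^(e+1) * # ≤ #(Wd B)`. (2) `b < i`: `b + s ∈ Lt v`, `light_two`: `y^(e+1) * # ≤ 6 * (log₂ #(Wd B) * #(Wd B))`. Together `≤ (6 + 6 log₂ m) * #(Wd B)` for each `i`.
-/

set_option autoImplicit false

open Finset

namespace Pool.Agent.DCA

variable {p m K r g δ B D₁ : ℕ}

open Classical in
private theorem WSpr_fib (W : Win p m K r g δ B D₁) (Y i : ℕ) (hi : i ≤ B) (S : Finset ℕ)
    (hS : ∀ x ∈ S, x ∈ W.Wd i ∧ ∃ a b, 1 ≤ a ∧ a < b ∧ b ≤ a + 6 ∧ b ≤ i ∧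
      a + (B - i) ∈ Lt (W.Wd B) W.nd B (W.pi x) ∧
      (b = i ∨ b + (B - i) ∈ Lt (W.Wd B) W.nd B (W.pi x)) ∧
      Y * lp (W.Wd B) W.nd (a + (B - i)) (W.nd (a + (B - i)) (W.pi x)) <
        #(cls (W.Wd B) W.nd (a + (B - i)) (W.nd (a + (B - i)) (W.pi x)))) :
    Y * #S ≤ (6 + 6 * Nat.log 2 m) * #(W.Wd B) := by
  have hK1 : 1 ≤ K := by
    have := W.K_ge
    omega
  have hn := W.nested hK1
  set A : ℕ → Finset ℕ := fun k => {v ∈ W.Wd B | B - k ∈ Lt (W.Wd B) W.nd B v ∧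
    Y * lp (W.Wd B) W.nd (B - k) (W.nd (B - k) v) <
      #(cls (W.Wd B) W.nd (B - k) (W.nd (B - k) v))} with hA
  set A' : Finset ℕ := {v ∈ W.Wd B | ∃ j ∈ Lt (W.Wd B) W.nd B v,
    ∃ j' ∈ Lt (W.Wd B) W.nd B v, j' < j ∧ j ≤ j' + 6 ∧
      Y * lp (W.Wd B) W.nd j' (W.nd j' v) < #(cls (W.Wd B) W.nd j' (W.nd j' v))} with hA'
  have hsub : S.image W.pi ⊆ ((Icc 1 6).biUnion A) ∪ A' := by
    intro v hv
    obtain ⟨x, hx, rfl⟩ := mem_image.1 hv
    obtain ⟨hxi, a, b, ha1, hab, hb6, hbi, haL, hb, hlt⟩ := hS x hx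
    have hpi := W.pi_mem hi hxi
    rcases hb with hb | hb
    · rw [mem_union]
      left
      rw [mem_biUnion]
      refine ⟨i - a, mem_Icc.2 ⟨by omega, by omega⟩, ?_⟩
      have e : B - (i - a) = a + (B - i) := by omega
      rw [hA]
      simp only [mem_filter]
      rw [e]
      exact ⟨hpi, haL, hlt⟩
    · rw [mem_union]
      right
      rw [hA']
      simp only [mem_filter]
      exact ⟨hpi, b + (B - i), hb, a + (B - i), haL, by omega, by omega, hlt⟩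
  have hcard : #S ≤ ∑ k ∈ Icc 1 6, #(A k) + #A' := by
    have h1 : #(S.image W.pi) = #S := by
      apply card_image_of_injOn
      intro x hx y hy hxy
      exact W.pi_inj hi (hS x (mem_coe.1 hx)).1 (hS y (mem_coe.1 hy)).1 hxy
    rw [← h1]
    refine (card_le_card hsub).trans ((card_union_le _ _).trans ?_)
    exact Nat.add_le_add_right card_biUnion_le _
  have hone : ∀ k ∈ Icc 1 6, Y * #(A k) ≤ #(W.Wd B) := by
    intro k _
    exact light_one B Y (B - k)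
  have htwo : Y * #A' ≤ 6 * (Nat.log 2 #(W.Wd B) * #(W.Wd B)) := light_two hn B Y
  have hVm : #(W.Wd B) ≤ m := (card_le_card (filter_subset _ _)).trans W.cardV
  have hlog : Nat.log 2 #(W.Wd B) ≤ Nat.log 2 m := Nat.log_mono_right hVm
  have hsum : ∑ k ∈ Icc 1 6, Y * #(A k) ≤ 6 * #(W.Wd B) := by
    refine (sum_le_sum hone).trans ?_
    rw [sum_const, Nat.card_Icc, smul_eq_mul]
  calc Y * #S ≤ Y * (∑ k ∈ Icc 1 6, #(A k) + #A') := Nat.mul_le_mul_left _ hcard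
    _ = ∑ k ∈ Icc 1 6, Y * #(A k) + Y * #A' := by rw [mul_add, mul_sum]
    _ ≤ 6 * #(W.Wd B) + 6 * (Nat.log 2 #(W.Wd B) * #(W.Wd B)) := Nat.add_le_add hsum htwo
    _ ≤ 6 * #(W.Wd B) + 6 * (Nat.log 2 m * #(W.Wd B)) :=
        Nat.add_le_add_left (Nat.mul_le_mul_left _ (Nat.mul_le_mul_right _ hlog)) _
    _ = (6 + 6 * Nat.log 2 m) * #(W.Wd B) := by ring

open Classical in
theorem Win.spr (W : Win p m K r g δ B D₁) (y e : ℕ) :
    y ^ (e + 1) * #{x ∈ W.U | g ≤ x ∧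
      (∀ q ∈ W.L x \ W.H (y ^ e) x, q < wi K g x → ¬ W.Rich (y ^ (e + 1)) x q) ∧
      ∃ a ∈ W.L x \ W.H (y ^ e) x, ∃ b ∈ W.L x \ W.H (y ^ e) x, a < b ∧ b ≤ a + 6} ≤
      (B + 1) * ((6 + 6 * Nat.log 2 m) * #(W.Wd B)) := by
  set S : Finset ℕ := {x ∈ W.U | g ≤ x ∧
      (∀ q ∈ W.L x \ W.H (y ^ e) x, q < wi K g x → ¬ W.Rich (y ^ (e + 1)) x q) ∧
      ∃ a ∈ W.L x \ W.H (y ^ e) x, ∃ b ∈ W.L x \ W.H (y ^ e) x, a < b ∧ b ≤ a + 6} with hSdef
  have hmem : ∀ x ∈ S, x ∈ W.U ∧ g ≤ x ∧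
      (∀ q ∈ W.L x \ W.H (y ^ e) x, q < wi K g x → ¬ W.Rich (y ^ (e + 1)) x q) ∧
      ∃ a ∈ W.L x \ W.H (y ^ e) x, ∃ b ∈ W.L x \ W.H (y ^ e) x, a < b ∧ b ≤ a + 6 := by
    intro x hx
    rw [hSdef] at hx
    exact mem_filter.1 hx
  have hfib : #S = ∑ i ∈ range (B + 1), #{x ∈ S | wi K g x = i} := by
    apply card_eq_sum_card_fiberwise
    intro x hx
    have h1 := hmem x (mem_coe.1 hx)
    have h2 := (W.mem_Wd h1.1 h1.2.1).2
    simp only [coe_range, Set.mem_Iio]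
    omega
  rw [hfib, mul_sum]
  have hmain : ∀ i ∈ range (B + 1), y ^ (e + 1) * #{x ∈ S | wi K g x = i} ≤
      (6 + 6 * Nat.log 2 m) * #(W.Wd B) := by
    intro i hi
    rw [mem_range] at hi
    apply WSpr_fib W (y ^ (e + 1)) i (by omega)
    intro x hx
    rw [mem_filter] at hx
    obtain ⟨hxS, hxi⟩ := hx
    obtain ⟨hU, hg, hR, a, ha, b, hb, hab, hb6⟩ := hmem x hxS
    have hW := (W.mem_Wd hU hg).1
    have haL := (mem_sdiff.1 ha).1
    have hbL := (mem_sdiff.1 hb).1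
    have haL' := haL
    have hbL' := hbL
    rw [Win.L, mem_filter, mem_Icc] at haL' hbL'
    have hai : a < wi K g x := by omega
    have hr := hR a ha hai
    rw [Win.Rich] at hr
    rw [hxi] at hW haL' hbL' hr hai
    have haLt : a + (B - i) ∈ Lt (W.Wd B) W.nd B (W.pi x) := by
      rcases haL'.2 with h | h
      · omega
      · exact h
    exact ⟨hW, a, b, haL'.1.1, hab, hb6, hbL'.1.2, haLt, hbL'.2, Nat.lt_of_not_le hr⟩
  refine (sum_le_sum hmain).trans ?_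
  rw [sum_const, card_range, smul_eq_mul]

end Pool.Agent.DCA
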