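import Pool.Agent.Lib.DCA.WSmall
import Pool.Agent.Lib.DCA.WIso
import Pool.Agent.Lib.DCA.WRho
import Pool.Agent.Lib.DCA.WSpr

/-!
# Windows: most points are fine

PROOF. Put `X = #(Wd B)`, `u = #U`. A point of `U \ F` is (1) `< g K ^ 2` (`small`: `≤ 4 X`), or (2) `≥ g K ^ B`, so in `Wd B` (`≤ X`), or (3) non-isolated (`nonisol`: `≤ 4 X`), or (4) counted in `hmed`, or (5) counted in `rho`
(`P * nn < #cls` for some `q < wi x`), or (6) none of these and its levels are not spread: counted in `spr` (not (4) gives the hypothesis of `spr`). For (4), (5), (6) note `g ≤ g K ^ 2 ≤ x`. So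
`#(U \ F) ≤ 9 X + n₄ + n₅ + n₆`, `S n₄ ≤ d₀ u`, `P n₅ ≤ (B+1) X`, `y^(e+1) n₆ ≤ (B+1) 6 Λ X`, `Λ = 1 + log₂ m`. `B X ≤ C u`, `B + 1 ≤ 2 B`.
`40 c C ≤ B`: `40 c X * C ≤ B X ≤ C u`, so `40 c X ≤ u` and `9 c X ≤ u / 4`. `4 c n₄ * (d₀) …`: `4 c d₀ ≤ S` gives `4 c d₀ n₄ ≤ S n₄ ≤ d₀ u`, so `4 c n₄ ≤ u` (`d₀ ≥ 1`; if `d₀ = 0` then `S n₄ ≤ 0`, `n₄ = 0`). `8 c C n₅ ≤ P n₅ ≤ 2 B X ≤ 2 C u`: `4 c n₅ ≤ u`.
`96 c C Λ n₆ ≤ y^(e+1) n₆ ≤ 12 Λ B X ≤ 12 Λ C u`: `8 c n₆ ≤ u`. Sum: `c #(U \ F) ≤ u/4 + u/4 + u/4 + u/8 ≤ u`.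
-/

set_option autoImplicit false

open Finset

namespace Pool.Agent.DCA

variable {p m K r g δ B D₁ : ℕ}

open Classical in
/-- the cover of `U \ F` -/
private theorem WFbig_cover (W : Win p m K r g δ B D₁) (y e P : ℕ) (hK1 : 1 ≤ K) :
    W.U \ W.F y e P ⊆ {x ∈ W.V | x < g * K ^ 2} ∪ (W.Wd B ∪ ({x ∈ W.V | g * K ^ 2 ≤ x ∧
      x < g * K ^ B ∧ ∃ x' ∈ W.V, x' ≠ x ∧ |(x : ℤ) - x'| ≤ g * K} ∪
      ({x ∈ W.U | g ≤ x ∧ ∃ q ∈ W.L x \ W.H (y ^ e) x,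
        q < wi K g x ∧ W.Rich (y ^ (e + 1)) x q} ∪
      ({x ∈ W.U | g ≤ x ∧ ∃ q < wi K g x, P * W.nn x q <
        #(cls (W.Wd B) W.nd (q + (B - wi K g x)) (W.nd (q + (B - wi K g x)) (W.pi x)))} ∪
      {x ∈ W.U | g ≤ x ∧
      (∀ q ∈ W.L x \ W.H (y ^ e) x, q < wi K g x → ¬ W.Rich (y ^ (e + 1)) x q) ∧
      ∃ a ∈ W.L x \ W.H (y ^ e) x, ∃ b ∈ W.L x \ W.H (y ^ e) x, a < b ∧ b ≤ a + 6})))) := by
  intro x hx
  rw [mem_sdiff] at hx
  obtain ⟨hU, hF⟩ := hx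
  have hU' := hU
  rw [Win.U, mem_filter] at hU'
  obtain ⟨hV, hlt⟩ := hU'
  by_cases h1 : x < g * K ^ 2
  · exact mem_union_left _ (mem_filter.2 ⟨hV, h1⟩)
  apply mem_union_right
  push Not at h1
  by_cases h2 : g * K ^ B ≤ x
  · apply mem_union_left
    rw [Win.Wd, mem_filter]
    exact ⟨hV, h2, hlt⟩
  apply mem_union_right
  push Not at h2
  have hgx : g ≤ x := le_trans (Nat.le_mul_of_pos_right g (pow_pos (by omega) 2)) h1
  by_cases h3 : ∃ x' ∈ W.V, x' ≠ x ∧ |(x : ℤ) - x'| ≤ g * K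
  · exact mem_union_left _ (mem_filter.2 ⟨hV, h1, h2, h3⟩)
  apply mem_union_right
  by_cases h4 : ∃ q ∈ W.L x \ W.H (y ^ e) x, q < wi K g x ∧ W.Rich (y ^ (e + 1)) x q
  · exact mem_union_left _ (mem_filter.2 ⟨hU, hgx, h4⟩)
  apply mem_union_right
  by_cases h5 : ∃ q < wi K g x, P * W.nn x q <
        #(cls (W.Wd B) W.nd (q + (B - wi K g x)) (W.nd (q + (B - wi K g x)) (W.pi x)))
  · exact mem_union_left _ (mem_filter.2 ⟨hU, hgx, h5⟩)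
  apply mem_union_right
  push Not at h3 h4 h5
  rw [mem_filter]
  refine ⟨hU, hgx, fun q hq hlt hR => h4 q hq hlt hR, ?_⟩
  by_contra h6
  push Not at h6
  apply hF
  rw [Win.F, mem_filter]
  exact ⟨hV, h1, h2, h3, fun q hq hlt hR => h4 q hq hlt hR, h5, h6⟩

private theorem WFbig_ar (c C S d₀ P Y Λ X u n4 n5 n6 N : ℕ) (hc : 1 ≤ c) (hC : 1 ≤ C)
    (hΛ : 1 ≤ Λ) (hS : 4 * c * d₀ ≤ S) (hS1 : 1 ≤ S) (hB : 40 * c * C ≤ B)
    (hP : 8 * c * C ≤ P) (hy : 96 * c * C * Λ ≤ Y) (hX : B * X ≤ C * u)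
    (h4 : S * n4 ≤ d₀ * u) (h5 : P * n5 ≤ (B + 1) * X) (h6 : Y * n6 ≤ (B + 1) * (6 * Λ * X))
    (hN : N ≤ 9 * X + n4 + n5 + n6) : c * N ≤ u := by
  have hcC : 1 ≤ c * C := Nat.mul_pos hc hC
  have hB1 : 1 ≤ B := by nlinarith
  have a1 : 40 * (c * X) ≤ u := by
    have : C * (40 * (c * X)) ≤ C * u := by
      calc C * (40 * (c * X)) = 40 * c * C * X := by ring
        _ ≤ B * X := Nat.mul_le_mul_right _ hB
        _ ≤ C * u := hX
    exact Nat.le_of_mul_le_mul_left this hC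
  have a4 : 4 * (c * n4) ≤ u := by
    rcases Nat.eq_zero_or_pos d₀ with h0 | h0
    · subst h0
      have : n4 = 0 := by
        rw [zero_mul] at h4
        rcases Nat.eq_zero_or_pos n4 with h | h
        · exact h
        · have : 1 ≤ S * n4 := Nat.mul_pos hS1 h
          omega
      subst this
      simp
    · have : d₀ * (4 * (c * n4)) ≤ d₀ * u := by
        calc d₀ * (4 * (c * n4)) = 4 * c * d₀ * n4 := by ring
          _ ≤ S * n4 := Nat.mul_le_mul_right _ hS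
          _ ≤ d₀ * u := h4
      exact Nat.le_of_mul_le_mul_left this h0
  have hB2 : (B + 1) * X ≤ 2 * (C * u) := by
    calc (B + 1) * X ≤ (2 * B) * X := Nat.mul_le_mul_right _ (by omega)
      _ = 2 * (B * X) := by ring
      _ ≤ 2 * (C * u) := Nat.mul_le_mul_left _ hX
  have a5 : 4 * (c * n5) ≤ u := by
    have : 2 * C * (4 * (c * n5)) ≤ 2 * C * u := by
      calc 2 * C * (4 * (c * n5)) = 8 * c * C * n5 := by ring
        _ ≤ P * n5 := Nat.mul_le_mul_right _ hP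
        _ ≤ (B + 1) * X := h5
        _ ≤ 2 * (C * u) := hB2
        _ = 2 * C * u := by ring
    exact Nat.le_of_mul_le_mul_left this (by omega)
  have a6 : 8 * (c * n6) ≤ u := by
    have : 12 * C * Λ * (8 * (c * n6)) ≤ 12 * C * Λ * u := by
      calc 12 * C * Λ * (8 * (c * n6)) = 96 * c * C * Λ * n6 := by ring
        _ ≤ Y * n6 := Nat.mul_le_mul_right _ hy
        _ ≤ (B + 1) * (6 * Λ * X) := h6
        _ = 6 * Λ * ((B + 1) * X) := by ring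
        _ ≤ 6 * Λ * (2 * (C * u)) := Nat.mul_le_mul_left _ hB2
        _ = 12 * C * Λ * u := by ring
    exact Nat.le_of_mul_le_mul_left this (Nat.mul_pos (by omega) hΛ)
  have hN' : c * N ≤ 9 * (c * X) + c * n4 + c * n5 + c * n6 := by
    calc c * N ≤ c * (9 * X + n4 + n5 + n6) := Nat.mul_le_mul_left _ hN
      _ = _ := by ring
  omega

open Classical in
theorem Win.F_big (W : Win p m K r g δ B D₁) (y e P C c d₀ S : ℕ) (hc : 1 ≤ c) (hC : 1 ≤ C)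
    (hS : 4 * c * d₀ ≤ S) (hS1 : 1 ≤ S) (hB : 40 * c * C ≤ B) (hP : 8 * c * C ≤ P)
    (hy : 96 * c * C * (1 + Nat.log 2 m) ≤ y ^ (e + 1)) (hX : B * #(W.Wd B) ≤ C * #W.U)
    (hmed : S * #{x ∈ W.U | g ≤ x ∧ ∃ q ∈ W.L x \ W.H (y ^ e) x,
      q < wi K g x ∧ W.Rich (y ^ (e + 1)) x q} ≤ d₀ * #W.U) :
    c * #(W.U \ W.F y e P) ≤ #W.U := by
  have hK1 : 1 ≤ K := le_trans (by omega) W.K_ge
  have hB2 : 2 ≤ B := by
    have : 1 ≤ c * C := Nat.mul_pos hc hC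
    nlinarith
  have h1 := W.small hB2
  have h3 := W.nonisol
  have h5 := W.rho P
  have h6 := W.spr y e
  have h6' : y ^ (e + 1) * #{x ∈ W.U | g ≤ x ∧
      (∀ q ∈ W.L x \ W.H (y ^ e) x, q < wi K g x → ¬ W.Rich (y ^ (e + 1)) x q) ∧
      ∃ a ∈ W.L x \ W.H (y ^ e) x, ∃ b ∈ W.L x \ W.H (y ^ e) x, a < b ∧ b ≤ a + 6} ≤
      (B + 1) * (6 * (1 + Nat.log 2 m) * #(W.Wd B)) := by
    refine le_trans h6 (le_of_eq ?_)
    ring
  refine WFbig_ar c C S d₀ P (y ^ (e + 1)) (1 + Nat.log 2 m) #(W.Wd B) #W.U _ _ _ _ hc hC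
    (by omega) hS hS1 hB hP hy hX hmed h5 h6' ?_
  have hcov := card_le_card (WFbig_cover W y e P hK1)
  refine le_trans hcov (le_trans (card_union_le _ _) ?_)
  have u2 := fun s t : Finset ℕ => card_union_le s t
  refine le_trans (Nat.add_le_add_left (le_trans (u2 _ _) (Nat.add_le_add_left (le_trans (u2 _ _)
    (Nat.add_le_add_left (le_trans (u2 _ _) (Nat.add_le_add_left (u2 _ _) _)) _)) _)) _) ?_
  omega

end Pool.Agent.DCA
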