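import Pool.Agent.Lib.DCA.TBasic

/-!
# Trees: numbers of light and of rich levels

`growth` (auxiliary, by induction on `J`): if `f : ℕ → ℕ` is monotone on `[0, J]`, `1 ≤ f 0`, `S ⊆ Icc 1 J`, and `b * f j ≥ a * f (j-1)` for
`j ∈ S`, then `a ^ #S ≤ b ^ #S * f J` (for `a ≥ b`). Apply with `f j = #(cls V nd j (nd j v))` (`cls_mono`, `v ∈ cls`), `f J ≤ #V`:
`Lt_card`: `a = 2, b = 1` (`two_child`). `Lt_log`: from it (`Nat.le_log_of_pow_le` / `Nat.pow_le_iff_le_log`).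
`LtTh_card`: `a = Y, b = 1`: for `j ∈ Lt \ Th`: `Y * f (j-1) ≤ Y * lp < f j` (`child_le_lp`).
`Th_card`: for `j ∈ Th`: `f (j-1) ≤ #heavy = f j - lp` and `f j ≤ Y * lp`, so `Y * f (j-1) ≤ (Y - 1) * f j`: `a = Y`, `b = Y - 1`:
`Y ^ #Th ≤ (Y - 1) ^ #Th * #V`. And `2 * (Y - 1) ^ Y ≤ Y ^ Y` (Bernoulli: `(1 + 1/(Y-1)) ^ Y ≥ 2`; `Y = 1` trivial). If `#Th > Y (log₂ #V + 1)`, put
`k = log₂ #V + 1`, so `#V < 2 ^ k`: `Y ^ #Th ≥ 2 ^ k (Y-1) ^ #Th > ...` contradiction (if `Y = 1`: `f (j - 1) ≤ 0` impossible, so `Th` is empty).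
`medium`: for `e` in the left set choose `j_e` in `Lt \ Th (y ^ e)`, `j_e ∈ Th (y ^ (e+1))`; then `y ^ e * lp < #cls ≤ y ^ (e+1) * lp` at `j_e`, so `j_e` determines `e`
(if `e < e'` and `j_e = j_e'` then `#cls ≤ y ^ (e+1) lp ≤ y ^ e' lp < #cls`), and `j_e ∈ Lt \ Th (y ^ S)` as `y ^ S * lp ≤ y ^ e * lp < #cls`.
-/

set_option autoImplicit false

open Finset

namespace Pool.Agent.DCA

variable {V : Finset ℕ} {nd : ℕ → ℕ → ℕ}

theorem growth {a b : ℕ} {f : ℕ → ℕ} (h0 : 1 ≤ f 0) (J : ℕ) :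
    ∀ S : Finset ℕ, (∀ j < J, f j ≤ f (j + 1)) → S ⊆ Icc 1 J →
      (∀ j ∈ S, a * f (j - 1) ≤ b * f j) → a ^ #S ≤ b ^ #S * f J := by
  induction J with
  | zero =>
    intro S _ hS _
    have : S = ∅ := by
      apply Finset.subset_empty.1
      intro x hx
      have := hS hx
      rw [Finset.mem_Icc] at this
      omega
    subst this
    simpa using h0
  | succ J ih =>
    intro S hmono hS h
    by_cases hJ : J + 1 ∈ S
    · have h1 : S.erase (J + 1) ⊆ Icc 1 J := by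
        intro x hx
        rw [Finset.mem_erase] at hx
        have := hS hx.2
        rw [Finset.mem_Icc] at this ⊢
        omega
      have h2 := ih (S.erase (J + 1)) (fun j hj => hmono j (by omega)) h1
        (fun j hj => h j (Finset.mem_of_mem_erase hj))
      have h3 : #S = #(S.erase (J + 1)) + 1 := (Finset.card_erase_add_one hJ).symm
      have h4 := h (J + 1) hJ
      rw [Nat.add_sub_cancel] at h4
      rw [h3, pow_succ, pow_succ]
      calc a ^ #(S.erase (J + 1)) * a ≤ (b ^ #(S.erase (J + 1)) * f J) * a :=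
            Nat.mul_le_mul_right _ h2
        _ = b ^ #(S.erase (J + 1)) * (a * f J) := by ring
        _ ≤ b ^ #(S.erase (J + 1)) * (b * f (J + 1)) := Nat.mul_le_mul_left _ h4
        _ = _ := by ring
    · have h1 : S ⊆ Icc 1 J := by
        intro x hx
        have := hS hx
        rw [Finset.mem_Icc] at this ⊢
        have hne : x ≠ J + 1 := fun h => hJ (h ▸ hx)
        omega
      have h2 := ih S (fun j hj => hmono j (by omega)) h1 h
      exact h2.trans (Nat.mul_le_mul_left _ (hmono J (by omega)))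

theorem growth_cls {a b : ℕ} (hn : Nested V nd) (J : ℕ) {v : ℕ} (hv : v ∈ V) (S : Finset ℕ)
    (hS : S ⊆ Icc 1 J)
    (h : ∀ j ∈ S, a * #(cls V nd (j - 1) (nd (j - 1) v)) ≤ b * #(cls V nd j (nd j v))) :
    a ^ #S ≤ b ^ #S * #V := by
  have h0 : 1 ≤ #(cls V nd 0 (nd 0 v)) := by
    apply Finset.card_pos.2
    exact ⟨v, by simp [cls, hv]⟩
  have h1 := growth (a := a) (b := b) (f := fun j => #(cls V nd j (nd j v))) h0 J S
    (fun j _ => Finset.card_le_card (cls_mono hn j hv)) hS h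
  refine h1.trans (Nat.mul_le_mul_left _ ?_)
  exact Finset.card_le_card (Finset.filter_subset _ _)

theorem Lt_card (hn : Nested V nd) (J : ℕ) {v : ℕ} (hv : v ∈ V) : 2 ^ #(Lt V nd J v) ≤ #V := by
  have h := growth_cls (a := 2) (b := 1) hn J hv (Lt V nd J v) (Finset.filter_subset _ _) (by
    intro j hj
    rw [Lt, Finset.mem_filter, Finset.mem_Icc] at hj
    rw [one_mul]
    exact two_child hn j hj.1.1 hv hj.2)
  simpa using h

theorem Lt_log (hn : Nested V nd) (J : ℕ) {v : ℕ} (hv : v ∈ V) :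
    #(Lt V nd J v) ≤ Nat.log 2 #V :=
  Nat.le_log_of_pow_le (by norm_num) (Lt_card hn J hv)

theorem not_mem_Th {J Y v j : ℕ} (h1 : j ∈ Lt V nd J v) (h2 : j ∉ Th V nd J Y v) :
    Y * lp V nd j (nd j v) < #(cls V nd j (nd j v)) := by
  rw [Lt, Finset.mem_filter] at h1
  rw [Th, Finset.mem_filter] at h2
  by_contra hcon
  exact h2 ⟨h1.1, not_lt.1 hcon⟩

theorem LtTh_card (hn : Nested V nd) (J Y : ℕ) (hY : 1 ≤ Y) {v : ℕ} (hv : v ∈ V) :
    Y ^ #(Lt V nd J v \ Th V nd J Y v) ≤ #V := by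
  have h := growth_cls (a := Y) (b := 1) hn J hv (Lt V nd J v \ Th V nd J Y v)
    (Finset.sdiff_subset.trans (Finset.filter_subset _ _)) (by
    intro j hj
    rw [Finset.mem_sdiff] at hj
    have h3 := not_mem_Th hj.1 hj.2
    have h4 := hj.1
    rw [Lt, Finset.mem_filter, Finset.mem_Icc] at h4
    have h5 := child_le_lp hn j h4.1.1 hv h4.2
    rw [one_mul]
    exact (Nat.mul_le_mul_left Y h5).trans h3.le)
  simpa using h

theorem nat_bern (n m : ℕ) : n ^ m + m * n ^ (m - 1) ≤ (n + 1) ^ m := by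
  induction m with
  | zero => simp
  | succ m ih =>
    rw [Nat.add_sub_cancel]
    have h1 : (n + 1) ^ (m + 1) = (n + 1) ^ m * n + (n + 1) ^ m := by ring
    have h2 : n ^ m ≤ (n + 1) ^ m := Nat.pow_le_pow_left (by omega) m
    have h3 : (n ^ m + m * n ^ (m - 1)) * n ≤ (n + 1) ^ m * n := Nat.mul_le_mul_right _ ih
    have h4 : (n ^ m + m * n ^ (m - 1)) * n = n ^ (m + 1) + m * n ^ m := by
      rcases Nat.eq_zero_or_pos m with h | h
      · subst h; ring
      · obtain ⟨k, rfl⟩ := Nat.exists_eq_add_of_le h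
        rw [Nat.add_sub_cancel_left]
        ring
    have h5 : (m + 1) * n ^ m = m * n ^ m + n ^ m := by ring
    omega

theorem bern2 (n : ℕ) : 2 * n ^ (n + 1) ≤ (n + 1) ^ (n + 1) := by
  have h := nat_bern n (n + 1)
  rw [Nat.add_sub_cancel] at h
  have h2 : n ^ (n + 1) ≤ (n + 1) * n ^ n := by
    rw [pow_succ]
    calc n ^ n * n ≤ n ^ n * (n + 1) := Nat.mul_le_mul_left _ (by omega)
      _ = _ := by ring
  omega

theorem Th_card (hn : Nested V nd) (J Y : ℕ) (hY : 1 ≤ Y) {v : ℕ} (hv : v ∈ V) :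
    #(Th V nd J Y v) ≤ Y * (Nat.log 2 #V + 1) := by
  obtain ⟨n, rfl⟩ := Nat.exists_eq_add_of_le' hY
  have h := growth_cls (a := n + 1) (b := n) hn J hv (Th V nd J (n + 1) v)
    (Finset.filter_subset _ _) (by
    intro j hj
    rw [Th, Finset.mem_filter, Finset.mem_Icc] at hj
    have h1 := child_le_heavy hn j hj.1.1 hv
    have h2 := card_cls_eq hn j hj.1.1 hv
    have h3 := hj.2
    generalize #(cls V nd (j - 1) (nd (j - 1) v)) = A at h1 ⊢
    generalize #(cls V nd (j - 1) (hvc V nd j (nd j v))) = B at h1 h2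
    generalize lp V nd j (nd j v) = C at h2 h3
    generalize #(cls V nd j (nd j v)) = D at h2 h3 ⊢
    have h4 : (n + 1) * A ≤ (n + 1) * B := Nat.mul_le_mul_left _ h1
    have h5 : (n + 1) * (B + C) = (n + 1) * D := by rw [h2]
    have h6 : (n + 1) * (B + C) = (n + 1) * B + (n + 1) * C := by ring
    have h7 : (n + 1) * D = n * D + D := by ring
    omega)
  by_contra hcon
  push Not at hcon
  set t := #(Th V nd J (n + 1) v) with ht
  set k := Nat.log 2 #V + 1 with hk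
  have hVk : #V < 2 ^ k := Nat.lt_pow_succ_log_self (by norm_num) _
  have h1 : (2 * n ^ (n + 1)) ^ k ≤ ((n + 1) ^ (n + 1)) ^ k := Nat.pow_le_pow_left (bern2 n) k
  rw [mul_pow, ← pow_mul, ← pow_mul] at h1
  obtain ⟨r, hr⟩ := Nat.exists_eq_add_of_lt hcon
  have h2 : n ^ (r + 1) ≤ (n + 1) ^ (r + 1) := Nat.pow_le_pow_left (by omega) _
  have h3 : 2 ^ k * n ^ t ≤ (n + 1) ^ t := by
    have e1 : t = (n + 1) * k + (r + 1) := by rw [hr]; ring
    rw [e1, pow_add n, pow_add (n + 1) ((n + 1) * k)]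
    calc 2 ^ k * (n ^ ((n + 1) * k) * n ^ (r + 1)) =
        (2 ^ k * n ^ ((n + 1) * k)) * n ^ (r + 1) := by ring
      _ ≤ (n + 1) ^ ((n + 1) * k) * (n + 1) ^ (r + 1) := Nat.mul_le_mul h1 h2
  have h4 : 2 ^ k * n ^ t ≤ n ^ t * #V := h3.trans h
  have h5 : 0 < (n + 1) ^ t := Nat.pow_pos (by omega)
  rcases Nat.eq_zero_or_pos (n ^ t) with h0 | h0
  · rw [h0, zero_mul] at h
    omega
  · have : 2 ^ k ≤ #V := by
      rw [mul_comm] at h4
      exact Nat.le_of_mul_le_mul_left h4 h0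
    omega

open Classical in
theorem medium (J y S v : ℕ) (hy : 2 ≤ y) :
    #{e ∈ Ico S (2 * S) | ∃ j ∈ Lt V nd J v \ Th V nd J (y ^ e) v,
      j ∈ Th V nd J (y ^ (e + 1)) v} ≤ #(Lt V nd J v \ Th V nd J (y ^ S) v) := by
  have hex : ∀ e, ∃ j, (e ∈ {e ∈ Ico S (2 * S) | ∃ j ∈ Lt V nd J v \ Th V nd J (y ^ e) v,
      j ∈ Th V nd J (y ^ (e + 1)) v}) → j ∈ Lt V nd J v \ Th V nd J (y ^ e) v ∧
      j ∈ Th V nd J (y ^ (e + 1)) v := by
    intro e
    by_cases he : e ∈ {e ∈ Ico S (2 * S) | ∃ j ∈ Lt V nd J v \ Th V nd J (y ^ e) v,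
      j ∈ Th V nd J (y ^ (e + 1)) v}
    · obtain ⟨j, hj1, hj2⟩ := (Finset.mem_filter.1 he).2
      exact ⟨j, fun _ => ⟨hj1, hj2⟩⟩
    · exact ⟨0, fun h => absurd h he⟩
  choose g hg using hex
  have key : ∀ e e', e < e' → e ∈ {e ∈ Ico S (2 * S) | ∃ j ∈ Lt V nd J v \ Th V nd J (y ^ e) v,
      j ∈ Th V nd J (y ^ (e + 1)) v} → e' ∈ {e ∈ Ico S (2 * S) |
      ∃ j ∈ Lt V nd J v \ Th V nd J (y ^ e) v, j ∈ Th V nd J (y ^ (e + 1)) v} → g e ≠ g e' := by
    intro e e' hlt he he' heq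
    have h1 := (hg e he).2
    have h2 := (hg e' he').1
    rw [heq, Th, Finset.mem_filter] at h1
    rw [Finset.mem_sdiff] at h2
    have h3 := not_mem_Th h2.1 h2.2
    have h4 : y ^ (e + 1) ≤ y ^ e' := Nat.pow_le_pow_right (by omega) hlt
    have h5 := Nat.mul_le_mul_right (lp V nd (g e') (nd (g e') v)) h4
    omega
  refine Finset.card_le_card_of_injOn g ?_ ?_
  · intro e he
    have he1 := Finset.mem_coe.1 he
    have h2 := (hg e he1).1
    rw [Finset.mem_sdiff] at h2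
    have h3 := not_mem_Th h2.1 h2.2
    refine Finset.mem_coe.2 (Finset.mem_sdiff.2 ⟨h2.1, ?_⟩)
    intro h4
    rw [Th, Finset.mem_filter] at h4
    have he2 := (Finset.mem_Ico.1 (Finset.mem_filter.1 he1).1).1
    have h5 : y ^ S ≤ y ^ e := Nat.pow_le_pow_right (by omega) he2
    have h6 := Nat.mul_le_mul_right (lp V nd (g e) (nd (g e) v)) h5
    have h7 := h4.2
    omega
  · intro e he e' he' heq
    have he1 := Finset.mem_coe.1 he
    have he1' := Finset.mem_coe.1 he'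
    rcases lt_trichotomy e e' with h | h | h
    · exact absurd heq (key e e' h he1 he1')
    · exact h
    · exact absurd heq.symm (key e' e h he1' he1)

end Pool.Agent.DCA
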