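import Pool.Agent.Lib.DCA.WPi
import Pool.Agent.Lib.DCA.WNd
import Pool.Agent.Lib.DCA.TCount

/-!
# Windows: few points with a given light level

PROOF. Let `x ∈ U`, `q ∈ L x`, so `1 ≤ q ≤ wi x =: i`, `x ≥ g`, `x ∈ Wd i`, `i ≤ B`. If `i = q`: `x ∈ Wd q`, at most `#(Wd B)` points (`card_le`). If `i > q` (or in general the second alternative):
`q + (B - i) ∈ Lt (pi x)`. The map `x ↦ (pi x, q + (B - wi x))` is injective on these `x` (the second component determines `i`, then `pi_inj`), with values in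
`{(v, j) | v ∈ Wd B, j ∈ Lt v}`, which has `∑_(v ∈ Wd B) #(Lt v) ≤ #(Wd B) * log₂ m` elements (`Lt_log`, `#(Wd B) ≤ #V ≤ m`).
-/

set_option autoImplicit false

open Finset

namespace Pool.Agent.DCA

variable {p m K r g δ B D₁ : ℕ}

private theorem WH2_mem (W : Win p m K r g δ B D₁) {q x : ℕ} (_hx : x ∈ W.U)
    (hq : q ∈ W.L x) : g ≤ x ∧ 1 ≤ q ∧ q ≤ wi K g x := by
  have hL := Finset.mem_filter.1 hq
  have hI := Finset.mem_Icc.1 hL.1
  refine ⟨?_, hI.1, hI.2⟩
  by_contra hlt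
  push Not at hlt
  have h0 : wi K g x = 0 := by
    rw [wi, Nat.div_eq_of_lt hlt, Nat.log_zero_right]
  omega

theorem Win.h2 (W : Win p m K r g δ B D₁) (q : ℕ) :
    #{x ∈ W.U | q ∈ W.L x} ≤ #(W.Wd B) * (1 + Nat.log 2 m) := by
  classical
  have hK1 : 1 ≤ K := by
    have := W.K_ge
    omega
  have hn := W.nested hK1
  -- the points with `wi x = q`
  have hA : #{x ∈ W.U | q ∈ W.L x ∧ q = wi K g x} ≤ #(W.Wd B) := by
    by_cases hqB : q ≤ B
    · refine le_trans (Finset.card_le_card ?_) (W.card_le hqB)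
      intro x hx
      have hx' := Finset.mem_filter.1 hx
      obtain ⟨hg, _, _⟩ := WH2_mem W hx'.1 hx'.2.1
      have h1 := (W.mem_Wd hx'.1 hg).1
      rw [← hx'.2.2] at h1
      exact h1
    · have he : ({x ∈ W.U | q ∈ W.L x ∧ q = wi K g x} : Finset ℕ) = ∅ := by
        apply Finset.eq_empty_of_forall_notMem
        intro x hx
        have hx' := Finset.mem_filter.1 hx
        obtain ⟨hg, _, _⟩ := WH2_mem W hx'.1 hx'.2.1
        have h1 := (W.mem_Wd hx'.1 hg).2
        rw [← hx'.2.2] at h1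
        exact hqB h1
      rw [he, Finset.card_empty]
      exact Nat.zero_le _
  -- the others
  have hB : #{x ∈ W.U | q ∈ W.L x ∧ q ≠ wi K g x} ≤ #(W.Wd B) * Nat.log 2 m := by
    have h1 : #{x ∈ W.U | q ∈ W.L x ∧ q ≠ wi K g x} ≤
        #((W.Wd B).sigma fun v => Lt (W.Wd B) W.nd B v) := by
      refine Finset.card_le_card_of_injOn
        (fun x => (⟨W.pi x, q + (B - wi K g x)⟩ : (_ : ℕ) × ℕ)) ?_ ?_
      · intro x hx
        have hx' := Finset.mem_filter.1 (Finset.mem_coe.1 hx)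
        obtain ⟨hg, _, _⟩ := WH2_mem W hx'.1 hx'.2.1
        obtain ⟨hW, hwB⟩ := W.mem_Wd hx'.1 hg
        have hL := (Finset.mem_filter.1 hx'.2.1).2
        refine Finset.mem_coe.2 (Finset.mem_sigma.2 ⟨W.pi_mem hwB hW, ?_⟩)
        exact hL.resolve_left hx'.2.2
      · intro x hx y hy hxy
        have hx' := Finset.mem_filter.1 (Finset.mem_coe.1 hx)
        have hy' := Finset.mem_filter.1 (Finset.mem_coe.1 hy)
        obtain ⟨hgx, _, _⟩ := WH2_mem W hx'.1 hx'.2.1
        obtain ⟨hgy, _, _⟩ := WH2_mem W hy'.1 hy'.2.1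
        obtain ⟨hWx, hxB⟩ := W.mem_Wd hx'.1 hgx
        obtain ⟨hWy, hyB⟩ := W.mem_Wd hy'.1 hgy
        have h2 := congrArg Sigma.fst hxy
        have h3 : q + (B - wi K g x) = q + (B - wi K g y) := congrArg
          (fun z : (_ : ℕ) × ℕ => z.2) hxy
        simp only at h2
        have h4 : wi K g x = wi K g y := by omega
        rw [← h4] at hWy
        exact W.pi_inj hxB hWx hWy h2
    refine h1.trans ?_
    rw [Finset.card_sigma]
    have h5 : #(W.Wd B) ≤ m := (Finset.card_le_card (Finset.filter_subset _ _)).trans W.cardV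
    refine (Finset.sum_le_card_nsmul _ _ (Nat.log 2 m) fun v hv => ?_).trans ?_
    · exact (Lt_log hn B hv).trans (Nat.log_mono_right h5)
    · rw [smul_eq_mul]
  have hsplit : ({x ∈ W.U | q ∈ W.L x} : Finset ℕ) ⊆
      {x ∈ W.U | q ∈ W.L x ∧ q = wi K g x} ∪ {x ∈ W.U | q ∈ W.L x ∧ q ≠ wi K g x} := by
    intro x hx
    have hx' := Finset.mem_filter.1 hx
    rw [Finset.mem_union, Finset.mem_filter, Finset.mem_filter]
    by_cases h : q = wi K g x
    · exact Or.inl ⟨hx'.1, hx'.2, h⟩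
    · exact Or.inr ⟨hx'.1, hx'.2, h⟩
  calc #{x ∈ W.U | q ∈ W.L x} ≤ _ := Finset.card_le_card hsplit
    _ ≤ _ := Finset.card_union_le _ _
    _ ≤ #(W.Wd B) + #(W.Wd B) * Nat.log 2 m := Nat.add_le_add hA hB
    _ = #(W.Wd B) * (1 + Nat.log 2 m) := by ring

end Pool.Agent.DCA
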