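import Pool.Agent.Lib.DCA.WPi
import Pool.Agent.Lib.DCA.WNd

/-!
# Windows: heavy siblings

`F_wd`: `x ∈ F` satisfies `g K ^ 2 ≤ x < g K ^ B`: `x ∈ U`, `2 ≤ wi x < B`, `x ∈ Wd (wi x)`, so `wi x ∈ L x \ H`.
`Hv_mem`. PROOF. (a) `q = wi x`: `h = h₀ ∈ Wd 0` (`Exists.choose_spec`): `h₀ < g K ≤ g K ^ q` (`q ≥ 2`), so `node q h₀ = (0,0) = node q x` (`x < g K ^ (wi x + 1)`), and `node (q-1) h₀ = (0,0)`, while `x ≥ g K ^ q = g K ^ ((q - 1) + 1)` gives
`node (q-1) x = (wi x + 1, _)`. (b) `q < wi x` (elements of `L x` are `≤ wi x`): `h ∈ Wd (wi x)`, `wi h = wi x`, both points are `≥ g K ^ (wi x) ≥ g K ^ (q+1) ≥ g K ^ q`, so the nodes at the levels `q`, `q - 1` are given by `nd`; equal at level `q`; at level `q - 1` the value for `h` is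
`hvc …`, the value for `x` is not, because `q ∈ L x`, `q ≠ wi x` gives `q + s ∈ Lt (pi x)` (`(q - 1) + s = q + s - 1` as `q ≥ 1`).
-/

set_option autoImplicit false

open Finset

namespace Pool.Agent.DCA

variable {p m K r g δ B D₁ : ℕ}

theorem Win.F_wd (W : Win p m K r g δ B D₁) (y e P x : ℕ) (hx : x ∈ W.F y e P) :
    x ∈ W.U ∧ 2 ≤ wi K g x ∧ wi K g x < B ∧ x ∈ W.Wd (wi K g x) ∧
      wi K g x ∈ W.L x \ W.H (y ^ e) x := by
  have hK := W.K_ge
  have hg := W.g_pos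
  have hK2 : 2 ≤ K := by omega
  classical
  simp only [Win.F, Finset.mem_filter] at hx
  obtain ⟨hV, h2, hB, -⟩ := hx
  have hgx : g ≤ x := le_trans (Nat.le_mul_of_pos_right g (by positivity)) h2
  obtain ⟨hlo, hhi⟩ := wi_spec K g x hK2 hg hgx
  have hgp : 0 < g := hg
  have w2 : 2 ≤ wi K g x := by
    have h3 : g * K ^ 2 < g * K ^ (wi K g x + 1) := lt_of_le_of_lt h2 hhi
    have h4 : K ^ 2 < K ^ (wi K g x + 1) := lt_of_mul_lt_mul_left h3 (Nat.zero_le _)
    have h5 := (Nat.pow_lt_pow_iff_right (by omega : 1 < K)).1 h4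
    omega
  have wB : wi K g x < B := by
    have h3 : g * K ^ wi K g x < g * K ^ B := lt_of_le_of_lt hlo hB
    have h4 : K ^ wi K g x < K ^ B := lt_of_mul_lt_mul_left h3 (Nat.zero_le _)
    exact (Nat.pow_lt_pow_iff_right (by omega : 1 < K)).1 h4
  refine ⟨?_, w2, wB, ?_, ?_⟩
  · refine Finset.mem_filter.2 ⟨hV, lt_of_lt_of_le hB ?_⟩
    exact Nat.mul_le_mul_left g (Nat.pow_le_pow_right (by omega) (Nat.le_succ B))
  · exact Finset.mem_filter.2 ⟨hV, hlo, hhi⟩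
  · refine Finset.mem_sdiff.2 ⟨?_, ?_⟩
    · unfold Win.L
      exact Finset.mem_filter.2 ⟨Finset.mem_Icc.2 ⟨by omega, le_refl _⟩, Or.inl rfl⟩
    · intro h
      unfold Win.H at h
      have := (Finset.mem_Ico.1 (Finset.mem_filter.1 h).1).2
      omega

theorem Win.Hv_mem (W : Win p m K r g δ B D₁) (y e P : ℕ) : ∀ x ∈ W.F y e P,
    ∀ q ∈ W.L x \ W.H (y ^ e) x, ∀ h ∈ W.Hv x q,
      h ∈ W.U ∧ W.node q h = W.node q x ∧ W.node (q - 1) h ≠ W.node (q - 1) x := by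
  intro x hx q hq h hh
  have hK := W.K_ge
  have hg := W.g_pos
  have hK2 : 2 ≤ K := by omega
  obtain ⟨hxU, w2, wB, hxW, -⟩ := W.F_wd y e P x hx
  obtain ⟨hxV, hlo, hhi⟩ := Finset.mem_filter.1 hxW
  have hqL := (Finset.mem_sdiff.1 hq).1
  unfold Win.L at hqL
  obtain ⟨hqI, hqor⟩ := Finset.mem_filter.1 hqL
  obtain ⟨hq1, hqw⟩ := Finset.mem_Icc.1 hqI
  have mono : ∀ a b : ℕ, a ≤ b → g * K ^ a ≤ g * K ^ b := fun a b hab =>
    Nat.mul_le_mul_left g (Nat.pow_le_pow_right (by omega) hab)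
  have hq11 : q - 1 + 1 = q := by omega
  unfold Win.Hv at hh
  by_cases hqe : q = wi K g x
  · rw [if_pos hqe] at hh
    have hh0 : h = W.h₀ := Finset.mem_singleton.1 hh
    have hs := (W.win 0 (Nat.zero_le _)).choose_spec
    have hs' : W.h₀ ∈ W.V ∧ g * K ^ 0 ≤ W.h₀ ∧ W.h₀ < g * K ^ (0 + 1) := hs
    obtain ⟨s1, -, s3⟩ := hs'
    rw [hh0]
    refine ⟨Finset.mem_filter.2 ⟨s1, lt_of_lt_of_le s3 (mono _ _ (by omega))⟩, ?_, ?_⟩
    · unfold Win.node
      rw [if_pos (lt_of_lt_of_le s3 (mono _ _ (by omega))), if_pos (by rw [hqe]; exact hhi)]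
    · unfold Win.node
      rw [if_pos (lt_of_lt_of_le s3 (mono _ _ (by omega))), if_neg (by
        rw [hq11, hqe]; exact not_lt.2 hlo)]
      intro hc
      have := congrArg Prod.fst hc
      simp at this
  · rw [if_neg hqe] at hh
    obtain ⟨hhW, hn1, hn2⟩ := Finset.mem_filter.1 hh
    have hwi : wi K g h = wi K g x := W.wi_mem hhW
    obtain ⟨hhV, hhlo, hhhi⟩ := Finset.mem_filter.1 hhW
    have hqlt : q < wi K g x := lt_of_le_of_ne hqw hqe
    refine ⟨Finset.mem_filter.2 ⟨hhV, lt_of_lt_of_le hhhi (mono _ _ (by omega))⟩, ?_, ?_⟩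
    · unfold Win.node
      rw [if_neg (not_lt.2 ((mono _ _ (by omega)).trans hhlo)),
        if_neg (not_lt.2 ((mono _ _ (by omega)).trans hlo)), hwi, hn1]
    · unfold Win.node
      rw [if_neg (not_lt.2 ((mono _ _ (by omega)).trans hhlo)),
        if_neg (not_lt.2 ((mono _ _ (by omega)).trans hlo)), hwi]
      intro hc
      have h2 := congrArg Prod.snd hc
      simp only at h2
      have hL := hqor.resolve_left hqe
      unfold Lt at hL
      have hL2 := (Finset.mem_filter.1 hL).2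
      have he : q - 1 + (B - wi K g x) = q + (B - wi K g x) - 1 := by omega
      rw [he, hn2] at h2
      exact hL2 h2.symm

end Pool.Agent.DCA
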