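import Pool.Agent.Lib.DCA.WPi
import Pool.Agent.Lib.DCA.WNd
import Pool.Agent.Lib.DCA.TCount

/-!
# Windows: light levels

`light`. PROOF. (a) If `x, x' < g K ^ (q+2)`: not both `< g K ^ (q+1)` (then `node q x = (0,0) = node q x'`), so for example `g K ^ (q+1) ≤ x < g K ^ (q+2)`, `wi K g x = q + 1` (`wi_eq`) and
`q + 1 = wi K g x ∈ L x`. (b) If both `≥ g K ^ (q+2)`: the nodes at level `q + 1` give the same `i = wi` (`≥ q + 2`) and the same `nd (q + 1 + s)` at `pi`, `s = B - i`; the nodes at level `q` are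
`(i + 1, nd (q + s) (pi ·))`, so `nd (q + s) (pi x) ≠ nd (q + s) (pi x')`. They are not both equal to `hvc (q + 1 + s) (common value)`, so for one of them `q + 1 + s ∈ Lt` (`1 ≤ q + 1 + s ≤ B`), and
`q + 1 ∈ L`. (c) one of each kind: the nodes at level `q + 1` are different (first component `0` or not).
`H_inv`. PROOF. `q ∈ H x`: `1 ≤ q < wi x`, so `x ≥ g` and `x ≥ g K ^ wi ≥ g K ^ (q+1)`, `node q x = (wi x + 1, nd …)`, so `x' ≥ g K ^ (q+1)`, `wi x' = wi x`, same `nd` at level `q + s`, and membership in `Th` at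
this level depends only on this value (`q + s ∈ Icc 1 B`).
`L_mem`: `wi x ≤ B` for `x ∈ U` (`mem_Wd`; if `x < g` then `x / g = 0` and `wi x = 0`).
`LH_card`: if `x < g` then `wi x = 0` and both sets are empty. Otherwise `q ↦ q + s` is injective: `#L ≤ 1 + #Lt ≤ 1 + log₂ #(Wd B)` and `#H ≤ #Th ≤ Y (log₂ #(Wd B) + 1)` (`Lt_log`, `Th_card`, `pi_mem`, `nested`), `#(Wd B) ≤ m`.
`T_card`: `L \ H ⊆ {wi x} ∪ {q | q + s ∈ Lt \ Th}` and `Y ^ #(Lt \ Th) ≤ #(Wd B) ≤ m < Y ^ d₀` (`LtTh_card`), so `#(Lt \ Th) < d₀`.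
-/

set_option autoImplicit false

open Finset

namespace Pool.Agent.DCA

variable {p m K r g δ B D₁ : ℕ}

private theorem WLight_K (W : Win p m K r g δ B D₁) : 2 ≤ K := by
  have := W.K_ge
  omega

private theorem WLight_lt (K g x : ℕ) (hx : x < g) : wi K g x = 0 := by
  unfold wi
  rw [Nat.div_eq_of_lt hx]
  exact Nat.log_zero_right K

private theorem WLight_ge {K g x : ℕ} (h : 1 ≤ wi K g x) : g ≤ x := by
  by_contra hx
  rw [WLight_lt K g x (by omega)] at h
  omega

private theorem WLight_L (W : Win p m K r g δ B D₁) {q x : ℕ} : q ∈ W.L x ↔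
    (1 ≤ q ∧ q ≤ wi K g x) ∧ (q = wi K g x ∨
      q + (B - wi K g x) ∈ Lt (W.Wd B) W.nd B (W.pi x)) := by
  unfold Win.L
  rw [mem_filter, mem_Icc]

private theorem WLight_H (W : Win p m K r g δ B D₁) {Y q x : ℕ} : q ∈ W.H Y x ↔
    (1 ≤ q ∧ q < wi K g x) ∧ q + (B - wi K g x) ∈ Th (W.Wd B) W.nd B Y (W.pi x) := by
  unfold Win.H
  rw [mem_filter, mem_Ico]

private theorem WLight_lo (W : Win p m K r g δ B D₁) {q x : ℕ} (h : x < g * K ^ (q + 1)) :
    W.node q x = (0, 0) := by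
  unfold Win.node
  rw [if_pos h]

private theorem WLight_hi (W : Win p m K r g δ B D₁) {q x : ℕ} (h : ¬ x < g * K ^ (q + 1)) :
    W.node q x = (wi K g x + 1, W.nd (q + (B - wi K g x)) (W.pi x)) := by
  unfold Win.node
  rw [if_neg h]

private theorem WLight_mono (W : Win p m K r g δ B D₁) (a b : ℕ) (h : a ≤ b) :
    g * K ^ a ≤ g * K ^ b :=
  Nat.mul_le_mul_left _ (Nat.pow_le_pow_right (by have := WLight_K W; omega) h)

private theorem WLight_topL (W : Win p m K r g δ B D₁) {q x : ℕ} (h1 : g * K ^ (q + 1) ≤ x)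
    (h2 : x < g * K ^ (q + 1 + 1)) : q + 1 ∈ W.L x := by
  have h3 := wi_eq K g x (q + 1) (WLight_K W) W.g_pos h1 h2
  rw [WLight_L, h3]
  exact ⟨⟨by omega, le_refl _⟩, Or.inl rfl⟩

private theorem WLight_lvl (W : Win p m K r g δ B D₁) {q x : ℕ} (hx : x ∈ W.U)
    (h1 : g * K ^ q ≤ x) : q ≤ wi K g x ∧ wi K g x ≤ B ∧ g ≤ x := by
  have hg : g ≤ x := by
    have := WLight_mono W 0 q (Nat.zero_le _)
    rw [pow_zero, mul_one] at this
    omega
  have h2 := wi_spec K g x (WLight_K W) W.g_pos hg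
  refine ⟨?_, (W.mem_Wd hx hg).2, hg⟩
  by_contra hcon
  have := WLight_mono W (wi K g x + 1) q (by omega)
  omega

private theorem WLight_Lt (W : Win p m K r g δ B D₁) {j v : ℕ} (h1 : 1 ≤ j) (h2 : j ≤ B)
    (h : W.nd (j - 1) v ≠ hvc (W.Wd B) W.nd j (W.nd j v)) : j ∈ Lt (W.Wd B) W.nd B v := by
  unfold Lt
  rw [mem_filter, mem_Icc]
  exact ⟨⟨h1, h2⟩, h⟩

theorem Win.light (W : Win p m K r g δ B D₁) : ∀ q, ∀ x ∈ W.U, ∀ x' ∈ W.U,
    W.node q x ≠ W.node q x' → W.node (q + 1) x = W.node (q + 1) x' →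
      q + 1 ∈ W.L x ∨ q + 1 ∈ W.L x' := by
  intro q x hx x' hx' hne heq
  by_cases h1 : x < g * K ^ (q + 1 + 1)
  · by_cases h2 : x' < g * K ^ (q + 1 + 1)
    · by_cases h3 : x < g * K ^ (q + 1)
      · by_cases h4 : x' < g * K ^ (q + 1)
        · exact absurd ((WLight_lo W h3).trans (WLight_lo W h4).symm) hne
        · right
          exact WLight_topL W (not_lt.1 h4) h2
      · left
        exact WLight_topL W (not_lt.1 h3) h1
    · rw [WLight_lo W h1, WLight_hi W h2] at heq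
      have h3 := (Prod.ext_iff.1 heq).1
      simp only at h3
      omega
  · by_cases h2 : x' < g * K ^ (q + 1 + 1)
    · rw [WLight_lo W h2, WLight_hi W h1] at heq
      have h3 := (Prod.ext_iff.1 heq).1
      simp only at h3
      omega
    · have hm := WLight_mono W (q + 1) (q + 1 + 1) (by omega)
      obtain ⟨l1, l2, l3⟩ := WLight_lvl W hx (not_lt.1 h1)
      obtain ⟨l1', l2', l3'⟩ := WLight_lvl W hx' (not_lt.1 h2)
      rw [WLight_hi W h1, WLight_hi W h2] at heq
      rw [WLight_hi W (q := q) (x := x) (by omega), WLight_hi W (q := q) (x := x') (by omega)] at hne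
      have e1 := (Prod.ext_iff.1 heq).1
      have e2 := (Prod.ext_iff.1 heq).2
      simp only at e1 e2
      have e3 : wi K g x = wi K g x' := by omega
      rw [← e3] at e2 hne
      have hne' : W.nd (q + (B - wi K g x)) (W.pi x) ≠ W.nd (q + (B - wi K g x)) (W.pi x') := by
        intro h
        apply hne
        rw [h]
      have e4 : q + 1 + (B - wi K g x) - 1 = q + (B - wi K g x) := by omega
      by_cases h5 : W.nd (q + (B - wi K g x)) (W.pi x) =
          hvc (W.Wd B) W.nd (q + 1 + (B - wi K g x)) (W.nd (q + 1 + (B - wi K g x)) (W.pi x))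
      · right
        rw [WLight_L, ← e3]
        refine ⟨⟨by omega, by omega⟩, Or.inr ?_⟩
        apply WLight_Lt W (by omega) (by omega)
        rw [e4, ← e2]
        intro h6
        exact hne' (h5.trans h6.symm)
      · left
        rw [WLight_L]
        refine ⟨⟨by omega, by omega⟩, Or.inr ?_⟩
        apply WLight_Lt W (by omega) (by omega)
        rw [e4]
        exact h5

theorem Win.H_inv (W : Win p m K r g δ B D₁) (Y : ℕ) : ∀ q, ∀ x ∈ W.U, ∀ x' ∈ W.U,
    q ∈ W.H Y x → W.node q x = W.node q x' → q ∈ W.H Y x' := by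
  intro q x hx x' hx' hq heq
  rw [WLight_H] at hq ⊢
  obtain ⟨⟨h1, h2⟩, h3⟩ := hq
  have hg : g ≤ x := WLight_ge (K := K) (by omega)
  have h4 := (wi_spec K g x (WLight_K W) W.g_pos hg).1
  have h5 := WLight_mono W (q + 1) (wi K g x) (by omega)
  rw [WLight_hi W (q := q) (x := x) (by omega)] at heq
  by_cases h6 : x' < g * K ^ (q + 1)
  · rw [WLight_lo W h6] at heq
    have h7 := (Prod.ext_iff.1 heq).1
    simp only at h7
    omega
  · rw [WLight_hi W h6] at heq
    have e1 := (Prod.ext_iff.1 heq).1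
    have e2 := (Prod.ext_iff.1 heq).2
    simp only at e1 e2
    have e3 : wi K g x' = wi K g x := by omega
    rw [e3] at e2 ⊢
    refine ⟨⟨h1, h2⟩, ?_⟩
    unfold Th at h3 ⊢
    rw [mem_filter] at h3 ⊢
    rw [← e2]
    exact h3

theorem Win.L_mem (W : Win p m K r g δ B D₁) : ∀ x ∈ W.U, ∀ q ∈ W.L x, 1 ≤ q ∧ q ≤ B := by
  intro x hx q hq
  rw [WLight_L] at hq
  obtain ⟨⟨h1, h2⟩, -⟩ := hq
  have hg : g ≤ x := WLight_ge (K := K) (by omega)
  have h3 := (W.mem_Wd hx hg).2
  omega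

private theorem WLight_m (W : Win p m K r g δ B D₁) : #(W.Wd B) ≤ m := by
  refine (card_le_card ?_).trans W.cardV
  unfold Win.Wd
  exact filter_subset _ _

private theorem WLight_inj (S T : Finset ℕ) (s : ℕ) (h : ∀ q ∈ S, q + s ∈ T) : #S ≤ #T := by
  refine card_le_card_of_injOn (fun q => q + s) ?_ ?_
  · intro q hq
    exact mem_coe.2 (h q (mem_coe.1 hq))
  · intro a _ b _ hab
    simp only at hab
    omega

private theorem WLight_emptyL (W : Win p m K r g δ B D₁) {x : ℕ} (hx : x < g) : W.L x = ∅ := by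
  rw [eq_empty_iff_forall_notMem]
  intro q hq
  rw [WLight_L, WLight_lt K g x hx] at hq
  omega

private theorem WLight_emptyH (W : Win p m K r g δ B D₁) {x Y : ℕ} (hx : x < g) : W.H Y x = ∅ := by
  rw [eq_empty_iff_forall_notMem]
  intro q hq
  rw [WLight_H, WLight_lt K g x hx] at hq
  omega

theorem Win.LH_card (W : Win p m K r g δ B D₁) (Y : ℕ) (hY : 1 ≤ Y) : ∀ x ∈ W.U,
    #(W.L x ∪ W.H Y x) ≤ (1 + Nat.log 2 m) + Y * (Nat.log 2 m + 1) := by
  classical
  intro x hx
  by_cases hg : x < g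
  · rw [WLight_emptyL W hg, WLight_emptyH W hg, union_empty, card_empty]
    exact Nat.zero_le _
  · have hg' : g ≤ x := not_lt.1 hg
    obtain ⟨hW, hB⟩ := W.mem_Wd hx hg'
    have hpi := W.pi_mem hB hW
    have hn := W.nested (by have := WLight_K W; omega)
    have hlog : Nat.log 2 #(W.Wd B) ≤ Nat.log 2 m := Nat.log_mono_right (WLight_m W)
    have hL : #(W.L x) ≤ 1 + Nat.log 2 m := by
      have h1 : W.L x ⊆ insert (wi K g x)
          ((W.L x).filter fun q => q + (B - wi K g x) ∈ Lt (W.Wd B) W.nd B (W.pi x)) := by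
        intro q hq
        rw [mem_insert, mem_filter]
        rcases (WLight_L W).1 hq with ⟨-, h2 | h2⟩
        · exact Or.inl h2
        · exact Or.inr ⟨hq, h2⟩
      have h2 := (card_le_card h1).trans (card_insert_le _ _)
      have h3 := WLight_inj ((W.L x).filter fun q => q + (B - wi K g x) ∈
        Lt (W.Wd B) W.nd B (W.pi x)) (Lt (W.Wd B) W.nd B (W.pi x)) (B - wi K g x)
        (fun q hq => (mem_filter.1 hq).2)
      have h4 := Lt_log hn B hpi
      omega
    have hH : #(W.H Y x) ≤ Y * (Nat.log 2 m + 1) := by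
      have h3 := WLight_inj (W.H Y x) (Th (W.Wd B) W.nd B Y (W.pi x)) (B - wi K g x)
        (fun q hq => ((WLight_H W).1 hq).2)
      have h4 := Th_card hn B Y hY hpi
      have h5 : Y * (Nat.log 2 #(W.Wd B) + 1) ≤ Y * (Nat.log 2 m + 1) :=
        Nat.mul_le_mul_left _ (by omega)
      omega
    have h6 := card_union_le (W.L x) (W.H Y x)
    omega

theorem Win.T_card (W : Win p m K r g δ B D₁) (Y d₀ : ℕ) (hY : 1 ≤ Y) (hm : m < Y ^ d₀) :
    ∀ x ∈ W.U, #(W.L x \ W.H Y x) ≤ d₀ := by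
  classical
  intro x hx
  by_cases hg : x < g
  · rw [WLight_emptyL W hg, empty_sdiff, card_empty]
    exact Nat.zero_le _
  · have hg' : g ≤ x := not_lt.1 hg
    obtain ⟨hW, hB⟩ := W.mem_Wd hx hg'
    have hpi := W.pi_mem hB hW
    have hn := W.nested (by have := WLight_K W; omega)
    have h1 : W.L x \ W.H Y x ⊆ insert (wi K g x)
        ((W.L x).filter fun q => q + (B - wi K g x) ∈
          Lt (W.Wd B) W.nd B (W.pi x) \ Th (W.Wd B) W.nd B Y (W.pi x)) := by
      intro q hq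
      rw [mem_sdiff] at hq
      rw [mem_insert, mem_filter, mem_sdiff]
      obtain ⟨h3, h4⟩ := (WLight_L W).1 hq.1
      by_cases h2 : q = wi K g x
      · exact Or.inl h2
      · right
        refine ⟨hq.1, h4.resolve_left h2, fun h5 => hq.2 ?_⟩
        rw [WLight_H]
        exact ⟨⟨h3.1, by omega⟩, h5⟩
    have h2 := (card_le_card h1).trans (card_insert_le _ _)
    have h3 := WLight_inj ((W.L x).filter fun q => q + (B - wi K g x) ∈
        Lt (W.Wd B) W.nd B (W.pi x) \ Th (W.Wd B) W.nd B Y (W.pi x))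
      (Lt (W.Wd B) W.nd B (W.pi x) \ Th (W.Wd B) W.nd B Y (W.pi x)) (B - wi K g x)
      (fun q hq => (mem_filter.1 hq).2)
    have h4 := LtTh_card hn B Y hY hpi
    have h5 : #(Lt (W.Wd B) W.nd B (W.pi x) \ Th (W.Wd B) W.nd B Y (W.pi x)) < d₀ := by
      by_contra hcon
      have h6 := Nat.pow_le_pow_right hY (not_lt.1 hcon)
      have h7 := WLight_m W
      omega
    omega

end Pool.Agent.DCA
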