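import Pool.Agent.Lib.DCA.WPi
import Pool.Agent.Lib.DCA.WNd
import Pool.Agent.Lib.DCA.TCount

/-!
# Windows: few medium points for a suitable exponent

PROOF. For `x ∈ U` with `g ≤ x` put `v = pi x ∈ Wd B`, `s = B - wi x`. If `q ∈ L x \ H (y^e) x`, `q < wi x`, `Rich (y^(e+1)) x q` then `j = q + s` is in `Lt v` (`q ≠ wi x`), not in `Th (y^e) v` (`1 ≤ q < wi x`), and in
`Th (y^(e+1)) v` (`1 ≤ j ≤ B`, definition of `Rich`). So the number of `e ∈ [S, 2S)` for which `x` is counted is at most `#(Lt v \ Th (y^S) v)` (`medium`), and this is `< d₀`: `(y^S) ^ #(…) ≤ #(Wd B) ≤ m < (y^S) ^ d₀` (`LtTh_card`).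
Double counting: the sum over the `S` values of `e` of the cardinalities is at most `d₀ * #U`, so for one of them `S * # ≤ d₀ * #U` (`Finset.exists_le_of_sum_le` or by contradiction).
-/

set_option autoImplicit false

open Finset

namespace Pool.Agent.DCA

variable {p m K r g δ B D₁ : ℕ}

open Classical in
private theorem wmed_point (W : Win p m K r g δ B D₁) (y S d₀ : ℕ) (hy : 2 ≤ y)
    (hS : 1 ≤ S) (hm : m < (y ^ S) ^ d₀) {x : ℕ} (hx : x ∈ W.U) (hg : g ≤ x) :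
    #{e ∈ Ico S (2 * S) | ∃ q ∈ W.L x \ W.H (y ^ e) x,
      q < wi K g x ∧ W.Rich (y ^ (e + 1)) x q} ≤ d₀ := by
  obtain ⟨hxW, hi⟩ := W.mem_Wd hx hg
  have hv : W.pi x ∈ W.Wd B := W.pi_mem hi hxW
  have hK : 1 ≤ K := by
    have := W.K_ge
    omega
  have hn : Nested (W.Wd B) W.nd := W.nested hK
  have h1 : #{e ∈ Ico S (2 * S) | ∃ q ∈ W.L x \ W.H (y ^ e) x,
      q < wi K g x ∧ W.Rich (y ^ (e + 1)) x q} ≤
      #{e ∈ Ico S (2 * S) | ∃ j ∈ Lt (W.Wd B) W.nd B (W.pi x) \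
        Th (W.Wd B) W.nd B (y ^ e) (W.pi x),
      j ∈ Th (W.Wd B) W.nd B (y ^ (e + 1)) (W.pi x)} := by
    apply Finset.card_le_card
    intro e he
    rw [Finset.mem_filter] at he ⊢
    refine ⟨he.1, ?_⟩
    obtain ⟨q, hq, hqi, hR⟩ := he.2
    rw [Finset.mem_sdiff] at hq
    obtain ⟨hqL, hqH⟩ := hq
    rw [Win.L, Finset.mem_filter, Finset.mem_Icc] at hqL
    obtain ⟨⟨hq1, hq2⟩, hq3⟩ := hqL
    have hq4 : q + (B - wi K g x) ∈ Lt (W.Wd B) W.nd B (W.pi x) := by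
      rcases hq3 with h | h
      · omega
      · exact h
    have hq5 : q + (B - wi K g x) ∉ Th (W.Wd B) W.nd B (y ^ e) (W.pi x) := by
      intro h
      apply hqH
      rw [Win.H, Finset.mem_filter, Finset.mem_Ico]
      exact ⟨⟨hq1, hqi⟩, h⟩
    refine ⟨q + (B - wi K g x), Finset.mem_sdiff.2 ⟨hq4, hq5⟩, ?_⟩
    rw [Th, Finset.mem_filter, Finset.mem_Icc]
    refine ⟨⟨by omega, by omega⟩, hR⟩
  have h2 := medium (V := W.Wd B) (nd := W.nd) B y S (W.pi x) hy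
  have h3 := LtTh_card hn B (y ^ S) (Nat.one_le_pow _ _ (by omega)) hv
  have h4 : #(W.Wd B) ≤ m := (Finset.card_le_card (Finset.filter_subset _ _)).trans W.cardV
  have h5 : 1 < y ^ S := Nat.one_lt_pow (by omega) (by omega)
  have h6 : #(Lt (W.Wd B) W.nd B (W.pi x) \ Th (W.Wd B) W.nd B (y ^ S) (W.pi x)) < d₀ :=
    (Nat.pow_lt_pow_iff_right h5).1 ((h3.trans h4).trans_lt hm)
  omega

open Classical in
theorem Win.med (W : Win p m K r g δ B D₁) (y S d₀ : ℕ) (hy : 2 ≤ y) (hS : 1 ≤ S)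
    (hm : m < (y ^ S) ^ d₀) :
    ∃ e ∈ Ico S (2 * S), S * #{x ∈ W.U | g ≤ x ∧ ∃ q ∈ W.L x \ W.H (y ^ e) x,
      q < wi K g x ∧ W.Rich (y ^ (e + 1)) x q} ≤ d₀ * #W.U := by
  by_contra hcon
  push Not at hcon
  set P : ℕ → ℕ → Prop := fun e x => g ≤ x ∧ ∃ q ∈ W.L x \ W.H (y ^ e) x,
      q < wi K g x ∧ W.Rich (y ^ (e + 1)) x q with hP
  have h1 : ∑ e ∈ Ico S (2 * S), #{x ∈ W.U | P e x} =
      ∑ x ∈ W.U, #{e ∈ Ico S (2 * S) | P e x} :=
    Finset.sum_card_bipartiteAbove_eq_sum_card_bipartiteBelow P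
  have h2 : ∑ x ∈ W.U, #{e ∈ Ico S (2 * S) | P e x} ≤ ∑ x ∈ W.U, d₀ := by
    apply Finset.sum_le_sum
    intro x hx
    by_cases hg : g ≤ x
    · refine le_trans (Finset.card_le_card ?_) (wmed_point W y S d₀ hy hS hm hx hg)
      intro e he
      rw [Finset.mem_filter] at he ⊢
      exact ⟨he.1, he.2.2⟩
    · have : #{e ∈ Ico S (2 * S) | P e x} = 0 := by
        rw [Finset.card_eq_zero, Finset.filter_eq_empty_iff]
        intro e _ h
        exact hg h.1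
      omega
  have h3 : ∑ e ∈ Ico S (2 * S), (d₀ * #W.U + 1) ≤
      ∑ e ∈ Ico S (2 * S), S * #{x ∈ W.U | P e x} := by
    apply Finset.sum_le_sum
    intro e he
    have := hcon e he
    exact this
  rw [← Finset.mul_sum, h1] at h3
  rw [Finset.sum_const, smul_eq_mul] at h2 h3
  rw [Nat.card_Ico] at h3
  have h4 : 2 * S - S = S := by omega
  rw [h4] at h3
  have h5 := Nat.mul_le_mul_left S h2
  have h6 : S * (d₀ * #W.U + 1) = S * (#W.U * d₀) + S := by ring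
  omega

end Pool.Agent.DCA
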