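import Pool.Agent.Lib.DCA.TDefs

/-!
# Trees: basic facts

`hvc_spec`: the set in the definition of `hvc` is nonempty by `Finset.exists_max_image` (`cls V nd j (nd j v)` contains `v`).
`card_cls_eq`: `cls V nd (j-1) (hvc …)` is the set of `u ∈ cls V nd j (nd j v)` with `nd (j-1) u = hvc`: if
`nd (j-1) u = nd (j-1) u₀` (`u₀` from `hvc_spec`) then `nd j u = nd j u₀ = nd j v` (`Nested` at `j - 1`).
`child_le_lp`: if `nd (j-1) v ≠ hvc` then all `u` with `nd (j-1) u = nd (j-1) v` are in the light part of the class of `v` at level `j`.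
`two_child`: `#child ≤ #heavy` and `#child ≤ lp`, `#heavy + lp = #class`.
`cls_mono`: `Nested`.
-/

set_option autoImplicit false

open Finset

namespace Pool.Agent.DCA

variable {V : Finset ℕ} {nd : ℕ → ℕ → ℕ}

theorem hvc_spec (j : ℕ) {v : ℕ} (hv : v ∈ V) :
    ∃ u ∈ V, nd j u = nd j v ∧ nd (j - 1) u = hvc V nd j (nd j v) ∧
      ∀ u' ∈ V, nd j u' = nd j v → #(cls V nd (j - 1) (nd (j - 1) u')) ≤
        #(cls V nd (j - 1) (hvc V nd j (nd j v))) := by
  classical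
  have h : ∃ u ∈ cls V nd j (nd j v), ∀ u' ∈ cls V nd j (nd j v),
      #(cls V nd (j - 1) (nd (j - 1) u')) ≤ #(cls V nd (j - 1) (nd (j - 1) u)) :=
    Finset.exists_max_image (cls V nd j (nd j v))
      (fun u => #(cls V nd (j - 1) (nd (j - 1) u))) ⟨v, by simp [cls, hv]⟩
  have e : hvc V nd j (nd j v) = nd (j - 1) h.choose := by
    unfold hvc
    rw [dif_pos h]
  have h1 : h.choose ∈ {u ∈ V | nd j u = nd j v} := h.choose_spec.1
  have h2 := h.choose_spec.2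
  rw [Finset.mem_filter] at h1
  refine ⟨h.choose, h1.1, h1.2, e.symm, fun u' hu' hj => ?_⟩
  rw [e]
  exact h2 u' (by simp [cls, hu', hj])

private theorem TBasic_up (hn : Nested V nd) (j : ℕ) (hj : 1 ≤ j) {u v : ℕ} (hu : u ∈ V)
    (hv : v ∈ V) (h : nd (j - 1) u = nd (j - 1) v) : nd j u = nd j v := by
  have := hn (j - 1) u hu v hv h
  rwa [Nat.sub_add_cancel hj] at this

theorem card_cls_eq (hn : Nested V nd) (j : ℕ) (hj : 1 ≤ j) {v : ℕ} (hv : v ∈ V) :
    #(cls V nd (j - 1) (hvc V nd j (nd j v))) + lp V nd j (nd j v) =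
      #(cls V nd j (nd j v)) := by
  obtain ⟨u₀, hu₀, h1, h2, -⟩ := hvc_spec (nd := nd) j hv
  have e : cls V nd (j - 1) (hvc V nd j (nd j v)) =
      {u ∈ cls V nd j (nd j v) | nd (j - 1) u = hvc V nd j (nd j v)} := by
    ext u
    simp only [cls, Finset.mem_filter]
    constructor
    · rintro ⟨hu, h3⟩
      refine ⟨⟨hu, ?_⟩, h3⟩
      rw [← h1]
      exact TBasic_up hn j hj hu hu₀ (h3.trans h2.symm)
    · rintro ⟨⟨hu, -⟩, h3⟩
      exact ⟨hu, h3⟩
  rw [e, lp]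
  exact Finset.card_filter_add_card_filter_not _

theorem cls_mono (hn : Nested V nd) (j : ℕ) {v : ℕ} (hv : v ∈ V) :
    cls V nd j (nd j v) ⊆ cls V nd (j + 1) (nd (j + 1) v) := by
  intro u hu
  rw [cls, Finset.mem_filter] at hu ⊢
  exact ⟨hu.1, hn j u hu.1 v hv hu.2⟩

theorem child_le_heavy (hn : Nested V nd) (j : ℕ) (hj : 1 ≤ j) {v : ℕ} (hv : v ∈ V) :
    #(cls V nd (j - 1) (nd (j - 1) v)) ≤ #(cls V nd (j - 1) (hvc V nd j (nd j v))) := by
  obtain ⟨u₀, hu₀, h1, h2, h3⟩ := hvc_spec (nd := nd) j hv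
  exact h3 v hv rfl

theorem child_le_lp (hn : Nested V nd) (j : ℕ) (hj : 1 ≤ j) {v : ℕ} (hv : v ∈ V)
    (hl : nd (j - 1) v ≠ hvc V nd j (nd j v)) :
    #(cls V nd (j - 1) (nd (j - 1) v)) ≤ lp V nd j (nd j v) := by
  rw [lp]
  apply Finset.card_le_card
  intro u hu
  rw [cls, Finset.mem_filter] at hu
  rw [Finset.mem_filter, cls, Finset.mem_filter]
  refine ⟨⟨hu.1, TBasic_up hn j hj hu.1 hv hu.2⟩, ?_⟩
  rw [hu.2]
  exact hl

theorem two_child (hn : Nested V nd) (j : ℕ) (hj : 1 ≤ j) {v : ℕ} (hv : v ∈ V)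
    (hl : nd (j - 1) v ≠ hvc V nd j (nd j v)) :
    2 * #(cls V nd (j - 1) (nd (j - 1) v)) ≤ #(cls V nd j (nd j v)) := by
  have h1 := child_le_heavy hn j hj hv
  have h2 := child_le_lp hn j hj hv hl
  have h3 := card_cls_eq hn j hj hv
  omega

end Pool.Agent.DCA
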