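import Pool.Agent.Lib.DCA.WPi
import Pool.Agent.Lib.DCA.WNd
import Pool.Agent.Lib.DCA.TBasic

/-!
# Windows: levels which are exceptional for all heavy siblings are rare

`R1_top`. PROOF. For `x ∈ F` (so `x ∈ Wd (wi x)`, `wi x ≤ B`) with `wi x ∈ Rr h₀`: `∑_(i ∈ Rr h₀, i ≤ B) #(Wd i) ≤ R * #(Wd B)`.
`R1_low`. PROOF. Fix `i ≤ B`, `q < i`, `j = q + (B - i)` and a class name `c`; let `X` be the set of `x ∈ F ∩ Wd i` with `q ∈ L x \ H (y^e) x`, `nd j (pi x) = c` and `q ∈ Rr h` for all `h ∈ Hv x q`. If `X` is nonempty: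
`X` injects by `pi` (`pi_inj`) into the light part of `c` (`q ∈ L x`, `q < i` gives `j ∈ Lt (pi x)`: `nd (j-1) (pi x) ≠ hvc j c`), so `#X ≤ lp j c`. For `x ∈ X`: not `Rich (y ^ (e+1)) x q` (definition of `F`):
`y ^ (e+1) * lp j c < #(cls j c)`, and `#(cls j c) ≤ P * nn x q`. `nn x q ≤ lp j c + #(Hv x q)`: the points `x'` of `Wd i` in the class are in the light part (injectively by `pi`) or in `Hv x q` (`q ≠ wi x`). So with `N = #(Hv x q)`:
`#(cls j c) ≤ P lp + P N` and `2 P lp ≤ y ^ (e+1) lp < #(cls j c)` give `#(cls j c) ≤ 2 P N`, and `y ^ (e+1) * #X ≤ y ^ (e+1) lp ≤ #(cls j c) ≤ 2 P N = 2 P * #{h ∈ Hv x q | q ∈ Rr h}`. The sets `Hv x q` for different `c` (same `i, q`)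
are disjoint subsets of `Wd i`. Sum over `c`: `y ^ (e+1) #{x ∈ F ∩ Wd i | q-event} ≤ 2 P #{h ∈ Wd i | q ∈ Rr h}`; sum over `q`: `≤ 2 P R #(Wd i)`; sum over `i ≤ B`: `≤ 2 P R #U`.
-/

set_option autoImplicit false

open Finset

namespace Pool.Agent.DCA

variable {p m K r g δ B D₁ : ℕ}

private theorem WR1_F_Wd (W : Win p m K r g δ B D₁) {y e P x : ℕ} (hx : x ∈ W.F y e P) :
    x ∈ W.Wd (wi K g x) ∧ wi K g x ≤ B := by
  classical
  rw [Win.F, mem_filter] at hx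
  obtain ⟨hxV, h1, h2, -⟩ := hx
  have hK : 1 ≤ K := le_trans (by omega) W.K_ge
  have hU : x ∈ W.U := by
    rw [Win.U, mem_filter]
    refine ⟨hxV, lt_of_lt_of_le h2 ?_⟩
    exact Nat.mul_le_mul_left _ (Nat.pow_le_pow_right hK (Nat.le_succ _))
  apply W.mem_Wd hU
  exact le_trans (Nat.le_mul_of_pos_right _ (pow_pos hK 2)) h1

private theorem WR1_Wd_sub (W : Win p m K r g δ B D₁) {i : ℕ} (hi : i ≤ B) : W.Wd i ⊆ W.U := by
  intro x hx
  have hK : 1 ≤ K := le_trans (by omega) W.K_ge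
  rw [Win.Wd, mem_filter] at hx
  rw [Win.U, mem_filter]
  refine ⟨hx.1, lt_of_lt_of_le hx.2.2 ?_⟩
  exact Nat.mul_le_mul_left _ (Nat.pow_le_pow_right hK (by omega))

private theorem WR1_sum_Wd (W : Win p m K r g δ B D₁) :
    ∑ i ∈ range (B + 1), #(W.Wd i) ≤ #W.U := by
  classical
  rw [← Finset.card_biUnion]
  · apply Finset.card_le_card
    intro x hx
    rw [mem_biUnion] at hx
    obtain ⟨i, hi, hx⟩ := hx
    exact WR1_Wd_sub W (by rw [mem_range] at hi; omega) hx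
  · intro i _ j _ hij
    rw [Function.onFun, Finset.disjoint_left]
    intro x hx hx'
    exact hij ((W.wi_mem hx).symm.trans (W.wi_mem hx'))

open Classical in
/-- the bad points of the window `i` at level `q` -/
private noncomputable def WR1_A (W : Win p m K r g δ B D₁) (y e P : ℕ) (Rr : ℕ → Finset ℕ)
    (i q : ℕ) : Finset ℕ :=
  {x ∈ W.F y e P | wi K g x = i ∧ q ∈ W.L x \ W.H (y ^ e) x ∧ ∀ h ∈ W.Hv x q, q ∈ Rr h}

private theorem WR1_key (W : Win p m K r g δ B D₁) (y e P : ℕ) (hP : 2 * P ≤ y ^ (e + 1))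
    (Rr : ℕ → Finset ℕ) {i q : ℕ} (hi : i ≤ B) (hq : q < i) (c : ℕ) :
    y ^ (e + 1) * #{x ∈ WR1_A W y e P Rr i q | W.nd (q + (B - i)) (W.pi x) = c} ≤
      2 * P * #{h ∈ {h ∈ W.Wd i | q ∈ Rr h} | W.nd (q + (B - i)) (W.pi h) = c} := by
  classical
  rcases Finset.eq_empty_or_nonempty
    {x ∈ WR1_A W y e P Rr i q | W.nd (q + (B - i)) (W.pi x) = c} with h0 | ⟨x₀, hx₀⟩
  · rw [h0]
    simp
  set J := q + (B - i) with hJ
  have hA : ∀ x ∈ {x ∈ WR1_A W y e P Rr i q | W.nd J (W.pi x) = c},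
      x ∈ W.F y e P ∧ wi K g x = i ∧ q ∈ W.L x \ W.H (y ^ e) x ∧
        (∀ h ∈ W.Hv x q, q ∈ Rr h) ∧ W.nd J (W.pi x) = c := by
    intro x hx
    rw [mem_filter, WR1_A, mem_filter] at hx
    exact ⟨hx.1.1, hx.1.2.1, hx.1.2.2.1, hx.1.2.2.2, hx.2⟩
  have hWd : ∀ x ∈ {x ∈ WR1_A W y e P Rr i q | W.nd J (W.pi x) = c}, x ∈ W.Wd i := by
    intro x hx
    have h1 := hA x hx
    have h2 := WR1_F_Wd W h1.1
    rw [h1.2.1] at h2
    exact h2.1
  -- (1)
  have e1 : #{x ∈ WR1_A W y e P Rr i q | W.nd J (W.pi x) = c} ≤ lp (W.Wd B) W.nd J c := by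
    rw [lp]
    apply Finset.card_le_card_of_injOn W.pi
    · intro x hx
      have hx : x ∈ {x ∈ WR1_A W y e P Rr i q | W.nd J (W.pi x) = c} := hx
      obtain ⟨h1, h2, h3, h4, h5⟩ := hA x hx
      have hm : W.pi x ∈ W.Wd B := W.pi_mem hi (hWd x hx)
      rw [mem_sdiff, Win.L, mem_filter, h2] at h3
      rcases h3.1.2 with h6 | h6
      · omega
      · rw [Lt, mem_filter] at h6
        have h7 := h6.2
        rw [← hJ, h5] at h7
        simp only [coe_filter, Set.mem_ofPred_eq, cls, mem_filter]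
        exact ⟨⟨hm, h5⟩, h7⟩
    · intro x hx x' hx' h
      exact W.pi_inj hi (hWd x hx) (hWd x' hx') h
  obtain ⟨hF, hwi, hqL, hHv, hc⟩ := hA x₀ hx₀
  have hF' := hF
  rw [Win.F, mem_filter] at hF'
  obtain ⟨-, -, -, -, hRich, hDens, -⟩ := hF'
  have e2 := hRich q hqL (by omega)
  have e3 := hDens q (by omega)
  rw [Win.Rich, hwi, ← hJ, hc] at e2
  rw [hwi, ← hJ, hc] at e3
  -- (4)
  have hHveq : W.Hv x₀ q = {h ∈ W.Wd i | W.nd J (W.pi h) = c ∧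
      W.nd (J - 1) (W.pi h) = hvc (W.Wd B) W.nd J c} := by
    rw [Win.Hv, if_neg (by omega), hwi, ← hJ, hc]
  have e4 : W.nn x₀ q ≤ lp (W.Wd B) W.nd J c + #(W.Hv x₀ q) := by
    rw [Win.nn, hwi, ← hJ, hc, hHveq, lp]
    rw [← Finset.card_filter_add_card_filter_not
      (s := {x' ∈ W.Wd i | W.nd J (W.pi x') = c})
      (p := fun x' => W.nd (J - 1) (W.pi x') = hvc (W.Wd B) W.nd J c), add_comm]
    apply Nat.add_le_add
    · apply Finset.card_le_card_of_injOn W.pi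
      · intro x hx
        have hx : x ∈ {x ∈ {x' ∈ W.Wd i | W.nd J (W.pi x') = c} |
          ¬ W.nd (J - 1) (W.pi x) = hvc (W.Wd B) W.nd J c} := hx
        rw [mem_filter, mem_filter] at hx
        have hm : W.pi x ∈ W.Wd B := W.pi_mem hi hx.1.1
        simp only [coe_filter, Set.mem_ofPred_eq, cls, mem_filter]
        exact ⟨⟨hm, hx.1.2⟩, hx.2⟩
      · intro x hx x' hx' h
        have hx : x ∈ {x ∈ {x' ∈ W.Wd i | W.nd J (W.pi x') = c} |
          ¬ W.nd (J - 1) (W.pi x) = hvc (W.Wd B) W.nd J c} := hx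
        have hx' : x' ∈ {x ∈ {x' ∈ W.Wd i | W.nd J (W.pi x') = c} |
          ¬ W.nd (J - 1) (W.pi x) = hvc (W.Wd B) W.nd J c} := hx'
        rw [mem_filter, mem_filter] at hx hx'
        exact W.pi_inj hi hx.1.1 hx'.1.1 h
    · apply Finset.card_le_card
      intro x hx
      rw [mem_filter, mem_filter] at hx
      rw [mem_filter]
      exact ⟨hx.1.1, hx.1.2, hx.2⟩
  -- (6)
  have e6 : #(W.Hv x₀ q) ≤ #{h ∈ {h ∈ W.Wd i | q ∈ Rr h} | W.nd J (W.pi h) = c} := by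
    apply Finset.card_le_card
    intro h hh
    have h1 := hHv h hh
    rw [hHveq, mem_filter] at hh
    rw [mem_filter, mem_filter]
    exact ⟨⟨hh.1, h1⟩, hh.2.1⟩
  have e7 : y ^ (e + 1) * #{x ∈ WR1_A W y e P Rr i q | W.nd J (W.pi x) = c} ≤
      y ^ (e + 1) * lp (W.Wd B) W.nd J c := Nat.mul_le_mul_left _ e1
  have e8 : 2 * P * #(W.Hv x₀ q) ≤
      2 * P * #{h ∈ {h ∈ W.Wd i | q ∈ Rr h} | W.nd J (W.pi h) = c} := Nat.mul_le_mul_left _ e6
  have e9 : P * W.nn x₀ q ≤ P * (lp (W.Wd B) W.nd J c + #(W.Hv x₀ q)) :=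
    Nat.mul_le_mul_left _ e4
  have e10 : 2 * P * lp (W.Wd B) W.nd J c ≤ y ^ (e + 1) * lp (W.Wd B) W.nd J c :=
    Nat.mul_le_mul_right _ hP
  have e11 : P * (lp (W.Wd B) W.nd J c + #(W.Hv x₀ q)) =
      P * lp (W.Wd B) W.nd J c + P * #(W.Hv x₀ q) := Nat.mul_add _ _ _
  have e12 : 2 * P * #(W.Hv x₀ q) = 2 * (P * #(W.Hv x₀ q)) := Nat.mul_assoc _ _ _
  have e13 : 2 * P * lp (W.Wd B) W.nd J c = 2 * (P * lp (W.Wd B) W.nd J c) :=
    Nat.mul_assoc _ _ _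
  have e2' := not_le.1 e2
  omega

private theorem WR1_A_card (W : Win p m K r g δ B D₁) (y e P : ℕ) (hP : 2 * P ≤ y ^ (e + 1))
    (Rr : ℕ → Finset ℕ) {i q : ℕ} (hi : i ≤ B) (hq : q < i) :
    y ^ (e + 1) * #(WR1_A W y e P Rr i q) ≤ 2 * P * #{h ∈ W.Wd i | q ∈ Rr h} := by
  classical
  have hWd : ∀ x ∈ WR1_A W y e P Rr i q, x ∈ W.Wd i := by
    intro x hx
    rw [WR1_A, mem_filter] at hx
    have h2 := WR1_F_Wd W hx.1
    rw [hx.2.1] at h2
    exact h2.1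
  have h1 := Finset.card_eq_sum_card_fiberwise (s := WR1_A W y e P Rr i q)
    (t := (W.Wd i).image (fun x => W.nd (q + (B - i)) (W.pi x)))
    (f := fun x => W.nd (q + (B - i)) (W.pi x))
    (fun x hx => by
      have := hWd x hx
      exact mem_coe.2 (mem_image_of_mem _ this))
  have h2 := Finset.card_eq_sum_card_fiberwise (s := {h ∈ W.Wd i | q ∈ Rr h})
    (t := (W.Wd i).image (fun x => W.nd (q + (B - i)) (W.pi x)))
    (f := fun x => W.nd (q + (B - i)) (W.pi x))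
    (fun x hx => by
      have hx : x ∈ {h ∈ W.Wd i | q ∈ Rr h} := hx
      rw [mem_filter] at hx
      exact mem_coe.2 (mem_image_of_mem _ hx.1))
  rw [h1, h2, mul_sum, mul_sum]
  exact Finset.sum_le_sum fun c _ => WR1_key W y e P hP Rr hi hq c

private theorem WR1_sum_q (W : Win p m K r g δ B D₁) (R : ℕ) (Rr : ℕ → Finset ℕ)
    (hR : ∀ h, #(Rr h) ≤ R) (i : ℕ) :
    ∑ q ∈ range i, #{h ∈ W.Wd i | q ∈ Rr h} ≤ R * #(W.Wd i) := by
  classical
  have h1 : ∑ q ∈ range i, #{h ∈ W.Wd i | q ∈ Rr h} =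
      ∑ h ∈ W.Wd i, #{q ∈ range i | q ∈ Rr h} := by
    simp only [Finset.card_filter]
    exact Finset.sum_comm
  rw [h1, mul_comm, ← smul_eq_mul]
  apply Finset.sum_le_card_nsmul
  intro h _
  refine le_trans (Finset.card_le_card ?_) (hR h)
  intro q hq
  exact (mem_filter.1 hq).2

open Classical in
theorem Win.R1_top (W : Win p m K r g δ B D₁) (y e P R : ℕ) (Rr : ℕ → Finset ℕ)
    (hR : ∀ h, #(Rr h) ≤ R) :
    #{x ∈ W.F y e P | wi K g x ∈ Rr W.h₀} ≤ R * #(W.Wd B) := by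
  have h1 : {x ∈ W.F y e P | wi K g x ∈ Rr W.h₀} ⊆
      ((Rr W.h₀).filter (· ≤ B)).biUnion W.Wd := by
    intro x hx
    rw [mem_filter] at hx
    have h2 := WR1_F_Wd W hx.1
    rw [mem_biUnion]
    exact ⟨wi K g x, mem_filter.2 ⟨hx.2, h2.2⟩, h2.1⟩
  refine (Finset.card_le_card h1).trans ?_
  refine (Finset.card_biUnion_le_card_mul _ _ #(W.Wd B) fun i hi => ?_).trans ?_
  · exact W.card_le (mem_filter.1 hi).2
  · exact Nat.mul_le_mul_right _ ((Finset.card_filter_le _ _).trans (hR _))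

open Classical in
theorem Win.R1_low (W : Win p m K r g δ B D₁) (y e P R : ℕ) (hP : 2 * P ≤ y ^ (e + 1))
    (Rr : ℕ → Finset ℕ) (hR : ∀ h, #(Rr h) ≤ R) :
    y ^ (e + 1) * #{x ∈ W.F y e P | ∃ q ∈ W.L x \ W.H (y ^ e) x, q < wi K g x ∧
      ∀ h ∈ W.Hv x q, q ∈ Rr h} ≤ 2 * P * (R * #W.U) := by
  have h1 : {x ∈ W.F y e P | ∃ q ∈ W.L x \ W.H (y ^ e) x, q < wi K g x ∧
      ∀ h ∈ W.Hv x q, q ∈ Rr h} ⊆
      (range (B + 1)).biUnion fun i => (range i).biUnion fun q => WR1_A W y e P Rr i q := by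
    intro x hx
    rw [mem_filter] at hx
    obtain ⟨hxF, q, hq, hqi, hh⟩ := hx
    have h2 := WR1_F_Wd W hxF
    rw [mem_biUnion]
    refine ⟨wi K g x, mem_range.2 (by omega), mem_biUnion.2 ⟨q, mem_range.2 hqi, ?_⟩⟩
    rw [WR1_A, mem_filter]
    exact ⟨hxF, rfl, hq, hh⟩
  have h2 : #{x ∈ W.F y e P | ∃ q ∈ W.L x \ W.H (y ^ e) x, q < wi K g x ∧
      ∀ h ∈ W.Hv x q, q ∈ Rr h} ≤
      ∑ i ∈ range (B + 1), ∑ q ∈ range i, #(WR1_A W y e P Rr i q) := by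
    refine (Finset.card_le_card h1).trans (Finset.card_biUnion_le.trans ?_)
    exact Finset.sum_le_sum fun i _ => Finset.card_biUnion_le
  calc _ ≤ y ^ (e + 1) * ∑ i ∈ range (B + 1), ∑ q ∈ range i, #(WR1_A W y e P Rr i q) :=
        Nat.mul_le_mul_left _ h2
    _ = ∑ i ∈ range (B + 1), ∑ q ∈ range i, y ^ (e + 1) * #(WR1_A W y e P Rr i q) := by
        rw [mul_sum]
        exact Finset.sum_congr rfl fun i _ => mul_sum _ _ _
    _ ≤ ∑ i ∈ range (B + 1), ∑ q ∈ range i, 2 * P * #{h ∈ W.Wd i | q ∈ Rr h} := by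
        refine Finset.sum_le_sum fun i hi => Finset.sum_le_sum fun q hq => ?_
        rw [mem_range] at hi hq
        exact WR1_A_card W y e P hP Rr (by omega) hq
    _ = 2 * P * ∑ i ∈ range (B + 1), ∑ q ∈ range i, #{h ∈ W.Wd i | q ∈ Rr h} := by
        rw [mul_sum]
        exact Finset.sum_congr rfl fun i _ => (mul_sum _ _ _).symm
    _ ≤ 2 * P * ∑ i ∈ range (B + 1), R * #(W.Wd i) :=
        Nat.mul_le_mul_left _ (Finset.sum_le_sum fun i _ => WR1_sum_q W R Rr hR i)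
    _ ≤ 2 * P * (R * #W.U) := by
        apply Nat.mul_le_mul_left
        rw [← mul_sum]
        exact Nat.mul_le_mul_left _ (WR1_sum_Wd W)

end Pool.Agent.DCA
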