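import Pool.Agent.Lib.DCA.WNode
import Pool.Agent.Lib.DCA.WLight
import Pool.Agent.Lib.DCA.WH2
import Pool.Agent.Lib.DCA.WR1
import Pool.Agent.Lib.DCA.WMed
import Pool.Agent.Lib.DCA.WHv
import Pool.Agent.Lib.DCA.WFbig

/-!
# Windows give a tower
-/

set_option autoImplicit false

open Finset

namespace Pool.Agent.DCA

variable {p m K r g δ B D₁ : ℕ}

open Classical in
/-- the numerical part of `R1` -/
theorem Win.R1_num (X u y Y c C P Λ lam low top B N : ℕ) (hc : 1 ≤ c) (hC : 1 ≤ C)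
    (hΛ : 1 ≤ Λ) (hY : 1 ≤ Y) (hlam : lam = Λ + Y * Λ) (hyY : Y * y ≤ B) (hX : B * X ≤ C * u)
    (hy : 200 * P * c ^ 2 * C * Λ ^ 2 ≤ y) (hP : 1 ≤ P)
    (htop : top ≤ c * (lam + 1) * X) (hlow : Y * y * low ≤ 2 * P * (c * (lam + 1) * u))
    (hN : N ≤ top + low) : c * N ≤ u := by
  have h1 : lam + 1 ≤ 3 * (Y * Λ) := by
    rw [hlam]
    have : Λ ≤ Y * Λ := Nat.le_mul_of_pos_left _ hY
    have : 1 ≤ Y * Λ := Nat.mul_pos hY hΛ
    omega
  have hΛ2 : Λ ≤ Λ ^ 2 := by nlinarith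
  have hPc : 1 ≤ P * c ^ 2 * C * Λ ^ 2 := by
    have : 1 ≤ c ^ 2 := Nat.one_le_pow _ _ hc
    have : 1 ≤ Λ ^ 2 := Nat.one_le_pow _ _ hΛ
    have h : 1 * 1 * 1 * 1 ≤ P * c ^ 2 * C * Λ ^ 2 := by gcongr
    omega
  have hy0 : 0 < y := by
    have : 200 * 1 ≤ 200 * (P * c ^ 2 * C * Λ ^ 2) := Nat.mul_le_mul_left _ hPc
    have : 200 * (P * c ^ 2 * C * Λ ^ 2) = 200 * P * c ^ 2 * C * Λ ^ 2 := by ring
    omega
  -- top
  have h2 : Y * y * X ≤ C * u := (Nat.mul_le_mul_right _ hyY).trans hX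
  have h3 : 2 * (c * top) * y ≤ y * u := by
    calc 2 * (c * top) * y ≤ 2 * (c * (c * (3 * (Y * Λ)) * X)) * y := by gcongr; exact htop.trans (by gcongr)
      _ = 6 * c ^ 2 * Λ * (Y * y * X) := by ring
      _ ≤ 6 * c ^ 2 * Λ * (C * u) := Nat.mul_le_mul_left _ h2
      _ = (6 * 1 * c ^ 2 * C * Λ) * u := by ring
      _ ≤ (200 * P * c ^ 2 * C * Λ ^ 2) * u := by gcongr; norm_num
      _ ≤ y * u := Nat.mul_le_mul_right _ hy
  have h4 : 2 * (c * top) ≤ u := by
    rw [mul_comm y u] at h3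
    exact Nat.le_of_mul_le_mul_right h3 hy0
  have h5 : 2 * (c * low) * (Y * y) ≤ u * (Y * y) := by
    calc 2 * (c * low) * (Y * y) = 2 * c * (Y * y * low) := by ring
      _ ≤ 2 * c * (2 * P * (c * (3 * (Y * Λ)) * u)) :=
          Nat.mul_le_mul_left _ (hlow.trans (by gcongr))
      _ = (12 * P * c ^ 2 * 1 * Λ) * u * Y := by ring
      _ ≤ (200 * P * c ^ 2 * C * Λ ^ 2) * u * Y := by gcongr; norm_num
      _ ≤ y * u * Y := by gcongr
      _ = u * (Y * y) := by ring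
  have h6 : 2 * (c * low) ≤ u := Nat.le_of_mul_le_mul_right h5 (Nat.mul_pos hY hy0)
  have h7 : c * N ≤ c * top + c * low := by
    rw [← mul_add]; exact Nat.mul_le_mul_left _ hN
  omega

theorem tower_of_win (W : Win p m K r g δ B D₁) (y S d₀ P C c : ℕ) (hc : 1 ≤ c) (hC : 1 ≤ C)
    (hd₀ : 1 ≤ d₀)
    (hcK : c ≤ K) (hcD : c * (D₁ + 1) ≤ g) (hX : B * #(W.Wd B) ≤ C * #W.U)
    (hS : 4 * c * d₀ ≤ S) (hP : 8 * c * C ≤ P) (hm : m < (y ^ S) ^ d₀)
    (hyB : y ^ (2 * S) ≤ B) (hy : 200 * P * c ^ 2 * C * (1 + Nat.log 2 m) ^ 2 ≤ y) :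
    ∃ lam h₂, Nonempty (Tower p B d₀ lam h₂ D₁ c) := by
  classical
  set Λ : ℕ := 1 + Nat.log 2 m with hΛ
  have hΛ1 : 1 ≤ Λ := by omega
  have hP1 : 1 ≤ P := by
    have : 1 * 1 ≤ c * C := Nat.mul_le_mul hc hC
    have h : 8 * (c * C) ≤ P := by rw [← mul_assoc]; exact hP
    omega
  have hS1 : 1 ≤ S := by
    have : 1 * 1 ≤ c * d₀ := Nat.mul_le_mul hc hd₀
    have h : 4 * (c * d₀) ≤ S := by rw [← mul_assoc]; exact hS
    omega
  have hcc : c ≤ c ^ 2 := by nlinarith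
  have hΛ2 : Λ ≤ Λ ^ 2 := by nlinarith
  have hbig1 : 200 * (1 * c * C * Λ) ≤ y := by
    refine le_trans ?_ hy
    calc 200 * (1 * c * C * Λ) ≤ 200 * (P * c ^ 2 * C * Λ ^ 2) := by gcongr
      _ = 200 * P * c ^ 2 * C * Λ ^ 2 := by ring
  have hcCΛ : 1 ≤ 1 * c * C * Λ := by
    have : 1 * 1 * 1 * 1 ≤ 1 * c * C * Λ := by gcongr
    omega
  have hy200 : 200 ≤ y := by omega
  have hy0 : 0 < y := by omega
  obtain ⟨e, he, hmed⟩ := W.med y S d₀ (by omega) hS1 hm
  rw [mem_Ico] at he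
  set Y : ℕ := y ^ e with hY
  have hY1 : 1 ≤ Y := Nat.one_le_pow _ _ hy0
  have hyY : Y * y ≤ B := by
    refine le_trans ?_ hyB
    rw [hY, ← pow_succ]
    exact Nat.pow_le_pow_right hy0 (by omega)
  have hyB' : y ≤ B := le_trans (Nat.le_mul_of_pos_left _ hY1) hyY
  have hmY : m < Y ^ d₀ := by
    refine lt_of_lt_of_le hm ?_
    exact Nat.pow_le_pow_left (Nat.pow_le_pow_right hy0 he.1) _
  have hFbig : c * #(W.U \ W.F y e P) ≤ #W.U := by
    refine W.F_big y e P C c d₀ S hc hC hS hS1 ?_ hP ?_ hX hmed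
    · have : 40 * c * C ≤ 200 * (1 * c * C * Λ) := by
        calc 40 * c * C = 40 * (1 * c * C * 1) := by ring
          _ ≤ 200 * (1 * c * C * Λ) := by gcongr; norm_num
      omega
    · have h1 : 96 * c * C * (1 + Nat.log 2 m) ≤ 200 * (1 * c * C * Λ) := by
        calc 96 * c * C * Λ = 96 * (1 * c * C * Λ) := by ring
          _ ≤ 200 * (1 * c * C * Λ) := by gcongr; norm_num
      refine h1.trans (hbig1.trans ?_)
      rw [pow_succ]
      exact Nat.le_mul_of_pos_left _ hY1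
  have hUne : W.U.Nonempty := by
    have h := W.card_pos (i := 0) (Nat.zero_le _)
    obtain ⟨x, hx⟩ := Finset.card_pos.1 h
    have hx' : x ∈ W.V ∧ g * K ^ 0 ≤ x ∧ x < g * K ^ (0 + 1) := by
      simpa [Win.Wd] using hx
    refine ⟨x, ?_⟩
    unfold Win.U
    rw [mem_filter]
    refine ⟨hx'.1, lt_of_lt_of_le hx'.2.2 ?_⟩
    have hK := W.K_ge
    exact Nat.mul_le_mul_left _ (Nat.pow_le_pow_right (by omega) (by omega))
  refine ⟨Λ + Y * Λ, #(W.Wd B) * Λ, ⟨{
    U := W.U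
    F := W.F y e P
    μ := W.μ
    E := W.E
    θ := fun q => g * K ^ q
    node := W.node
    L := W.L
    H := W.H Y
    Hv := W.Hv
    U_ne := hUne
    F_sub := fun x hx => (W.F_wd y e P x hx).1
    node_mono := W.node_mono
    node_top := W.node_top
    node_le := W.node_le
    node_ge := W.node_ge
    light := W.light
    H_inv := W.H_inv Y
    L_mem := W.L_mem
    LH_card := ?_
    T_card := W.T_card Y d₀ hY1 hmY
    h2 := W.h2
    iso := ?_
    T_ne := fun x hx => ⟨_, (W.F_wd y e P x hx).2.2.2.2⟩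
    spread := ?_
    Hv_mem := W.Hv_mem y e P
    R1 := ?_
    F_big := hFbig
    h2_small := ?_
    E_self := ?_
    E_mem := ?_
    E_sum := ?_
    E_zero := ?_
    nz := ?_
    θ_mul := ?_
    θ_zero := by simpa using hcD }⟩⟩
  · intro x hx
    refine (W.LH_card Y hY1 x hx).trans ?_
    rw [add_comm (Nat.log 2 m) 1]
  · intro x hx x' hx' hne hnode
    have h1 := W.node_le 0 x (W.F_wd y e P x hx).1 x' hx' hnode
    unfold Win.F at hx
    rw [mem_filter] at hx
    have hx'V : x' ∈ W.V := by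
      unfold Win.U at hx'
      exact (mem_filter.1 hx').1
    have h2 := hx.2.2.2.1 x' hx'V (Ne.symm hne)
    simp only [zero_add, pow_one] at h1
    push_cast at h1
    linarith
  · intro x hx a ha b hb hab
    unfold Win.F at hx
    rw [mem_filter] at hx
    exact hx.2.2.2.2.2.2 a ha b hb hab
  · intro Rr hRr
    have h1 := W.R1_top y e P (c * (Λ + Y * Λ + 1)) Rr hRr
    have h2 := W.R1_low y e P (c * (Λ + Y * Λ + 1)) (by
      have h3 : 2 * P ≤ 200 * P * c ^ 2 * C * Λ ^ 2 := by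
        calc 2 * P = 2 * (P * 1 * 1 * 1) := by ring
          _ ≤ 200 * (P * c ^ 2 * C * Λ ^ 2) := by
              gcongr
              · norm_num
              · exact Nat.one_le_pow _ _ hc
              · exact Nat.one_le_pow _ _ hΛ1
          _ = 200 * P * c ^ 2 * C * Λ ^ 2 := by ring
      refine h3.trans (hy.trans ?_)
      rw [pow_succ]
      exact Nat.le_mul_of_pos_left _ hY1) Rr hRr
    refine Win.R1_num (#(W.Wd B)) (#(W.U)) y Y c C P Λ (Λ + Y * Λ) _ B _ hc hC hΛ1 hY1 rfl hyY hX hy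
      hP1 h1 ?_ ?_ (low := #{x ∈ W.F y e P | ∃ q ∈ W.L x \ W.H (y ^ e) x, q < wi K g x ∧
        ∀ h ∈ W.Hv x q, q ∈ Rr h})
    · rw [pow_succ] at h2
      exact h2
    · refine le_trans (Finset.card_le_card ?_) (Finset.card_union_le _ _)
      intro x hx
      rw [mem_filter] at hx
      obtain ⟨hxF, q, hq, hall⟩ := hx
      rw [mem_union, mem_filter, mem_filter]
      by_cases hqw : q = wi K g x
      · left
        refine ⟨hxF, ?_⟩
        have := hall W.h₀ (by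
          unfold Win.Hv
          rw [if_pos hqw]
          exact mem_singleton_self _)
        rwa [hqw] at this
      · right
        refine ⟨hxF, q, hq, ?_, hall⟩
        have hqL : q ∈ W.L x := (mem_sdiff.1 hq).1
        unfold Win.L at hqL
        have h3 := (mem_Icc.1 (mem_filter.1 hqL).1).2
        omega
  · -- h2_small
    have h1 : Λ + Y * Λ + 1 ≤ 3 * (Y * Λ) := by
      have : Λ ≤ Y * Λ := Nat.le_mul_of_pos_left _ hY1
      have : 1 ≤ Y * Λ := Nat.mul_pos hY1 hΛ1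
      omega
    have h2 : Y * y * #(W.Wd B) ≤ C * #W.U := (Nat.mul_le_mul_right _ hyY).trans hX
    have h3 : c * (Λ + Y * Λ + 1) * (#(W.Wd B) * Λ) * y ≤ #W.U * y := by
      calc c * (Λ + Y * Λ + 1) * (#(W.Wd B) * Λ) * y
          ≤ c * (3 * (Y * Λ)) * (#(W.Wd B) * Λ) * y := by gcongr
        _ = 3 * c * Λ ^ 2 * (Y * y * #(W.Wd B)) := by ring
        _ ≤ 3 * c * Λ ^ 2 * (C * #W.U) := Nat.mul_le_mul_left _ h2
        _ = (3 * 1 * c * C * Λ ^ 2) * #W.U := by ring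
        _ ≤ (200 * P * c ^ 2 * C * Λ ^ 2) * #W.U := by gcongr; norm_num
        _ ≤ y * #W.U := Nat.mul_le_mul_right _ hy
        _ = #W.U * y := mul_comm _ _
    exact Nat.le_of_mul_le_mul_right h3 hy0
  all_goals skip
  · intro x hx x' hx'
    unfold Win.F at hx hx'
    rw [mem_filter] at hx hx'
    have hg : g ≤ g * K ^ 2 := Nat.le_mul_of_pos_right _ (Nat.pow_pos (by have := W.K_ge; omega))
    exact W.E_self x hx.1 x' hx'.1 (by omega) (by omega)
  · intro x hx x' hx' ab hab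
    unfold Win.F at hx hx'
    rw [mem_filter] at hx hx'
    have hg : g ≤ g * K ^ 2 := Nat.le_mul_of_pos_right _ (Nat.pow_pos (by have := W.K_ge; omega))
    have h1 := W.E_mem x hx.1 x' hx'.1 (by omega) (by omega) ab hab
    have h2 := W.E_sum x hx.1 x' hx'.1 (by omega) (by omega) ab hab
    have hD := W.hD
    have hgK : g ≤ g * K ^ B := Nat.le_mul_of_pos_right _ (Nat.pow_pos (by have := W.K_ge; omega))
    have h3 : 3 * (g * K ^ B) ≤ g * K ^ (B + 1) := by
      have hK := W.K_ge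
      calc 3 * (g * K ^ B) ≤ K * (g * K ^ B) := Nat.mul_le_mul_right _ (by omega)
        _ = g * K ^ (B + 1) := by ring
    have h4 := (abs_le.1 h2).2
    unfold Win.U
    rw [mem_filter, mem_filter]
    refine ⟨⟨h1.1, ?_⟩, ⟨h1.2, ?_⟩⟩ <;> omega
  · intro x hx x' hx' ab hab
    unfold Win.F at hx hx'
    rw [mem_filter] at hx hx'
    have hg : g ≤ g * K ^ 2 := Nat.le_mul_of_pos_right _ (Nat.pow_pos (by have := W.K_ge; omega))
    exact W.E_sum x hx.1 x' hx'.1 (by omega) (by omega) ab hab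
  · intro x hx x' hx'
    unfold Win.F at hx hx'
    rw [mem_filter] at hx hx'
    have hg : g ≤ g * K ^ 2 := Nat.le_mul_of_pos_right _ (Nat.pow_pos (by have := W.K_ge; omega))
    exact W.E_zero x hx.1 x' hx'.1 (by omega) (by omega)
  · intro x hx
    unfold Win.U at hx
    exact W.nz x (mem_filter.1 hx).1
  · intro q
    calc c * (g * K ^ q) ≤ K * (g * K ^ q) := Nat.mul_le_mul_right _ hcK
      _ = g * K ^ (q + 1) := by ring

end Pool.Agent.DCA
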