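import Pool.Agent.Lib.DCA.BExist
import Pool.Agent.Lib.DCA.WPair
import Pool.Agent.Lib.DCA.WTower
import Pool.Agent.Lib.DCA.AMain

/-!
# From a dilation structure to a tower
-/

set_option autoImplicit false

open Finset

namespace Pool.Agent.DCA

open Pool.Agent.DC3

/-- the windows in the form of `WDefs` -/
theorem win_of_wn {p N w m r Q g c k B : ℕ} [Fact p.Prime] {D : ZMod p}
    (Y : Dil (ZMod p) N w m r (Q ^ 2) D) (A : Wn m r Q g k) (hA : A.V = Y.V) (hm : 1 ≤ m)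
    (hc : 1 ≤ c) (hB : B ≤ k)
    (hg : Q * (8 * c * (m ^ 2 * (w + 1) + 1) + 16 * (m + 2) * r) ≤ g)
    (hN : g * (Q ^ 2) ^ (k + 3) ≤ N) :
    ∃ W : Win p m (Q ^ 2) r g (16 * (m + 2) * r) B (m ^ 2 * (w + 1)), W.V = Y.V := by
  classical
  have hQ := A.hQ
  have hQ0 : 0 < Q := by omega
  have hK := A.K_pos
  have hg1 := A.g_pos
  have hmono : ∀ i j, i ≤ j → g * (Q ^ 2) ^ i ≤ g * (Q ^ 2) ^ j := fun i j hij =>
    Nat.mul_le_mul_left _ (Nat.pow_le_pow_right (by omega) hij)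
  have hc1 : m ^ 2 * (w + 1) + 1 ≤ c * (m ^ 2 * (w + 1) + 1) := Nat.le_mul_of_pos_left _ hc
  have hcg : 8 * (m ^ 2 * (w + 1) + 1) + 16 * (m + 2) * r ≤ g := by
    refine le_trans ?_ hg
    refine le_trans ?_ (Nat.le_mul_of_pos_left _ hQ0)
    have : 8 * c * (m ^ 2 * (w + 1) + 1) = 8 * (c * (m ^ 2 * (w + 1) + 1)) := by ring
    omega
  have hw : w + 1 ≤ m ^ 2 * (w + 1) := Nat.le_mul_of_pos_left _ (by positivity)
  -- the domain of the dilation
  have hdom : ∀ x, x < g * (Q ^ 2) ^ (B + 1) → Q ^ 2 * (x + (m + 1) * r) < N := by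
    intro x hx
    have h1 : (m + 1) * r ≤ g := by
      refine le_trans ?_ hcg
      have : (m + 1) * r ≤ 16 * (m + 2) * r := Nat.mul_le_mul_right _ (by omega)
      omega
    have h2 : x + (m + 1) * r < 2 * (g * (Q ^ 2) ^ (k + 1)) := by
      have h3 := hmono (B + 1) (k + 1) (by omega)
      have h4 := hmono 0 (k + 1) (by omega)
      rw [pow_zero, mul_one] at h4
      omega
    have h3 : Q ^ 2 * (x + (m + 1) * r) < Q ^ 2 * (2 * (g * (Q ^ 2) ^ (k + 1))) :=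
      Nat.mul_lt_mul_of_pos_left h2 (by omega)
    refine lt_of_lt_of_le h3 (le_trans ?_ hN)
    calc Q ^ 2 * (2 * (g * (Q ^ 2) ^ (k + 1))) = 2 * (g * (Q ^ 2) ^ (k + 2)) := by ring
      _ ≤ Q ^ 2 * (g * (Q ^ 2) ^ (k + 2)) := Nat.mul_le_mul_right _ (by omega)
      _ = g * (Q ^ 2) ^ (k + 3) := by ring
  have hδ : Q * (16 * (m + 2) * r) ≤ g := A.hg
  have hpair : ∀ x y, g ≤ x + y → x + y < 2 * (g * (Q ^ 2) ^ B) →
      (m ^ 2 + 1) * (w + 1) ≤ x + y ∧ x + y + m ^ 2 * (w + 1) + w < N := by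
    intro x y h1 h2
    constructor
    · have : (m ^ 2 + 1) * (w + 1) = m ^ 2 * (w + 1) + (w + 1) := by ring
      omega
    · refine lt_of_lt_of_le ?_ hN
      have h3 := hmono B (k + 2) (by omega)
      have h4 := hmono 0 (k + 2) (by omega)
      rw [pow_zero, mul_one] at h4
      have h5 : 4 * (g * (Q ^ 2) ^ (k + 2)) ≤ g * (Q ^ 2) ^ (k + 3) := by
        calc 4 * (g * (Q ^ 2) ^ (k + 2)) ≤ Q ^ 2 * (g * (Q ^ 2) ^ (k + 2)) :=
              Nat.mul_le_mul_right _ (by omega)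
          _ = g * (Q ^ 2) ^ (k + 3) := by ring
      omega
  refine ⟨{ V := Y.V, μ := Y.μ, E := fun x y => Ecl Y.V (w + 1) x y, kap := Y.κ, nz := Y.nz,
            cardV := Y.cardV, sep := Y.sep, kap_mem := fun x hx h1 h2 => Y.κ_mem x hx h1 (hdom x h2),
            kap_lo := fun x hx h1 h2 => Y.κ_low x hx h1 (hdom x h2),
            kap_hi := fun x hx h1 h2 => Y.κ_up x hx h1 (hdom x h2),
            kap_gap := fun x hx y hy h1 h2 h3 => Y.κ_sep x hx y hy h1 h2 (hdom y h3),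
            bd := ?_, win := ?_, E_self := fun x hx y hy _ _ => Ecl_self hx hy,
            E_mem := fun x hx y hy _ _ ab hab => Ecl_mem hab,
            E_sum := ?_, E_zero := ?_, hr := A.hr, hδ := le_rfl, hδg := ?_, hK := A.hgr,
            hD := ?_ }, rfl⟩
  · intro i hi x hx
    have hx' : x ∈ A.V := by rw [hA]; exact hx
    have hQδ : Q * (16 * (m + 2) * r * (Q ^ 2) ^ i) ≤ g * (Q ^ 2) ^ i := by
      calc Q * (16 * (m + 2) * r * (Q ^ 2) ^ i) = Q * (16 * (m + 2) * r) * (Q ^ 2) ^ i := by ring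
        _ ≤ g * (Q ^ 2) ^ i := Nat.mul_le_mul_right _ hδ
    rcases A.gap x hx' i (by omega) with h | h
    · left
      refine Nat.le_of_mul_le_mul_left ?_ hQ0
      rw [Nat.mul_add]
      omega
    · right
      refine Nat.le_of_mul_le_mul_left ?_ hQ0
      have : Q * ((g + 16 * (m + 2) * r) * (Q ^ 2) ^ i) =
          Q * (g * (Q ^ 2) ^ i) + Q * (16 * (m + 2) * r * (Q ^ 2) ^ i) := by ring
      omega
  · intro i hi
    obtain ⟨v, hv, h1, h2⟩ := A.ne i (by omega)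
    exact ⟨v, by rw [← hA]; exact hv, h1, h2⟩
  · intro x hx y hy _ _ ab hab
    obtain ⟨h1, h2⟩ := Ecl_sum Y.cardV hx hy hab
    rw [abs_le]
    constructor <;> push_cast <;> zify at h1 h2 <;> linarith
  · intro x hx y hy h1 h2
    obtain ⟨h3, h4⟩ := hpair x y h1 h2
    exact Ecl_zero Y.toSys hx hy h3 h4
  · omega
  · omega

/-- there is no dilation structure if there is no tower -/
theorem noDil (p c C S d₀ : ℕ) [Fact p.Prime] (hc : 1 ≤ c) (hd : 1 ≤ d₀) (hS : 4 * c * d₀ ≤ S)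
    (hT : ∀ B lam h₂ D₁, IsEmpty (Tower p B d₀ lam h₂ D₁ c)) : NoDil p c C S d₀ := by
  classical
  intro N w m r Q g₀ y j₀ j₁ ℓ D Y hD hm hmℓ hQ hcQ hg hgr hN hj hC hy hyB hmy
  have hQ0 : 0 < Q := by omega
  have hC1 : 1 ≤ C := by
    by_contra h
    have h0 : C = 0 := by omega
    rw [h0, zero_pow (by omega)] at hC
    omega
  obtain ⟨g, hg1, hg2, hgN, A, hA⟩ := wn_of_dil (k := 2 ^ j₁) Y hD hm hc hQ hg hgr hN
  obtain ⟨j, hj1, hj2, hX⟩ := A.exists_B C j₀ j₁ hj le_rfl hC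
  have hBk : 2 ^ j ≤ 2 ^ j₁ := Nat.pow_le_pow_right (by norm_num) hj2
  obtain ⟨W, hW⟩ := win_of_wn (B := 2 ^ j) Y A hA hm hc hBk (hg.trans hg1) hgN
  have hWd : ∀ i, W.Wd i = A.W i := by
    intro i
    unfold Win.Wd Wn.W tht
    rw [hW, hA]
  -- the number of points
  have hU : 2 ^ j * #(W.Wd (2 ^ j)) ≤ (2 * C) * #W.U := by
    obtain ⟨i, rfl⟩ : ∃ i, j = i + 1 := ⟨j - 1, by omega⟩
    rw [Nat.add_sub_cancel] at hX
    have h1 : 2 ^ i * #(A.W (2 ^ i)) ≤ #W.U := by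
      have h2 : ∑ t ∈ Ico (2 ^ i) (2 ^ (i + 1)), #(A.W t) ≤ #W.U := by
        rw [← card_biUnion]
        · refine card_le_card ?_
          intro v hv
          rw [mem_biUnion] at hv
          obtain ⟨t, ht, hv⟩ := hv
          obtain ⟨h3, h4, h5⟩ := A.mem_W.1 hv
          unfold Win.U
          rw [mem_filter, hW, ← hA]
          refine ⟨h3, lt_of_lt_of_le h5 ?_⟩
          have := mem_Ico.1 ht
          exact A.tht_mono (show t + 1 ≤ 2 ^ (i + 1) + 1 by omega)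
        · intro t _ t' _ hne
          rw [Function.onFun, disjoint_left]
          intro v hv hv'
          obtain ⟨h3, h4, h5⟩ := A.mem_W.1 hv
          obtain ⟨h3', h4', h5'⟩ := A.mem_W.1 hv'
          rcases lt_or_gt_of_ne hne with h | h
          · have := A.tht_mono (show t + 1 ≤ t' by omega)
            omega
          · have := A.tht_mono (show t' + 1 ≤ t by omega)
            omega
      refine le_trans ?_ h2
      have h3 : ∀ t ∈ Ico (2 ^ i) (2 ^ (i + 1)), #(A.W (2 ^ i)) ≤ #(A.W t) := by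
        intro t ht
        rw [mem_Ico] at ht
        exact A.X_mono' ht.1 (by omega)
      have h4 := card_nsmul_le_sum _ _ _ h3
      rw [Nat.card_Ico, smul_eq_mul] at h4
      have h5 : 2 ^ (i + 1) - 2 ^ i = 2 ^ i := by
        rw [pow_succ]
        omega
      rw [h5] at h4
      exact h4
    rw [hWd]
    calc 2 ^ (i + 1) * #(A.W (2 ^ (i + 1))) ≤ 2 ^ (i + 1) * (C * #(A.W (2 ^ i))) :=
          Nat.mul_le_mul_left _ hX
      _ = (2 * C) * (2 ^ i * #(A.W (2 ^ i))) := by ring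
      _ ≤ (2 * C) * #W.U := Nat.mul_le_mul_left _ h1
  have hcc : 1 ≤ c ^ 2 := Nat.one_le_pow _ _ hc
  obtain ⟨lam, h₂, ⟨T⟩⟩ := tower_of_win W y S d₀ (8 * c * (2 * C)) (2 * C) c hc (by omega) hd
    (hcQ.trans (by nlinarith)) (by
      refine le_trans ?_ (hg.trans hg1)
      refine le_trans ?_ (Nat.le_mul_of_pos_left _ hQ0)
      have : 8 * c * (m ^ 2 * (w + 1) + 1) = 8 * (c * (m ^ 2 * (w + 1) + 1)) := by ring
      omega) hU hS le_rfl (by rw [← pow_mul]; exact hmy)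
    (hyB.trans (Nat.pow_le_pow_right (by norm_num) hj1.le)) (by
      refine le_trans ?_ hy
      have hlog : 1 + Nat.log 2 m ≤ ℓ := by
        have := Nat.log_lt_of_lt_pow (by omega) hmℓ
        omega
      calc 200 * (8 * c * (2 * C)) * c ^ 2 * (2 * C) * (1 + Nat.log 2 m) ^ 2
          ≤ 200 * (8 * c * (2 * C)) * c ^ 2 * (2 * C) * ℓ ^ 2 := by gcongr
        _ = 6400 * C ^ 2 * c ^ 3 * ℓ ^ 2 := by ring)
  exact (hT _ _ _ _).false T

end Pool.Agent.DCA
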