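import Pool.Agent.Lib.DCA.BWin

/-!
# The choice of the number of windows
-/

set_option autoImplicit false

open Finset

namespace Pool.Agent.DCA

/-- the window boundaries -/
def tht (Q g i : ℕ) : ℕ := g * (Q ^ 2) ^ i

/-- the points of the window `i` -/
def Wn.W {m r Q g k : ℕ} (A : Wn m r Q g k) (i : ℕ) : Finset ℕ :=
  {v ∈ A.V | tht Q g i ≤ v ∧ v < tht Q g (i + 1)}

variable {m r Q g k : ℕ}

theorem tht_succ (i : ℕ) : tht Q g (i + 1) = Q ^ 2 * tht Q g i := by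
  unfold tht
  rw [pow_succ]
  ring

theorem tht_zero : tht Q g 0 = g := by simp [tht]

theorem tht_add (i s : ℕ) : tht Q g (i + s) = (Q ^ 2) ^ s * tht Q g i := by
  unfold tht
  rw [pow_add]
  ring

theorem Wn.K_pos (A : Wn m r Q g k) : 256 ≤ Q ^ 2 := by
  have := A.hQ
  nlinarith

theorem Wn.tht_mono (A : Wn m r Q g k) {i j : ℕ} (h : i ≤ j) : tht Q g i ≤ tht Q g j := by
  have := A.K_pos
  exact Nat.mul_le_mul_left _ (Nat.pow_le_pow_right (by omega) h)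

theorem Wn.g_le_tht (A : Wn m r Q g k) (i : ℕ) : g ≤ tht Q g i := by
  have := A.tht_mono (Nat.zero_le i)
  rwa [tht_zero] at this

theorem Wn.g_pos (A : Wn m r Q g k) : 1 ≤ g := by
  have h1 := A.hg
  have h2 := A.hQ
  have h3 := A.hr
  have h4 : 1 ≤ Q * (16 * (m + 2) * r) := Nat.mul_pos (by omega) (Nat.mul_pos (by omega) h3)
  omega

theorem Wn.mem_W (A : Wn m r Q g k) {i v : ℕ} :
    v ∈ A.W i ↔ v ∈ A.V ∧ tht Q g i ≤ v ∧ v < tht Q g (i + 1) := by
  simp [Wn.W]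

theorem Wn.W_card (A : Wn m r Q g k) (i : ℕ) : #(A.W i) ≤ m :=
  (card_le_card (filter_subset _ _)).trans A.cardV

theorem Wn.W_ne (A : Wn m r Q g k) {i : ℕ} (hi : i ≤ k) : (A.W i).Nonempty := by
  obtain ⟨v, hv, h1, h2⟩ := A.ne i hi
  exact ⟨v, A.mem_W.2 ⟨hv, h1, h2⟩⟩

theorem Wn.κ_W (A : Wn m r Q g k) {i v : ℕ} (hi : i < k) (hv : v ∈ A.W i) :
    A.κ v ∈ A.W (i + 1) := by
  obtain ⟨h1, h2, h3⟩ := A.mem_W.1 hv
  obtain ⟨h4, h5, h6⟩ := A.κ_mem i hi v h1 h2 h3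
  exact A.mem_W.2 ⟨h4, h5, h6⟩

theorem Wn.κ_lt (A : Wn m r Q g k) {i v v' : ℕ} (hi : i < k) (hv : v ∈ A.W i)
    (hv' : v' ∈ A.W i) (h : v < v') : 2 * A.κ v + Q ^ 2 * r ≤ 2 * A.κ v' := by
  obtain ⟨h1, h2, h3⟩ := A.mem_W.1 hv
  obtain ⟨h4, h5, h6⟩ := A.mem_W.1 hv'
  exact A.κ_sep v h1 v' h4 ((A.g_le_tht i).trans h2) h
    (lt_of_lt_of_le h6 (A.tht_mono (Nat.succ_le_of_lt hi)))

theorem Wn.κ_inj (A : Wn m r Q g k) {i : ℕ} (hi : i < k) : Set.InjOn A.κ (A.W i) := by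
  intro v hv v' hv' heq
  have hpos : 1 ≤ Q ^ 2 * r := Nat.mul_pos (by have := A.K_pos; omega) A.hr
  rcases lt_trichotomy v v' with h | h | h
  · have := A.κ_lt hi hv hv' h
    omega
  · exact h
  · have := A.κ_lt hi hv' hv h
    omega

theorem Wn.X_mono (A : Wn m r Q g k) {i : ℕ} (hi : i < k) : #(A.W i) ≤ #(A.W (i + 1)) :=
  card_le_card_of_injOn A.κ (fun _ hv => A.κ_W hi hv) (A.κ_inj hi)

theorem Wn.X_mono' (A : Wn m r Q g k) {i j : ℕ} (hij : i ≤ j) (hj : j ≤ k) :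
    #(A.W i) ≤ #(A.W j) := by
  induction j, hij using Nat.le_induction with
  | base => exact le_rfl
  | succ j hij ih => exact (ih (by omega)).trans (A.X_mono (by omega))

/-- the choice of a scale at which the sizes of the windows do not grow by more than a factor
`C` -/
theorem Wn.exists_B (A : Wn m r Q g k) (C j₀ j₁ : ℕ) (hj : j₀ < j₁) (hk : 2 ^ j₁ ≤ k)
    (hC : m ≤ C ^ (j₁ - j₀)) :
    ∃ j, j₀ < j ∧ j ≤ j₁ ∧ #(A.W (2 ^ j)) ≤ C * #(A.W (2 ^ (j - 1))) := by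
  by_contra hcon
  push Not at hcon
  have hall : ∀ i, j₀ < i → i ≤ j₁ → C ^ (i - j₀) < #(A.W (2 ^ i)) := by
    intro i hi
    induction i, hi using Nat.le_induction with
    | base =>
      intro h1
      have h2 := hcon (j₀ + 1) (by omega) h1
      have h3 : 1 ≤ #(A.W (2 ^ j₀)) := by
        rw [Nat.succ_le_iff, card_pos]
        refine A.W_ne (le_trans ?_ hk)
        exact Nat.pow_le_pow_right (by norm_num) (by omega)
      simp only [Nat.add_sub_cancel] at h2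
      rw [show j₀.succ - j₀ = 1 by omega, pow_one]
      exact lt_of_le_of_lt (Nat.le_mul_of_pos_right _ h3) h2
    | succ i hi ih =>
      intro h1
      have h2 := hcon (i + 1) (by omega) h1
      have h3 := ih (by omega)
      simp only [Nat.add_sub_cancel] at h2
      have h4 : i + 1 - j₀ = (i - j₀) + 1 := by omega
      rw [h4, pow_succ, mul_comm]
      exact lt_of_le_of_lt (Nat.mul_le_mul_left _ h3.le) h2
  have h5 := hall j₁ hj le_rfl
  have h6 := A.W_card (2 ^ j₁)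
  omega

end Pool.Agent.DCA
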