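import Mathlib

/-!
# Choice of the window boundaries
-/

set_option autoImplicit false

open Finset

namespace Pool.Agent.DCA

/-- one `v` spoils at most one of the candidates `g₀ + j (8 (g₀ / Q))` -/
theorem gap_unique (Q g₀ v g g' i i' : ℕ) (hQ : 16 ≤ Q) (hg : 8 * Q ≤ g₀)
    (h1 : g₀ ≤ g) (h2 : g' ≤ 2 * g₀) (hgg : g + 8 * (g₀ / Q) ≤ g')
    (h3 : Q * (g * (Q ^ 2) ^ i) < Q * v + g * (Q ^ 2) ^ i)
    (h4 : Q * v < Q * (g * (Q ^ 2) ^ i) + g * (Q ^ 2) ^ i)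
    (h5 : Q * (g' * (Q ^ 2) ^ i') < Q * v + g' * (Q ^ 2) ^ i')
    (h6 : Q * v < Q * (g' * (Q ^ 2) ^ i') + g' * (Q ^ 2) ^ i') : False := by
  have hK : 256 ≤ Q ^ 2 := by nlinarith
  have hg' : g ≤ g' := by omega
  rcases lt_trichotomy i i' with h | h | h
  · -- `i < i'`
    have e1 : (Q ^ 2) ^ (i + 1) ≤ (Q ^ 2) ^ i' := Nat.pow_le_pow_right (by omega) h
    set P := (Q ^ 2) ^ i with hP
    have e2 : (Q ^ 2) ^ (i + 1) = P * Q ^ 2 := pow_succ _ _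
    rw [e2] at e1
    set P' := (Q ^ 2) ^ i' with hP'
    have hP1 : 1 ≤ P := Nat.pow_pos (by omega)
    -- `Q v < (Q + 1) g P ≤ (Q+1) 2 g0 P`, `Q v > (Q - 1) g' P' ≥ (Q-1) g0 P Q^2`
    have f1 : g₀ * (P * Q ^ 2) ≤ g' * P' := Nat.mul_le_mul (by omega) e1
    have f2 : g * P ≤ 2 * (g₀ * P) := by
      calc g * P ≤ (2 * g₀) * P := Nat.mul_le_mul_right _ (by omega)
        _ = 2 * (g₀ * P) := by ring
    have f3 : g₀ * (P * Q ^ 2) = (g₀ * P) * Q ^ 2 := by ring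
    have f4 : 256 * (g₀ * P) ≤ (g₀ * P) * Q ^ 2 := by
      rw [mul_comm]
      exact Nat.mul_le_mul_left _ hK
    have f5 : Q * (g * P) ≤ Q * (2 * (g₀ * P)) := Nat.mul_le_mul_left _ f2
    have f6 : Q * (256 * (g₀ * P)) ≤ Q * (g' * P') :=
      Nat.mul_le_mul_left _ (by rw [f3] at f1; exact f4.trans f1)
    have f7 : 16 * (g' * P') ≤ Q * (g' * P') := Nat.mul_le_mul_right _ hQ
    have f8 : 16 * (g₀ * P) ≤ Q * (g₀ * P) := Nat.mul_le_mul_right _ hQ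
    have f9 : Q * (2 * (g₀ * P)) = 2 * (Q * (g₀ * P)) := by ring
    have f10 : Q * (256 * (g₀ * P)) = 256 * (Q * (g₀ * P)) := by ring
    omega
  · subst h
    set P := (Q ^ 2) ^ i with hP
    have hP1 : 1 ≤ P := Nat.pow_pos (by omega)
    have hQ0 : 0 < Q := by omega
    -- `Q (g' - g) P < (g + g') P ≤ 4 g0 P`
    have f1 : Q * (g' * P) < Q * (g * P) + g * P + g' * P := by omega
    have f2 : g * P + g' * P ≤ 4 * (g₀ * P) := by
      have e1 : g * P ≤ (2 * g₀) * P := Nat.mul_le_mul_right _ (by omega)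
      have e2 : g' * P ≤ (2 * g₀) * P := Nat.mul_le_mul_right _ h2
      have e3 : (2 * g₀) * P = 2 * (g₀ * P) := by ring
      omega
    have f3 : Q * ((g + 8 * (g₀ / Q)) * P) ≤ Q * (g' * P) := by gcongr
    have f4 : Q * ((g + 8 * (g₀ / Q)) * P) = Q * (g * P) + 8 * (Q * (g₀ / Q)) * P := by ring
    have f5 : g₀ < Q * (g₀ / Q) + Q := by
      have := Nat.lt_mul_div_succ g₀ hQ0
      rw [Nat.mul_add, mul_one] at this
      exact this
    have f6 : 4 * g₀ ≤ 8 * (Q * (g₀ / Q)) := by omega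
    have f7 : (4 * g₀) * P ≤ 8 * (Q * (g₀ / Q)) * P := Nat.mul_le_mul_right _ f6
    have f8 : (4 * g₀) * P = 4 * (g₀ * P) := by ring
    omega
  · -- `i' < i`
    have e1 : (Q ^ 2) ^ (i' + 1) ≤ (Q ^ 2) ^ i := Nat.pow_le_pow_right (by omega) h
    set P := (Q ^ 2) ^ i' with hP
    have e2 : (Q ^ 2) ^ (i' + 1) = P * Q ^ 2 := pow_succ _ _
    rw [e2] at e1
    set P' := (Q ^ 2) ^ i with hP'
    have hP1 : 1 ≤ P := Nat.pow_pos (by omega)
    have f1 : g₀ * (P * Q ^ 2) ≤ g * P' := Nat.mul_le_mul h1 e1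
    have f2 : g' * P ≤ 2 * (g₀ * P) := by
      calc g' * P ≤ (2 * g₀) * P := Nat.mul_le_mul_right _ h2
        _ = 2 * (g₀ * P) := by ring
    have f3 : g₀ * (P * Q ^ 2) = (g₀ * P) * Q ^ 2 := by ring
    have f4 : 256 * (g₀ * P) ≤ (g₀ * P) * Q ^ 2 := by
      rw [mul_comm]
      exact Nat.mul_le_mul_left _ hK
    have f5 : Q * (g' * P) ≤ Q * (2 * (g₀ * P)) := Nat.mul_le_mul_left _ f2
    have f6 : Q * (256 * (g₀ * P)) ≤ Q * (g * P') :=
      Nat.mul_le_mul_left _ (by rw [f3] at f1; exact f4.trans f1)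
    have f7 : 16 * (g * P') ≤ Q * (g * P') := Nat.mul_le_mul_right _ hQ
    have f8 : 16 * (g₀ * P) ≤ Q * (g₀ * P) := Nat.mul_le_mul_right _ hQ
    have f9 : Q * (2 * (g₀ * P)) = 2 * (Q * (g₀ * P)) := by ring
    have f10 : Q * (256 * (g₀ * P)) = 256 * (Q * (g₀ * P)) := by ring
    omega

theorem exists_gap (V : Finset ℕ) (m Q g₀ k : ℕ) (hV : #V ≤ m) (hQ : 16 * (m + 1) ≤ Q)
    (hg : 8 * Q ≤ g₀) :
    ∃ g, g₀ ≤ g ∧ g ≤ 2 * g₀ ∧ ∀ v ∈ V, ∀ i ≤ k,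
      Q * v + g * (Q ^ 2) ^ i ≤ Q * (g * (Q ^ 2) ^ i) ∨
      Q * (g * (Q ^ 2) ^ i) + g * (Q ^ 2) ^ i ≤ Q * v := by
  classical
  by_contra hcon
  push Not at hcon
  have hQ0 : 0 < Q := by omega
  have hle : (m + 1) * (8 * (g₀ / Q)) ≤ g₀ := by
    have h1 : Q * (g₀ / Q) ≤ g₀ := Nat.mul_div_le _ _
    have h2 : (8 * (m + 1)) * (g₀ / Q) ≤ Q * (g₀ / Q) := Nat.mul_le_mul_right _ (by omega)
    calc (m + 1) * (8 * (g₀ / Q)) = (8 * (m + 1)) * (g₀ / Q) := by ring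
      _ ≤ g₀ := h2.trans h1
  have hj : ∀ j, ∃ v, j ≤ m → v ∈ V ∧ ∃ i,
      Q * ((g₀ + j * (8 * (g₀ / Q))) * (Q ^ 2) ^ i) <
        Q * v + (g₀ + j * (8 * (g₀ / Q))) * (Q ^ 2) ^ i ∧
      Q * v < Q * ((g₀ + j * (8 * (g₀ / Q))) * (Q ^ 2) ^ i) +
        (g₀ + j * (8 * (g₀ / Q))) * (Q ^ 2) ^ i := by
    intro j
    by_cases hjm : j ≤ m
    · have h1 : j * (8 * (g₀ / Q)) ≤ (m + 1) * (8 * (g₀ / Q)) :=
        Nat.mul_le_mul_right _ (by omega)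
      obtain ⟨v, hv, i, -, h2, h3⟩ := hcon (g₀ + j * (8 * (g₀ / Q))) (by omega) (by omega)
      exact ⟨v, fun _ => ⟨hv, i, h2, h3⟩⟩
    · exact ⟨0, fun h => absurd h hjm⟩
  choose f hf using hj
  have hinj : ∀ j j', j < j' → j' ≤ m → f j ≠ f j' := by
    intro j j' hlt hjm heq
    obtain ⟨-, i, h1, h2⟩ := hf j (by omega)
    obtain ⟨-, i', h3, h4⟩ := hf j' hjm
    rw [heq] at h1 h2
    have h5 : j' * (8 * (g₀ / Q)) ≤ (m + 1) * (8 * (g₀ / Q)) :=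
      Nat.mul_le_mul_right _ (by omega)
    have h6 : (j + 1) * (8 * (g₀ / Q)) ≤ j' * (8 * (g₀ / Q)) := Nat.mul_le_mul_right _ hlt
    rw [add_mul, one_mul] at h6
    exact gap_unique Q g₀ (f j') _ _ i i' (by omega) hg (by omega) (by omega) (by omega)
      h1 h2 h3 h4
  have h7 : #(range (m + 1)) ≤ #V := by
    refine card_le_card_of_injOn f ?_ ?_
    · intro j hj'
      exact (hf j (by have := mem_range.1 hj'; omega)).1
    · intro j hj' j' hj'' heq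
      have a1 := mem_range.1 hj'
      have a2 := mem_range.1 hj''
      rcases lt_trichotomy j j' with h | h | h
      · exact absurd heq (hinj j j' h (by omega))
      · exact h
      · exact absurd heq.symm (hinj j' j h (by omega))
  rw [card_range] at h7
  omega

end Pool.Agent.DCA
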