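import Pool.Agent.Lib.DCA.KDef
import Pool.Agent.Lib.DCA.BGap
import Pool.Agent.Lib.DC3.Nonconst

/-!
# Windows

`θ_i = g (Q ^ 2) ^ i`; the window `i` is `[θ_i, θ_(i+1))`. No point is near a boundary, and the
dilation `κ` maps the points of a window to points of the next window.
-/

set_option autoImplicit false

open Finset

namespace Pool.Agent.DCA

open Pool.Agent.DC3

structure Wn (m r Q g k : ℕ) where
  V : Finset ℕ
  κ : ℕ → ℕ
  cardV : #V ≤ m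
  hQ : 16 * (m + 1) ≤ Q
  hr : 1 ≤ r
  hg : Q * (16 * (m + 2) * r) ≤ g
  hgr : 16 * (m + 1) * g ≤ Q ^ 2 * r
  gap : ∀ v ∈ V, ∀ i ≤ k + 1, Q * v + g * (Q ^ 2) ^ i ≤ Q * (g * (Q ^ 2) ^ i) ∨
    Q * (g * (Q ^ 2) ^ i) + g * (Q ^ 2) ^ i ≤ Q * v
  κ_mem : ∀ i < k, ∀ v ∈ V, g * (Q ^ 2) ^ i ≤ v → v < g * (Q ^ 2) ^ (i + 1) →
    κ v ∈ V ∧ g * (Q ^ 2) ^ (i + 1) ≤ κ v ∧ κ v < g * (Q ^ 2) ^ (i + 2)
  κ_low : ∀ v ∈ V, g ≤ v → v < g * (Q ^ 2) ^ k → Q ^ 2 * v ≤ κ v + Q ^ 2 * r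
  κ_up : ∀ v ∈ V, g ≤ v → v < g * (Q ^ 2) ^ k → κ v ≤ Q ^ 2 * (v + (m + 1) * r)
  κ_sep : ∀ v ∈ V, ∀ v' ∈ V, g ≤ v → v < v' → v' < g * (Q ^ 2) ^ k →
    2 * κ v + Q ^ 2 * r ≤ 2 * κ v'
  ne : ∀ i ≤ k, ∃ v ∈ V, g * (Q ^ 2) ^ i ≤ v ∧ v < g * (Q ^ 2) ^ (i + 1)
  low : #{v ∈ V | v < g} ≤ #{v ∈ V | g ≤ v ∧ v < g * Q ^ 2} + 2

/-- there are windows -/
theorem wn_of_dil {p N w m r Q g₀ c k : ℕ} [Fact p.Prime] {D : ZMod p}
    (Y : Dil (ZMod p) N w m r (Q ^ 2) D) (hD : ∀ x : ZMod p, x ^ 2 ≠ D) (hm : 1 ≤ m)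
    (hc : 1 ≤ c) (hQ : 16 * (m + 1) ≤ Q)
    (hg : Q * (8 * c * (m ^ 2 * (w + 1) + 1) + 16 * (m + 2) * r) ≤ g₀)
    (hgr : 32 * (m + 1) * g₀ ≤ Q ^ 2 * r) (hN : g₀ * (Q ^ 2) ^ (k + 4) ≤ N) :
    ∃ g, g₀ ≤ g ∧ g ≤ 2 * g₀ ∧ g * (Q ^ 2) ^ (k + 3) ≤ N ∧
      ∃ W : Wn m r Q g k, W.V = Y.V := by
  classical
  have hQ0 : 0 < Q := by omega
  have hK4 : 256 ≤ Q ^ 2 := by nlinarith
  have hA : 8 ≤ 8 * c * (m ^ 2 * (w + 1) + 1) := by
    have : 1 ≤ c * (m ^ 2 * (w + 1) + 1) := Nat.mul_pos hc (Nat.succ_pos _)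
    calc 8 ≤ 8 * (c * (m ^ 2 * (w + 1) + 1)) := by omega
      _ = 8 * c * (m ^ 2 * (w + 1) + 1) := by ring
  have hg8 : 8 * Q ≤ g₀ := by
    refine le_trans ?_ hg
    rw [mul_comm 8 Q]
    exact Nat.mul_le_mul_left _ (by omega)
  obtain ⟨g, hg1, hg2, hgap⟩ := exists_gap Y.V m Q g₀ (k + 1) Y.cardV hQ hg8
  have hgN : g * (Q ^ 2) ^ (k + 3) ≤ N := by
    refine le_trans ?_ hN
    calc g * (Q ^ 2) ^ (k + 3) ≤ (2 * g₀) * (Q ^ 2) ^ (k + 3) := Nat.mul_le_mul_right _ hg2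
      _ = g₀ * ((Q ^ 2) ^ (k + 3) * 2) := by ring
      _ ≤ g₀ * ((Q ^ 2) ^ (k + 3) * Q ^ 2) := by gcongr; omega
      _ = g₀ * (Q ^ 2) ^ (k + 4) := by rw [← pow_succ]
  have hgQr : Q * (16 * (m + 2) * r) ≤ g := by
    refine le_trans (Nat.mul_le_mul_left _ (Nat.le_add_left _ _)) (hg.trans hg1)
  have hgpos : 1 ≤ g := by omega
  have hr : 1 ≤ r := by
    by_contra h
    have h0 : r = 0 := by omega
    subst h0
    have : 1 ≤ 32 * (m + 1) * g₀ := Nat.mul_pos (by omega) (by omega)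
    simp only [mul_zero, Nat.le_zero] at hgr
    omega
  have hwg : w < g := by
    have h1 : w + 1 ≤ m ^ 2 * (w + 1) := Nat.le_mul_of_pos_left _ (by positivity)
    have h2 : m ^ 2 * (w + 1) + 1 ≤ c * (m ^ 2 * (w + 1) + 1) := Nat.le_mul_of_pos_left _ hc
    have h3 : 8 * c * (m ^ 2 * (w + 1) + 1) = 8 * (c * (m ^ 2 * (w + 1) + 1)) := by ring
    have h4 : 8 * c * (m ^ 2 * (w + 1) + 1) + 16 * (m + 2) * r ≤
        Q * (8 * c * (m ^ 2 * (w + 1) + 1) + 16 * (m + 2) * r) := Nat.le_mul_of_pos_left _ hQ0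
    omega
  -- monotonicity of the powers
  have hmono : ∀ i j, i ≤ j → g * (Q ^ 2) ^ i ≤ g * (Q ^ 2) ^ j := fun i j hij =>
    Nat.mul_le_mul_left _ (Nat.pow_le_pow_right (by omega) hij)
  have hstep : ∀ i, g * (Q ^ 2) ^ (i + 1) = Q ^ 2 * (g * (Q ^ 2) ^ i) := by
    intro i
    rw [pow_succ]
    ring
  have h0 : g * (Q ^ 2) ^ 0 = g := by simp
  -- points below a boundary
  have hbelow : ∀ v ∈ Y.V, ∀ i ≤ k + 1, v < g * (Q ^ 2) ^ i →
      v + (m + 1) * r < g * (Q ^ 2) ^ i := by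
    intro v hv i hi hlt
    have h1 : g ≤ g * (Q ^ 2) ^ i := by
      have := hmono 0 i (Nat.zero_le _)
      rwa [h0] at this
    rcases hgap v hv i hi with h | h
    · by_contra hcon
      have h2 : Q * (g * (Q ^ 2) ^ i) ≤ Q * (v + (m + 1) * r) :=
        Nat.mul_le_mul_left _ (not_lt.1 hcon)
      have h3 : Q * (v + (m + 1) * r) = Q * v + Q * ((m + 1) * r) := by ring
      have h4 : Q * ((m + 1) * r) < Q * (16 * (m + 2) * r) := by
        refine Nat.mul_lt_mul_of_pos_left ?_ hQ0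
        have : (m + 1) * r < 16 * (m + 2) * r := Nat.mul_lt_mul_of_pos_right (by omega) hr
        exact this
      omega
    · have h2 : Q * v ≤ Q * (g * (Q ^ 2) ^ i) := Nat.mul_le_mul_left _ hlt.le
      omega
  -- points above a boundary
  have habove : ∀ v ∈ Y.V, ∀ i ≤ k + 1, g * (Q ^ 2) ^ i ≤ v →
      g * (Q ^ 2) ^ i + r ≤ v := by
    intro v hv i hi hle
    have h1 : g ≤ g * (Q ^ 2) ^ i := by
      have := hmono 0 i (Nat.zero_le _)
      rwa [h0] at this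
    rcases hgap v hv i hi with h | h
    · have h2 : Q * (g * (Q ^ 2) ^ i) ≤ Q * v := Nat.mul_le_mul_left _ hle
      omega
    · by_contra hcon
      have h2 : Q * v ≤ Q * (g * (Q ^ 2) ^ i + r) := Nat.mul_le_mul_left _ (by omega)
      have h3 : Q * (g * (Q ^ 2) ^ i + r) = Q * (g * (Q ^ 2) ^ i) + Q * r := by ring
      have h4 : Q * r < Q * (16 * (m + 2) * r) := by
        refine Nat.mul_lt_mul_of_pos_left ?_ hQ0
        have : 1 * r < 16 * (m + 2) * r := Nat.mul_lt_mul_of_pos_right (by omega) hr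
        omega
      have h5 : Q * v < Q * (g * (Q ^ 2) ^ i) + Q * (16 * (m + 2) * r) := by
        have : Q * v ≤ Q * (g * (Q ^ 2) ^ i) + Q * r := by rw [← h3]; exact h2
        omega
      omega
  have hκN : ∀ v ∈ Y.V, v < g * (Q ^ 2) ^ k → Q ^ 2 * (v + (m + 1) * r) < N := by
    intro v hv hlt
    have h1 := hbelow v hv k (by omega) hlt
    have h2 : Q ^ 2 * (v + (m + 1) * r) < Q ^ 2 * (g * (Q ^ 2) ^ k) :=
      Nat.mul_lt_mul_of_pos_left h1 (by omega)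
    rw [← hstep] at h2
    exact lt_of_lt_of_le h2 ((hmono (k + 1) (k + 3) (by omega)).trans hgN)
  have hrg : r ≤ g := by
    refine le_trans ?_ hgQr
    have : 1 ≤ Q * (16 * (m + 2)) := Nat.mul_pos hQ0 (by omega)
    calc r ≤ (Q * (16 * (m + 2))) * r := Nat.le_mul_of_pos_left _ this
      _ = Q * (16 * (m + 2) * r) := by ring
  have hgr' : 16 * (m + 1) * g ≤ Q ^ 2 * r := by
    refine le_trans ?_ hgr
    calc 16 * (m + 1) * g ≤ 16 * (m + 1) * (2 * g₀) := Nat.mul_le_mul_left _ hg2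
      _ = 32 * (m + 1) * g₀ := by ring
  refine ⟨g, hg1, hg2, hgN,
    { V := Y.V, κ := Y.κ, cardV := Y.cardV, hQ := hQ, hr := hr, hg := hgQr, hgr := hgr',
      gap := hgap, κ_mem := ?_, κ_low := ?_, κ_up := ?_, κ_sep := ?_, ne := ?_, low := ?_ }, rfl⟩
  · intro i hi v hv h1 h2
    have hgv : g ≤ v := by
      have := hmono 0 i (Nat.zero_le _)
      rw [h0] at this
      exact this.trans h1
    have hvk : v < g * (Q ^ 2) ^ k := lt_of_lt_of_le h2 (hmono (i + 1) k hi)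
    have hN' := hκN v hv hvk
    have e1 := Y.κ_low v hv (hrg.trans hgv) hN'
    have e2 := Y.κ_up v hv (hrg.trans hgv) hN'
    refine ⟨Y.κ_mem v hv (hrg.trans hgv) hN', ?_, ?_⟩
    · have f1 := habove v hv i (by omega) h1
      have f2 : Q ^ 2 * (g * (Q ^ 2) ^ i + r) ≤ Q ^ 2 * v := Nat.mul_le_mul_left _ f1
      rw [mul_add, ← hstep] at f2
      omega
    · have f1 := hbelow v hv (i + 1) (by omega) h2
      have f2 : Q ^ 2 * (v + (m + 1) * r) < Q ^ 2 * (g * (Q ^ 2) ^ (i + 1)) :=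
        Nat.mul_lt_mul_of_pos_left f1 (by omega)
      have f3 : g * (Q ^ 2) ^ (i + 2) = Q ^ 2 * (g * (Q ^ 2) ^ (i + 1)) := hstep (i + 1)
      rw [f3]
      exact lt_of_le_of_lt e2 f2
  · intro v hv h1 h2
    have e1 := Y.κ_low v hv (hrg.trans h1) (hκN v hv h2)
    omega
  · intro v hv h1 h2
    exact Y.κ_up v hv (hrg.trans h1) (hκN v hv h2)
  · intro v hv v' hv' h1 h2 h3
    exact Y.κ_sep v hv v' hv' (hrg.trans h1) h2 (hκN v' hv' h3)
  · intro i hi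
    have hT4 : 4 * (g * (Q ^ 2) ^ i) ≤ g * (Q ^ 2) ^ (i + 1) := by
      rw [hstep]
      exact Nat.mul_le_mul_right _ (by omega)
    have hTN : 4 * (g * (Q ^ 2) ^ i) ≤ N :=
      hT4.trans ((hmono (i + 1) (k + 3) (by omega)).trans hgN)
    have hgT : g ≤ g * (Q ^ 2) ^ i := by
      have := hmono 0 i (Nat.zero_le _)
      rwa [h0] at this
    have h1 := nonconst Y.toSys hD (g * (Q ^ 2) ^ i) hTN (Sv Y.V Y.μ (g * (Q ^ 2) ^ i))
    have h2 : {t ∈ Ico (g * (Q ^ 2) ^ i) (4 * (g * (Q ^ 2) ^ i)) |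
        Sv Y.V Y.μ t ≠ Sv Y.V Y.μ (g * (Q ^ 2) ^ i)}.Nonempty := by
      rw [nonempty_iff_ne_empty]
      intro he
      rw [he] at h1
      simp only [card_empty, mul_zero, add_zero] at h1
      omega
    obtain ⟨t, ht⟩ := h2
    rw [mem_filter, mem_Ico] at ht
    obtain ⟨a, ha, ha1, ha2⟩ := exists_jump Y.V Y.μ (g * (Q ^ 2) ^ i) t ht.1.1 (Ne.symm ht.2)
    exact ⟨a, ha, ha1.le, by omega⟩
  · -- the points below `g`
    have hsplit : Y.V.filter (fun v => v < g) ⊆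
        (Y.V.filter (fun v => v < r)) ∪ (Y.V.filter (fun v => r ≤ v ∧ v < g)) := by
      intro v hv
      rw [mem_filter] at hv
      rw [mem_union, mem_filter, mem_filter]
      by_cases h : v < r
      · exact Or.inl ⟨hv.1, h⟩
      · exact Or.inr ⟨hv.1, not_lt.1 h, hv.2⟩
    have h1 : #(Y.V.filter (fun v => v < r)) ≤ 1 := by
      rw [card_le_one]
      intro a ha b hb
      rw [mem_filter] at ha hb
      rcases lt_trichotomy a b with h | h | h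
      · have := Y.sep a ha.1 b hb.1 h
        omega
      · exact h
      · have := Y.sep b hb.1 a ha.1 h
        omega
    have hlt : ∀ v ∈ Y.V, v < g → Q ^ 2 * (v + (m + 1) * r) < g * Q ^ 2 := by
      intro v hv hv2
      have f1 := hbelow v hv 0 (by omega) (by rw [h0]; exact hv2)
      rw [h0] at f1
      rw [mul_comm g]
      exact Nat.mul_lt_mul_of_pos_left f1 (by omega)
    have hltN : ∀ v ∈ Y.V, v < g → Q ^ 2 * (v + (m + 1) * r) < N := by
      intro v hv hv2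
      refine lt_of_lt_of_le (hlt v hv hv2) ?_
      have := hmono 1 (k + 3) (by omega)
      rw [pow_one] at this
      exact this.trans hgN
    have h2 : #(Y.V.filter (fun v => r ≤ v ∧ v < g)) ≤
        #(Y.V.filter (fun v => g ≤ v ∧ v < g * Q ^ 2)) := by
      refine card_le_card_of_injOn Y.κ ?_ ?_
      · intro v hv
        have hv' := mem_filter.1 hv
        obtain ⟨hvV, hv1, hv2⟩ := hv'
        have e1 := Y.κ_low v hvV hv1 (hltN v hvV hv2)
        have e2 := Y.κ_up v hvV hv1 (hltN v hvV hv2)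
        refine mem_filter.2 ⟨Y.κ_mem v hvV hv1 (hltN v hvV hv2), ?_, ?_⟩
        · have f1 : Q ^ 2 * r ≤ Q ^ 2 * v := Nat.mul_le_mul_left _ hv1
          have f2 : 16 * g ≤ 16 * (m + 1) * g := Nat.mul_le_mul_right _ (by omega)
          omega
        · exact lt_of_le_of_lt e2 (hlt v hvV hv2)
      · intro v hv v' hv' heq
        have hv1 := mem_filter.1 hv
        have hv2 := mem_filter.1 hv'
        obtain ⟨a1, a2, a3⟩ := hv1
        obtain ⟨b1, b2, b3⟩ := hv2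
        have hpos : 1 ≤ Q ^ 2 * r := Nat.mul_pos (by omega) hr
        rcases lt_trichotomy v v' with h | h | h
        · have := Y.κ_sep v a1 v' b1 a2 h (hltN v' b1 b3)
          omega
        · exact h
        · have := Y.κ_sep v' b1 v a1 b2 h (hltN v a1 a3)
          omega
    have h3 := card_le_card hsplit
    have h4 := card_union_le (Y.V.filter (fun v => v < r)) (Y.V.filter (fun v => r ≤ v ∧ v < g))
    omega

end Pool.Agent.DCA
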