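import Pool.Agent.Lib.DCA.CDefs

/-!
# Basic facts on towers

`exists_sep`: the set of all `q` with `node q x = node q x'` contains `B` (`node_top`) and not `0` (`iso`); let `J` be its
minimum (`Nat.find`). `node_le`, `node_ge`, `light` (with `J = q + 1`).
-/

set_option autoImplicit false

open Finset

namespace Pool.Agent.DCA

variable {p B d₀ lam h₂ D₁ c : ℕ}

theorem Tower.θ_pos (W : Tower p B d₀ lam h₂ D₁ c) (hc : 1 ≤ c) (q : ℕ) : 0 < W.θ q := by
  induction q with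
  | zero => exact lt_of_lt_of_le (Nat.mul_pos hc (Nat.succ_pos _)) W.θ_zero
  | succ q ih => exact lt_of_lt_of_le (Nat.mul_pos hc ih) (W.θ_mul q)

private theorem CBasic_succ (W : Tower p B d₀ lam h₂ D₁ c) (hc : 1 ≤ c) (q : ℕ) :
    W.θ q ≤ W.θ (q + 1) :=
  le_trans (Nat.le_mul_of_pos_left _ hc) (W.θ_mul q)

theorem Tower.θ_mono (W : Tower p B d₀ lam h₂ D₁ c) (hc : 1 ≤ c) {q q' : ℕ} (h : q ≤ q') :
    W.θ q ≤ W.θ q' :=
  monotone_nat_of_le_succ (CBasic_succ W hc) h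

theorem Tower.θ_lt (W : Tower p B d₀ lam h₂ D₁ c) (hc : 1 ≤ c) {q q' : ℕ} (h : q < q') :
    c * W.θ q ≤ W.θ q' :=
  le_trans (W.θ_mul q) (W.θ_mono hc h)

theorem Tower.T_sub (W : Tower p B d₀ lam h₂ D₁ c) (x : ℕ) : W.T x ⊆ W.L x := sdiff_subset

theorem Tower.cross_symm (W : Tower p B d₀ lam h₂ D₁ c) {n : ℕ} {z z' : Fin n → ℕ}
    (h : W.Cross z z') : W.Cross z' z := by
  obtain ⟨s, t, hst, a, ha, b, hb, h1, h2⟩ := h
  exact ⟨t, s, hst.symm, b, hb, a, ha, h2, h1⟩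

theorem Tower.exists_sep (W : Tower p B d₀ lam h₂ D₁ c) {x x' : ℕ} (hx : x ∈ W.F) (hx' : x' ∈ W.U)
    (hne : x ≠ x') :
    ∃ J, 1 ≤ J ∧ J ≤ B ∧ W.node J x = W.node J x' ∧ W.node (J - 1) x ≠ W.node (J - 1) x' ∧
      (J ∈ W.L x ∨ J ∈ W.L x') ∧ (W.θ (J - 1) : ℤ) ≤ 2 * |(x : ℤ) - x'| ∧
      |(x : ℤ) - x'| ≤ W.θ (J + 1) := by
  classical
  have hxU : x ∈ W.U := W.F_sub hx
  have hex : ∃ q, W.node q x = W.node q x' := ⟨B, W.node_top x hxU x' hx'⟩
  obtain ⟨J, hJ, hmin⟩ : ∃ J, W.node J x = W.node J x' ∧ ∀ q < J, W.node q x ≠ W.node q x' :=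
    ⟨Nat.find hex, Nat.find_spec hex, fun q hq => Nat.find_min hex hq⟩
  have hJB : J ≤ B := by
    by_contra h
    exact hmin B (by omega) (W.node_top x hxU x' hx')
  have hJ1 : 1 ≤ J := by
    rcases Nat.eq_zero_or_pos J with h | h
    · rw [h] at hJ
      exact absurd hJ (W.iso x hx x' hx' hne)
    · exact h
  obtain ⟨q, rfl⟩ : ∃ q, J = q + 1 := ⟨J - 1, by omega⟩
  have hq := hmin q (by omega)
  exact ⟨q + 1, hJ1, hJB, hJ, hq, W.light q x hxU x' hx' hq hJ, W.node_ge q x hxU x' hx' hq,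
    W.node_le (q + 1) x hxU x' hx' hJ⟩

private theorem CBasic_upd {n : ℕ} (x : Fin n → ℕ) (t : Fin n) (b : ℕ) :
    SZ (Function.update x t b) = SZ x - x t + b := by
  unfold SZ
  rw [← Finset.add_sum_erase univ (fun s => (x s : ℤ)) (Finset.mem_univ t),
    ← Finset.add_sum_erase univ (fun s => ((Function.update x t b s : ℕ) : ℤ))
      (Finset.mem_univ t)]
  have h : ∑ s ∈ univ.erase t, ((Function.update x t b s : ℕ) : ℤ) =
      ∑ s ∈ univ.erase t, (x s : ℤ) := by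
    apply Finset.sum_congr rfl
    intro s hs
    rw [Function.update_of_ne (Finset.ne_of_mem_erase hs)]
  rw [h, Function.update_self]
  ring

/-- replacing two coordinates changes the sum by the change of the two coordinates -/
theorem SZ_update {n : ℕ} (x : Fin n → ℕ) (s t : Fin n) (hst : s ≠ t) (a b : ℕ) :
    SZ (Function.update (Function.update x s a) t b) = SZ x - x s - x t + a + b := by
  rw [CBasic_upd, CBasic_upd, Function.update_of_ne hst.symm]
  ring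

/-- leaving out one coordinate -/
theorem SZ_succAbove {n : ℕ} (x : Fin (n + 1) → ℕ) (t : Fin (n + 1)) :
    SZ (fun i => x (t.succAbove i)) = SZ x - x t := by
  unfold SZ
  rw [Fin.sum_univ_succAbove (fun s => (x s : ℤ)) t]
  ring

theorem Tower.Sepd_succAbove (W : Tower p B d₀ lam h₂ D₁ c) {n : ℕ} {x : Fin (n + 1) → ℕ}
    (hx : W.Sepd x) (t : Fin (n + 1)) : W.Sepd (fun i => x (t.succAbove i)) := by
  refine ⟨fun s => hx.1 _, fun s s' hss a ha b hb => ?_⟩
  exact hx.2 _ _ (fun h => hss (Fin.succAbove_right_injective h)) a ha b hb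

end Pool.Agent.DCA
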