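import Pool.Agent.Lib.DCA.EDefs

/-!
# Counting: definitions

A *tower* is a finite set `U` of naturals with nested partitions (`node q x` is the name of the
class of `x` at level `q`; points in the same class at level `q` have distance `≤ θ (q + 1)`, points
in different classes have distance `≥ θ q / 2`), light levels `L x`, rich levels `H x`
(`H x` depends only on the nodes of `x`), few points with a given light level, and heavy siblings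
`Hv x q`. `T x = L x \ H x`.
-/

set_option autoImplicit false

open Finset

namespace Pool.Agent.DCA

structure Tower (p B d₀ lam h₂ D₁ c : ℕ) where
  U : Finset ℕ
  F : Finset ℕ
  μ : ℕ → ZMod p
  E : ℕ → ℕ → Finset (ℕ × ℕ)
  θ : ℕ → ℕ
  node : ℕ → ℕ → ℕ × ℕ
  L : ℕ → Finset ℕ
  H : ℕ → Finset ℕ
  Hv : ℕ → ℕ → Finset ℕ
  U_ne : U.Nonempty
  F_sub : F ⊆ U
  node_mono : ∀ q, ∀ x ∈ U, ∀ x' ∈ U, node q x = node q x' → node (q + 1) x = node (q + 1) x'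
  node_top : ∀ x ∈ U, ∀ x' ∈ U, node B x = node B x'
  node_le : ∀ q, ∀ x ∈ U, ∀ x' ∈ U, node q x = node q x' → |(x : ℤ) - x'| ≤ θ (q + 1)
  node_ge : ∀ q, ∀ x ∈ U, ∀ x' ∈ U, node q x ≠ node q x' → (θ q : ℤ) ≤ 2 * |(x : ℤ) - x'|
  light : ∀ q, ∀ x ∈ U, ∀ x' ∈ U, node q x ≠ node q x' → node (q + 1) x = node (q + 1) x' →
    q + 1 ∈ L x ∨ q + 1 ∈ L x'
  H_inv : ∀ q, ∀ x ∈ U, ∀ x' ∈ U, q ∈ H x → node q x = node q x' → q ∈ H x'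
  L_mem : ∀ x ∈ U, ∀ q ∈ L x, 1 ≤ q ∧ q ≤ B
  LH_card : ∀ x ∈ U, #(L x ∪ H x) ≤ lam
  T_card : ∀ x ∈ U, #(L x \ H x) ≤ d₀
  h2 : ∀ q, #{x ∈ U | q ∈ L x} ≤ h₂
  iso : ∀ x ∈ F, ∀ x' ∈ U, x ≠ x' → node 0 x ≠ node 0 x'
  T_ne : ∀ x ∈ F, (L x \ H x).Nonempty
  spread : ∀ x ∈ F, ∀ a ∈ L x \ H x, ∀ b ∈ L x \ H x, a < b → a + 6 < b
  Hv_mem : ∀ x ∈ F, ∀ q ∈ L x \ H x, ∀ h ∈ Hv x q,
    h ∈ U ∧ node q h = node q x ∧ node (q - 1) h ≠ node (q - 1) x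
  R1 : ∀ Rr : ℕ → Finset ℕ, (∀ h, #(Rr h) ≤ c * (lam + 1)) →
    c * #{x ∈ F | ∃ q ∈ L x \ H x, ∀ h ∈ Hv x q, q ∈ Rr h} ≤ #U
  F_big : c * #(U \ F) ≤ #U
  h2_small : c * (lam + 1) * h₂ ≤ #U
  E_self : ∀ x ∈ F, ∀ y ∈ F, (x, y) ∈ E x y
  E_mem : ∀ x ∈ F, ∀ y ∈ F, ∀ ab ∈ E x y, ab.1 ∈ U ∧ ab.2 ∈ U
  E_sum : ∀ x ∈ F, ∀ y ∈ F, ∀ ab ∈ E x y, |((ab.1 : ℤ) + ab.2) - (x + y)| ≤ D₁
  E_zero : ∀ x ∈ F, ∀ y ∈ F, ∑ ab ∈ E x y, μ ab.1 * μ ab.2 = 0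
  nz : ∀ x ∈ U, μ x ≠ 0
  θ_mul : ∀ q, c * θ q ≤ θ (q + 1)
  θ_zero : c * (D₁ + 1) ≤ θ 0

/-- the sum of the coordinates -/
def SZ {n : ℕ} (z : Fin n → ℕ) : ℤ := ∑ s, (z s : ℤ)

variable {p B d₀ lam h₂ D₁ c : ℕ}

/-- the `T`-levels of a point -/
def Tower.T (W : Tower p B d₀ lam h₂ D₁ c) (x : ℕ) : Finset ℕ := W.L x \ W.H x

/-- separated tuples of fine points -/
def Tower.Sepd (W : Tower p B d₀ lam h₂ D₁ c) {n : ℕ} (z : Fin n → ℕ) : Prop :=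
  (∀ s, z s ∈ W.F) ∧
    ∀ s t, s ≠ t → ∀ a ∈ W.L (z s), ∀ b ∈ W.L (z t) ∪ W.H (z t), a + 6 < b ∨ b + 6 < a

/-- two tuples have nearly equal `T`-levels at different coordinates -/
def Tower.Cross (W : Tower p B d₀ lam h₂ D₁ c) {n : ℕ} (z z' : Fin n → ℕ) : Prop :=
  ∃ s t, s ≠ t ∧ ∃ a ∈ W.T (z s), ∃ b ∈ W.T (z' t), a ≤ b + 2 ∧ b ≤ a + 2

open Classical in
/-- the levels `q` such that `Y` has distance about `θ q` from the sum of a separated tuple without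
`T`-level near `q` -/
noncomputable def Tower.Rst (W : Tower p B d₀ lam h₂ D₁ c) (n tol : ℕ) (Y : ℤ) : Finset ℕ :=
  {q ∈ Icc 1 B | ∃ z : Fin n → ℕ, W.Sepd z ∧
    (∀ s, ∀ a ∈ W.T (z s), a + 2 < q ∨ q + 2 < a) ∧
    (W.θ (q - 1) : ℤ) ≤ 2 * |Y - SZ z| + 2 * tol ∧ |Y - SZ z| ≤ W.θ (q + 1) + tol}

/-- good tuples -/
def Tower.Good (W : Tower p B d₀ lam h₂ D₁ c) (d tol : ℕ) {n : ℕ} (x : Fin (n + 1) → ℕ) : Prop :=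
  (∀ t, #(W.T (x t)) ≤ d) ∧ W.Sepd x ∧
    (∀ t, ∀ a ∈ W.L (x t), a ∉ W.Rst n tol (SZ x - x t)) ∧
    ∀ t, ∀ q ∈ W.T (x t), ∃ h ∈ W.Hv (x t) q, q ∉ W.Rst (n + 1) tol (SZ x - x t + h)

end Pool.Agent.DCA
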