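import Pool.Agent.Lib.DCA.COmDefs

/-!
# Structure of the reachable tuples, first part

`Q_far`. PROOF. Same column: `Q t j ≠ Q t j'` are elements of `T (x₀ t)` (`Q_img`, `Q_inj`), `spread`. Different columns: `Sepd` of `x₀`
(`good` for `x₀` itself), `T ⊆ L`.
`hit`. PROOF. Suppose no `T`-level of any `x s` is within `2` of `q = Q t j`. `q ∈ T (x₀ t)`. By the last part of `Good` for `x₀` there is
`h ∈ Hv (x₀ t) q` with `q ∉ Rst (n + 1) tol (SZ x₀ - x₀ t + h)`. `Hv_mem`: `h ∈ U`, `node q h = node q (x₀ t)`, `node (q - 1) h ≠ node (q - 1) (x₀ t)`, so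
`|h - x₀ t| ≤ θ (q + 1)` and `θ (q - 1) ≤ 2 |h - x₀ t|`. `(SZ x₀ - x₀ t + h) - SZ x = (h - x₀ t) + (SZ x₀ - SZ x)` and `2 |SZ x₀ - SZ x| ≤ tol`, so
`θ (q - 1) ≤ 2 |..| + 2 tol` and `|..| ≤ θ (q + 1) + tol`; `1 ≤ q ≤ B` (`L_mem`). So `x` is a witness for `q ∈ Rst`: contradiction.
`omega_b`. PROOF. By `hit` every `e` is in some `bet Q (x s)`. Each `a ∈ T (x s)` is within `2` of at most one `Q e` (`Q_far`), so `#(bet Q (x s)) ≤ #(T (x s)) ≤ d`
(choose for each `e ∈ bet Q (x s)` an `a`: injective). `(n + 1) d = #univ ≤ ∑ s, #(bet Q (x s)) ≤ ∑ s, #(T (x s)) ≤ (n + 1) d`. So equality everywhere: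
`#(bet Q (x s)) = d`; the blocks are pairwise disjoint (the union has `∑ #` elements); and the injection from `bet Q (x s)` to `T (x s)` is surjective (same number `d`
of elements): every `a ∈ T (x s)` is within `2` of some `Q e`, `e ∈ bet Q (x s)`.
`bet_start`. PROOF. `bet Q (x₀ t)` contains `{t} ×ˢ univ` (`a = Q t j`), and both have `d` elements (`omega_b` for `x₀`).
-/

set_option autoImplicit false

open Finset

namespace Pool.Agent.DCA

variable {p B d₀ lam h₂ D₁ c : ℕ}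

private theorem COmB_mem (W : Tower p B d₀ lam h₂ D₁ c) {n d tol : ℕ} {x₀ : Fin (n + 1) → ℕ}
    {Q : Fin (n + 1) → Fin d → ℕ} (h : W.Typ n d tol x₀ Q) (t : Fin (n + 1)) (j : Fin d) :
    Q t j ∈ W.T (x₀ t) := by
  rw [← h.Q_img t]
  exact mem_image_of_mem _ (mem_univ j)

private theorem COmB_good (W : Tower p B d₀ lam h₂ D₁ c) {n d tol : ℕ} {x₀ : Fin (n + 1) → ℕ}
    {Q : Fin (n + 1) → Fin d → ℕ} (h : W.Typ n d tol x₀ Q) : W.Good d tol x₀ :=
  h.good x₀ Relation.ReflTransGen.refl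

private theorem COmB_TL (W : Tower p B d₀ lam h₂ D₁ c) {x a : ℕ} (h : a ∈ W.T x) : a ∈ W.L x :=
  (mem_sdiff.1 h).1

theorem Tower.Q_far (W : Tower p B d₀ lam h₂ D₁ c) {n d tol : ℕ} {x₀ : Fin (n + 1) → ℕ}
    {Q : Fin (n + 1) → Fin d → ℕ} (h : W.Typ n d tol x₀ Q) (e e' : Fin (n + 1) × Fin d)
    (hne : e ≠ e') : Q e.1 e.2 + 6 < Q e'.1 e'.2 ∨ Q e'.1 e'.2 + 6 < Q e.1 e.2 := by
  obtain ⟨t, j⟩ := e
  obtain ⟨t', j'⟩ := e'
  obtain ⟨-, ⟨hF, hS⟩, -, -⟩ := COmB_good W h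
  have h1 := COmB_mem W h t j
  have h2 := COmB_mem W h t' j'
  by_cases ht : t = t'
  · subst ht
    have hj : j ≠ j' := by
      rintro rfl
      exact hne rfl
    have hq : Q t j ≠ Q t j' := fun h3 => hj (h.Q_inj t h3)
    rcases Nat.lt_or_gt_of_ne hq with h3 | h3
    · left
      exact W.spread _ (hF t) _ h1 _ h2 h3
    · right
      exact W.spread _ (hF t) _ h2 _ h1 h3
  · exact hS t t' ht _ (COmB_TL W h1) _ (mem_union_left _ (COmB_TL W h2))

theorem Tower.hit (W : Tower p B d₀ lam h₂ D₁ c) {n d tol : ℕ} {x₀ : Fin (n + 1) → ℕ}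
    {Q : Fin (n + 1) → Fin d → ℕ} (h : W.Typ n d tol x₀ Q) (x : Fin (n + 1) → ℕ)
    (hx : Reach W.E univ x₀ x) (e : Fin (n + 1) × Fin d) : ∃ s, e ∈ W.bet Q (x s) := by
  classical
  by_contra hcon
  obtain ⟨t, j⟩ := e
  obtain ⟨-, ⟨hF, -⟩, -, hH⟩ := COmB_good W h
  have hq := COmB_mem W h t j
  obtain ⟨y, hy, hyR⟩ := hH t _ hq
  obtain ⟨hyU, hn1, hn2⟩ := W.Hv_mem _ (hF t) _ hq y hy
  have hxU : x₀ t ∈ W.U := W.F_sub (hF t)
  have h1 := W.node_le _ y hyU _ hxU hn1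
  have h2 := W.node_ge _ y hyU _ hxU hn2
  have h3 := h.drift x hx
  apply hyR
  unfold Tower.Rst
  rw [mem_filter]
  have h4 := W.L_mem _ hxU _ (COmB_TL W hq)
  have e1 : SZ x₀ - (x₀ t : ℤ) + (y : ℤ) - SZ x = ((y : ℤ) - x₀ t) + (SZ x₀ - SZ x) := by ring
  refine ⟨mem_Icc.2 h4, x, (h.good x hx).2.1, ?_, ?_, ?_⟩
  · intro s a ha
    by_contra h5
    apply hcon
    refine ⟨s, ?_⟩
    unfold Tower.bet
    rw [mem_filter]
    exact ⟨mem_univ _, a, ha, (by omega : a ≤ Q t j + 2), (by omega : Q t j ≤ a + 2)⟩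
  · rw [e1]
    rcases abs_cases ((y : ℤ) - x₀ t) with ⟨a1, a2⟩ | ⟨a1, a2⟩ <;>
    rcases abs_cases (SZ x₀ - SZ x) with ⟨b1, b2⟩ | ⟨b1, b2⟩ <;>
    rcases abs_cases (((y : ℤ) - x₀ t) + (SZ x₀ - SZ x)) with ⟨c1, c2⟩ | ⟨c1, c2⟩ <;>
    rw [a1] at h2 <;> rw [b1] at h3 <;> rw [c1] <;> omega
  · rw [e1]
    rcases abs_cases ((y : ℤ) - x₀ t) with ⟨a1, a2⟩ | ⟨a1, a2⟩ <;>
    rcases abs_cases (SZ x₀ - SZ x) with ⟨b1, b2⟩ | ⟨b1, b2⟩ <;>
    rcases abs_cases (((y : ℤ) - x₀ t) + (SZ x₀ - SZ x)) with ⟨c1, c2⟩ | ⟨c1, c2⟩ <;>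
    rw [a1] at h1 <;> rw [b1] at h3 <;> rw [c1] <;> omega

theorem Tower.omega_b (W : Tower p B d₀ lam h₂ D₁ c) {n d tol : ℕ} {x₀ : Fin (n + 1) → ℕ}
    {Q : Fin (n + 1) → Fin d → ℕ} (h : W.Typ n d tol x₀ Q) (x : Fin (n + 1) → ℕ)
    (hx : Reach W.E univ x₀ x) :
    (∀ s, #(W.bet Q (x s)) = d) ∧ (∀ s t, s ≠ t → Disjoint (W.bet Q (x s)) (W.bet Q (x t))) ∧
      ∀ s, ∀ a ∈ W.T (x s), ∃ e ∈ W.bet Q (x s), a ≤ Q e.1 e.2 + 2 ∧ Q e.1 e.2 ≤ a + 2 := by
  classical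
  have hmem : ∀ s, ∀ e ∈ W.bet Q (x s), ∃ a ∈ W.T (x s), a ≤ Q e.1 e.2 + 2 ∧ Q e.1 e.2 ≤ a + 2 := by
    intro s e he
    unfold Tower.bet at he
    exact (mem_filter.1 he).2
  have hfun : ∀ s, ∃ A : Fin (n + 1) × Fin d → ℕ, ∀ e ∈ W.bet Q (x s),
      A e ∈ W.T (x s) ∧ A e ≤ Q e.1 e.2 + 2 ∧ Q e.1 e.2 ≤ A e + 2 := by
    intro s
    refine ⟨fun e => if he : e ∈ W.bet Q (x s) then (hmem s e he).choose else 0, ?_⟩
    intro e he
    have h1 := (hmem s e he).choose_spec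
    beta_reduce
    rw [dif_pos he]
    exact h1
  choose A hA using hfun
  have hinj : ∀ s, Set.InjOn (A s) (W.bet Q (x s) : Set (Fin (n + 1) × Fin d)) := by
    intro s e he e' he' hee
    have h1 := hA s e he
    have h2 := hA s e' he'
    by_contra hne
    have h3 := W.Q_far h e e' hne
    rw [hee] at h1
    omega
  have himg : ∀ s, (W.bet Q (x s)).image (A s) ⊆ W.T (x s) := by
    intro s a ha
    obtain ⟨e, he, rfl⟩ := mem_image.1 ha
    exact (hA s e he).1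
  have hTd : ∀ s, #(W.T (x s)) ≤ d := (h.good x hx).1
  have hle : ∀ s, #(W.bet Q (x s)) ≤ d := by
    intro s
    rw [← card_image_of_injOn (hinj s)]
    exact (card_le_card (himg s)).trans (hTd s)
  have hdc : ∑ s, #(W.bet Q (x s)) = ∑ e : Fin (n + 1) × Fin d,
      #(univ.filter fun s : Fin (n + 1) => e ∈ W.bet Q (x s)) := by
    have h1 : ∀ s, #(W.bet Q (x s)) =
        ∑ e : Fin (n + 1) × Fin d, if e ∈ W.bet Q (x s) then 1 else 0 := by
      intro s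
      rw [← sum_filter, sum_const, smul_eq_mul, mul_one]
      congr 1
      ext e
      rw [mem_filter]
      simp
    rw [sum_congr rfl fun s _ => h1 s, sum_comm]
    refine sum_congr rfl fun e _ => ?_
    rw [← sum_filter, sum_const, smul_eq_mul, mul_one]
  have hone : ∀ e : Fin (n + 1) × Fin d,
      1 ≤ #(univ.filter fun s : Fin (n + 1) => e ∈ W.bet Q (x s)) := by
    intro e
    obtain ⟨s, hs⟩ := W.hit h x hx e
    exact card_pos.2 ⟨s, mem_filter.2 ⟨mem_univ s, hs⟩⟩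
  have hcd : ∑ e : Fin (n + 1) × Fin d, 1 = (n + 1) * d := by
    rw [sum_const, smul_eq_mul, mul_one, card_univ, Fintype.card_prod, Fintype.card_fin,
      Fintype.card_fin]
  have hsd : ∑ _s : Fin (n + 1), d = (n + 1) * d := by
    rw [sum_const, smul_eq_mul, card_univ, Fintype.card_fin]
  have hl1 : ∑ e : Fin (n + 1) × Fin d, 1 ≤
      ∑ e : Fin (n + 1) × Fin d, #(univ.filter fun s : Fin (n + 1) => e ∈ W.bet Q (x s)) :=
    sum_le_sum fun e _ => hone e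
  have hl2 : ∑ s, #(W.bet Q (x s)) ≤ ∑ _s : Fin (n + 1), d := sum_le_sum fun s _ => hle s
  have heq1 : ∀ s, #(W.bet Q (x s)) = d := by
    have h1 : ∑ s, #(W.bet Q (x s)) = ∑ _s : Fin (n + 1), d := by omega
    intro s
    exact (sum_eq_sum_iff_of_le fun s _ => hle s).1 h1 s (mem_univ s)
  have heq2 : ∀ e : Fin (n + 1) × Fin d,
      1 = #(univ.filter fun s : Fin (n + 1) => e ∈ W.bet Q (x s)) := by
    have h1 : ∑ e : Fin (n + 1) × Fin d, 1 =
      ∑ e : Fin (n + 1) × Fin d, #(univ.filter fun s : Fin (n + 1) => e ∈ W.bet Q (x s)) := by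
      omega
    intro e
    exact (sum_eq_sum_iff_of_le fun e _ => hone e).1 h1 e (mem_univ e)
  refine ⟨heq1, ?_, ?_⟩
  · intro s t hst
    rw [disjoint_left]
    intro e hs ht
    have h1 : ({s, t} : Finset (Fin (n + 1))) ⊆
        univ.filter fun s : Fin (n + 1) => e ∈ W.bet Q (x s) := by
      intro r hr
      rw [mem_insert, mem_singleton] at hr
      rw [mem_filter]
      rcases hr with rfl | rfl
      · exact ⟨mem_univ _, hs⟩
      · exact ⟨mem_univ _, ht⟩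
    have h2 := card_le_card h1
    rw [card_pair hst, ← heq2 e] at h2
    omega
  · intro s a ha
    have h1 : (W.bet Q (x s)).image (A s) = W.T (x s) := by
      apply eq_of_subset_of_card_le (himg s)
      rw [card_image_of_injOn (hinj s), heq1 s]
      exact hTd s
    rw [← h1] at ha
    obtain ⟨e, he, rfl⟩ := mem_image.1 ha
    exact ⟨e, he, (hA s e he).2⟩

theorem Tower.bet_start (W : Tower p B d₀ lam h₂ D₁ c) {n d tol : ℕ} {x₀ : Fin (n + 1) → ℕ}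
    {Q : Fin (n + 1) → Fin d → ℕ} (h : W.Typ n d tol x₀ Q) (t : Fin (n + 1)) :
    W.bet Q (x₀ t) = {t} ×ˢ univ := by
  symm
  apply eq_of_subset_of_card_le
  · rintro ⟨t', j⟩ he
    rw [mem_product, mem_singleton] at he
    obtain ⟨he1, -⟩ := he
    have he2 : t' = t := he1
    subst he2
    unfold Tower.bet
    rw [mem_filter]
    exact ⟨mem_univ _, Q t' j, COmB_mem W h t' j, Nat.le_add_right _ _, Nat.le_add_right _ _⟩
  · rw [(W.omega_b h x₀ Relation.ReflTransGen.refl).1 t, card_product, card_singleton, one_mul,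
      card_univ, Fintype.card_fin]

end Pool.Agent.DCA
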