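import Pool.Agent.Lib.DCA.CBasic

/-!
# Typical tuples: definitions
-/

set_option autoImplicit false

open Finset

namespace Pool.Agent.DCA

variable {p B d₀ lam h₂ D₁ c : ℕ}

/-- `x₀` is typical: all tuples which can be reached are good and have nearly the same sum; all
coordinates of `x₀` have exactly `d` `T`-levels, listed by `Q` -/
structure Tower.Typ (W : Tower p B d₀ lam h₂ D₁ c) (n d tol : ℕ) (x₀ : Fin (n + 1) → ℕ)
    (Q : Fin (n + 1) → Fin d → ℕ) : Prop where
  good : ∀ x, Reach W.E univ x₀ x → W.Good d tol x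
  drift : ∀ x, Reach W.E univ x₀ x → 2 * |SZ x₀ - SZ x| ≤ tol
  Q_inj : ∀ t, Function.Injective (Q t)
  Q_img : ∀ t, univ.image (Q t) = W.T (x₀ t)

/-- the block of a point: the letters which are within `2` of a `T`-level of the point -/
def Tower.bet (W : Tower p B d₀ lam h₂ D₁ c) {n d : ℕ} (Q : Fin (n + 1) → Fin d → ℕ) (y : ℕ) :
    Finset (Fin (n + 1) × Fin d) :=
  {e | ∃ a ∈ W.T y, a ≤ Q e.1 e.2 + 2 ∧ Q e.1 e.2 ≤ a + 2}

end Pool.Agent.DCA
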