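import Pool.Agent.Lib.DCA.CBasic

/-!
# The pair lemma

PROOF. For every `s` with `z s ≠ z' s` take the level `sep s` of `exists_sep` (`choose`). Choose `s` with
`z s ≠ z' s` and `J = sep s` maximal (`Finset.exists_max_image` over `{s | z s ≠ z' s}`, nonempty).
(i) There is `t ≠ s` with `z t ≠ z' t`, `J ≤ sep t + 2`. So `sep t ≤ J ≤ sep t + 2`. `J ∈ L (z s) ∨ J ∈ L (z' s)` and
`sep t ∈ L (z t) ∨ sep t ∈ L (z' t)`. Both in `z`: contradicts `hz`, both in `z'`: contradicts `hz'` (distance `≤ 2 < 6`). Let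
`J ∈ L (z s)`, `sep t ∈ L (z' t)`: if `J ∈ H (z s)` then `J ∈ H (z' s)` by `H_inv` (`node J (z s) = node J (z' s)`), which contradicts `hz'` (`a = sep t ∈
L (z' t)`, `b = J ∈ H (z' s)`). So `J ∈ T (z s)`. If `sep t ∈ H (z' t)` then `sep t ∈ H (z t)`, with `J ∈ L (z s)` this contradicts
`hz`. So `sep t ∈ T (z' t)`: `Cross z z'`. The case `J ∈ L (z' s)`, `sep t ∈ L (z t)` gives `Cross z' z`, so `Cross z z'`
by `cross_symm`.
(ii) Otherwise all `t ≠ s` with `z t ≠ z' t` have `sep t + 3 ≤ J`, so `|z t - z' t| ≤ θ (sep t + 1) ≤ θ (J - 2)` and `J ≥ 3` if there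
is such `t`. `SZ z - SZ z' = (z s - z' s) + ∑_{t ≠ s} (z t - z' t)`, the second sum is at most `n * θ (J - 2)` and
`8 (n + 1) θ (J - 2) ≤ c θ (J - 2) ≤ θ (J - 1)` (`θ_lt`; if `J ≤ 2` the second sum is zero). So with `s, J` (`exists_sep`):
`4 |SZ z - SZ z'| ≥ 4 (θ (J - 1) / 2 - θ (J - 1) / 8) ≥ θ (J - 1)` and `|SZ z - SZ z'| ≤ θ (J + 1) + θ (J - 1) ≤ 2 θ (J + 1)`.
-/

set_option autoImplicit false

open Finset

namespace Pool.Agent.DCA

variable {p B d₀ lam h₂ D₁ c : ℕ}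

private theorem CPair_mono (W : Tower p B d₀ lam h₂ D₁ c) (hc : 1 ≤ c) {a b : ℕ} (h : a ≤ b) :
    W.θ a ≤ W.θ b := by
  induction b, h using Nat.le_induction with
  | base => exact le_rfl
  | succ b _ ih =>
    have h1 := W.θ_mul b
    have h2 : W.θ b ≤ c * W.θ b := Nat.le_mul_of_pos_left _ hc
    omega

private theorem CPair_sep (W : Tower p B d₀ lam h₂ D₁ c) {x x' : ℕ} (hx : x ∈ W.F)
    (hx' : x' ∈ W.F) (hne : x ≠ x') : ∃ q, q + 1 ≤ B ∧ W.node q x ≠ W.node q x' ∧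
      W.node (q + 1) x = W.node (q + 1) x' ∧ (q + 1 ∈ W.L x ∨ q + 1 ∈ W.L x') ∧
      (W.θ q : ℤ) ≤ 2 * |(x : ℤ) - x'| ∧ |(x : ℤ) - x'| ≤ W.θ (q + 2) := by
  classical
  have hxU := W.F_sub hx
  have hxU' := W.F_sub hx'
  have h0 : W.node 0 x ≠ W.node 0 x' := W.iso x hx x' hxU' hne
  have hex : ∃ q, W.node q x = W.node q x' := ⟨B, W.node_top x hxU x' hxU'⟩
  have hf := Nat.find_spec hex
  have hB : Nat.find hex ≤ B := Nat.find_le (W.node_top x hxU x' hxU')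
  have hpos : Nat.find hex ≠ 0 := by
    intro h
    rw [h] at hf
    exact h0 hf
  obtain ⟨q, hq⟩ := Nat.exists_eq_succ_of_ne_zero hpos
  rw [Nat.succ_eq_add_one] at hq
  have h1 : W.node q x ≠ W.node q x' := Nat.find_min hex (by omega)
  rw [hq] at hf hB
  exact ⟨q, hB, h1, hf, W.light q x hxU x' hxU' h1 hf, W.node_ge q x hxU x' hxU' h1,
    W.node_le (q + 1) x hxU x' hxU' hf⟩

theorem Tower.pair (W : Tower p B d₀ lam h₂ D₁ c) {n : ℕ} (hc : 8 * (n + 1) ≤ c)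
    (z z' : Fin n → ℕ) (hz : W.Sepd z) (hz' : W.Sepd z') (hne : z ≠ z') :
    W.Cross z z' ∨ ∃ s J, 1 ≤ J ∧ J ≤ B ∧ W.node J (z s) = W.node J (z' s) ∧
      (J ∈ W.L (z s) ∨ J ∈ W.L (z' s)) ∧ (W.θ (J - 1) : ℤ) ≤ 4 * |SZ z - SZ z'| ∧
      |SZ z - SZ z'| ≤ 2 * W.θ (J + 1) := by
  have hc1 : 1 ≤ c := by omega
  have hc : 4 * n ≤ c := by omega
  classical
  have hq : ∀ s, ∃ q, z s ≠ z' s → (q + 1 ≤ B ∧ W.node q (z s) ≠ W.node q (z' s) ∧
      W.node (q + 1) (z s) = W.node (q + 1) (z' s) ∧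
      (q + 1 ∈ W.L (z s) ∨ q + 1 ∈ W.L (z' s)) ∧
      (W.θ q : ℤ) ≤ 2 * |(z s : ℤ) - z' s| ∧ |(z s : ℤ) - z' s| ≤ W.θ (q + 2)) := by
    intro s
    by_cases h : z s ≠ z' s
    · obtain ⟨q, hq⟩ := CPair_sep W (hz.1 s) (hz'.1 s) h
      exact ⟨q, fun _ => hq⟩
    · exact ⟨0, fun h' => absurd h' h⟩
  choose q hq using hq
  have hS : ({s | z s ≠ z' s} : Finset (Fin n)).Nonempty := by
    obtain ⟨s, hs⟩ := Function.ne_iff.1 hne
    exact ⟨s, by simp [hs]⟩
  obtain ⟨s, hs, hmax⟩ := Finset.exists_max_image _ q hS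
  rw [mem_filter] at hs
  have hs := hs.2
  obtain ⟨hsB, hs1, hs2, hs3, hs4, hs5⟩ := hq s hs
  by_cases hcase : ∃ t, z t ≠ z' t ∧ t ≠ s ∧ q s ≤ q t + 2
  · obtain ⟨t, ht, hts, hqt⟩ := hcase
    left
    have hle : q t ≤ q s := hmax t (by simp [ht])
    obtain ⟨htB, ht1, ht2, ht3, ht4, ht5⟩ := hq t ht
    rcases hs3 with ha | ha <;> rcases ht3 with hb | hb
    · exfalso
      have := hz.2 s t (Ne.symm hts) _ ha _ (mem_union_left _ hb)
      omega
    · refine ⟨s, t, Ne.symm hts, q s + 1, ?_, q t + 1, ?_, by omega, by omega⟩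
      · rw [Tower.T, mem_sdiff]
        refine ⟨ha, fun hH => ?_⟩
        have h1 := W.H_inv _ _ (W.F_sub (hz.1 s)) _ (W.F_sub (hz'.1 s)) hH hs2
        have := hz'.2 t s hts _ hb _ (mem_union_right _ h1)
        omega
      · rw [Tower.T, mem_sdiff]
        refine ⟨hb, fun hH => ?_⟩
        have h1 := W.H_inv _ _ (W.F_sub (hz'.1 t)) _ (W.F_sub (hz.1 t)) hH ht2.symm
        have := hz.2 s t (Ne.symm hts) _ ha _ (mem_union_right _ h1)
        omega
    · refine ⟨t, s, hts, q t + 1, ?_, q s + 1, ?_, by omega, by omega⟩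
      · rw [Tower.T, mem_sdiff]
        refine ⟨hb, fun hH => ?_⟩
        have h1 := W.H_inv _ _ (W.F_sub (hz.1 t)) _ (W.F_sub (hz'.1 t)) hH ht2
        have := hz'.2 s t (Ne.symm hts) _ ha _ (mem_union_right _ h1)
        omega
      · rw [Tower.T, mem_sdiff]
        refine ⟨ha, fun hH => ?_⟩
        have h1 := W.H_inv _ _ (W.F_sub (hz'.1 s)) _ (W.F_sub (hz.1 s)) hH hs2.symm
        have := hz.2 t s hts _ hb _ (mem_union_right _ h1)
        omega
    · exfalso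
      have := hz'.2 s t (Ne.symm hts) _ ha _ (mem_union_left _ hb)
      omega
  · right
    push_neg at hcase
    have hn : 0 < n := Fin.pos s
    have hoth : ∀ t ∈ univ.erase s, 4 * (n : ℤ) * |(z t : ℤ) - z' t| ≤ W.θ (q s) := by
      intro t ht
      have hts : t ≠ s := (mem_erase.1 ht).1
      by_cases h : z t = z' t
      · rw [h, sub_self, abs_zero, mul_zero]
        exact Int.natCast_nonneg _
      · have h1 := hcase t h hts
        obtain ⟨htB, ht1, ht2, ht3, ht4, ht5⟩ := hq t h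
        have h2 : 4 * n * W.θ (q t + 2) ≤ W.θ (q t + 3) :=
          (Nat.mul_le_mul_right _ hc).trans (W.θ_mul _)
        have h3 : W.θ (q t + 3) ≤ W.θ (q s) := CPair_mono W hc1 (by omega)
        have h4 : (4 * (n : ℤ)) * W.θ (q t + 2) ≤ W.θ (q s) := by
          exact_mod_cast h2.trans h3
        refine le_trans (mul_le_mul_of_nonneg_left ht5 (by positivity)) h4
    have hsum : 4 * (n : ℤ) * ∑ t ∈ univ.erase s, |(z t : ℤ) - z' t| ≤ n * W.θ (q s) := by
      rw [mul_sum]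
      refine (Finset.sum_le_sum hoth).trans ?_
      rw [sum_const, nsmul_eq_mul]
      have h1 : #(univ.erase s) ≤ n := by
        rw [card_erase_of_mem (mem_univ s), card_univ, Fintype.card_fin]
        omega
      have h2 : ((#(univ.erase s) : ℕ) : ℤ) ≤ n := by exact_mod_cast h1
      exact mul_le_mul_of_nonneg_right h2 (Int.natCast_nonneg _)
    have hsum' : 4 * ∑ t ∈ univ.erase s, |(z t : ℤ) - z' t| ≤ W.θ (q s) := by
      have hn' : (0 : ℤ) < n := by exact_mod_cast hn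
      have h1 : (n : ℤ) * (4 * ∑ t ∈ univ.erase s, |(z t : ℤ) - z' t|) ≤ n * W.θ (q s) := by
        linarith
      exact le_of_mul_le_mul_left h1 hn'
    have hdec : SZ z - SZ z' = ((z s : ℤ) - z' s) + ∑ t ∈ univ.erase s, ((z t : ℤ) - z' t) := by
      unfold SZ
      rw [← Finset.sum_sub_distrib, ← Finset.add_sum_erase _ _ (mem_univ s)]
    have habs : |∑ t ∈ univ.erase s, ((z t : ℤ) - z' t)| ≤
        ∑ t ∈ univ.erase s, |(z t : ℤ) - z' t| := Finset.abs_sum_le_sum_abs _ _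
    set R := ∑ t ∈ univ.erase s, ((z t : ℤ) - z' t)
    have hm : (W.θ (q s) : ℤ) ≤ W.θ (q s + 2) := by
      exact_mod_cast CPair_mono W hc1 (by omega)
    refine ⟨s, q s + 1, by omega, hsB, hs2, hs3, ?_, ?_⟩
    · rw [Nat.add_sub_cancel, hdec]
      have h1 : |(z s : ℤ) - z' s| ≤ |((z s : ℤ) - z' s) + R| + |R| := by
        have := abs_sub (((z s : ℤ) - z' s) + R) R
        simpa using this
      linarith
    · rw [hdec]
      have h1 : |((z s : ℤ) - z' s) + R| ≤ |(z s : ℤ) - z' s| + |R| := abs_add_le _ _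
      have h2 : (0 : ℤ) ≤ |R| := abs_nonneg _
      have e : q s + 1 + 1 = q s + 2 := rfl
      rw [e]
      linarith

end Pool.Agent.DCA
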