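import Pool.Agent.Lib.DCA.CPair
import Pool.Agent.Lib.DCA.CKraft

/-!
# The set `Rst` is small

PROOF. Pick a residue `ρ < 5` such that `#{q ∈ Rst | q % 5 = ρ} * 5 ≥ #Rst`; let `M` be the number of these `q` and enumerate them
in DEcreasing order `q : Fin M → ℕ` (so `i < k → q k + 5 ≤ q i`), with witnesses `zz k : Fin n → ℕ`. Claim: for `i < k`, `Cross (zz i) (zz k)`
or `zz k` has an element of `L ∪ H` of one of its coordinates within `2` of `q i`. By the definition of `Rst`: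
`|SZ (zz i) - SZ (zz k)| ≥ |Y - SZ (zz i)| - |Y - SZ (zz k)| ≥ θ (q i - 1) / 2 - tol - θ (q k + 1) - tol ≥ θ (q i - 1) / 4`
(`q k + 1 ≤ q i - 4`, `16 θ (q i - 4) ≤ c θ (q i - 4) ≤ θ (q i - 1)`, `16 tol ≤ θ 0`; so `4 |..| ≥ θ (q i - 1) > 0` with some room: `1/2 - 1/16 - 2/16 ≥ 1/4`), and
`|SZ (zz i) - SZ (zz k)| ≤ θ (q i + 1) + θ (q k + 1) + 2 tol ≤ 2 θ (q i + 1)`. In particular `zz i ≠ zz k`. `pair` gives `Cross` or `s, J`
with `θ (J - 1) ≤ 8 θ (q i + 1) < θ (q i + 2)`, so `J - 1 < q i + 2` (`θ_mono`), and `θ (q i - 1) ≤ 8 θ (J + 1) < θ (J + 2)`, so `q i - 1 < J + 2`: `|J - q i| ≤ 2`.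
(`8 θ q < 16 θ q ≤ θ (q + 1)` as `θ q > 0`.) If `J ∈ L (zz k s)` we are done. Otherwise `J ∈ L (zz i s)`, and `J ∉ T (zz i s)` since `zz i` has no `T`-level within
`2` of `q i`; so `J ∈ H (zz i s)`, so `J ∈ H (zz k s)` by `H_inv`. 
`I k = {i | zz k has an element of L ∪ H within 2 of q i}`: each element of `⋃_s (L ∪ H) (zz k s)` (at most `n * lam` elements, `LH_card`) is within `2` of at most
one `q i` (they differ by `≥ 5`), so `#(I k) ≤ n * lam`. `kraft` with `D = n * d₀`, `Δ = n * lam`: `M ≤ (1 + n lam) n ^ (3 n d₀)`.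
-/

set_option autoImplicit false

open Finset

namespace Pool.Agent.DCA

variable {p B d₀ lam h₂ D₁ c : ℕ}

private theorem CRst_class (W : Tower p B d₀ lam h₂ D₁ c) (n : ℕ) (hn : 1 ≤ n)
    (hc : 8 * (n + 1) ≤ c) (hc16 : 16 ≤ c) (tol : ℕ) (htol : 16 * tol ≤ W.θ 0) (Y : ℤ) (ρ : ℕ) :
    #{q ∈ W.Rst n tol Y | q % 5 = ρ} ≤ (1 + n * lam) * n ^ (3 * (n * d₀)) := by
  classical
  have hc1 : 1 ≤ c := by omega
  set Q : Finset ℕ := {q ∈ W.Rst n tol Y | q % 5 = ρ} with hQdef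
  let q : Fin #Q → ℕ := fun k => Q.orderEmbOfFin rfl k.rev
  have hq : ∀ k, q k ∈ Q := fun k => Q.orderEmbOfFin_mem rfl _
  have hlt : ∀ i k, i < k → q k + 5 ≤ q i := by
    intro i k hik
    have h1 : q k < q i := (Q.orderEmbOfFin rfl).strictMono (Fin.rev_lt_rev.2 hik)
    have h2 : q k % 5 = ρ := (mem_filter.1 (hq k)).2
    have h3 : q i % 5 = ρ := (mem_filter.1 (hq i)).2
    omega
  have hw : ∀ k, ∃ z : Fin n → ℕ, W.Sepd z ∧
      (∀ s, ∀ a ∈ W.T (z s), a + 2 < q k ∨ q k + 2 < a) ∧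
      (W.θ (q k - 1) : ℤ) ≤ 2 * |Y - SZ z| + 2 * tol ∧ |Y - SZ z| ≤ W.θ (q k + 1) + tol := by
    intro k
    have h1 := (mem_filter.1 (hq k)).1
    rw [Tower.Rst, mem_filter] at h1
    exact h1.2
  have hq1 : ∀ k, 1 ≤ q k := by
    intro k
    have h1 := (mem_filter.1 (hq k)).1
    rw [Tower.Rst, mem_filter, mem_Icc] at h1
    exact h1.1.1
  choose z hz hzT hz1 hz2 using hw
  have hU : ∀ k s, z k s ∈ W.U := fun k s => W.F_sub ((hz k).1 s)
  let Lv : Fin #Q → Finset ℕ := fun k => univ.biUnion (fun s => W.L (z k s) ∪ W.H (z k s))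
  let I : Fin #Q → Finset (Fin #Q) := fun k => {i | ∃ l ∈ Lv k, l ≤ q i + 2 ∧ q i ≤ l + 2}
  have hLv : ∀ k, #(Lv k) ≤ n * lam := by
    intro k
    refine card_biUnion_le.trans ?_
    refine (Finset.sum_le_card_nsmul _ _ lam (fun s _ => W.LH_card _ (hU k s))).trans ?_
    rw [card_univ, Fintype.card_fin, smul_eq_mul]
  have hI : ∀ k, #(I k) ≤ n * lam := by
    intro k
    refine le_trans ?_ (hLv k)
    have h1 : ∀ i ∈ I k, ∃ l ∈ Lv k, l ≤ q i + 2 ∧ q i ≤ l + 2 := fun i hi => (mem_filter.1 hi).2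
    choose! f hf using h1
    refine card_le_card_of_injOn f (fun i hi => (hf i hi).1) ?_
    intro i hi j hj hij
    have h2 := (hf i hi).2
    have h3 := (hf j hj).2
    have hij' : f i = f j := hij
    rw [hij'] at h2
    rcases lt_trichotomy i j with h | h | h
    · have := hlt i j h
      omega
    · exact h
    · have := hlt j i h
      omega
  refine kraft n B (n * d₀) (n * lam) #Q hn (fun k s => W.T (z k s)) ?_ ?_ ?_ I hI ?_
  · intro k s a ha
    exact W.L_mem _ (hU k s) a (W.T_sub _ ha)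
  · intro k
    refine (Finset.sum_le_card_nsmul _ _ d₀ (fun s _ => W.T_card _ (hU k s))).trans ?_
    rw [card_univ, Fintype.card_fin, smul_eq_mul]
  · intro k s t hst a ha b hb
    have := (hz k).2 s t hst a (W.T_sub _ ha) b (mem_union_left _ (W.T_sub _ hb))
    omega
  · intro i k hik hiI
    have hd := hlt i k hik
    have hk1 := hq1 k
    -- numerics
    have n1 : 16 * W.θ (q k + 1) ≤ W.θ (q i - 1) :=
      (Nat.mul_le_mul_right _ hc16).trans (W.θ_lt hc1 (by omega))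
    have n2 : 16 * tol ≤ W.θ (q i - 1) := htol.trans (W.θ_mono hc1 (Nat.zero_le _))
    have n3 : 0 < W.θ (q i - 1) := W.θ_pos hc1 _
    have n4 : W.θ (q i - 1) ≤ W.θ (q i + 1) := W.θ_mono hc1 (by omega)
    have n1' : (16 : ℤ) * W.θ (q k + 1) ≤ W.θ (q i - 1) := by exact_mod_cast n1
    have n2' : (16 : ℤ) * tol ≤ W.θ (q i - 1) := by exact_mod_cast n2
    have n3' : (0 : ℤ) < W.θ (q i - 1) := by exact_mod_cast n3
    have n4' : (W.θ (q i - 1) : ℤ) ≤ W.θ (q i + 1) := by exact_mod_cast n4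
    have n5' : (0 : ℤ) ≤ tol := Int.natCast_nonneg _
    have n6' : (0 : ℤ) ≤ W.θ (q k + 1) := Int.natCast_nonneg _
    have a1 : |Y - SZ (z i)| ≤ |Y - SZ (z k)| + |SZ (z i) - SZ (z k)| := by
      have h := abs_sub (Y - SZ (z k)) (SZ (z i) - SZ (z k))
      have e : Y - SZ (z k) - (SZ (z i) - SZ (z k)) = Y - SZ (z i) := by ring
      rwa [e] at h
    have a2 : |SZ (z i) - SZ (z k)| ≤ |Y - SZ (z k)| + |Y - SZ (z i)| := by
      have h := abs_sub (Y - SZ (z k)) (Y - SZ (z i))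
      have e : Y - SZ (z k) - (Y - SZ (z i)) = SZ (z i) - SZ (z k) := by ring
      rwa [e] at h
    have b1 := hz1 i
    have b2 := hz2 i
    have b3 := hz2 k
    have d1 : (W.θ (q i - 1) : ℤ) ≤ 4 * |SZ (z i) - SZ (z k)| := by linarith
    have d2 : |SZ (z i) - SZ (z k)| ≤ 2 * W.θ (q i + 1) := by linarith
    have hne : z i ≠ z k := by
      intro h
      rw [h, sub_self, abs_zero, mul_zero] at d1
      linarith
    rcases W.pair hc (z i) (z k) (hz i) (hz k) hne with h | ⟨s, J, hJ1, hJB, hJn, hJL, hJ2, hJ3⟩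
    · exact h
    · exfalso
      have c1 : J ≤ q i + 2 := by
        by_contra hcon
        have h1 := W.θ_lt hc1 (show q i + 1 < J - 1 by omega)
        have h2 : 16 * W.θ (q i + 1) ≤ W.θ (J - 1) := (Nat.mul_le_mul_right _ hc16).trans h1
        have h3 : (16 : ℤ) * W.θ (q i + 1) ≤ W.θ (J - 1) := by exact_mod_cast h2
        linarith
      have c2 : q i ≤ J + 2 := by
        by_contra hcon
        have h1 := W.θ_lt hc1 (show J + 1 < q i - 1 by omega)
        have h2 : 16 * W.θ (J + 1) ≤ W.θ (q i - 1) := (Nat.mul_le_mul_right _ hc16).trans h1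
        have h3 : (16 : ℤ) * W.θ (J + 1) ≤ W.θ (q i - 1) := by exact_mod_cast h2
        linarith
      have hin : J ∈ W.L (z k s) ∪ W.H (z k s) → False := by
        intro h
        refine hiI ?_
        rw [mem_filter]
        exact ⟨mem_univ _, J, mem_biUnion.2 ⟨s, mem_univ _, h⟩, c1, c2⟩
      rcases hJL with hL | hL
      · by_cases hH : J ∈ W.H (z i s)
        · exact hin (mem_union_right _ (W.H_inv J _ (hU i s) _ (hU k s) hH hJn))
        · have hT : J ∈ W.T (z i s) := mem_sdiff.2 ⟨hL, hH⟩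
          have := hzT i s J hT
          omega
      · exact hin (mem_union_left _ hL)

theorem Tower.rst_card (W : Tower p B d₀ lam h₂ D₁ c) (n : ℕ) (hn : 1 ≤ n)
    (hc : 8 * (n + 1) ≤ c) (hc16 : 16 ≤ c) (tol : ℕ) (htol : 16 * tol ≤ W.θ 0) (Y : ℤ) :
    #(W.Rst n tol Y) ≤ 5 * ((1 + n * lam) * n ^ (3 * (n * d₀))) := by
  classical
  have h1 : #(W.Rst n tol Y) = ∑ ρ ∈ range 5, #{q ∈ W.Rst n tol Y | q % 5 = ρ} :=
    card_eq_sum_card_fiberwise fun q _ => mem_coe.2 (mem_range.2 (Nat.mod_lt _ (by norm_num)))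
  rw [h1]
  refine (Finset.sum_le_card_nsmul _ _ _
    (fun ρ _ => CRst_class W n hn hc hc16 tol htol Y ρ)).trans ?_
  rw [card_range, smul_eq_mul]

end Pool.Agent.DCA
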