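import Mathlib

/-!
# Endgame: definitions

A *play* is a family of tuples `x : Fin n → ℕ` (the tuples reachable from `x₀` by moves at two
coordinates) together with a description `β` of points by blocks of letters `(t, j)`, such that
the blocks of every reachable tuple form a partition, the block determines the point, and the
sum of `μ a * μ b` over all possible moves `(a, b)` at two coordinates is zero.
-/

set_option autoImplicit false

open Finset

namespace Pool.Agent.DCA

/-- a move at two coordinates of `S` -/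
def Step {n : ℕ} (E : ℕ → ℕ → Finset (ℕ × ℕ)) (S : Finset (Fin n)) (x y : Fin n → ℕ) : Prop :=
  ∃ s ∈ S, ∃ t ∈ S, s ≠ t ∧ ∃ a b : ℕ, (a, b) ∈ E (x s) (x t) ∧
    y = Function.update (Function.update x s a) t b

/-- reachable by moves at coordinates of `S` -/
def Reach {n : ℕ} (E : ℕ → ℕ → Finset (ℕ × ℕ)) (S : Finset (Fin n)) (x y : Fin n → ℕ) : Prop :=
  Relation.ReflTransGen (Step E S) x y

/-- plays with `n` columns and `d` letters per column -/
structure Play (p n d : ℕ) where
  μ : ℕ → ZMod p
  β : ℕ → Finset (Fin n × Fin d)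
  E : ℕ → ℕ → Finset (ℕ × ℕ)
  x₀ : Fin n → ℕ
  start : ∀ t, β (x₀ t) = {t} ×ˢ univ
  card : ∀ x, Reach E univ x₀ x → ∀ s, #(β (x s)) = d
  disj : ∀ x, Reach E univ x₀ x → ∀ s t, s ≠ t → Disjoint (β (x s)) (β (x t))
  nz : ∀ x, Reach E univ x₀ x → ∀ s, μ (x s) ≠ 0
  self : ∀ x, Reach E univ x₀ x → ∀ s t, s ≠ t → (x s, x t) ∈ E (x s) (x t)
  zero : ∀ x, Reach E univ x₀ x → ∀ s t, s ≠ t → ∑ ab ∈ E (x s) (x t), μ ab.1 * μ ab.2 = 0
  det : ∀ x y, Reach E univ x₀ x → Reach E univ x₀ y → ∀ s t, β (x s) = β (y t) → x s = y t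

/-- the block `J` occurs in a tuple which is reachable by moves at coordinates of `S` -/
def Pres {p n d : ℕ} (P : Play p n d) (S : Finset (Fin n)) (J : Finset (Fin n × Fin d)) : Prop :=
  ∃ x, Reach P.E S P.x₀ x ∧ ∃ s ∈ S, P.β (x s) = J

/-- the number with the `L` digits `u 0, …, u (L - 1)` in base `M` -/
def num (M L : ℕ) (u : ℕ → ℕ) : ℕ := ∑ i ∈ range L, u i * M ^ (L - 1 - i)

/-- the rank of `y` among the positions with the same value of `f` -/
def rk (f : ℕ → Bool) (y : ℕ) : ℕ := #{z ∈ range y | f z = f y}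

/-- the columns of a block -/
def cols {n d : ℕ} (J : Finset (Fin n × Fin d)) : Finset (Fin n) := J.image Prod.fst

/-- the letter of a block at its `i`-th column -/
def letter {n d : ℕ} (J : Finset (Fin n × Fin d)) (i : ℕ) : Finset (Fin d) :=
  {j | ∃ t ∈ cols J, #{u ∈ cols J | u < t} = i ∧ (t, j) ∈ J}

/-- numbering of the letters, by the numbers `1, …, 2 ^ d` -/
noncomputable def code {d : ℕ} (A : Finset (Fin d)) : ℕ :=
  ((Fintype.equivFin (Finset (Fin d))) A : ℕ) + 1

theorem code_pos {d : ℕ} (A : Finset (Fin d)) : 1 ≤ code A := Nat.succ_pos _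

theorem code_lt {d : ℕ} (A : Finset (Fin d)) : code A < 2 ^ d + 1 := by
  have h := ((Fintype.equivFin (Finset (Fin d))) A).isLt
  have h2 : Fintype.card (Finset (Fin d)) = 2 ^ d := by
    rw [Fintype.card_finset, Fintype.card_fin]
  unfold code
  omega

theorem code_inj {d : ℕ} {A A' : Finset (Fin d)} (h : code A = code A') : A = A' := by
  unfold code at h
  apply (Fintype.equivFin (Finset (Fin d))).injective
  apply Fin.ext
  omega

/-- the type of a block as a number: longer blocks have larger types, blocks with the same number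
of columns are compared lexicographically -/
noncomputable def tau {n d : ℕ} (J : Finset (Fin n × Fin d)) : ℕ :=
  num (2 ^ d + 1) #(cols J) (fun i => code (letter J i))

end Pool.Agent.DCA
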