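import Pool.Agent.Lib.DCA.EDefs

/-!
# Moves in disjoint sets of coordinates are independent

All statements by induction on `Relation.ReflTransGen`. `reach_join`: first `Reach E (S ∪ T) x₀ x`
by `reach_mono`; then by induction on the path from `x₀` to `y` one has
`Reach E (S ∪ T) x₀ (fun t => if t ∈ S then x t else y t)`: for `y = x₀` this is `x` by `reach_off`;
a step of `y` at `s, t ∈ T` is a step of the joined tuple at `s, t ∉ S`.
-/

set_option autoImplicit false

open Finset

namespace Pool.Agent.DCA

theorem reach_off {n : ℕ} {E : ℕ → ℕ → Finset (ℕ × ℕ)} {S : Finset (Fin n)} {x₀ x : Fin n → ℕ}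
    (h : Reach E S x₀ x) (t : Fin n) (ht : t ∉ S) : x t = x₀ t := by
  induction h with
  | refl => rfl
  | tail _ hst ih =>
    obtain ⟨s, hs, u, hu, -, a, b, -, rfl⟩ := hst
    have h1 : t ≠ u := fun h => ht (by rw [h]; exact hu)
    have h2 : t ≠ s := fun h => ht (by rw [h]; exact hs)
    rw [Function.update_of_ne h1, Function.update_of_ne h2]
    exact ih

theorem reach_mono {n : ℕ} {E : ℕ → ℕ → Finset (ℕ × ℕ)} {S T : Finset (Fin n)} (hST : S ⊆ T)
    {x₀ x : Fin n → ℕ} (h : Reach E S x₀ x) : Reach E T x₀ x := by
  refine Relation.ReflTransGen.mono ?_ _ _ h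
  rintro y z ⟨s, hs, u, hu, hsu, a, b, hab, rfl⟩
  exact ⟨s, hST hs, u, hST hu, hsu, a, b, hab, rfl⟩

theorem reach_join {n : ℕ} {E : ℕ → ℕ → Finset (ℕ × ℕ)} {S T : Finset (Fin n)}
    (hd : Disjoint S T) {x₀ x y : Fin n → ℕ} (hx : Reach E S x₀ x) (hy : Reach E T x₀ y) :
    Reach E (S ∪ T) x₀ (fun t => if t ∈ S then x t else y t) := by
  induction hy with
  | refl =>
    have h1 : (fun t => if t ∈ S then x t else x₀ t) = x := by
      funext t
      by_cases ht : t ∈ S
      · rw [if_pos ht]
      · rw [if_neg ht, reach_off hx t ht]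
    rw [h1]
    exact reach_mono subset_union_left hx
  | tail _ hst ih =>
    rename_i z w _
    refine Relation.ReflTransGen.tail ih ?_
    obtain ⟨s, hs, u, hu, hsu, a, b, hab, rfl⟩ := hst
    have hsS : s ∉ S := fun h => (Finset.disjoint_left.1 hd h) hs
    have huS : u ∉ S := fun h => (Finset.disjoint_left.1 hd h) hu
    refine ⟨s, mem_union_right _ hs, u, mem_union_right _ hu, hsu, a, b, ?_, ?_⟩
    · beta_reduce
      rw [if_neg hsS, if_neg huS]
      exact hab
    · funext t
      by_cases htu : t = u
      · rw [htu, if_neg huS, Function.update_self, Function.update_self]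
      · rw [Function.update_of_ne htu, Function.update_of_ne htu]
        by_cases hts : t = s
        · rw [hts, if_neg hsS, Function.update_self, Function.update_self]
        · rw [Function.update_of_ne hts, Function.update_of_ne hts]

end Pool.Agent.DCA
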