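import Pool.Agent.Lib.DCA.ERamsey
import Pool.Agent.Lib.DCA.EReach

/-!
# Homogeneous sets of columns

PROOF. Colour type `κ = Finset (Fin r × Fin d) → Bool × ZMod p` (finite as `p` is prime; `NeZero p`).
For `S : Finset (Fin n)` with `#S ≤ r` let `e_S = S.orderEmbOfFin rfl : Fin #S ↪o Fin n` and for
`J : Finset (Fin r × Fin d)` let `J_S` be the set of all `(e_S i, j)` with `(castLE i, j) ∈ J` (`i : Fin #S`,
`j : Fin d`). The colour of `S` is `J ↦ (decide (Pres P S J_S), v)`, `v = μ (x s)` for some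
(`Classical.choose`) reachable `x` and `s` with `β (x s) = J_S`, and `v = 0` if there are none; for
`#S > r` an arbitrary constant. Take `N` of `ramsey κ r h`. If `e : Fin k → Fin n` is strictly monotone,
`k ≤ r`, `S = univ.image e`, then `#S = k` and (after `subst`) `e = e_S`
(`Finset.orderEmbOfFin_unique`), and for `J : Finset (Fin k × Fin d)`,
`J' = J.image (Prod.map (Fin.castLE _) id)` one has `J'_S = J.image (Prod.map e id)`. So the first component gives the
statement on `Pres`. The second one: if `β (x s) = J'_S` for some reachable `x` then `v = μ (x s)` for every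
such `x, s` by `P.det`; the colours of `univ.image e` and `univ.image e'` are the same.
-/

set_option autoImplicit false

open Finset

namespace Pool.Agent.DCA

/-- the block of `Fin n × Fin d` on the columns `S` with the pattern `J` -/
private noncomputable def eh_lift {n d r : ℕ} (S : Finset (Fin n)) (J : Finset (Fin r × Fin d)) :
    Finset (Fin n × Fin d) :=
  {q | q.1 ∈ S ∧ ∃ i : Fin r, (i : ℕ) = #{u ∈ S | u < q.1} ∧ (i, q.2) ∈ J}

private theorem eh_rank {n k : ℕ} {e : Fin k → Fin n} (he : StrictMono e) (i : Fin k) :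
    #{u ∈ univ.image e | u < e i} = (i : ℕ) := by
  have h1 : ({u ∈ univ.image e | u < e i} : Finset (Fin n)) = (Finset.Iio i).image e := by
    ext u
    simp only [mem_filter, mem_image, mem_univ, true_and, mem_Iio]
    constructor
    · rintro ⟨⟨j, rfl⟩, hj⟩
      exact ⟨j, he.lt_iff_lt.1 hj, rfl⟩
    · rintro ⟨j, hj, rfl⟩
      exact ⟨⟨j, rfl⟩, he hj⟩
  rw [h1, card_image_of_injective _ he.injective, Fin.card_Iio]

private theorem eh_lift_image {n d r k : ℕ} (hk : k ≤ r) {e : Fin k → Fin n} (he : StrictMono e)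
    (J : Finset (Fin k × Fin d)) :
    eh_lift (univ.image e) (J.image (Prod.map (Fin.castLE hk) id)) =
      J.image (Prod.map e id) := by
  ext ⟨t, j⟩
  simp only [eh_lift, mem_filter, mem_univ, true_and, mem_image, Prod.exists, Prod.map_apply, id_eq,
    Prod.mk.injEq]
  constructor
  · rintro ⟨⟨i0, rfl⟩, i, hi, i1, j1, hJ, h1, rfl⟩
    have h2 := eh_rank he i0
    rw [h2] at hi
    have h3 : i1 = i0 := by
      apply Fin.ext
      rw [← hi, ← h1]
      rfl
    subst h3
    exact ⟨i1, j1, hJ, rfl, rfl⟩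
  · rintro ⟨i0, j1, hJ, rfl, rfl⟩
    refine ⟨⟨i0, rfl⟩, Fin.castLE hk i0, ?_, i0, j1, hJ, rfl, rfl⟩
    rw [eh_rank he i0]
    rfl

/-- the colour of a set of columns -/
private noncomputable def eh_col {p n d : ℕ} (r : ℕ) (P : Play p n d) (S : Finset (Fin n)) :
    Finset (Fin r × Fin d) → Bool × ZMod p := fun J =>
  open Classical in
  (decide (Pres P S (eh_lift S J)),
    if h : ∃ q : (Fin n → ℕ) × Fin n, Reach P.E univ P.x₀ q.1 ∧ P.β (q.1 q.2) = eh_lift S J then
      P.μ (h.choose.1 h.choose.2) else 0)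

private theorem eh_col_snd {p n d : ℕ} (r : ℕ) (P : Play p n d) (S : Finset (Fin n))
    (J : Finset (Fin r × Fin d)) {x : Fin n → ℕ} (hx : Reach P.E univ P.x₀ x) {s : Fin n}
    (hs : P.β (x s) = eh_lift S J) : (eh_col r P S J).2 = P.μ (x s) := by
  classical
  have h : ∃ q : (Fin n → ℕ) × Fin n, Reach P.E univ P.x₀ q.1 ∧ P.β (q.1 q.2) = eh_lift S J :=
    ⟨(x, s), hx, hs⟩
  have h1 : (eh_col r P S J).2 = P.μ (h.choose.1 h.choose.2) := by
    unfold eh_col
    exact dif_pos h
  rw [h1, P.det _ _ h.choose_spec.1 hx _ s (h.choose_spec.2.trans hs.symm)]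

private theorem eh_col_fst {p n d : ℕ} (r : ℕ) (P : Play p n d) (S : Finset (Fin n))
    (J : Finset (Fin r × Fin d)) : (eh_col r P S J).1 = true ↔ Pres P S (eh_lift S J) := by
  classical
  unfold eh_col
  exact decide_eq_true_iff

theorem homog (p d r h : ℕ) [Fact p.Prime] : ∃ N : ℕ, ∀ n : ℕ, N ≤ n → ∀ P : Play p n d,
    ∃ H : Finset (Fin n), #H = h ∧
      ∀ k ≤ r, ∀ e e' : Fin k → Fin n, StrictMono e → StrictMono e' → (∀ i, e i ∈ H) →
        (∀ i, e' i ∈ H) → ∀ J : Finset (Fin k × Fin d),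
          (Pres P (univ.image e) (J.image (Prod.map e id)) →
            Pres P (univ.image e') (J.image (Prod.map e' id))) ∧
          ∀ x x' : Fin n → ℕ, Reach P.E univ P.x₀ x → Reach P.E univ P.x₀ x' → ∀ s s' : Fin n,
            P.β (x s) = J.image (Prod.map e id) → P.β (x' s') = J.image (Prod.map e' id) →
            P.μ (x s) = P.μ (x' s') := by
  haveI : NeZero p := ⟨(Fact.out : p.Prime).ne_zero⟩
  obtain ⟨N, hN⟩ := ramsey (Finset (Fin r × Fin d) → Bool × ZMod p) r h
  refine ⟨N, fun n hn P => ?_⟩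
  obtain ⟨H, hH, hcol⟩ := hN n hn (eh_col r P)
  refine ⟨H, hH, ?_⟩
  intro k hk e e' he he' heH heH' J
  have hS : univ.image e ⊆ H := by
    intro u hu
    obtain ⟨i, _, rfl⟩ := mem_image.1 hu
    exact heH i
  have hT : univ.image e' ⊆ H := by
    intro u hu
    obtain ⟨i, _, rfl⟩ := mem_image.1 hu
    exact heH' i
  have cS : #(univ.image e) = k := by
    rw [card_image_of_injective _ he.injective, card_univ, Fintype.card_fin]
  have cT : #(univ.image e') = k := by
    rw [card_image_of_injective _ he'.injective, card_univ, Fintype.card_fin]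
  have hc := hcol _ _ hS hT (cS.trans cT.symm) (cS.le.trans hk)
  have hJ := congrFun hc (J.image (Prod.map (Fin.castLE hk) id))
  constructor
  · intro hP
    rw [← eh_lift_image hk he J] at hP
    rw [← eh_lift_image hk he' J]
    exact (eh_col_fst r P _ _).1 ((congrArg Prod.fst hJ) ▸ (eh_col_fst r P _ _).2 hP)
  · intro x x' hx hx' s s' hs hs'
    rw [← eh_lift_image hk he J] at hs
    rw [← eh_lift_image hk he' J] at hs'
    rw [← eh_col_snd r P _ _ hx hs, ← eh_col_snd r P _ _ hx' hs', hJ]

end Pool.Agent.DCA
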