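import Pool.Agent.Lib.DCA.EDefs

/-!
# Interleaving two copies

PROOF. `A i := 2 * k * a₁(i) + i`, `a₁(i) = sup of y + 1 over y < 2a with f y = true and
ι (rk f y) ≤ i` (`Finset.sup`, `0` if there are none), `B i := 2 * k * b₁(i) + k + i`, `b₁(i) = sup
of y + 1 over y < 2a with f y = false and ι (rk f y) ≤ i`. `a₁, b₁` are monotone and `≤ 2a`, so `A`
and `B` are strictly monotone and `< 2k(2a+1)` for `i < k`. `A i ≠ B j` as `A i % (2k) = i < k ≤
k + j = B j % (2k)`. For `y < 2a`, `f y = true`: `a₁(ι (rk f y)) = y + 1` (if `f y' = true` and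
`ι (rk f y') ≤ ι (rk f y)` then `rk f y' ≤ rk f y` by `hmono` [both are `< a`], so `y' ≤ y`). In the same way
for `false`. So the key of `y` is in `[2k(y+1), 2k(y+2))`.
-/

set_option autoImplicit false

open Finset

namespace Pool.Agent.DCA

/-- the last position of value `c` whose image is at most `i`, plus one -/
private def EInter_u (a : ℕ) (ι : ℕ → ℕ) (f : ℕ → Bool) (c : Bool) (i : ℕ) : ℕ :=
  ({y ∈ range (2 * a) | f y = c ∧ ι (rk f y) ≤ i} : Finset ℕ).sup fun y => y + 1

private theorem EInter_mono (a : ℕ) (ι : ℕ → ℕ) (f : ℕ → Bool) (c : Bool) {i j : ℕ} (h : i ≤ j) :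
    EInter_u a ι f c i ≤ EInter_u a ι f c j := by
  unfold EInter_u
  apply Finset.sup_mono
  intro y hy
  rw [mem_filter] at hy ⊢
  exact ⟨hy.1, hy.2.1, hy.2.2.trans h⟩

private theorem EInter_le (a : ℕ) (ι : ℕ → ℕ) (f : ℕ → Bool) (c : Bool) (i : ℕ) :
    EInter_u a ι f c i ≤ 2 * a := by
  unfold EInter_u
  apply Finset.sup_le
  intro y hy
  rw [mem_filter, mem_range] at hy
  omega

private theorem EInter_card (a : ℕ) (f : ℕ → Bool) (hf : #{y ∈ range (2 * a) | f y = true} = a)
    (c : Bool) : #{y ∈ range (2 * a) | f y = c} = a := by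
  cases c with
  | true => exact hf
  | false =>
    have h1 := Finset.card_filter_add_card_filter_not (s := range (2 * a)) (fun y => f y = true)
    rw [hf, card_range] at h1
    have h2 : (range (2 * a)).filter (fun y => ¬ f y = true) =
        (range (2 * a)).filter (fun y => f y = false) := by
      apply Finset.filter_congr
      intro y _
      simp
    rw [h2] at h1
    omega

private theorem EInter_rk_lt (a : ℕ) (f : ℕ → Bool)
    (hf : #{y ∈ range (2 * a) | f y = true} = a) {y : ℕ} (hy : y < 2 * a) : rk f y < a := by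
  have h1 := EInter_card a f hf (f y)
  unfold rk
  calc #{z ∈ range y | f z = f y} < #{z ∈ range (2 * a) | f z = f y} := by
        apply Finset.card_lt_card
        rw [Finset.ssubset_iff_of_subset]
        · refine ⟨y, ?_, ?_⟩
          · rw [mem_filter, mem_range]
            exact ⟨hy, rfl⟩
          · rw [mem_filter, mem_range]
            omega
        · intro z hz
          rw [mem_filter, mem_range] at hz ⊢
          exact ⟨by omega, hz.2⟩
    _ = a := h1

private theorem EInter_rk_mono (f : ℕ → Bool) {y y' : ℕ} (h : y < y') (hf : f y' = f y) :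
    rk f y < rk f y' := by
  unfold rk
  apply Finset.card_lt_card
  rw [Finset.ssubset_iff_of_subset]
  · refine ⟨y, ?_, ?_⟩
    · rw [mem_filter, mem_range]
      exact ⟨h, hf.symm⟩
    · rw [mem_filter, mem_range]
      omega
  · intro z hz
    rw [mem_filter, mem_range] at hz ⊢
    exact ⟨by omega, by rw [hf]; exact hz.2⟩

private theorem EInter_val (k a : ℕ) (ι : ℕ → ℕ) (hmono : ∀ r r', r < r' → r' < a → ι r < ι r')
    (f : ℕ → Bool) (hf : #{y ∈ range (2 * a) | f y = true} = a) {y : ℕ} (hy : y < 2 * a) {c : Bool}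
    (hc : f y = c) : EInter_u a ι f c (ι (rk f y)) = y + 1 := by
  subst hc
  apply le_antisymm
  · unfold EInter_u
    apply Finset.sup_le
    intro y' hy'
    rw [mem_filter, mem_range] at hy'
    obtain ⟨h1, h2, h3⟩ := hy'
    by_contra h4
    have h5 : y < y' := by omega
    have h6 := hmono _ _ (EInter_rk_mono f h5 h2) (EInter_rk_lt a f hf h1)
    omega
  · unfold EInter_u
    exact Finset.le_sup (f := fun y => y + 1)
      (by rw [mem_filter, mem_range]; exact ⟨hy, rfl, le_rfl⟩)

theorem interleave (k a : ℕ) (ι : ℕ → ℕ) (hι : ∀ r < a, ι r < k)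
    (hmono : ∀ r r', r < r' → r' < a → ι r < ι r')
    (f : ℕ → Bool) (hf : #{y ∈ range (2 * a) | f y = true} = a) :
    ∃ A B : ℕ → ℕ, (∀ i j, i < j → j < k → A i < A j) ∧ (∀ i j, i < j → j < k → B i < B j) ∧
      (∀ i < k, A i < 2 * k * (2 * a + 1)) ∧ (∀ i < k, B i < 2 * k * (2 * a + 1)) ∧
      (∀ i < k, ∀ j < k, A i ≠ B j) ∧
      ∀ y y', y < y' → y' < 2 * a →
        (if f y = true then A (ι (rk f y)) else B (ι (rk f y))) <
          (if f y' = true then A (ι (rk f y')) else B (ι (rk f y'))) := by
  refine ⟨fun i => 2 * k * EInter_u a ι f true i + i,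
    fun i => 2 * k * EInter_u a ι f false i + k + i, ?_, ?_, ?_, ?_, ?_, ?_⟩
  · intro i j hij _
    have := Nat.mul_le_mul_left (2 * k) (EInter_mono a ι f true hij.le)
    change 2 * k * EInter_u a ι f true i + i < 2 * k * EInter_u a ι f true j + j
    omega
  · intro i j hij _
    have := Nat.mul_le_mul_left (2 * k) (EInter_mono a ι f false hij.le)
    change 2 * k * EInter_u a ι f false i + k + i < 2 * k * EInter_u a ι f false j + k + j
    omega
  · intro i hi
    have := Nat.mul_le_mul_left (2 * k) (EInter_le a ι f true i)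
    change 2 * k * EInter_u a ι f true i + i < 2 * k * (2 * a + 1)
    rw [Nat.mul_add, Nat.mul_one]
    omega
  · intro i hi
    have := Nat.mul_le_mul_left (2 * k) (EInter_le a ι f false i)
    change 2 * k * EInter_u a ι f false i + k + i < 2 * k * (2 * a + 1)
    rw [Nat.mul_add, Nat.mul_one]
    omega
  · intro i hi j hj
    change 2 * k * EInter_u a ι f true i + i ≠ 2 * k * EInter_u a ι f false j + k + j
    intro h
    rcases Nat.lt_or_ge (EInter_u a ι f false j) (EInter_u a ι f true i) with h1 | h1
    · have h2 := Nat.mul_le_mul_left (2 * k) (Nat.succ_le_of_lt h1)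
      rw [Nat.succ_eq_add_one, Nat.mul_add, Nat.mul_one] at h2
      omega
    · have h2 := Nat.mul_le_mul_left (2 * k) h1
      omega
  · have key : ∀ y < 2 * a, ∃ r < 2 * k,
        (if f y = true then 2 * k * EInter_u a ι f true (ι (rk f y)) + ι (rk f y)
          else 2 * k * EInter_u a ι f false (ι (rk f y)) + k + ι (rk f y)) =
          2 * k * (y + 1) + r := by
      intro y hy
      have hr := hι _ (EInter_rk_lt a f hf hy)
      by_cases h : f y = true
      · refine ⟨ι (rk f y), by omega, ?_⟩
        rw [if_pos h, EInter_val k a ι hmono f hf hy h]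
      · have h' : f y = false := by simpa using h
        refine ⟨k + ι (rk f y), by omega, ?_⟩
        rw [if_neg h, EInter_val k a ι hmono f hf hy h']
        omega
    intro y y' hyy hy'
    obtain ⟨r, hr, e⟩ := key y (by omega)
    obtain ⟨r', hr', e'⟩ := key y' hy'
    change (if f y = true then 2 * k * EInter_u a ι f true (ι (rk f y)) + ι (rk f y)
          else 2 * k * EInter_u a ι f false (ι (rk f y)) + k + ι (rk f y)) <
      (if f y' = true then 2 * k * EInter_u a ι f true (ι (rk f y')) + ι (rk f y')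
          else 2 * k * EInter_u a ι f false (ι (rk f y')) + k + ι (rk f y'))
    rw [e, e']
    have h2 := Nat.mul_le_mul_left (2 * k) (show y + 1 + 1 ≤ y' + 1 by omega)
    rw [Nat.mul_add (2 * k) (y + 1) 1, Nat.mul_one] at h2
    omega

end Pool.Agent.DCA
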