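import Pool.Agent.Lib.DCA.ENum

/-!
# Types and words of blocks

`tau_lt_pow`: `#(cols J) ≤ #J ≤ d`, `num_lt_pow`, `code_lt`.
`tau_lt_of_cols`: `tau J < M ^ #(cols J) ≤ M ^ (#(cols J') - 1) ≤ tau J'` (`num_lt_pow`, `pow_le_num`,
`code_pos`, `M = 2 ^ d + 1`).
`same_word`: let `e : Fin a → Fin n` be the increasing enumeration of `cols J` (`orderEmbOfFin`), `e'` that of
`cols J'`, `W = {(i, j) | j ∈ letter J i}`. The rank of `e i` in `cols J` is `i`, so `(e i, j) ∈ J` iff
`j ∈ letter J i`.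
-/

set_option autoImplicit false

open Finset

namespace Pool.Agent.DCA

private theorem eword_rank {n d a : ℕ} (J : Finset (Fin n × Fin d)) (h : #(cols J) = a)
    (i : Fin a) : #{u ∈ cols J | u < (cols J).orderEmbOfFin h i} = (i : ℕ) := by
  have h1 : {u ∈ cols J | u < (cols J).orderEmbOfFin h i} =
      (Finset.Iio i).map ((cols J).orderEmbOfFin h).toEmbedding := by
    ext u
    rw [Finset.mem_filter, Finset.mem_map]
    constructor
    · rintro ⟨hu, hlt⟩
      have h2 : u ∈ Set.range ((cols J).orderEmbOfFin h) := by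
        rw [Finset.range_orderEmbOfFin]
        exact hu
      obtain ⟨i', rfl⟩ := h2
      refine ⟨i', Finset.mem_Iio.2 ?_, rfl⟩
      exact ((cols J).orderEmbOfFin h).lt_iff_lt.1 hlt
    · rintro ⟨i', hi', rfl⟩
      refine ⟨Finset.orderEmbOfFin_mem _ _ _, ?_⟩
      exact ((cols J).orderEmbOfFin h).lt_iff_lt.2 (Finset.mem_Iio.1 hi')
  rw [h1, Finset.card_map, Fin.card_Iio]

private theorem eword_letter {n d a : ℕ} (J : Finset (Fin n × Fin d)) (h : #(cols J) = a)
    (i : Fin a) (j : Fin d) :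
    ((cols J).orderEmbOfFin h i, j) ∈ J ↔ j ∈ letter J i := by
  unfold letter
  rw [Finset.mem_filter]
  constructor
  · intro hm
    exact ⟨Finset.mem_univ _, _, Finset.orderEmbOfFin_mem _ _ _, eword_rank J h i, hm⟩
  · rintro ⟨-, t, ht, hr, hm⟩
    have h2 : t ∈ Set.range ((cols J).orderEmbOfFin h) := by
      rw [Finset.range_orderEmbOfFin]
      exact ht
    obtain ⟨i', rfl⟩ := h2
    rw [eword_rank J h i'] at hr
    rwa [Fin.ext hr] at hm

private theorem eword_half {n d a : ℕ} (J : Finset (Fin n × Fin d)) (h : #(cols J) = a)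
    (W : Finset (Fin a × Fin d)) (hW : ∀ w, w ∈ W ↔ w.2 ∈ letter J w.1) :
    J = W.image (Prod.map ((cols J).orderEmbOfFin h) id) := by
  ext ⟨t, j⟩
  rw [Finset.mem_image]
  constructor
  · intro hm
    have ht : t ∈ cols J := Finset.mem_image.2 ⟨_, hm, rfl⟩
    have h2 : t ∈ Set.range ((cols J).orderEmbOfFin h) := by
      rw [Finset.range_orderEmbOfFin]
      exact ht
    obtain ⟨i, rfl⟩ := h2
    exact ⟨(i, j), (hW _).2 ((eword_letter J h i j).1 hm), rfl⟩
  · rintro ⟨⟨i, j'⟩, hw, he⟩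
    have h1 := (hW _).1 hw
    have h2 := (eword_letter J h i j').2 h1
    rw [← he]
    exact h2

theorem tau_lt_pow {n d : ℕ} (J : Finset (Fin n × Fin d)) (hJ : #J = d) :
    tau J < (2 ^ d + 1) ^ d := by
  have h1 : #(cols J) ≤ d := Finset.card_image_le.trans hJ.le
  unfold tau
  exact (num_lt_pow _ _ _ (fun i _ => code_lt _) (Nat.succ_pos _)).trans_le
    (Nat.pow_le_pow_right (Nat.succ_pos _) h1)

theorem tau_lt_of_cols {n d : ℕ} (J J' : Finset (Fin n × Fin d)) (h : #(cols J) < #(cols J')) :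
    tau J < tau J' := by
  unfold tau
  refine (num_lt_pow _ _ _ (fun i _ => code_lt _) (Nat.succ_pos _)).trans_le ?_
  refine le_trans (Nat.pow_le_pow_right (Nat.succ_pos _) ?_)
    (pow_le_num _ _ _ (by omega) (code_pos _))
  omega

theorem same_word {n d : ℕ} (a : ℕ) (J J' : Finset (Fin n × Fin d)) (h : #(cols J) = a)
    (h' : #(cols J') = a) (hl : ∀ i < a, letter J i = letter J' i) :
    ∃ (W : Finset (Fin a × Fin d)) (e e' : Fin a → Fin n), StrictMono e ∧ StrictMono e' ∧
      (∀ i, e i ∈ cols J) ∧ (∀ i, e' i ∈ cols J') ∧ J = W.image (Prod.map e id) ∧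
      J' = W.image (Prod.map e' id) := by
  classical
  let W : Finset (Fin a × Fin d) := Finset.univ.filter fun w => w.2 ∈ letter J w.1
  have hW : ∀ w, w ∈ W ↔ w.2 ∈ letter J w.1 := by
    intro w
    simp only [W, Finset.mem_filter, Finset.mem_univ, true_and]
  have hW' : ∀ w, w ∈ W ↔ w.2 ∈ letter J' w.1 := by
    intro w
    rw [hW, hl w.1 w.1.isLt]
  exact ⟨W, (cols J).orderEmbOfFin h, (cols J').orderEmbOfFin h',
    ((cols J).orderEmbOfFin h).strictMono, ((cols J').orderEmbOfFin h').strictMono,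
    fun i => Finset.orderEmbOfFin_mem _ _ _, fun i => Finset.orderEmbOfFin_mem _ _ _,
    eword_half J h W hW, eword_half J' h' W hW'⟩

end Pool.Agent.DCA
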