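import Pool.Agent.Lib.DCA.EShuffle
import Pool.Agent.Lib.DCA.EWord

/-!
# Splitting the union of two interleaved blocks with the same word

PROOF. `C = cols J₁ ∪ cols J₂` is the set of all `key y`, `y < 2a`, it has `2a` elements and
`C = cols (J₁ ∪ J₂) = cols G ∪ cols G'`. If `#(cols G) > a` then `tau G > tau J₁` by `tau_lt_of_cols`; so
`#(cols G) ≤ a`, `#(cols G') ≤ a` and `2a = #C ≤ #(cols G) + #(cols G')`: both are `a` and `cols G`,
`cols G'` are disjoint. Put `g y = decide (key y ∈ cols G)`. For `y < 2a` with `key y ∈ cols G`: the letter of `G` at the column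
`key y` (all `j` with `(key y, j) ∈ G`) is the set of all `j` with `(key y, j) ∈ J₁ ∪ J₂` (the rest is in `G'`, which has no
letters in this column), and this is the letter of `J₁` (if `f y = true`) or of `J₂` (if `f y = false`)
at this column. The rank of `key y` in `cols J₁` is `rk f y` (resp. in `cols J₂`), the rank of `key y` in `cols G` is
`rk g y`. So `letter J₁ (rk f y) = letter G (rk g y)` (using `letter J₁ = letter J₂`), similarly for `G'`. Now
the shuffle property for `m i = code (letter J₁ i)`, `w i = code (letter G i)`, `w' i = code (letter G' i)`; `tau G = num _ a w`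
etc.; `code_inj`.
-/

set_option autoImplicit false

open Finset

namespace Pool.Agent.DCA

private theorem ESplit_inj {n : ℕ} {a : ℕ} {key : ℕ → Fin n}
    (hkey : ∀ y y', y < y' → y' < 2 * a → key y < key y') {y y' : ℕ} (hy : y < 2 * a)
    (hy' : y' < 2 * a) (h : key y = key y') : y = y' := by
  rcases lt_trichotomy y y' with h1 | h1 | h1
  · exact absurd h (ne_of_lt (hkey y y' h1 hy'))
  · exact h1
  · exact absurd h (ne_of_gt (hkey y' y h1 hy))

private theorem ESplit_lt_iff {n : ℕ} {a : ℕ} {key : ℕ → Fin n}
    (hkey : ∀ y y', y < y' → y' < 2 * a → key y < key y') {y y' : ℕ} (hy : y < 2 * a)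
    (hy' : y' < 2 * a) : key y < key y' ↔ y < y' := by
  constructor
  · intro h
    rcases lt_trichotomy y y' with h1 | h1 | h1
    · exact h1
    · rw [h1] at h
      exact absurd h (lt_irrefl _)
    · exact absurd h (not_lt.mpr (hkey y' y h1 hy).le)
  · intro h
    exact hkey y y' h hy'

private theorem ESplit_card {n : ℕ} {a : ℕ} {key : ℕ → Fin n}
    (hkey : ∀ y y', y < y' → y' < 2 * a → key y < key y') (s : Finset ℕ)
    (hs : ∀ y ∈ s, y < 2 * a) : #(image key s) = #s := by
  apply card_image_of_injOn
  intro y hy y' hy' h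
  exact ESplit_inj hkey (hs y hy) (hs y' hy') h

private theorem ESplit_rank {n : ℕ} {a : ℕ} {key : ℕ → Fin n}
    (hkey : ∀ y y', y < y' → y' < 2 * a → key y < key y') (h : ℕ → Bool) (b : Bool)
    (S : Finset (Fin n)) (hS : S = image key {y ∈ range (2 * a) | h y = b}) {y : ℕ}
    (hy : y < 2 * a) (hb : h y = b) : #{u ∈ S | u < key y} = rk h y := by
  have h1 : {u ∈ S | u < key y} = image key {z ∈ range y | h z = h y} := by
    ext u
    rw [mem_filter, hS, mem_image, mem_image]
    constructor
    · rintro ⟨⟨z, hz, rfl⟩, hlt⟩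
      rw [mem_filter, mem_range] at hz
      refine ⟨z, ?_, rfl⟩
      rw [mem_filter, mem_range]
      exact ⟨(ESplit_lt_iff hkey hz.1 hy).1 hlt, by rw [hz.2, hb]⟩
    · rintro ⟨z, hz, rfl⟩
      rw [mem_filter, mem_range] at hz
      have hz' : z < 2 * a := lt_trans hz.1 hy
      refine ⟨⟨z, ?_, rfl⟩, hkey z y hz.1 hy⟩
      rw [mem_filter, mem_range]
      exact ⟨hz', by rw [hz.2, hb]⟩
  rw [h1, ESplit_card hkey]
  · rfl
  · intro z hz
    rw [mem_filter, mem_range] at hz
    exact lt_trans hz.1 hy

private theorem ESplit_rk_inj (h : ℕ → Bool) {y z : ℕ} (hyz : h y = h z)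
    (hr : rk h y = rk h z) : y = z := by
  have key : ∀ y z : ℕ, h y = h z → y < z → rk h y < rk h z := by
    intro y z hyz hlt
    apply card_lt_card
    rw [ssubset_iff_of_subset]
    · refine ⟨y, ?_, ?_⟩
      · rw [mem_filter, mem_range]
        exact ⟨hlt, hyz⟩
      · rw [mem_filter, mem_range]
        exact fun hh => lt_irrefl _ hh.1
    · intro w hw
      rw [mem_filter, mem_range] at hw ⊢
      exact ⟨lt_trans hw.1 hlt, by rw [hw.2, hyz]⟩
  rcases lt_trichotomy y z with h1 | h1 | h1
  · exact absurd hr (ne_of_lt (key y z hyz h1))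
  · exact h1
  · exact absurd hr (ne_of_gt (key z y hyz.symm h1))

private theorem ESplit_letter {n d : ℕ} {a : ℕ} {key : ℕ → Fin n}
    (hkey : ∀ y y', y < y' → y' < 2 * a → key y < key y') (h : ℕ → Bool) (b : Bool)
    (J : Finset (Fin n × Fin d)) (hJ : cols J = image key {y ∈ range (2 * a) | h y = b}) {y : ℕ}
    (hy : y < 2 * a) (hb : h y = b) (j : Fin d) :
    j ∈ letter J (rk h y) ↔ (key y, j) ∈ J := by
  unfold letter
  rw [mem_filter]
  constructor
  · rintro ⟨-, t, ht, hr, hj⟩
    have ht' := ht
    rw [hJ, mem_image] at ht'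
    obtain ⟨z, hz, rfl⟩ := ht'
    rw [mem_filter, mem_range] at hz
    rw [ESplit_rank hkey h b (cols J) hJ hz.1 hz.2] at hr
    have : z = y := ESplit_rk_inj h (by rw [hz.2, hb]) hr
    rw [← this]
    exact hj
  · intro hj
    refine ⟨mem_univ _, key y, mem_image.2 ⟨_, hj, rfl⟩, ?_, hj⟩
    exact ESplit_rank hkey h b (cols J) hJ hy hb

theorem split_word {n d : ℕ} (a : ℕ) (J₁ J₂ G G' : Finset (Fin n × Fin d)) (f : ℕ → Bool)
    (key : ℕ → Fin n) (hkey : ∀ y y', y < y' → y' < 2 * a → key y < key y')
    (h1 : cols J₁ = image key {y ∈ range (2 * a) | f y = true})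
    (h2 : cols J₂ = image key {y ∈ range (2 * a) | f y = false})
    (hf : #{y ∈ range (2 * a) | f y = true} = a)
    (hw : ∀ i < a, letter J₁ i = letter J₂ i)
    (hsh : ∀ g : ℕ → Bool, #{y ∈ range (2 * a) | g y = true} = a →
      ∀ w w' : ℕ → ℕ, (∀ i < a, w i < 2 ^ d + 1) → (∀ i < a, w' i < 2 ^ d + 1) →
        (∀ y < 2 * a, code (letter J₁ (rk f y)) =
          if g y = true then w (rk g y) else w' (rk g y)) →
        num (2 ^ d + 1) a w ≤ num (2 ^ d + 1) a (fun i => code (letter J₁ i)) →
        num (2 ^ d + 1) a w' ≤ num (2 ^ d + 1) a (fun i => code (letter J₁ i)) →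
        ∀ i < a, w i = code (letter J₁ i) ∧ w' i = code (letter J₁ i))
    (hG : G ∪ G' = J₁ ∪ J₂) (hGd : Disjoint G G') (htG : tau G ≤ tau J₁)
    (htG' : tau G' ≤ tau J₁) :
    #(cols G) = a ∧ #(cols G') = a ∧
      ∀ i < a, letter G i = letter J₁ i ∧ letter G' i = letter J₁ i := by
  classical
  -- the number of `false`
  have hf' : #{y ∈ range (2 * a) | f y = false} = a := by
    have h := card_filter_add_card_filter_not (s := range (2 * a)) (fun y => f y = true)
    rw [hf, card_range] at h
    have h3 : {y ∈ range (2 * a) | f y = false} = {y ∈ range (2 * a) | ¬ f y = true} := by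
      apply filter_congr
      intro y _
      simp
    rw [h3]
    omega
  have hc1 : #(cols J₁) = a := by
    rw [h1, ESplit_card hkey, hf]
    intro y hy
    rw [mem_filter, mem_range] at hy
    exact hy.1
  have hc2 : #(cols J₂) = a := by
    rw [h2, ESplit_card hkey, hf']
    intro y hy
    rw [mem_filter, mem_range] at hy
    exact hy.1
  have hC : cols J₁ ∪ cols J₂ = image key (range (2 * a)) := by
    rw [h1, h2, ← image_union]
    congr 1
    ext y
    simp only [mem_union, mem_filter]
    cases f y <;> simp
  have hCc : #(cols J₁ ∪ cols J₂) = 2 * a := by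
    rw [hC, ESplit_card hkey, card_range]
    intro y hy
    exact mem_range.1 hy
  have hCG : cols G ∪ cols G' = cols J₁ ∪ cols J₂ := by
    unfold cols
    rw [← image_union, ← image_union, hG]
  have hGle : #(cols G) ≤ a := by
    by_contra hcon
    have := tau_lt_of_cols J₁ G (by rw [hc1]; exact not_le.1 hcon)
    omega
  have hG'le : #(cols G') ≤ a := by
    by_contra hcon
    have := tau_lt_of_cols J₁ G' (by rw [hc1]; exact not_le.1 hcon)
    omega
  have hle : #(cols G ∪ cols G') ≤ #(cols G) + #(cols G') := card_union_le _ _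
  rw [hCG, hCc] at hle
  have hGc : #(cols G) = a := by omega
  have hG'c : #(cols G') = a := by omega
  have hdis : Disjoint (cols G) (cols G') := by
    rw [← card_union_eq_card_add_card, hCG, hCc, hGc, hG'c]
    omega
  set g : ℕ → Bool := fun y => decide (key y ∈ cols G) with hg
  have hgt : ∀ y, g y = true ↔ key y ∈ cols G := fun y => by
    rw [hg]
    simp
  have hgf : ∀ y, y < 2 * a → (g y = false ↔ key y ∈ cols G') := by
    intro y hy
    have hmem : key y ∈ cols G ∪ cols G' := by
      rw [hCG, hC]
      exact mem_image_of_mem _ (mem_range.2 hy)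
    rw [mem_union] at hmem
    constructor
    · intro h
      rcases hmem with h3 | h3
      · rw [← hgt, h] at h3
        exact absurd h3 (by simp)
      · exact h3
    · intro h
      by_contra hcon
      have h3 : g y = true := by
        cases hgy : g y
        · exact absurd hgy hcon
        · rfl
      exact disjoint_left.1 hdis ((hgt y).1 h3) h
  have hcG : cols G = image key {y ∈ range (2 * a) | g y = true} := by
    ext u
    rw [mem_image]
    constructor
    · intro hu
      have hmem : u ∈ cols G ∪ cols G' := mem_union_left _ hu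
      rw [hCG, hC, mem_image] at hmem
      obtain ⟨y, hy, rfl⟩ := hmem
      exact ⟨y, mem_filter.2 ⟨hy, (hgt y).2 hu⟩, rfl⟩
    · rintro ⟨y, hy, rfl⟩
      rw [mem_filter] at hy
      exact (hgt y).1 hy.2
  have hcG' : cols G' = image key {y ∈ range (2 * a) | g y = false} := by
    ext u
    rw [mem_image]
    constructor
    · intro hu
      have hmem : u ∈ cols G ∪ cols G' := mem_union_right _ hu
      rw [hCG, hC, mem_image] at hmem
      obtain ⟨y, hy, rfl⟩ := hmem
      exact ⟨y, mem_filter.2 ⟨hy, (hgf y (mem_range.1 hy)).2 hu⟩, rfl⟩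
    · rintro ⟨y, hy, rfl⟩
      rw [mem_filter, mem_range] at hy
      exact (hgf y hy.1).1 hy.2
  have hga : #{y ∈ range (2 * a) | g y = true} = a := by
    have h3 : #(cols G) = #{y ∈ range (2 * a) | g y = true} := by
      rw [hcG]
      apply ESplit_card hkey
      intro y hy
      rw [mem_filter, mem_range] at hy
      exact hy.1
    rw [← h3, hGc]
  have hrk : ∀ y < 2 * a, rk f y < a := by
    intro y hy
    have h3 := rk_lt f (2 * a) y hy
    cases hfy : f y
    · rw [hfy, hf'] at h3
      exact h3
    · rw [hfy, hf] at h3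
      exact h3
  -- membership in a column
  have hmemJ : ∀ y < 2 * a, ∀ j, (j ∈ letter J₁ (rk f y) ↔ (key y, j) ∈ J₁ ∪ J₂) := by
    intro y hy j
    rw [mem_union]
    cases hfy : f y
    · rw [hw _ (hrk y hy), ESplit_letter hkey f false J₂ h2 hy hfy]
      constructor
      · exact Or.inr
      · rintro (h3 | h3)
        · exfalso
          have h4 : key y ∈ cols J₁ := mem_image.2 ⟨_, h3, rfl⟩
          rw [h1, mem_image] at h4
          obtain ⟨z, hz, hzy⟩ := h4
          rw [mem_filter, mem_range] at hz
          have h5 := ESplit_inj hkey hz.1 hy hzy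
          rw [h5, hfy] at hz
          exact absurd hz.2 (by simp)
        · exact h3
    · rw [ESplit_letter hkey f true J₁ h1 hy hfy]
      constructor
      · exact Or.inl
      · rintro (h3 | h3)
        · exact h3
        · exfalso
          have h4 : key y ∈ cols J₂ := mem_image.2 ⟨_, h3, rfl⟩
          rw [h2, mem_image] at h4
          obtain ⟨z, hz, hzy⟩ := h4
          rw [mem_filter, mem_range] at hz
          have h5 := ESplit_inj hkey hz.1 hy hzy
          rw [h5, hfy] at hz
          exact absurd hz.2 (by simp)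
  have hlet : ∀ y < 2 * a, letter J₁ (rk f y) =
      if g y = true then letter G (rk g y) else letter G' (rk g y) := by
    intro y hy
    ext j
    rw [hmemJ y hy, ← hG, mem_union]
    cases hgy : g y
    · simp only [Bool.false_eq_true, if_false]
      rw [ESplit_letter hkey g false G' hcG' hy hgy]
      constructor
      · rintro (h3 | h3)
        · exfalso
          have h4 : key y ∈ cols G := mem_image.2 ⟨_, h3, rfl⟩
          rw [← hgt, hgy] at h4
          exact absurd h4 (by simp)
        · exact h3
      · exact Or.inr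
    · simp only [if_true]
      rw [ESplit_letter hkey g true G hcG hy hgy]
      constructor
      · rintro (h3 | h3)
        · exact h3
        · exfalso
          have h4 : key y ∈ cols G' := mem_image.2 ⟨_, h3, rfl⟩
          rw [← hgf y hy, hgy] at h4
          exact absurd h4 (by simp)
      · exact Or.inl
  have hfin := hsh g hga (fun i => code (letter G i)) (fun i => code (letter G' i))
    (fun i _ => code_lt _) (fun i _ => code_lt _) (by
      intro y hy
      rw [hlet y hy]
      split_ifs <;> rfl) (by
      have h3 := htG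
      unfold tau at h3
      rw [hGc, hc1] at h3
      exact h3) (by
      have h3 := htG'
      unfold tau at h3
      rw [hG'c, hc1] at h3
      exact h3)
  exact ⟨hGc, hG'c, fun i hi => ⟨code_inj (hfin i hi).1, code_inj (hfin i hi).2⟩⟩

end Pool.Agent.DCA
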