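import Pool.Agent.Lib.DCA.ENum

/-!
# Types of blocks

`cols_image`: `cols (J.image (Prod.map e id)) = (cols J).image e`.
`letter_image`: the letter at the column `e t` has the same rank, as `e` is strictly monotone
(`#{u ∈ (cols J).image e | u < e t} = #{u ∈ cols J | u < t}`), and `(e t, j)` is in the image iff
`(t, j) ∈ J` (`e` injective).
`tau_image`: from both.
-/

set_option autoImplicit false

open Finset

namespace Pool.Agent.DCA

theorem cols_image {k n d : ℕ} (J : Finset (Fin k × Fin d)) (e : Fin k → Fin n) :
    cols (J.image (Prod.map e id)) = (cols J).image e := by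
  unfold cols
  rw [Finset.image_image, Finset.image_image]
  rfl

theorem letter_image {k n d : ℕ} (J : Finset (Fin k × Fin d)) (e : Fin k → Fin n)
    (he : StrictMono e) (i : ℕ) : letter (J.image (Prod.map e id)) i = letter J i := by
  have hrank : ∀ t : Fin k, #{u ∈ (cols J).image e | u < e t} = #{u ∈ cols J | u < t} := by
    intro t
    rw [Finset.filter_image, Finset.card_image_of_injective _ he.injective]
    congr 1
    ext u
    simp only [Finset.mem_filter, he.lt_iff_lt]
  have hmem : ∀ (t : Fin k) (j : Fin d), (e t, j) ∈ J.image (Prod.map e id) ↔ (t, j) ∈ J := by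
    intro t j
    rw [Finset.mem_image]
    constructor
    · rintro ⟨⟨t', j'⟩, h, h'⟩
      rw [Prod.map_apply, Prod.mk.injEq] at h'
      obtain ⟨h1, h2⟩ := h'
      have h3 := he.injective h1
      subst h3
      have h4 : j' = j := h2
      subst h4
      exact h
    · intro h
      exact ⟨(t, j), h, rfl⟩
  unfold letter
  rw [cols_image]
  ext j
  simp only [Finset.mem_filter, Finset.mem_univ, true_and]
  constructor
  · rintro ⟨t, ht, hr, hj⟩
    obtain ⟨t', ht', rfl⟩ := Finset.mem_image.mp ht
    exact ⟨t', ht', by rw [← hrank t']; exact hr, (hmem t' j).mp hj⟩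
  · rintro ⟨t, ht, hr, hj⟩
    exact ⟨e t, Finset.mem_image_of_mem e ht, by rw [hrank t]; exact hr, (hmem t j).mpr hj⟩

theorem tau_image {k n d : ℕ} (J : Finset (Fin k × Fin d)) (e : Fin k → Fin n)
    (he : StrictMono e) : tau (J.image (Prod.map e id)) = tau J := by
  unfold tau
  rw [cols_image, Finset.card_image_of_injective _ he.injective]
  congr 1
  funext i
  rw [letter_image J e he i]

end Pool.Agent.DCA
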