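import Pool.Agent.Lib.DCA.EMax
import Pool.Agent.Lib.DCA.EHomog
import Pool.Agent.Lib.DCA.EInter
import Pool.Agent.Lib.DCA.ESplit
import Pool.Agent.Lib.DCA.EType

/-!
# The endgame theorem

PROOF. `M = (2 ^ d + 1) ^ d`, `r = 2 ^ (M + 1)`, `h = 2 * r * (2 * d + 1)`, `N` from `homog p d r h`. Let `P` be a play,
`n ≥ N`, `H` the homogeneous set, `eH : Fin h → Fin n` its increasing enumeration. Take `j, S, J` of
`max_level`, `k = 2 ^ j ≤ r / 2`, `x` reachable in `S` and `s ∈ S` with `J = β (x s)`, `a = #(cols J) ≤ d` (`#J = d`).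
`J ⊆ S ×ˢ univ` (`play_sub`), so `J = W.image (Prod.map e id)`, `e : Fin k → Fin n` the enumeration of `S`,
`W : Finset (Fin k × Fin d)`. `cols_image`, `letter_image`, `tau_image`. Let `ι` be the enumeration of `cols W`
(as naturals, `ι r = 0` for `r ≥ a`), `f` from `shuffle a (2 ^ d + 1) (fun i => code (letter W i))`, `A, B` from `interleave k a ι f`.
`e₁ i = eH (A i)`, `e₂ i = eH (B i)` (indices `< 2k(2a+1) ≤ h`), `J₁ = W.image (Prod.map e₁ id)`, `J₂` in the same way with `e₂`,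
`S₁ = univ.image e₁`, `S₂ = univ.image e₂`: disjoint, `#(S₁ ∪ S₂) = 2k = 2 ^ (j+1)`. By `homog`: `Pres P S₁ J₁`,
`Pres P S₂ J₂`; by `reach_join` there is one tuple `x` reachable in `S₁ ∪ S₂` with `β (x s₁) = J₁`, `β (x s₂) = J₂`,
`s₁ ≠ s₂`.
For every `(a', b') ∈ E (x s₁) (x s₂)` the new tuple `y` is reachable in `S₁ ∪ S₂`, so `tau (β a') ≤ tau J = tau J₁`,
`tau (β b') ≤ tau J₁` (`max_level`). By `play_move` and `split_word` (`key y = eH (A (ι (rk f y)))` if `f y = true`, else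
`eH (B (ι (rk f y)))`; `cols J₁ = (cols W).image e₁`, the ranks `rk f y` of the `true` positions are `0, …, a-1`:
`exists_rk`, `rk_lt`) the blocks `β a'`, `β b'` have `a` columns and the letters of `J₁`. By `same_word` and the
second part of `homog` (with `k = a ≤ r`; all columns are in `S₁ ∪ S₂ ⊆ H` by `play_sub`): `μ a' = μ b' = μ (x s₁) =: c ≠ 0`.
So `0 = ∑ μ a' μ b' = #E * c ^ 2`, so `p ∣ #E`; but `1 ≤ #E` (`P.self`) and `#E ≤ centralBinom d < p` as
`(a', b') ↦ β a'` is injective on `E (x s₁) (x s₂)` (`P.det`; `β b'` is the complement of `β a'` in `J₁ ∪ J₂`) with values in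
`powersetCard d (J₁ ∪ J₂)`, `#(J₁ ∪ J₂) = 2 d`.
-/

set_option autoImplicit false

open Finset

namespace Pool.Agent.DCA

private theorem EEnd_count {p n d : ℕ} (P : Play p n d) (x : Fin n → ℕ)
    (hx : Reach P.E univ P.x₀ x) (s t : Fin n) (hst : s ≠ t) :
    #(P.E (x s) (x t)) ≤ Nat.centralBinom d := by
  have hy : ∀ ab ∈ P.E (x s) (x t), ∃ y, Reach P.E univ P.x₀ y ∧ y s = ab.1 ∧ y t = ab.2 := by
    intro ab hab
    refine ⟨Function.update (Function.update x s ab.1) t ab.2, Relation.ReflTransGen.tail hx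
      ⟨s, mem_univ s, t, mem_univ t, hst, ab.1, ab.2, hab, rfl⟩, ?_, ?_⟩
    · rw [Function.update_of_ne hst, Function.update_self]
    · rw [Function.update_self]
  have hcard : #(P.β (x s) ∪ P.β (x t)) = 2 * d := by
    rw [card_union_of_disjoint (P.disj x hx s t hst), P.card x hx s, P.card x hx t]
    ring
  calc #(P.E (x s) (x t)) ≤ #(powersetCard d (P.β (x s) ∪ P.β (x t))) := by
        refine card_le_card_of_injOn (fun ab => P.β ab.1) ?_ ?_
        · intro ab hab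
          obtain ⟨h1, h2, h3, h4⟩ := play_move P x hx s t hst ab.1 ab.2 hab
          refine mem_coe.2 (mem_powersetCard.2 ⟨?_, h3⟩)
          rw [← h1]
          exact subset_union_left
        · intro ab hab ab' hab' he
          have he' : P.β ab.1 = P.β ab'.1 := he
          obtain ⟨y, hyr, hy1, hy2⟩ := hy ab hab
          obtain ⟨y', hyr', hy1', hy2'⟩ := hy ab' hab'
          obtain ⟨h1, h2, -, -⟩ := play_move P x hx s t hst ab.1 ab.2 hab
          obtain ⟨h1', h2', -, -⟩ := play_move P x hx s t hst ab'.1 ab'.2 hab'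
          have u1 : P.β ab.2 = (P.β (x s) ∪ P.β (x t)) \ P.β ab.1 := by
            rw [← h1, union_sdiff_cancel_left h2]
          have u2 : P.β ab'.2 = (P.β (x s) ∪ P.β (x t)) \ P.β ab'.1 := by
            rw [← h1', union_sdiff_cancel_left h2']
          have e2 : P.β ab.2 = P.β ab'.2 := by rw [u1, u2, he']
          refine Prod.ext ?_ ?_
          · rw [← hy1, ← hy1']
            exact P.det y y' hyr hyr' s s (by rw [hy1, hy1', he'])
          · rw [← hy2, ← hy2']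
            exact P.det y y' hyr hyr' t t (by rw [hy2, hy2', e2])
    _ = Nat.centralBinom d := by
        rw [card_powersetCard, hcard, Nat.centralBinom_eq_two_mul_choose]

private theorem EEnd_pull {n k d : ℕ} (S : Finset (Fin n)) (hk : #S = k)
    (J : Finset (Fin n × Fin d)) (hJ : J ⊆ S ×ˢ univ) :
    ∃ (e : Fin k → Fin n) (W : Finset (Fin k × Fin d)), StrictMono e ∧ univ.image e = S ∧
      J = W.image (Prod.map e id) := by
  classical
  have himg : univ.image (S.orderEmbOfFin hk) = S := by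
    ext u
    rw [mem_image]
    constructor
    · rintro ⟨i, -, rfl⟩
      exact orderEmbOfFin_mem _ _ _
    · intro hu
      have h2 : u ∈ Set.range (S.orderEmbOfFin hk) := by
        rw [range_orderEmbOfFin]
        exact hu
      obtain ⟨i, hi⟩ := h2
      exact ⟨i, mem_univ _, hi⟩
  refine ⟨S.orderEmbOfFin hk, univ.filter fun w => (S.orderEmbOfFin hk w.1, w.2) ∈ J,
    (S.orderEmbOfFin hk).strictMono, himg, ?_⟩
  ext ⟨t, j⟩
  rw [mem_image]
  constructor
  · intro h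
    have ht := (mem_product.1 (hJ h)).1
    rw [← himg, mem_image] at ht
    obtain ⟨i, -, rfl⟩ := ht
    exact ⟨(i, j), mem_filter.2 ⟨mem_univ _, h⟩, rfl⟩
  · rintro ⟨⟨i, j'⟩, hw, he⟩
    rw [mem_filter] at hw
    rw [← he]
    exact hw.2

private theorem EEnd_enum {k a : ℕ} (U : Finset (Fin k)) (hU : #U = a) :
    ∃ ι : ℕ → ℕ, (∀ r < a, ι r < k) ∧ (∀ r r', r < r' → r' < a → ι r < ι r') ∧
      (∀ t ∈ U, ∃ r < a, ι r = t) ∧ ∀ r < a, ∃ t ∈ U, ι r = t := by
  refine ⟨fun r => if h : r < a then (U.orderEmbOfFin hU ⟨r, h⟩ : ℕ) else 0, ?_, ?_, ?_, ?_⟩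
  · intro r hr
    simp only [dif_pos hr]
    exact (U.orderEmbOfFin hU ⟨r, hr⟩).isLt
  · intro r r' hrr hr'
    simp only [dif_pos hr', dif_pos (hrr.trans hr')]
    exact Fin.lt_def.1 ((U.orderEmbOfFin hU).strictMono (Fin.mk_lt_mk.2 hrr))
  · intro t ht
    have h2 : t ∈ Set.range (U.orderEmbOfFin hU) := by
      rw [range_orderEmbOfFin]
      exact ht
    obtain ⟨i, hi⟩ := h2
    refine ⟨i, i.isLt, ?_⟩
    simp only [dif_pos i.isLt]
    rw [← hi]
  · intro r hr
    refine ⟨U.orderEmbOfFin hU ⟨r, hr⟩, orderEmbOfFin_mem _ _ _, ?_⟩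
    simp only [dif_pos hr]

private theorem EEnd_phi {n h : ℕ} (H : Finset (Fin n)) (hH : #H = h) (s : Fin n) :
    ∃ φ : ℕ → Fin n, (∀ i j, i < j → j < h → φ i < φ j) ∧ ∀ i < h, φ i ∈ H := by
  refine ⟨fun i => if hi : i < h then H.orderEmbOfFin hH ⟨i, hi⟩ else s, ?_, ?_⟩
  · intro i j hij hj
    simp only [dif_pos hj, dif_pos (hij.trans hj)]
    exact (H.orderEmbOfFin hH).strictMono (Fin.mk_lt_mk.2 hij)
  · intro i hi
    simp only [dif_pos hi]
    exact orderEmbOfFin_mem _ _ _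

/-- the situation after a move: same values of `μ` -/
private theorem EEnd_same {p n d r a : ℕ} (P : Play p n d) (H : Finset (Fin n)) (har : a ≤ r)
    (hom : ∀ k ≤ r, ∀ e e' : Fin k → Fin n, StrictMono e → StrictMono e' → (∀ i, e i ∈ H) →
        (∀ i, e' i ∈ H) → ∀ J : Finset (Fin k × Fin d),
          (Pres P (univ.image e) (J.image (Prod.map e id)) →
            Pres P (univ.image e') (J.image (Prod.map e' id))) ∧
          ∀ x x' : Fin n → ℕ, Reach P.E univ P.x₀ x → Reach P.E univ P.x₀ x' → ∀ s s' : Fin n,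
            P.β (x s) = J.image (Prod.map e id) → P.β (x' s') = J.image (Prod.map e' id) →
            P.μ (x s) = P.μ (x' s'))
    (y z : Fin n → ℕ) (hy : Reach P.E univ P.x₀ y) (hz : Reach P.E univ P.x₀ z) (s t : Fin n)
    (h1 : #(cols (P.β (y s))) = a) (h2 : #(cols (P.β (z t))) = a)
    (hl : ∀ i < a, letter (P.β (y s)) i = letter (P.β (z t)) i)
    (hs : cols (P.β (y s)) ⊆ H) (ht : cols (P.β (z t)) ⊆ H) : P.μ (y s) = P.μ (z t) := by
  obtain ⟨W, e, e', he, he', hm, hm', hW, hW'⟩ := same_word a _ _ h1 h2 hl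
  exact (hom a har e e' he he' (fun i => hs (hm i)) (fun i => ht (hm' i)) W).2 y z hy hz s t hW hW'

theorem endgame_d (p d : ℕ) [Fact p.Prime] (hd : 1 ≤ d) (hp : Nat.centralBinom d < p) :
    ∃ N : ℕ, ∀ n : ℕ, N ≤ n → IsEmpty (Play p n d) := by
  classical
  obtain ⟨N, hN⟩ := homog p d (2 ^ ((2 ^ d + 1) ^ d + 1))
    (2 * 2 ^ ((2 ^ d + 1) ^ d + 1) * (2 * d + 1))
  refine ⟨N, fun n hn => ⟨fun P => ?_⟩⟩
  obtain ⟨H, hHc, hom⟩ := hN n hn P
  obtain ⟨j, hj, S, hSH, hSc, J, ⟨x, hx, s, hs, hsJ⟩, hmax⟩ := max_level P H (by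
    rw [hHc]
    have h0 : 1 * 2 ^ ((2 ^ d + 1) ^ d + 1) * 1 ≤
        2 * 2 ^ ((2 ^ d + 1) ^ d + 1) * (2 * d + 1) :=
      Nat.mul_le_mul (Nat.mul_le_mul_right _ (by omega)) (by omega)
    rw [one_mul, mul_one] at h0
    exact h0)
  have hkR : 2 * 2 ^ j ≤ 2 ^ ((2 ^ d + 1) ^ d + 1) := by
    rw [← pow_succ']
    exact Nat.pow_le_pow_right two_pos (by omega)
  have hmax' : ∀ S' : Finset (Fin n), S' ⊆ H → #S' = 2 * 2 ^ j →
      ∀ J', Pres P S' J' → tau J' ≤ tau J := by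
    intro S' h1 h2
    exact hmax S' h1 (by rw [h2, pow_succ'])
  clear hmax
  generalize 2 ^ ((2 ^ d + 1) ^ d + 1) = R at hHc hom hkR
  generalize 2 ^ j = k at hSc hkR hmax'
  have hxu := reach_mono (subset_univ S) hx
  have hJc : #J = d := by rw [← hsJ]; exact P.card x hxu s
  have hJS : J ⊆ S ×ˢ univ := by rw [← hsJ]; exact play_sub P S x hx s hs
  obtain ⟨e, W, he, heS, hJW⟩ := EEnd_pull S hSc J hJS
  obtain ⟨a, ha⟩ : ∃ a, a = #(cols W) := ⟨_, rfl⟩
  have hWJ : #W = d := by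
    have h1 : #(W.image (Prod.map e id)) = #W :=
      card_image_of_injective _ (he.injective.prodMap Function.injective_id)
    rw [← h1, ← hJW]
    exact hJc
  have had : a ≤ d := by
    rw [ha]
    exact card_image_le.trans hWJ.le
  have hak : a ≤ k := by
    rw [ha]
    exact (card_le_univ _).trans (by rw [Fintype.card_fin])
  obtain ⟨ι, hι, hιm, hι1, hι2⟩ := EEnd_enum (cols W) ha.symm
  obtain ⟨f, hf, hsh⟩ := shuffle a (2 ^ d + 1) (fun i => code (letter W i))
    (fun i _ => code_lt _)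
  obtain ⟨A, B, hA, hB, hAl, hBl, hAB, hkeys⟩ := interleave k a ι hι hιm f hf
  have hbd : 2 * k * (2 * a + 1) ≤ 2 * R * (2 * d + 1) :=
    Nat.mul_le_mul (Nat.mul_le_mul_left _ (by omega)) (by omega)
  obtain ⟨φ, hφ, hφH⟩ := EEnd_phi H hHc s
  generalize 2 * R * (2 * d + 1) = h at hHc hbd hφ hφH
  have hAh : ∀ i < k, A i < h := fun i hi => (hAl i hi).trans_le hbd
  have hBh : ∀ i < k, B i < h := fun i hi => (hBl i hi).trans_le hbd
  have hφi : ∀ i j, i < h → j < h → φ i = φ j → i = j := by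
    intro i j hi hj hij
    rcases lt_trichotomy i j with h1 | h1 | h1
    · exact absurd hij (ne_of_lt (hφ i j h1 hj))
    · exact h1
    · exact absurd hij (ne_of_gt (hφ j i h1 hi))
  -- the two copies
  obtain ⟨e₁, he₁d⟩ : ∃ e₁ : Fin k → Fin n, ∀ i, e₁ i = φ (A i) := ⟨fun i => φ (A i), fun _ => rfl⟩
  obtain ⟨e₂, he₂d⟩ : ∃ e₂ : Fin k → Fin n, ∀ i, e₂ i = φ (B i) := ⟨fun i => φ (B i), fun _ => rfl⟩
  have he₁ : StrictMono e₁ := by
    intro i i' hii
    rw [he₁d, he₁d]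
    exact hφ _ _ (hA _ _ hii i'.isLt) (hAh _ i'.isLt)
  have he₂ : StrictMono e₂ := by
    intro i i' hii
    rw [he₂d, he₂d]
    exact hφ _ _ (hB _ _ hii i'.isLt) (hBh _ i'.isLt)
  have he₁H : ∀ i, e₁ i ∈ H := fun i => by
    rw [he₁d]
    exact hφH _ (hAh _ i.isLt)
  have he₂H : ∀ i, e₂ i ∈ H := fun i => by
    rw [he₂d]
    exact hφH _ (hBh _ i.isLt)
  have heH : ∀ i, e i ∈ H := fun i => by
    apply hSH
    rw [← heS]
    exact mem_image_of_mem _ (mem_univ _)
  have hS₁c : #(univ.image e₁) = k := by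
    rw [card_image_of_injective _ he₁.injective, card_univ, Fintype.card_fin]
  have hS₂c : #(univ.image e₂) = k := by
    rw [card_image_of_injective _ he₂.injective, card_univ, Fintype.card_fin]
  have hSd : Disjoint (univ.image e₁) (univ.image e₂) := by
    rw [disjoint_left]
    intro u hu hu'
    obtain ⟨i, -, rfl⟩ := mem_image.1 hu
    obtain ⟨i', -, hi'⟩ := mem_image.1 hu'
    rw [he₁d, he₂d] at hi'
    exact hAB i i.isLt i' i'.isLt (hφi _ _ (hAh _ i.isLt) (hBh _ i'.isLt) hi'.symm)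
  have hS₁H : univ.image e₁ ⊆ H := by
    intro u hu
    obtain ⟨i, -, rfl⟩ := mem_image.1 hu
    exact he₁H i
  have hS₂H : univ.image e₂ ⊆ H := by
    intro u hu
    obtain ⟨i, -, rfl⟩ := mem_image.1 hu
    exact he₂H i
  have hSuH : univ.image e₁ ∪ univ.image e₂ ⊆ H := union_subset hS₁H hS₂H
  have hSuc : #(univ.image e₁ ∪ univ.image e₂) = 2 * k := by
    rw [card_union_of_disjoint hSd, hS₁c, hS₂c]
    ring
  have hPJ : Pres P (univ.image e) (W.image (Prod.map e id)) := by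
    rw [heS, ← hJW]
    exact ⟨x, hx, s, hs, hsJ⟩
  obtain ⟨x₁, hx₁, s₁, hs₁, hJ₁⟩ := (hom k (by omega) e e₁ he he₁ heH he₁H W).1 hPJ
  obtain ⟨x₂, hx₂, s₂, hs₂, hJ₂⟩ := (hom k (by omega) e e₂ he he₂ heH he₂H W).1 hPJ
  obtain ⟨z, hzd⟩ : ∃ z : Fin n → ℕ, z = fun t => if t ∈ univ.image e₁ then x₁ t else x₂ t :=
    ⟨_, rfl⟩
  have hz : Reach P.E (univ.image e₁ ∪ univ.image e₂) P.x₀ z := by
    rw [hzd]
    exact reach_join hSd hx₁ hx₂
  have hzu := reach_mono (subset_univ _) hz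
  have hs₂' : s₂ ∉ univ.image e₁ := fun hc => disjoint_left.1 hSd hc hs₂
  have hz₁ : P.β (z s₁) = W.image (Prod.map e₁ id) := by
    rw [hzd, ← hJ₁]
    simp only [if_pos hs₁]
  have hz₂ : P.β (z s₂) = W.image (Prod.map e₂ id) := by
    rw [hzd, ← hJ₂]
    simp only [if_neg hs₂']
  have hne : s₁ ≠ s₂ := by
    rintro rfl
    exact hs₂' hs₁
  -- the columns of the copies
  have hcols₁ : cols (W.image (Prod.map e₁ id)) ⊆ H := by
    rw [cols_image]
    intro u hu
    obtain ⟨i, -, rfl⟩ := mem_image.1 hu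
    exact he₁H i
  have hc₁ : #(cols (W.image (Prod.map e₁ id))) = a := by
    rw [cols_image, card_image_of_injective _ he₁.injective, ha]
  have hfalse : #{y ∈ range (2 * a) | f y = false} = a := by
    have h1 := card_filter_add_card_filter_not (s := range (2 * a)) (fun y => f y = true)
    rw [card_range, hf] at h1
    have h2 : #{y ∈ range (2 * a) | ¬ (f y = true)} = #{y ∈ range (2 * a) | f y = false} := by
      congr 1
      ext y
      simp
    omega
  have hrk : ∀ y < 2 * a, rk f y < a := by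
    intro y hy
    have h1 := rk_lt f (2 * a) y hy
    cases hb : f y with
    | false => rw [hb, hfalse] at h1; exact h1
    | true => rw [hb, hf] at h1; exact h1
  obtain ⟨key, hkeyd⟩ : ∃ key : ℕ → Fin n, ∀ y, key y =
      φ (if f y = true then A (ι (rk f y)) else B (ι (rk f y))) := ⟨_, fun _ => rfl⟩
  have hkey : ∀ y y', y < y' → y' < 2 * a → key y < key y' := by
    intro y y' hyy hy'
    rw [hkeyd, hkeyd]
    refine hφ _ _ (hkeys y y' hyy hy') ?_
    split_ifs
    · exact hAh _ (hι _ (hrk _ hy'))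
    · exact hBh _ (hι _ (hrk _ hy'))
  have hC₁ : cols (W.image (Prod.map e₁ id)) = image key {y ∈ range (2 * a) | f y = true} := by
    rw [cols_image]
    ext u
    rw [mem_image, mem_image]
    constructor
    · rintro ⟨t, ht, rfl⟩
      obtain ⟨r, hr, hrt⟩ := hι1 t ht
      obtain ⟨y, hy, hfy, hry⟩ := exists_rk f true (2 * a) r (by rw [hf]; exact hr)
      refine ⟨y, mem_filter.2 ⟨mem_range.2 hy, hfy⟩, ?_⟩
      rw [hkeyd, if_pos hfy, hry, hrt, he₁d]
    · rintro ⟨y, hy, rfl⟩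
      rw [mem_filter, mem_range] at hy
      obtain ⟨t, ht, hrt⟩ := hι2 _ (hrk y hy.1)
      refine ⟨t, ht, ?_⟩
      rw [hkeyd, if_pos hy.2, hrt, he₁d]
  have hC₂ : cols (W.image (Prod.map e₂ id)) = image key {y ∈ range (2 * a) | f y = false} := by
    rw [cols_image]
    ext u
    rw [mem_image, mem_image]
    constructor
    · rintro ⟨t, ht, rfl⟩
      obtain ⟨r, hr, hrt⟩ := hι1 t ht
      obtain ⟨y, hy, hfy, hry⟩ := exists_rk f false (2 * a) r (by rw [hfalse]; exact hr)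
      refine ⟨y, mem_filter.2 ⟨mem_range.2 hy, hfy⟩, ?_⟩
      rw [hkeyd, if_neg (by rw [hfy]; simp), hry, hrt, he₂d]
    · rintro ⟨y, hy, rfl⟩
      rw [mem_filter, mem_range] at hy
      obtain ⟨t, ht, hrt⟩ := hι2 _ (hrk y hy.1)
      refine ⟨t, ht, ?_⟩
      rw [hkeyd, if_neg (by rw [hy.2]; simp), hrt, he₂d]
  have hτ : tau (W.image (Prod.map e₁ id)) = tau J := by
    rw [hJW, tau_image W e he, tau_image W e₁ he₁]
  have har : a ≤ R := by omega
  have hmu : ∀ ab ∈ P.E (z s₁) (z s₂), P.μ ab.1 = P.μ (z s₁) ∧ P.μ ab.2 = P.μ (z s₁) := by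
    rintro ⟨a', b'⟩ hab
    obtain ⟨y, hyd⟩ : ∃ y, y = Function.update (Function.update z s₁ a') s₂ b' := ⟨_, rfl⟩
    have hy : Reach P.E (univ.image e₁ ∪ univ.image e₂) P.x₀ y :=
      Relation.ReflTransGen.tail hz ⟨s₁, mem_union_left _ hs₁, s₂, mem_union_right _ hs₂, hne,
        a', b', hab, hyd⟩
    have hyu := reach_mono (subset_univ _) hy
    have hy₁ : y s₁ = a' := by rw [hyd, Function.update_of_ne hne, Function.update_self]
    have hy₂ : y s₂ = b' := by rw [hyd, Function.update_self]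
    have ht₁ := hmax' _ hSuH hSuc (P.β a') ⟨y, hy, s₁, mem_union_left _ hs₁, by rw [hy₁]⟩
    have ht₂ := hmax' _ hSuH hSuc (P.β b') ⟨y, hy, s₂, mem_union_right _ hs₂, by rw [hy₂]⟩
    rw [← hτ] at ht₁ ht₂
    obtain ⟨hG, hGd, -, -⟩ := play_move P z hzu s₁ s₂ hne a' b' hab
    rw [hz₁, hz₂] at hG
    obtain ⟨hn₁, hn₂, hlet⟩ := split_word a (W.image (Prod.map e₁ id)) (W.image (Prod.map e₂ id))
      (P.β a') (P.β b') f key hkey hC₁ hC₂ hf
      (fun i _ => by rw [letter_image W e₁ he₁, letter_image W e₂ he₂])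
      (by simpa only [letter_image W e₁ he₁] using hsh) hG hGd ht₁ ht₂
    have hsub : ∀ t ∈ univ.image e₁ ∪ univ.image e₂, cols (P.β (y t)) ⊆ H := by
      intro t ht u hu
      obtain ⟨w, hw, rfl⟩ := mem_image.1 hu
      exact hSuH (mem_product.1 (play_sub P _ y hy t ht hw)).1
    constructor
    · change P.μ a' = _
      rw [← hy₁]
      refine EEnd_same P H har hom y z hyu hzu s₁ s₁ (by rw [hy₁]; exact hn₁)
        (by rw [hz₁]; exact hc₁) (fun i hi => ?_) (hsub _ (mem_union_left _ hs₁))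
        (by rw [hz₁]; exact hcols₁)
      rw [hy₁, hz₁]
      exact (hlet i hi).1
    · change P.μ b' = _
      rw [← hy₂]
      refine EEnd_same P H har hom y z hyu hzu s₂ s₁ (by rw [hy₂]; exact hn₂)
        (by rw [hz₁]; exact hc₁) (fun i hi => ?_) (hsub _ (mem_union_right _ hs₂))
        (by rw [hz₁]; exact hcols₁)
      rw [hy₂, hz₁]
      exact (hlet i hi).2
  have hzero := P.zero z hzu s₁ s₂ hne
  rw [sum_congr rfl (fun ab hab => by rw [(hmu ab hab).1, (hmu ab hab).2]), sum_const,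
    nsmul_eq_mul] at hzero
  have hnz := P.nz z hzu s₁
  have hcast : ((#(P.E (z s₁) (z s₂)) : ℕ) : ZMod p) = 0 := by
    rcases mul_eq_zero.1 hzero with h1 | h1
    · exact h1
    · exact absurd h1 (mul_ne_zero hnz hnz)
  rw [ZMod.natCast_eq_zero_iff] at hcast
  have hpos : 0 < #(P.E (z s₁) (z s₂)) := card_pos.2 ⟨_, P.self z hzu s₁ s₂ hne⟩
  have h1 := Nat.le_of_dvd hpos hcast
  have h2 := EEnd_count P z hzu s₁ s₂ hne
  omega

theorem endgame (p d₀ : ℕ) [Fact p.Prime] (hp : Nat.centralBinom d₀ < p) :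
    ∃ n : ℕ, 1 ≤ n ∧ ∀ d : ℕ, 1 ≤ d → d ≤ d₀ → IsEmpty (Play p (n + 1) d) := by
  have h : ∀ d : ℕ, ∃ N : ℕ, 1 ≤ d → d ≤ d₀ → ∀ n : ℕ, N ≤ n → IsEmpty (Play p n d) := by
    intro d
    by_cases hd : 1 ≤ d ∧ d ≤ d₀
    · obtain ⟨N, hN⟩ := endgame_d p d hd.1
        (lt_of_le_of_lt (Nat.centralBinom_strictMono.monotone hd.2) hp)
      exact ⟨N, fun _ _ => hN⟩
    · exact ⟨0, fun h1 h2 => absurd ⟨h1, h2⟩ hd⟩
  choose N hN using h
  refine ⟨(range (d₀ + 1)).sup N + 1, by omega, fun d h1 h2 => hN d h1 h2 _ ?_⟩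
  have h3 := Finset.le_sup (f := N) (mem_range.2 (by omega : d < d₀ + 1))
  omega

end Pool.Agent.DCA
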