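import Pool.Agent.Lib.DCA.EPart
import Pool.Agent.Lib.DCA.EWord

/-!
# A level at which the maximal type does not grow

PROOF. Put `M = (2 ^ d + 1) ^ d`. For `j ≤ M + 1` let `m j` be the largest number `tau J` of a block `J` with
`Pres P S J`, `S ⊆ H`, `#S = 2 ^ j` (`Nat.findGreatest … M`; the numbers are `< M` by `tau_lt_pow` and `P.card`; there is
one: choose `S ⊆ H` with `#S = 2 ^ j` (`Finset.exists_subset_card_eq`), `s ∈ S` and `J = β (x₀ s)`).
`m j ≤ m (j + 1)` for `j ≤ M`: enlarge `S` inside of `H` (`Finset.exists_subsuperset_card_eq`), `Pres` is monotone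
in `S` (`reach_mono`). If `m j < m (j+1)` for all `j ≤ M` then `m (M + 1) ≥ M + 1`, impossible.
-/

set_option autoImplicit false

open Finset

namespace Pool.Agent.DCA

theorem max_level {p n d : ℕ} (P : Play p n d) (H : Finset (Fin n))
    (hH : 2 ^ ((2 ^ d + 1) ^ d + 1) ≤ #H) :
    ∃ j ≤ (2 ^ d + 1) ^ d, ∃ S : Finset (Fin n), S ⊆ H ∧ #S = 2 ^ j ∧
      ∃ J, Pres P S J ∧ ∀ S' : Finset (Fin n), S' ⊆ H → #S' = 2 ^ (j + 1) →
        ∀ J', Pres P S' J' → tau J' ≤ tau J := by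
  by_contra hcon
  push Not at hcon
  have key : ∀ j ≤ (2 ^ d + 1) ^ d + 1, ∃ S : Finset (Fin n), S ⊆ H ∧ #S = 2 ^ j ∧
      ∃ J, Pres P S J ∧ j ≤ tau J := by
    intro j
    induction j with
    | zero =>
      intro _
      have h1 : 0 < #H := lt_of_lt_of_le (pow_pos two_pos _) hH
      obtain ⟨s, hs⟩ := Finset.card_pos.mp h1
      exact ⟨{s}, Finset.singleton_subset_iff.mpr hs, by rw [Finset.card_singleton, pow_zero],
        P.β (P.x₀ s), ⟨P.x₀, Relation.ReflTransGen.refl, s, Finset.mem_singleton_self s, rfl⟩,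
        Nat.zero_le _⟩
    | succ j ih =>
      intro hj
      obtain ⟨S, hS, hc, J, hJ, hle⟩ := ih (by omega)
      obtain ⟨S', hS', hc', J', hJ', hlt⟩ := hcon j (by omega) S hS hc J hJ
      exact ⟨S', hS', hc', J', hJ', by omega⟩
  obtain ⟨S, hS, hc, J, ⟨x, hx, s, hs, rfl⟩, hle⟩ := key _ le_rfl
  have h2 := P.card x (reach_mono (Finset.subset_univ S) hx) s
  have h3 := tau_lt_pow _ h2
  omega

end Pool.Agent.DCA
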