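import Pool.Agent.Lib.DCA.EDefs

/-!
# Comparison of digit expansions

`num_lt_of_first`: split the sum at the first difference `i`: the terms before are equal, the
term `i` differs by at least `M ^ (L - 1 - i)`, the rest of the smaller number is at most
`∑_(j > i) (M - 1) M ^ (L - 1 - j) < M ^ (L - 1 - i)` (induction, or `num_lt_pow` for the shifted
sequence). `num_lt_pow`: induction on `L` (`num M (L+1) u = u 0 * M ^ L + num M L (u ∘ succ)`,
`Finset.sum_range_succ'`).
-/

set_option autoImplicit false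

open Finset

namespace Pool.Agent.DCA

private theorem ENum_succ (M L : ℕ) (u : ℕ → ℕ) :
    num M (L + 1) u = num M L (fun i => u (i + 1)) + u 0 * M ^ L := by
  unfold num
  rw [Finset.sum_range_succ']
  congr 1
  apply Finset.sum_congr rfl
  intro i _
  congr 2
  omega

theorem num_lt_pow (M L : ℕ) (u : ℕ → ℕ) (hu : ∀ i < L, u i < M) (hM : 1 ≤ M) :
    num M L u < M ^ L := by
  induction L generalizing u with
  | zero => simp [num]
  | succ L ih =>
    rw [ENum_succ]
    have h1 := ih (fun i => u (i + 1)) (fun i hi => hu (i + 1) (by omega))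
    have h2 : u 0 + 1 ≤ M := hu 0 (by omega)
    calc num M L (fun i => u (i + 1)) + u 0 * M ^ L < M ^ L + u 0 * M ^ L := by omega
      _ = (u 0 + 1) * M ^ L := by ring
      _ ≤ M * M ^ L := Nat.mul_le_mul_right _ h2
      _ = M ^ (L + 1) := by ring

theorem pow_le_num (M L : ℕ) (u : ℕ → ℕ) (hL : 1 ≤ L) (hu : 1 ≤ u 0) :
    M ^ (L - 1) ≤ num M L u := by
  obtain ⟨L, rfl⟩ : ∃ l, L = l + 1 := ⟨L - 1, by omega⟩
  rw [ENum_succ]
  have h : 1 * M ^ L ≤ u 0 * M ^ L := Nat.mul_le_mul_right _ hu
  rw [Nat.add_sub_cancel]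
  omega

theorem num_lt_of_first (M L i : ℕ) (u v : ℕ → ℕ) (hu : ∀ j < L, u j < M) (hi : i < L)
    (heq : ∀ j < i, u j = v j) (hlt : u i < v i) : num M L u < num M L v := by
  induction i generalizing L u v with
  | zero =>
    obtain ⟨L, rfl⟩ : ∃ l, L = l + 1 := ⟨L - 1, by omega⟩
    rw [ENum_succ, ENum_succ]
    have hM : 1 ≤ M := by
      have := hu 0 (by omega)
      omega
    have h1 := num_lt_pow M L (fun i => u (i + 1)) (fun i hi => hu (i + 1) (by omega)) hM
    have h2 : (u 0 + 1) * M ^ L ≤ v 0 * M ^ L := Nat.mul_le_mul_right _ hlt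
    rw [add_mul, one_mul] at h2
    omega
  | succ i ih =>
    obtain ⟨L, rfl⟩ : ∃ l, L = l + 1 := ⟨L - 1, by omega⟩
    rw [ENum_succ, ENum_succ, heq 0 (by omega)]
    have h1 := ih L (fun i => u (i + 1)) (fun i => v (i + 1)) (fun j hj => hu (j + 1) (by omega))
      (by omega) (fun j hj => heq (j + 1) (by omega)) hlt
    omega

theorem num_congr (M L : ℕ) (u v : ℕ → ℕ) (h : ∀ i < L, u i = v i) : num M L u = num M L v := by
  unfold num
  exact Finset.sum_congr rfl fun i hi => by rw [h i (Finset.mem_range.1 hi)]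

end Pool.Agent.DCA
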