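import Pool.Agent.Lib.DCA.EReach

/-!
# The blocks of a reachable tuple form a partition

`play_union`: the blocks are disjoint and have `d` elements, there are `n` of them, so their union
has `n * d = #(univ : Finset (Fin n × Fin d))` elements (`Finset.card_biUnion`,
`Finset.eq_univ_of_card`).
`play_sub`: a letter `(u, j)` of `β (x s)`, `s ∈ S`, with `u ∉ S` would be in `β (x u) = β (x₀ u) =
{u} ×ˢ univ` (`reach_off`), but `u ≠ s` and the blocks are disjoint.
`play_move`: if `y` is obtained from `x` by replacing the coordinates `s, t` then the other blocks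
are the same, and by `play_union` and disjointness the union of the blocks `s`, `t` is the
complement of the union of the others, both for `x` and for `y`.
-/

set_option autoImplicit false

open Finset

namespace Pool.Agent.DCA

theorem play_union {p n d : ℕ} (P : Play p n d) (x : Fin n → ℕ) (hx : Reach P.E univ P.x₀ x)
    (e : Fin n × Fin d) : ∃ s, e ∈ P.β (x s) := by
  have h1 : #((univ : Finset (Fin n)).biUnion fun s => P.β (x s)) =
      Fintype.card (Fin n × Fin d) := by
    rw [Finset.card_biUnion (fun s _ t _ hst => P.disj x hx s t hst),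
      Finset.sum_congr rfl (fun s _ => P.card x hx s), Finset.sum_const, Finset.card_univ,
      Fintype.card_prod, Fintype.card_fin, Fintype.card_fin, smul_eq_mul]
  have h2 := Finset.eq_univ_of_card _ h1
  have h3 : e ∈ (univ : Finset (Fin n)).biUnion fun s => P.β (x s) := by
    rw [h2]
    exact Finset.mem_univ e
  obtain ⟨s, -, hs⟩ := Finset.mem_biUnion.mp h3
  exact ⟨s, hs⟩

theorem play_sub {p n d : ℕ} (P : Play p n d) (S : Finset (Fin n)) (x : Fin n → ℕ)
    (hx : Reach P.E S P.x₀ x) (s : Fin n) (hs : s ∈ S) : P.β (x s) ⊆ S ×ˢ univ := by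
  rintro ⟨u, j⟩ he
  rw [Finset.mem_product]
  refine ⟨?_, Finset.mem_univ _⟩
  by_contra hu
  have hne : s ≠ u := by
    rintro rfl
    exact hu hs
  have h1 := P.disj x (reach_mono (Finset.subset_univ S) hx) s u hne
  have h2 : (u, j) ∈ P.β (x u) := by
    rw [reach_off hx u hu, P.start]
    exact Finset.mem_product.mpr ⟨Finset.mem_singleton_self u, Finset.mem_univ j⟩
  exact Finset.disjoint_left.mp h1 he h2

theorem play_move {p n d : ℕ} (P : Play p n d) (x : Fin n → ℕ) (hx : Reach P.E univ P.x₀ x)
    (s t : Fin n) (hst : s ≠ t) (a b : ℕ) (hab : (a, b) ∈ P.E (x s) (x t)) :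
    P.β a ∪ P.β b = P.β (x s) ∪ P.β (x t) ∧ Disjoint (P.β a) (P.β b) ∧ #(P.β a) = d ∧
      #(P.β b) = d := by
  obtain ⟨y, hydef⟩ : ∃ y, y = Function.update (Function.update x s a) t b := ⟨_, rfl⟩
  have hy : Reach P.E univ P.x₀ y :=
    Relation.ReflTransGen.tail hx
      ⟨s, Finset.mem_univ s, t, Finset.mem_univ t, hst, a, b, hab, hydef⟩
  have hys : y s = a := by
    rw [hydef, Function.update_of_ne hst, Function.update_self]
  have hyt : y t = b := by
    rw [hydef, Function.update_self]
  have hyu : ∀ u, u ≠ s → u ≠ t → y u = x u := by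
    intro u h1 h2
    rw [hydef, Function.update_of_ne h2, Function.update_of_ne h1]
  have hd := P.disj y hy s t hst
  rw [hys, hyt] at hd
  have hca := P.card y hy s
  rw [hys] at hca
  have hcb := P.card y hy t
  rw [hyt] at hcb
  refine ⟨?_, hd, hca, hcb⟩
  apply Finset.Subset.antisymm
  · intro e he
    obtain ⟨u, hu⟩ := play_union P x hx e
    rw [Finset.mem_union]
    by_cases h1 : u = s
    · left
      rw [← h1]
      exact hu
    by_cases h2 : u = t
    · right
      rw [← h2]
      exact hu
    exfalso
    rw [← hyu u h1 h2] at hu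
    rcases Finset.mem_union.mp he with h | h
    · rw [← hys] at h
      exact Finset.disjoint_left.mp (P.disj y hy u s h1) hu h
    · rw [← hyt] at h
      exact Finset.disjoint_left.mp (P.disj y hy u t h2) hu h
  · intro e he
    obtain ⟨u, hu⟩ := play_union P y hy e
    rw [Finset.mem_union]
    by_cases h1 : u = s
    · left
      rw [h1, hys] at hu
      exact hu
    by_cases h2 : u = t
    · right
      rw [h2, hyt] at hu
      exact hu
    exfalso
    rw [hyu u h1 h2] at hu
    rcases Finset.mem_union.mp he with h | h
    · exact Finset.disjoint_left.mp (P.disj x hx u s h1) hu h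
    · exact Finset.disjoint_left.mp (P.disj x hx u t h2) hu h

end Pool.Agent.DCA
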