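import Mathlib

/-!
# Ramsey's theorem for all subsets of size at most `r`

PROOF. (1) Uniform version for subsets of a finite set of naturals (or of any type with
decidable equality): for all `r h` there is `N` such that for every finite set `V` with
`N ≤ #V` and every `f : Finset α → κ` there is `H ⊆ V`, `#H = h`, with `f` constant on the
`r`-element subsets of `H`. Induction on `r`. `r = 0`: clear. `r + 1`: for every `M` there is `N`
such that each `V` with `#V ≥ N` contains a sequence `a_1, …, a_M` of distinct elements and
colours `c_1, …, c_M` with `f (insert a_i S) = c_i` for all `r`-element `S ⊆ {a_(i+1), …, a_M}`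
(induction on `M`: choose `a_1 ∈ V`, apply the statement for `r` to `S ↦ f (insert a_1 S)` on
`V \ {a_1}`, then the induction hypothesis inside of the homogeneous set). Pigeonhole: take
`M = h * card κ + 1`; `h` of the colours are equal (keep the order); these `a_i` form `H`: an
`(r+1)`-subset is `insert a_i S` with `a_i` its first element.
(2) All sizes `≤ r`: apply (1) for `0, 1, …, r` one after the other (induction on `r`).
(3) `V = univ : Finset (Fin n)`.
-/

set_option autoImplicit false

open Finset

namespace Pool.Agent.DCA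

private lemma ERamsey_one (κ : Type) [Fintype κ] (r : ℕ) : ∀ (k : ℕ) (h : κ → ℕ),
    ∑ c, h c = k → ∃ N : ℕ, ∀ (α : Type) [DecidableEq α] (V : Finset α), N ≤ #V →
      ∀ f : Finset α → κ, ∃ (c : κ) (H : Finset α), H ⊆ V ∧ #H = h c ∧
        ∀ S ⊆ H, #S = r → f S = c := by
  classical
  induction r with
  | zero =>
    intro k h _
    refine ⟨univ.sup h, fun α _ V hV f => ?_⟩
    obtain ⟨H, hH, hc⟩ := exists_subset_card_eq
      (le_trans (Finset.le_sup (f := h) (mem_univ (f ∅))) hV)
    refine ⟨f ∅, H, hH, hc, fun S _ h0 => ?_⟩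
    rw [Finset.card_eq_zero.1 h0]
  | succ r ihr =>
    intro k
    induction k with
    | zero =>
      intro h hs
      refine ⟨0, fun α _ V _ f => ⟨f ∅, ∅, empty_subset _, ?_, fun S hS h1 => ?_⟩⟩
      · have := (Finset.sum_eq_zero_iff.1 hs) (f ∅) (mem_univ _)
        simp [this]
      · rw [subset_empty.1 hS] at h1
        simp at h1
    | succ k ihk =>
      intro h hs
      by_cases h0 : ∃ c, h c = 0
      · obtain ⟨c, hc⟩ := h0
        refine ⟨0, fun α _ V _ f => ⟨c, ∅, empty_subset _, by simp [hc], fun S hS h1 => ?_⟩⟩
        rw [subset_empty.1 hS] at h1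
        simp at h1
      · push Not at h0
        have hsum : ∀ c, ∑ d, Function.update h c (h c - 1) d = k := by
          intro c
          have h2 := Finset.sum_update_of_mem (mem_univ c) h (h c - 1)
          have h5 := Nat.pos_of_ne_zero (h0 c)
          have h6 : ∑ d ∈ univ \ {c}, h d + ∑ d ∈ {c}, h d = ∑ d, h d :=
            Finset.sum_sdiff (singleton_subset_iff.2 (mem_univ c))
          rw [Finset.sum_singleton] at h6
          rw [h2]
          omega
        choose N hN using fun c => ihk _ (hsum c)
        obtain ⟨N1, hN1⟩ := ihr _ (fun _ : κ => univ.sup N) rfl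
        refine ⟨N1 + 1, fun α _ V hV f => ?_⟩
        obtain ⟨a, ha⟩ : V.Nonempty := Finset.card_pos.1 (by omega)
        obtain ⟨c, H', hH', hc', hf'⟩ := hN1 α (V.erase a)
          (by rw [Finset.card_erase_of_mem ha]; omega) (fun S => f (insert a S))
        obtain ⟨d, H, hH, hd, hf⟩ := hN c α H' (by
          rw [hc']; exact Finset.le_sup (f := N) (mem_univ c)) f
        have haH : a ∉ H := fun h' => Finset.notMem_erase a V (hH' (hH h'))
        by_cases hdc : d = c
        · subst hdc
          refine ⟨d, insert a H, ?_, ?_, ?_⟩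
          · intro x hx
            rcases Finset.mem_insert.1 hx with rfl | hx
            · exact ha
            · exact Finset.mem_of_mem_erase (hH' (hH hx))
          · rw [Finset.card_insert_of_notMem haH, hd, Function.update_self]
            have := Nat.pos_of_ne_zero (h0 d)
            omega
          · intro S hS hS1
            by_cases haS : a ∈ S
            · have h1 : insert a (S.erase a) = S := Finset.insert_erase haS
              have h2 : S.erase a ⊆ H' := by
                intro x hx
                have hx1 := Finset.mem_erase.1 hx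
                rcases Finset.mem_insert.1 (hS hx1.2) with h3 | h3
                · exact absurd h3 hx1.1
                · exact hH h3
              have h3 := hf' (S.erase a) h2 (by rw [Finset.card_erase_of_mem haS]; omega)
              simpa only [h1] using h3
            · refine hf S (fun x hx => ?_) hS1
              rcases Finset.mem_insert.1 (hS hx) with h3 | h3
              · exact absurd (h3 ▸ hx) haS
              · exact h3
        · refine ⟨d, H, fun x hx => Finset.mem_of_mem_erase (hH' (hH hx)), ?_, hf⟩
          rw [hd, Function.update_of_ne hdc]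

private lemma ERamsey_all (κ : Type) [Fintype κ] (r : ℕ) : ∀ h : ℕ, ∃ N : ℕ,
    ∀ (α : Type) [DecidableEq α] (V : Finset α), N ≤ #V → ∀ f : Finset α → κ,
      ∃ H ⊆ V, #H = h ∧ ∀ S T : Finset α, S ⊆ H → T ⊆ H → #S = #T → #S ≤ r → f S = f T := by
  induction r with
  | zero =>
    intro h
    refine ⟨h, fun α _ V hV f => ?_⟩
    obtain ⟨H, hH, hc⟩ := exists_subset_card_eq hV
    refine ⟨H, hH, hc, fun S T _ _ h1 h2 => ?_⟩
    have h3 : S = ∅ := Finset.card_eq_zero.1 (by omega)
    have h4 : T = ∅ := Finset.card_eq_zero.1 (by omega)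
    rw [h3, h4]
  | succ r ih =>
    intro h
    obtain ⟨N1, hN1⟩ := ERamsey_one κ (r + 1) _ (fun _ => h) rfl
    obtain ⟨N2, hN2⟩ := ih N1
    refine ⟨N2, fun α _ V hV f => ?_⟩
    obtain ⟨H1, hH1, hc1, hf1⟩ := hN2 α V hV f
    obtain ⟨c, H, hH, hc, hf⟩ := hN1 α H1 hc1.ge f
    refine ⟨H, hH.trans hH1, hc, fun S T hS hT hST hr => ?_⟩
    rcases Nat.lt_or_ge #S (r + 1) with h1 | h1
    · exact hf1 S T (hS.trans hH) (hT.trans hH) hST (by omega)
    · rw [hf S hS (by omega), hf T hT (by omega)]

theorem ramsey (κ : Type) [Fintype κ] (r h : ℕ) :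
    ∃ N : ℕ, ∀ n : ℕ, N ≤ n → ∀ f : Finset (Fin n) → κ, ∃ H : Finset (Fin n), #H = h ∧
      ∀ S T : Finset (Fin n), S ⊆ H → T ⊆ H → #S = #T → #S ≤ r → f S = f T := by
  obtain ⟨N, hN⟩ := ERamsey_all κ r h
  refine ⟨N, fun n hn f => ?_⟩
  obtain ⟨H, _, hc, hf⟩ := hN (Fin n) univ (by simpa using hn) f
  exact ⟨H, hc, hf⟩

end Pool.Agent.DCA
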