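import Pool.Agent.Lib.DCA.ENum

/-!
# The maximal shuffle of a word with itself

PROOF. For `f : ℕ → Bool` with exactly `a` values `true` on `[0, 2a)` (there are some, for
example `f y = decide (y < a)`) consider the number `num M (2a) (fun y => m (rk f y))`. These numbers
are bounded (`< M ^ (2a)`, `num_lt_pow`; note `rk f y < a` for `y < 2a`, as at most `a` positions
have each value), so there is `f` with the largest number (e.g. `Nat.findGreatest` or a finite
maximum over the restrictions to `range (2a)`). Let `g, w, w'` be as in the statement,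
`u y = m (rk f y)`, `v y = m (rk g y)`. By maximality `num v ≤ num u`. Suppose `u y ≠ v y` for
some `y < 2a`, take the first one (`Nat.find`). Say `g y = true` (the other case is the same with
`w'`), `i = rk g y < a`. Then `w i = u y ≠ v y = m i`. For `i' < i` there is `y' < y` with
`g y' = true`, `rk g y' = i'` (the ranks of the `true` positions below `y` are `0, …, i-1`), so
`w i' = u y' = v y' = m i'`. If `m i < w i` then `num M a m < num M a w` by `num_lt_of_first`,
against `num w ≤ num m`. So `w i < m i`, that is `u y < v y`, and `num u < num v` by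
`num_lt_of_first`: contradiction. So `u = v` on `[0, 2a)`, and since every `i < a` is `rk g y` for
some `y < 2a` with `g y = true` and for some `y < 2a` with `g y = false`: `w i = m i`, `w' i = m i`.
-/

set_option autoImplicit false

open Finset

namespace Pool.Agent.DCA

/-- the ranks of the positions with the value `b` are `0, 1, …` -/
theorem exists_rk (g : ℕ → Bool) (b : Bool) (L i : ℕ) (hi : i < #{y ∈ range L | g y = b}) :
    ∃ y < L, g y = b ∧ rk g y = i := by
  induction L with
  | zero => simp at hi
  | succ L ih =>
    by_cases h : i < #{y ∈ range L | g y = b}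
    · obtain ⟨y, hy, h1, h2⟩ := ih h
      exact ⟨y, by omega, h1, h2⟩
    · rw [Finset.range_add_one, Finset.filter_insert] at hi
      by_cases hb : g L = b
      · rw [if_pos hb, Finset.card_insert_of_notMem (by simp)] at hi
        refine ⟨L, by omega, hb, ?_⟩
        unfold rk
        rw [hb]
        omega
      · rw [if_neg hb] at hi
        exact absurd hi h

theorem rk_lt (g : ℕ → Bool) (L y : ℕ) (hy : y < L) :
    rk g y < #{z ∈ range L | g z = g y} := by
  unfold rk
  apply Finset.card_lt_card
  rw [Finset.ssubset_iff_of_subset]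
  · exact ⟨y, by simp [hy], by simp⟩
  · intro z hz
    rw [Finset.mem_filter, Finset.mem_range] at hz ⊢
    exact ⟨by omega, hz.2⟩

private theorem EShuffle_false (g : ℕ → Bool) (a : ℕ)
    (hg : #{y ∈ range (2 * a) | g y = true} = a) : #{y ∈ range (2 * a) | g y = false} = a := by
  have h := Finset.card_filter_add_card_filter_not (s := range (2 * a)) (fun y => g y = true)
  rw [Finset.card_range, hg] at h
  have h2 : #{y ∈ range (2 * a) | ¬ (g y = true)} = #{y ∈ range (2 * a) | g y = false} := by
    congr 1
    ext y
    simp
  omega

private theorem EShuffle_rk_lt (g : ℕ → Bool) (a : ℕ)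
    (hg : #{y ∈ range (2 * a) | g y = true} = a) (y : ℕ) (hy : y < 2 * a) : rk g y < a := by
  have h := rk_lt g (2 * a) y hy
  rcases hb : g y with _ | _
  · rw [hb, EShuffle_false g a hg] at h; exact h
  · rw [hb, hg] at h; exact h

theorem shuffle (a M : ℕ) (m : ℕ → ℕ) (hm : ∀ i < a, m i < M) :
    ∃ f : ℕ → Bool, #{y ∈ range (2 * a) | f y = true} = a ∧
      ∀ g : ℕ → Bool, #{y ∈ range (2 * a) | g y = true} = a →
        ∀ w w' : ℕ → ℕ, (∀ i < a, w i < M) → (∀ i < a, w' i < M) →
          (∀ y < 2 * a, m (rk f y) = if g y = true then w (rk g y) else w' (rk g y)) →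
          num M a w ≤ num M a m → num M a w' ≤ num M a m →
          ∀ i < a, w i = m i ∧ w' i = m i := by
  set S : Set ℕ := {n | ∃ f : ℕ → Bool, #{y ∈ range (2 * a) | f y = true} = a ∧
    n = num M (2 * a) (fun y => m (rk f y))} with hS
  have hne : S.Nonempty := by
    refine ⟨_, fun y => decide (y < a), ?_, rfl⟩
    have h1 : {y ∈ range (2 * a) | decide (y < a) = true} = range a := by
      ext y
      simp only [decide_eq_true_eq, mem_filter, mem_range]
      omega
    rw [h1, card_range]
  have hbd : BddAbove S := by
    rcases Nat.eq_zero_or_pos a with h0 | h0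
    · subst h0
      refine ⟨0, ?_⟩
      rintro n ⟨f, _, rfl⟩
      simp [num]
    · refine ⟨M ^ (2 * a), ?_⟩
      rintro n ⟨f, hf, rfl⟩
      refine (num_lt_pow M (2 * a) _ (fun y hy => hm _ (EShuffle_rk_lt f a hf y hy)) ?_).le
      have := hm 0 h0
      omega
  obtain ⟨f, hf, hmax⟩ := Nat.sSup_mem hne hbd
  refine ⟨f, hf, ?_⟩
  intro g hg w w' hw hw' heq hn hn'
  have hle : num M (2 * a) (fun y => m (rk g y)) ≤ num M (2 * a) (fun y => m (rk f y)) := by
    rw [← hmax]
    exact le_csSup hbd ⟨g, hg, rfl⟩
  have hgf := EShuffle_false g a hg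
  have key : ∀ y < 2 * a, m (rk f y) = m (rk g y) := by
    by_contra hcon
    push Not at hcon
    obtain ⟨hy, hyne⟩ := Nat.find_spec hcon
    set y := Nat.find hcon with hydef
    have hlow : ∀ y' < y, m (rk f y') = m (rk g y') := by
      intro y' hy'
      by_contra h
      exact Nat.find_min hcon hy' ⟨by omega, h⟩
    -- a general argument for one of the two values
    have gen : ∀ (b : Bool) (W : ℕ → ℕ), g y = b → (∀ i < a, W i < M) →
        (∀ z < 2 * a, g z = b → m (rk f z) = W (rk g z)) → num M a W ≤ num M a m → False := by
      intro b W hb hWM hW hnW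
      have hi : rk g y < a := EShuffle_rk_lt g a hg y hy
      have h1 : W (rk g y) = m (rk f y) := (hW y hy hb).symm
      have h2 : ∀ i' < rk g y, W i' = m i' := by
        intro i' hi'
        have hi2 : i' < #{z ∈ range y | g z = b} := by
          have : rk g y = #{z ∈ range y | g z = b} := by unfold rk; rw [hb]
          omega
        obtain ⟨y', hy', hb', hr'⟩ := exists_rk g b y i' hi2
        rw [← hr', ← hW y' (by omega) hb', hlow y' hy']
      rcases lt_trichotomy (W (rk g y)) (m (rk g y)) with h | h | h
      · have h3 : num M (2 * a) (fun y => m (rk f y)) < num M (2 * a) (fun y => m (rk g y)) := by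
          refine num_lt_of_first M (2 * a) y _ _
            (fun j hj => hm _ (EShuffle_rk_lt f a hf j hj)) hy hlow ?_
          rw [← h1]; exact h
        omega
      · exact hyne (by rw [← h1, h])
      · have h3 : num M a m < num M a W :=
          num_lt_of_first M a (rk g y) m W hm hi (fun j hj => (h2 j hj).symm) h
        omega
    rcases hb : g y with _ | _
    · exact gen false w' hb hw' (fun z hz hgz => by rw [heq z hz, hgz]; simp) hn'
    · exact gen true w hb hw (fun z hz hgz => by rw [heq z hz, hgz]; simp) hn
  intro i hi
  constructor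
  · obtain ⟨y, hy, hb, hr⟩ := exists_rk g true (2 * a) i (by rw [hg]; exact hi)
    have h1 := heq y hy
    rw [if_pos hb, hr, key y hy, hr] at h1
    exact h1.symm
  · obtain ⟨y, hy, hb, hr⟩ := exists_rk g false (2 * a) i (by rw [hgf]; exact hi)
    have h1 := heq y hy
    rw [if_neg (by rw [hb]; simp), hr, key y hy, hr] at h1
    exact h1.symm

end Pool.Agent.DCA
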