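import Pool.Agent.Lib.DC3.Clean

/-!
# Cleaning, with the ends of the chains
-/

set_option autoImplicit false

open Finset

namespace Pool.Agent.DCA

open Pool.Agent.DC3

variable {k : Type*} [Field k]

theorem kclean_Sv (V : Finset ℕ) (μ : ℕ → k) (r n : ℕ)
    (hn : ∀ a ∈ V, ¬ (pfst (starts V r) a ≤ n ∧ n < a)) [DecidablePred fun x => mm V μ r x ≠ 0] :
    Sv ((starts V r).filter (fun x => mm V μ r x ≠ 0)) (mm V μ r) n = Sv V μ n := by
  classical
  have h1 := sum_mm V μ r (fun y => if y ≤ n then (1 : k) else 0)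
  unfold Sv
  rw [Finset.sum_filter, Finset.sum_filter (s := V)]
  refine Eq.trans ?_ (h1.trans ?_)
  · refine Finset.sum_congr (by congr!) fun x _ => ?_
    split_ifs <;> simp
  · refine Finset.sum_congr rfl fun a ha => ?_
    have h2 := (P_mem (r := r) ha).2
    have h3 := hn a ha
    by_cases h4 : a ≤ n
    · rw [if_pos h4, if_pos (h2.trans h4), mul_one]
    · rw [if_neg h4, if_neg (fun h => h3 ⟨h, not_le.1 h4⟩), mul_zero]

/-- Merge each chain of points of `V` with gaps at most `r` into its first point and drop the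
points of mass zero; `e v` is the end of the chain of `v`. -/
theorem clean2 {N w m : ℕ} {D : k} (Y : Sys k N w m D) (r : ℕ) :
    ∃ Y' : Sys k N (w + 2 * m ^ 3 * r) m D, Y'.V ⊆ Y.V ∧
      (∀ n, (∀ a ∈ Y.V, ¬ (pfst (starts Y.V r) a ≤ n ∧ n < a)) →
        Sv Y'.V Y'.μ n = Sv Y.V Y.μ n) ∧
      ∃ e : ℕ → ℕ, (∀ v ∈ Y'.V, v ≤ e v ∧ e v ≤ v + m * r ∧
        ∀ n₁ n₂, n₁ < v → v ≤ n₁ + r → e v ≤ n₂ → n₂ ≤ e v + r →
          Sv Y.V Y.μ n₁ ≠ Sv Y.V Y.μ n₂) ∧
      ∀ v ∈ Y'.V, ∀ v' ∈ Y'.V, v < v' → e v + r < v' := by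
  classical
  refine ⟨⟨(starts Y.V r).filter (fun x => mm Y.V Y.μ r x ≠ 0), mm Y.V Y.μ r, Zn Y.V Y.Z r,
    ?_, ?_, card_Zn r Y.cardV Y.cardZ, ?_⟩, ?_, ?_,
    fun v => (Y.V.filter (fun a => pfst (starts Y.V r) a = v)).sup id, ?_, ?_⟩
  · intro a ha
    exact (mem_filter.1 ha).2
  · refine (Finset.card_le_card ?_).trans Y.cardV
    exact (Finset.filter_subset _ _).trans (Finset.filter_subset _ _)
  · intro t ht htZ
    have hZ : t ∉ Y.Z := fun h => htZ (Finset.mem_union_left _ h)
    refine Eq.trans ?_ (Y.rel t ht hZ)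
    rw [Cv_mm]
    unfold Cv
    refine Finset.sum_congr rfl fun a ha => ?_
    refine Finset.sum_congr ?_ fun b _ => rfl
    refine Finset.filter_congr fun b hb => ?_
    have h1 := (P_mem (r := r) ha).2
    have h2 := (P_mem (r := r) hb).2
    constructor
    · intro h
      by_contra hcon
      apply htZ
      refine Finset.mem_union_right _ (Finset.mem_biUnion.2 ⟨(a, b), Finset.mem_product.2 ⟨ha, hb⟩, ?_⟩)
      exact Finset.mem_Ico.2 ⟨h, not_le.1 hcon⟩
    · intro h
      omega
  · exact (Finset.filter_subset _ _).trans (Finset.filter_subset _ _)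
  · intro n hn
    exact kclean_Sv Y.V Y.μ r n hn
  · intro v hv
    have hv0 : v ∈ starts Y.V r := (mem_filter.1 hv).1
    have hvV : v ∈ Y.V := (mem_starts.1 hv0).1
    have hne : (Y.V.filter (fun a => pfst (starts Y.V r) a = v)).Nonempty :=
      ⟨v, mem_filter.2 ⟨hvV, P_start hv0⟩⟩
    obtain ⟨e, heF, hee⟩ := Finset.exists_mem_eq_sup _ hne id
    simp only [hee, id]
    obtain ⟨heV, hev⟩ := mem_filter.1 heF
    have hmax : ∀ a ∈ Y.V.filter (fun a => pfst (starts Y.V r) a = v), a ≤ e := by
      intro a ha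
      have := Finset.le_sup (f := id) ha
      rw [hee] at this
      exact this
    have hve : v ≤ e := by
      have := (P_mem (r := r) heV).2
      omega
    refine ⟨hve, ?_, ?_⟩
    · have := P_bound Y.cardV r heV
      omega
    · intro n₁ n₂ h1 h2 h3 h4
      have hsub : Sv Y.V Y.μ n₂ = Sv Y.V Y.μ n₁ + mm Y.V Y.μ r v := by
        unfold Sv mm
        rw [← Finset.sum_filter_add_sum_filter_not (Y.V.filter (· ≤ n₂)) (· ≤ n₁)]
        rw [Finset.filter_filter, Finset.filter_filter]
        congr 1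
        · refine Finset.sum_congr (Finset.filter_congr fun a _ => ?_) fun _ _ => rfl
          omega
        · refine Finset.sum_congr (Finset.filter_congr fun a ha => ?_) fun _ _ => rfl
          have hPa := P_mem (r := r) ha
          constructor
          · rintro ⟨h5, h6⟩
            have hva : v ≤ a := by
              by_contra hcon
              exact (mem_starts.1 hv0).2 a ha ⟨by omega, by omega⟩
            have h7 := le_pfst hv0 hva
            by_contra hcon
            have h8 : v < pfst (starts Y.V r) a := by omega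
            have h9 : e < pfst (starts Y.V r) a := by
              by_contra hc2
              have := le_pfst hPa.1 (not_lt.1 hc2)
              omega
            exact (mem_starts.1 hPa.1).2 e heV ⟨h9, by omega⟩
          · intro h5
            have h6 : a ≤ e := hmax a (mem_filter.2 ⟨ha, h5⟩)
            have h7 := hPa.2
            constructor <;> omega
      rw [hsub]
      intro hcon
      exact (mem_filter.1 hv).2 (by simpa using hcon)
  · intro v hv v' hv' hlt
    have hv0 : v ∈ starts Y.V r := (mem_filter.1 hv).1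
    have hvV : v ∈ Y.V := (mem_starts.1 hv0).1
    have hv0' : v' ∈ starts Y.V r := (mem_filter.1 hv').1
    have hne : (Y.V.filter (fun a => pfst (starts Y.V r) a = v)).Nonempty :=
      ⟨v, mem_filter.2 ⟨hvV, P_start hv0⟩⟩
    obtain ⟨e, heF, hee⟩ := Finset.exists_mem_eq_sup _ hne id
    simp only [hee, id]
    obtain ⟨heV, hev⟩ := mem_filter.1 heF
    have h1 : e < v' := by
      by_contra hcon
      have := le_pfst hv0' (not_lt.1 hcon)
      omega
    by_contra hcon
    exact (mem_starts.1 hv0').2 e heV ⟨h1, by omega⟩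

end Pool.Agent.DCA
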