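import Pool.Agent.Lib.DC3.Clean

/-!
# Sparse measures with constant square and an approximate dilation
-/

set_option autoImplicit false

open Finset

namespace Pool.Agent.DCA

open Pool.Agent.DC3

/-- A sparse measure with constant square, whose points are more than `r` apart, and an
approximate dilation `κ` by `K` of its points. -/
structure Dil (k : Type*) [Field k] (N w m r K : ℕ) (D : k) extends Sys k N w m D where
  κ : ℕ → ℕ
  sep : ∀ v ∈ V, ∀ v' ∈ V, v < v' → v + r < v'
  κ_mem : ∀ v ∈ V, r ≤ v → K * (v + (m + 1) * r) < N → κ v ∈ V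
  κ_low : ∀ v ∈ V, r ≤ v → K * (v + (m + 1) * r) < N → 4 * (K * v) ≤ 4 * κ v + K * r
  κ_up : ∀ v ∈ V, r ≤ v → K * (v + (m + 1) * r) < N → κ v ≤ K * (v + (m + 1) * r)
  κ_sep : ∀ v ∈ V, ∀ v' ∈ V, r ≤ v → v < v' → K * (v' + (m + 1) * r) < N →
    2 * κ v + K * r ≤ 2 * κ v'

end Pool.Agent.DCA
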