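import Pool.Agent.Lib.DCA.KClean

/-!
# Harmless positions
-/

set_option autoImplicit false

open Finset

namespace Pool.Agent.DCA

open Pool.Agent.DC3

/-- iterating the dilation relation an even number of times -/
theorem dil_iter {k : Type*} [Field k] (S : ℕ → k) (E : Finset ℕ) (p N : ℕ) (hp : 1 ≤ p)
    (hS : ∀ n < N, n ∉ E → S n = -S (n / p)) (n1 t : ℕ) (ht : p ^ (2 * n1) * t < N)
    (hE : ∀ i, 1 ≤ i → i ≤ 2 * n1 → p ^ i * t ∉ E) : S (p ^ (2 * n1) * t) = S t := by
  have hstep : ∀ i, i + 1 ≤ 2 * n1 → S (p ^ (i + 1) * t) = -S (p ^ i * t) := by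
    intro i hi
    have h1 : p ^ (i + 1) * t ≤ p ^ (2 * n1) * t :=
      Nat.mul_le_mul_right _ (Nat.pow_le_pow_right hp hi)
    rw [hS _ (lt_of_le_of_lt h1 ht) (hE _ (by omega) hi)]
    congr 2
    rw [pow_succ, Nat.mul_right_comm, Nat.mul_div_cancel _ hp]
  have hall : ∀ j, j ≤ n1 → S (p ^ (2 * j) * t) = S t := by
    intro j
    induction j with
    | zero => intro _; simp
    | succ j ih =>
      intro hj
      rw [show 2 * (j + 1) = 2 * j + 1 + 1 by ring, hstep _ (by omega), hstep _ (by omega),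
        neg_neg, ih (by omega)]
  exact hall n1 le_rfl

theorem kap_free (V0 E : Finset ℕ) (r m p n1 K ρ c : ℕ) (hV : #V0 ≤ m) (hp : 1 ≤ p)
    (hK : K = p ^ (2 * n1)) (hmr : m * r < K) (hρ : 2 * n1 * #E + m < ρ) :
    ∃ t, c ≤ t ∧ t < c + ρ ∧ (∀ i, 1 ≤ i → i ≤ 2 * n1 → p ^ i * t ∉ E) ∧
      ∀ a ∈ V0, ¬ (pfst (starts V0 r) a ≤ K * t ∧ K * t < a) := by
  classical
  by_contra hcon
  push Not at hcon
  have hsub : Ico c (c + ρ) ⊆
      ((Icc 1 (2 * n1)).biUnion fun i => (Ico c (c + ρ)).filter fun t => p ^ i * t ∈ E) ∪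
      V0.biUnion fun a => (Ico c (c + ρ)).filter fun t =>
        pfst (starts V0 r) a ≤ K * t ∧ K * t < a := by
    intro t ht
    rw [mem_union, mem_biUnion, mem_biUnion]
    by_cases h : ∀ i, 1 ≤ i → i ≤ 2 * n1 → p ^ i * t ∉ E
    · right
      obtain ⟨a, ha, h1, h2⟩ := hcon t (mem_Ico.1 ht).1 (mem_Ico.1 ht).2 h
      exact ⟨a, ha, mem_filter.2 ⟨ht, h1, h2⟩⟩
    · left
      push Not at h
      obtain ⟨i, h1, h2, h3⟩ := h
      exact ⟨i, mem_Icc.2 ⟨h1, h2⟩, mem_filter.2 ⟨ht, h3⟩⟩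
  have h1 : #((Icc 1 (2 * n1)).biUnion fun i => (Ico c (c + ρ)).filter fun t => p ^ i * t ∈ E) ≤
      2 * n1 * #E := by
    refine (card_biUnion_le_card_mul _ _ (#E) ?_).trans ?_
    · intro i hi
      refine card_le_card_of_injOn (fun t => p ^ i * t) ?_ ?_
      · intro t ht
        exact (mem_filter.1 ht).2
      · intro t _ t' _ h
        exact Nat.eq_of_mul_eq_mul_left (Nat.pow_pos hp) h
    · rw [Nat.card_Icc]
      simp
  have h2 : #(V0.biUnion fun a => (Ico c (c + ρ)).filter fun t =>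
      pfst (starts V0 r) a ≤ K * t ∧ K * t < a) ≤ m := by
    refine (card_biUnion_le_card_mul _ _ 1 ?_).trans (by omega)
    intro a ha
    rw [card_le_one]
    intro t ht t' ht'
    rw [mem_filter] at ht ht'
    obtain ⟨-, h3, h4⟩ := ht
    obtain ⟨-, h5, h6⟩ := ht'
    have h7 := P_bound hV r ha
    rcases lt_trichotomy t t' with h | h | h
    · have h8 : K * t + K ≤ K * t' := by
        have := Nat.mul_le_mul_left K (Nat.succ_le_of_lt h)
        rw [Nat.mul_succ] at this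
        exact this
      omega
    · exact h
    · have h8 : K * t' + K ≤ K * t := by
        have := Nat.mul_le_mul_left K (Nat.succ_le_of_lt h)
        rw [Nat.mul_succ] at this
        exact this
      omega
  have h3 := card_le_card hsub
  rw [Nat.card_Ico] at h3
  have h4 := card_union_le
    ((Icc 1 (2 * n1)).biUnion fun i => (Ico c (c + ρ)).filter fun t => p ^ i * t ∈ E)
    (V0.biUnion fun a => (Ico c (c + ρ)).filter fun t =>
        pfst (starts V0 r) a ≤ K * t ∧ K * t < a)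
  omega

end Pool.Agent.DCA
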