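import Pool.Agent.Lib.DCA.KDef
import Pool.Agent.Lib.DCA.KFree
import Pool.Agent.Lib.DC3.PrimeStep

/-!
# The dilation of the merged measure
-/

set_option autoImplicit false

open Finset PowerSeries

namespace Pool.Agent.DCA

open Pool.Agent.DC3 Pool.Agent.DigitChanges

/-- abstract form: a measure whose prefix sums are invariant under dilation by `p ^ (2 n1)` -/
theorem kappa_abs {k : Type*} [Field k] {N w m : ℕ} {D : k} (Y : Sys k N w m D) (E : Finset ℕ)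
    (r p n1 : ℕ) (hp : 1 ≤ p)
    (hS : ∀ n < N, n ∉ E → Sv Y.V Y.μ n = -Sv Y.V Y.μ (n / p)) (hmr : m * r < p ^ (2 * n1))
    (hr : 4 * (2 * n1 * #E + m + 1) ≤ r) :
    ∃ Z : Dil k N (w + 2 * m ^ 3 * r) m r (p ^ (2 * n1)) D, Z.V ⊆ Y.V := by
  classical
  obtain ⟨Y', hsub, hSv, e, he, hee⟩ := clean2 Y r
  set K := p ^ (2 * n1) with hK
  have hK1 : 1 ≤ K := Nat.pow_pos hp
  set ρ := r / 4 with hρ
  have hρ1 : 2 * n1 * #E + m < ρ := by
    rw [hρ]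
    omega
  have hρ4 : 4 * ρ ≤ r := by
    rw [hρ]
    omega
  have hlow : ∀ v, ∃ t, v - ρ ≤ t ∧ t < v - ρ + ρ ∧ (∀ i, 1 ≤ i → i ≤ 2 * n1 → p ^ i * t ∉ E) ∧
      ∀ a ∈ Y.V, ¬ (pfst (starts Y.V r) a ≤ K * t ∧ K * t < a) := fun v =>
    kap_free Y.V E r m p n1 K ρ (v - ρ) Y.cardV hp hK hmr hρ1
  have hup : ∀ v, ∃ t, e v ≤ t ∧ t < e v + ρ ∧ (∀ i, 1 ≤ i → i ≤ 2 * n1 → p ^ i * t ∉ E) ∧
      ∀ a ∈ Y.V, ¬ (pfst (starts Y.V r) a ≤ K * t ∧ K * t < a) := fun v =>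
    kap_free Y.V E r m p n1 K ρ (e v) Y.cardV hp hK hmr hρ1
  choose tl hl1 hl2 hl3 hl4 using hlow
  choose tu hu1 hu2 hu3 hu4 using hup
  have hex : (m + 1) * r = m * r + r := by ring
  have key : ∀ v, ∃ a, v ∈ Y'.V → r ≤ v → K * (v + (m + 1) * r) < N →
      a ∈ Y'.V ∧ K * tl v < a ∧ a ≤ K * tu v := by
    intro v
    by_cases hv : v ∈ Y'.V ∧ r ≤ v ∧ K * (v + (m + 1) * r) < N
    · obtain ⟨hvV, hrv, hvN⟩ := hv
      obtain ⟨h1, h2, h3⟩ := he v hvV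
      have h4 := hl1 v
      have h5 := hl2 v
      have h6 := hu1 v
      have h7 := hu2 v
      have h8 : tl v < v := by omega
      have h9 : tu v ≤ v + (m + 1) * r := by omega
      have h10 : K * tu v < N := lt_of_le_of_lt (Nat.mul_le_mul_left _ h9) hvN
      have h11 : K * tl v < N :=
        lt_of_le_of_lt (Nat.mul_le_mul_left _ (by omega : tl v ≤ v + (m + 1) * r)) hvN
      have hne := h3 (tl v) (tu v) h8 (by omega) h6 (by omega)
      have e1 : Sv Y'.V Y'.μ (K * tl v) = Sv Y.V Y.μ (tl v) := by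
        rw [hSv _ (hl4 v)]
        exact dil_iter (Sv Y.V Y.μ) E p N hp hS n1 (tl v) h11 (hl3 v)
      have e2 : Sv Y'.V Y'.μ (K * tu v) = Sv Y.V Y.μ (tu v) := by
        rw [hSv _ (hu4 v)]
        exact dil_iter (Sv Y.V Y.μ) E p N hp hS n1 (tu v) h10 (hu3 v)
      obtain ⟨a, ha, ha1, ha2⟩ := exists_jump Y'.V Y'.μ (K * tl v) (K * tu v)
        (Nat.mul_le_mul_left _ (by omega)) (by rw [e1, e2]; exact hne)
      exact ⟨a, fun _ _ _ => ⟨ha, ha1, ha2⟩⟩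
    · exact ⟨0, fun h1 h2 h3 => absurd ⟨h1, h2, h3⟩ hv⟩
  choose κ hκ using key
  refine ⟨{ toSys := Y', κ := κ, sep := ?_, κ_mem := fun v hv h1 h2 => (hκ v hv h1 h2).1,
            κ_low := ?_, κ_up := ?_, κ_sep := ?_ }, hsub⟩
  · intro v hv v' hv' hlt
    have h1 := hee v hv v' hv' hlt
    have h2 := (he v hv).1
    omega
  · intro v hv hrv hvN
    obtain ⟨-, h1, -⟩ := hκ v hv hrv hvN
    have h2 := hl1 v
    have h3 : K * v ≤ K * tl v + K * ρ := by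
      rw [← Nat.mul_add]
      exact Nat.mul_le_mul_left _ (by omega)
    have h4 : K * (4 * ρ) ≤ K * r := Nat.mul_le_mul_left _ hρ4
    have h5 : K * (4 * ρ) = 4 * (K * ρ) := by ring
    omega
  · intro v hv hrv hvN
    obtain ⟨-, -, h1⟩ := hκ v hv hrv hvN
    have h2 := hu2 v
    have h3 := (he v hv).2.1
    refine h1.trans (Nat.mul_le_mul_left _ (by omega))
  · intro v hv v' hv' hrv hlt hvN
    have hvN1 : K * (v + (m + 1) * r) < N :=
      lt_of_le_of_lt (Nat.mul_le_mul_left _ (by omega)) hvN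
    obtain ⟨-, -, h1⟩ := hκ v hv hrv hvN1
    obtain ⟨-, h2, -⟩ := hκ v' hv' (by omega) hvN
    have h3 := hee v hv v' hv' hlt
    have h4 := hu2 v
    have h5 := hl1 v'
    have h6 : 2 * (K * tu v) + K * r ≤ 2 * (K * tl v') := by
      have h7 : 2 * tu v + r ≤ 2 * tl v' := by omega
      have h8 := Nat.mul_le_mul_left K h7
      have h9 : K * (2 * tu v + r) = 2 * (K * tu v) + K * r := by ring
      have h10 : K * (2 * tl v') = 2 * (K * tl v') := by ring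
      omega
    omega

/-- the concrete form, for one admissible prime -/
theorem kappa (b l N m p n1 r : ℕ) (hb : 2 ≤ b) (hl : 1 ≤ l) [Fact p.Prime] (hp : Adm b l p)
    (hN : 1 ≤ N) (hm' : sc (Fs b l) (N + 1) ≤ m) (hmr : m * r < p ^ (2 * n1))
    (hr : 4 * (2 * n1 * Wb b l p m + m + 1) ≤ r) :
    Nonempty (Dil (ZMod p) N (36 * b ^ (2 * l + 2) * m ^ 2 + 2 * m ^ 3 * r) m r (p ^ (2 * n1))
      ((2 * ((b : ℤ) ^ l - 1) ^ 2 : ℤ) : ZMod p)) := by
  have hm : sc (Fs b l) N ≤ m := (sc_mono _ (Nat.le_succ N)).trans hm'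
  obtain ⟨Y, -, hS⟩ := prime_sys b l N m p hb hl hp hm hm'
  obtain ⟨E, hE, hdil⟩ := dilation b l N p m p hb hl hp hN le_rfl hm'
  have hp1 : 1 ≤ p := hp.1.pos
  have hEW : #E ≤ Wb b l p m := hE
  obtain ⟨Z, -⟩ := kappa_abs Y E r p n1 hp1 (fun n hn hnE => by
    rw [hS n hn, hS (n / p) ((Nat.div_le_self _ _).trans_lt hn), hdil n hn hnE]) hmr (by
    have h1 : 2 * n1 * #E ≤ 2 * n1 * Wb b l p m := Nat.mul_le_mul_left _ hEW
    omega)
  exact ⟨Z⟩

end Pool.Agent.DCA
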