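import Mathlib

/-!
# Trees: definitions

`V` is a finite set of naturals, `nd j v` is the name of the class of `v` at level `j`.
-/

set_option autoImplicit false

open Finset

namespace Pool.Agent.DCA

/-- the class at level `j` with the name `c` -/
def cls (V : Finset ℕ) (nd : ℕ → ℕ → ℕ) (j c : ℕ) : Finset ℕ := {u ∈ V | nd j u = c}

open Classical in
/-- the name (at level `j - 1`) of the heavy child of the class `c` at level `j` -/
noncomputable def hvc (V : Finset ℕ) (nd : ℕ → ℕ → ℕ) (j c : ℕ) : ℕ :=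
  if h : ∃ u ∈ cls V nd j c, ∀ u' ∈ cls V nd j c,
      #(cls V nd (j - 1) (nd (j - 1) u')) ≤ #(cls V nd (j - 1) (nd (j - 1) u))
    then nd (j - 1) h.choose else 0

/-- the size of the light part of the class `c` at level `j` -/
noncomputable def lp (V : Finset ℕ) (nd : ℕ → ℕ → ℕ) (j c : ℕ) : ℕ :=
  #{u ∈ cls V nd j c | nd (j - 1) u ≠ hvc V nd j c}

/-- the light levels of `v` -/
noncomputable def Lt (V : Finset ℕ) (nd : ℕ → ℕ → ℕ) (J v : ℕ) : Finset ℕ :=
  {j ∈ Icc 1 J | nd (j - 1) v ≠ hvc V nd j (nd j v)}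

/-- the levels at which the class of `v` has a light part of relative size at least `1 / Y` -/
noncomputable def Th (V : Finset ℕ) (nd : ℕ → ℕ → ℕ) (J Y v : ℕ) : Finset ℕ :=
  {j ∈ Icc 1 J | #(cls V nd j (nd j v)) ≤ Y * lp V nd j (nd j v)}

/-- the classes are nested -/
def Nested (V : Finset ℕ) (nd : ℕ → ℕ → ℕ) : Prop :=
  ∀ j, ∀ u ∈ V, ∀ v ∈ V, nd j u = nd j v → nd (j + 1) u = nd (j + 1) v

end Pool.Agent.DCA
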