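import Pool.Agent.Lib.DCA.WDefs

/-!
# Windows: the dilation map

`K_ge`: `16 (m+1) g ≤ K r` (`hK`) and `r ≤ δ ≤ g` (`hδ`, `hδg`), `g > 0`.
`wi_spec`, `wi_eq`: `wi K g x = Nat.log K (x / g)`; `g * K ^ i ≤ x ↔ K ^ i ≤ x / g` (`Nat.le_div_iff_mul_le`), `Nat.pow_log_le_self`, `Nat.lt_pow_succ_log_self`,
`Nat.log_eq_of_pow_le_of_lt_pow`.
`kap_win`: by `bd` at `i` (as `g K ^ i ≤ x` and `δ > 0`): `(g + δ) K ^ i ≤ x`, and by `bd` at `i + 1`: `x + δ K ^ (i+1) ≤ g K ^ (i+1)`. `kap_lo`: `4 kap x ≥ 4 K x - K r ≥ 4 K (g + δ) K ^ i - K r ≥ 4 g K ^ (i+1)`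
(`4 δ ≥ r`). `kap_hi`: `kap x ≤ K (x + (m+1) r) ≤ K (g K ^ (i+1) - δ K ^ (i+1) + (m+1) r) < g K ^ (i+2)` (`(m+1) r < δ`).
`kap_inj`: `kap_gap` (`K r > 0`).
`card_step`: `kap` maps `Wd i` injectively into `Wd (i+1)`.
-/

set_option autoImplicit false

open Finset

namespace Pool.Agent.DCA

variable {p m K r g δ B D₁ : ℕ}

private theorem WBasic_r_le_δ (W : Win p m K r g δ B D₁) : r ≤ δ ∧ 1 ≤ δ ∧ (m + 1) * r < δ := by
  have h := W.hδ
  have hr := W.hr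
  have h2 : 16 * (m + 2) * r = (m + 1) * r + (15 * m + 31) * r := by ring
  have h3 : r ≤ (15 * m + 31) * r := Nat.le_mul_of_pos_left r (by omega)
  have h4 : 0 ≤ (m + 1) * r := Nat.zero_le _
  refine ⟨by omega, by omega, by omega⟩

theorem Win.K_ge (W : Win p m K r g δ B D₁) : 16 * (m + 1) ≤ K := by
  obtain ⟨h1, h2, -⟩ := WBasic_r_le_δ W
  have hg := W.hδg
  have hrg : r ≤ g := h1.trans hg
  have hgpos : 0 < g := by omega
  have h3 : 16 * (m + 1) * g ≤ K * g := W.hK.trans (Nat.mul_le_mul_left _ hrg)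
  exact Nat.le_of_mul_le_mul_right h3 hgpos

theorem Win.g_pos (W : Win p m K r g δ B D₁) : 1 ≤ g := by
  obtain ⟨-, h2, -⟩ := WBasic_r_le_δ W
  exact h2.trans W.hδg

theorem Win.r_le (W : Win p m K r g δ B D₁) : 16 * (m + 2) * r ≤ g := W.hδ.trans W.hδg

theorem wi_spec (K g x : ℕ) (hK : 2 ≤ K) (hg : 1 ≤ g) (hx : g ≤ x) :
    g * K ^ (wi K g x) ≤ x ∧ x < g * K ^ (wi K g x + 1) := by
  have hne : x / g ≠ 0 := by
    have : 0 < x / g := Nat.div_pos hx hg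
    omega
  constructor
  · have h := Nat.pow_log_le_self K hne
    have h2 := (Nat.le_div_iff_mul_le (by omega : 0 < g)).mp h
    rw [mul_comm]
    exact h2
  · have h := Nat.lt_pow_succ_log_self (by omega : 1 < K) (x / g)
    have h2 := (Nat.div_lt_iff_lt_mul (by omega : 0 < g)).mp h
    rw [mul_comm]
    exact h2

theorem wi_eq (K g x i : ℕ) (hK : 2 ≤ K) (hg : 1 ≤ g) (h1 : g * K ^ i ≤ x)
    (h2 : x < g * K ^ (i + 1)) : wi K g x = i := by
  refine Nat.log_eq_of_pow_le_of_lt_pow ?_ ?_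
  · rw [Nat.le_div_iff_mul_le (by omega : 0 < g), mul_comm]
    exact h1
  · rw [Nat.div_lt_iff_lt_mul (by omega : 0 < g), mul_comm]
    exact h2

private theorem WBasic_K2 (W : Win p m K r g δ B D₁) : 2 ≤ K := by
  have := W.K_ge
  omega

theorem Win.wi_mem (W : Win p m K r g δ B D₁) {i x : ℕ} (hx : x ∈ W.Wd i) : wi K g x = i := by
  rw [Win.Wd, mem_filter] at hx
  exact wi_eq K g x i (WBasic_K2 W) W.g_pos hx.2.1 hx.2.2

theorem Win.mem_Wd (W : Win p m K r g δ B D₁) {x : ℕ} (hx : x ∈ W.U) (hg : g ≤ x) :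
    x ∈ W.Wd (wi K g x) ∧ wi K g x ≤ B := by
  rw [Win.U, mem_filter] at hx
  obtain ⟨h1, h2⟩ := wi_spec K g x (WBasic_K2 W) W.g_pos hg
  refine ⟨?_, ?_⟩
  · rw [Win.Wd, mem_filter]
    exact ⟨hx.1, h1, h2⟩
  · have h3 : g * K ^ (wi K g x) < g * K ^ (B + 1) := lt_of_le_of_lt h1 hx.2
    have h4 : K ^ (wi K g x) < K ^ (B + 1) := Nat.lt_of_mul_lt_mul_left h3
    have h5 : wi K g x < B + 1 := (Nat.pow_lt_pow_iff_right (by have := WBasic_K2 W; omega)).mp h4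
    omega

theorem Win.kap_win (W : Win p m K r g δ B D₁) {i x : ℕ} (hi : i ≤ B) (hx : x ∈ W.Wd i) :
    W.kap x ∈ W.Wd (i + 1) := by
  rw [Win.Wd, mem_filter] at hx
  obtain ⟨hxV, hx1, hx2⟩ := hx
  obtain ⟨hrδ, hδ1, hmr⟩ := WBasic_r_le_δ W
  have hK2 := WBasic_K2 W
  have hKi : 1 ≤ K ^ i := Nat.one_le_pow _ _ (by omega)
  have hKi1 : K ≤ K ^ (i + 1) := by
    calc K = K ^ 1 := (pow_one K).symm
      _ ≤ _ := Nat.pow_le_pow_right (by omega) (by omega)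
  have hrx : r ≤ x := by
    calc r ≤ g * 1 := by rw [mul_one]; exact hrδ.trans W.hδg
      _ ≤ g * K ^ i := Nat.mul_le_mul_left _ hKi
      _ ≤ x := hx1
  have hxB : x < g * K ^ (B + 1) :=
    lt_of_lt_of_le hx2 (Nat.mul_le_mul_left _ (Nat.pow_le_pow_right (by omega) (by omega)))
  have hbi : (g + δ) * K ^ i ≤ x := by
    rcases W.bd i (by omega) x hxV with h | h
    · have h1 : 1 * 1 ≤ δ * K ^ i := Nat.mul_le_mul hδ1 hKi
      omega
    · exact h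
  have hbi1 : x + δ * K ^ (i + 1) ≤ g * K ^ (i + 1) := by
    rcases W.bd (i + 1) (by omega) x hxV with h | h
    · exact h
    · have h1 : g * K ^ (i + 1) ≤ (g + δ) * K ^ (i + 1) := Nat.mul_le_mul_right _ (by omega)
      omega
  rw [Win.Wd, mem_filter]
  refine ⟨W.kap_mem x hxV hrx hxB, ?_, ?_⟩
  · have h1 := W.kap_lo x hxV hrx hxB
    have h2 : K * ((g + δ) * K ^ i) ≤ K * x := Nat.mul_le_mul_left _ hbi
    have h3 : K * ((g + δ) * K ^ i) = g * K ^ (i + 1) + δ * K ^ (i + 1) := by ring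
    have h4 : K * r ≤ δ * K ^ (i + 1) := by
      calc K * r = r * K := mul_comm _ _
        _ ≤ δ * K ^ (i + 1) := Nat.mul_le_mul hrδ hKi1
    omega
  · have h1 := W.kap_hi x hxV hrx hxB
    have h2 : x + (m + 1) * r < g * K ^ (i + 1) := by
      have h3 : δ * 1 ≤ δ * K ^ (i + 1) :=
        Nat.mul_le_mul_left _ (Nat.one_le_pow _ _ (by omega))
      omega
    have h3 : K * (x + (m + 1) * r) < K * (g * K ^ (i + 1)) :=
      Nat.mul_lt_mul_of_pos_left h2 (by omega)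
    have h4 : K * (g * K ^ (i + 1)) = g * K ^ (i + 1 + 1) := by ring
    omega

private theorem WBasic_kap_lt (W : Win p m K r g δ B D₁) {x y : ℕ} (hx : x ∈ W.U) (hy : y ∈ W.U)
    (hrx : r ≤ x) (hxy : x < y) : W.kap x < W.kap y := by
  rw [Win.U, mem_filter] at hx hy
  have h := W.kap_gap x hx.1 y hy.1 hrx hxy hy.2
  have h1 : 1 * 1 ≤ K * r := Nat.mul_le_mul (by have := WBasic_K2 W; omega) W.hr
  omega

theorem Win.kap_inj (W : Win p m K r g δ B D₁) {x y : ℕ} (hx : x ∈ W.U) (hy : y ∈ W.U)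
    (hrx : r ≤ x) (hry : r ≤ y) (h : W.kap x = W.kap y) : x = y := by
  rcases lt_trichotomy x y with h1 | h1 | h1
  · exact absurd h (WBasic_kap_lt W hx hy hrx h1).ne
  · exact h1
  · exact absurd h (WBasic_kap_lt W hy hx hry h1).ne'

private theorem WBasic_mem_U (W : Win p m K r g δ B D₁) {i x : ℕ} (hi : i ≤ B)
    (hx : x ∈ W.Wd i) : x ∈ W.U ∧ r ≤ x := by
  rw [Win.Wd, mem_filter] at hx
  obtain ⟨hxV, hx1, hx2⟩ := hx
  obtain ⟨hrδ, hδ1, hmr⟩ := WBasic_r_le_δ W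
  have hK2 := WBasic_K2 W
  refine ⟨?_, ?_⟩
  · rw [Win.U, mem_filter]
    exact ⟨hxV, lt_of_lt_of_le hx2
      (Nat.mul_le_mul_left _ (Nat.pow_le_pow_right (by omega) (by omega)))⟩
  · calc r ≤ g * 1 := by rw [mul_one]; exact hrδ.trans W.hδg
      _ ≤ g * K ^ i := Nat.mul_le_mul_left _ (Nat.one_le_pow _ _ (by omega))
      _ ≤ x := hx1

theorem Win.card_step (W : Win p m K r g δ B D₁) {i : ℕ} (hi : i ≤ B) :
    #(W.Wd i) ≤ #(W.Wd (i + 1)) := by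
  refine Finset.card_le_card_of_injOn W.kap (fun x hx => W.kap_win hi hx) ?_
  intro x hx y hy hxy
  obtain ⟨h1, h2⟩ := WBasic_mem_U W hi hx
  obtain ⟨h3, h4⟩ := WBasic_mem_U W hi hy
  exact W.kap_inj h1 h3 h2 h4 hxy

theorem Win.card_le (W : Win p m K r g δ B D₁) {i : ℕ} (hi : i ≤ B) :
    #(W.Wd i) ≤ #(W.Wd B) := by
  have key : ∀ j, i + j ≤ B → #(W.Wd i) ≤ #(W.Wd (i + j)) := by
    intro j
    induction j with
    | zero => intro _; exact le_rfl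
    | succ j ih =>
      intro hj
      exact (ih (by omega)).trans (W.card_step (by omega))
  have h := key (B - i) (by omega)
  rwa [show i + (B - i) = B by omega] at h

theorem Win.card_pos (W : Win p m K r g δ B D₁) {i : ℕ} (hi : i ≤ B) : 1 ≤ #(W.Wd i) := by
  obtain ⟨x, hx, h1, h2⟩ := W.win i hi
  refine Finset.card_pos.mpr ⟨x, ?_⟩
  rw [Win.Wd, mem_filter]
  exact ⟨hx, h1, h2⟩

end Pool.Agent.DCA
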