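import Pool.Agent.Lib.DC3.Clean
import Pool.Agent.Lib.DCA.TDefs
import Pool.Agent.Lib.DCA.CDefs

/-!
# Windows: definitions

`Win`: a finite set `V` of naturals (more than `r` apart) with an injective map `kap x ≈ K x` on the part below `g K ^ (B + 1)`, no points near the
boundaries `g K ^ i` of the windows `W_i = [g K ^ i, g K ^ (i + 1))`, a point in every window, and the pair classes `E x y`.
-/

set_option autoImplicit false

open Finset

namespace Pool.Agent.DCA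

open Pool.Agent.DC3

structure Win (p m K r g δ B D₁ : ℕ) where
  V : Finset ℕ
  μ : ℕ → ZMod p
  E : ℕ → ℕ → Finset (ℕ × ℕ)
  kap : ℕ → ℕ
  nz : ∀ x ∈ V, μ x ≠ 0
  cardV : #V ≤ m
  sep : ∀ x ∈ V, ∀ y ∈ V, x < y → x + r < y
  kap_mem : ∀ x ∈ V, r ≤ x → x < g * K ^ (B + 1) → kap x ∈ V
  kap_lo : ∀ x ∈ V, r ≤ x → x < g * K ^ (B + 1) → 4 * (K * x) ≤ 4 * kap x + K * r
  kap_hi : ∀ x ∈ V, r ≤ x → x < g * K ^ (B + 1) → kap x ≤ K * (x + (m + 1) * r)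
  kap_gap : ∀ x ∈ V, ∀ y ∈ V, r ≤ x → x < y → y < g * K ^ (B + 1) →
    2 * kap x + K * r ≤ 2 * kap y
  bd : ∀ i ≤ B + 1, ∀ x ∈ V, x + δ * K ^ i ≤ g * K ^ i ∨ (g + δ) * K ^ i ≤ x
  win : ∀ i ≤ B, ∃ x ∈ V, g * K ^ i ≤ x ∧ x < g * K ^ (i + 1)
  E_self : ∀ x ∈ V, ∀ y ∈ V, g ≤ x + y → x + y < 2 * (g * K ^ B) → (x, y) ∈ E x y
  E_mem : ∀ x ∈ V, ∀ y ∈ V, g ≤ x + y → x + y < 2 * (g * K ^ B) →
    ∀ ab ∈ E x y, ab.1 ∈ V ∧ ab.2 ∈ V
  E_sum : ∀ x ∈ V, ∀ y ∈ V, g ≤ x + y → x + y < 2 * (g * K ^ B) →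
    ∀ ab ∈ E x y, |((ab.1 : ℤ) + ab.2) - (x + y)| ≤ D₁
  E_zero : ∀ x ∈ V, ∀ y ∈ V, g ≤ x + y → x + y < 2 * (g * K ^ B) →
    ∑ ab ∈ E x y, μ ab.1 * μ ab.2 = 0
  hr : 1 ≤ r
  hδ : 16 * (m + 2) * r ≤ δ
  hδg : δ ≤ g
  hK : 16 * (m + 1) * g ≤ K * r
  hD : D₁ < g

/-- the index of the window of `x` -/
def wi (K g x : ℕ) : ℕ := Nat.log K (x / g)

variable {p m K r g δ B D₁ : ℕ}

/-- the points of the window `i` -/
def Win.Wd (W : Win p m K r g δ B D₁) (i : ℕ) : Finset ℕ :=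
  {x ∈ W.V | g * K ^ i ≤ x ∧ x < g * K ^ (i + 1)}

/-- the points of the windows `0, …, B` and the points below -/
def Win.U (W : Win p m K r g δ B D₁) : Finset ℕ := {x ∈ W.V | x < g * K ^ (B + 1)}

/-- the image of `x` in the top window -/
def Win.pi (W : Win p m K r g δ B D₁) (x : ℕ) : ℕ := W.kap^[B - wi K g x] x

/-- the chains of the top window at level `j` -/
noncomputable def Win.nd (W : Win p m K r g δ B D₁) (j v : ℕ) : ℕ :=
  pfst (starts (W.Wd B) (g * K ^ j)) v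

/-- the nodes of the points of `U` -/
noncomputable def Win.node (W : Win p m K r g δ B D₁) (q x : ℕ) : ℕ × ℕ :=
  if x < g * K ^ (q + 1) then (0, 0)
    else (wi K g x + 1, W.nd (q + (B - wi K g x)) (W.pi x))

/-- light levels -/
noncomputable def Win.L (W : Win p m K r g δ B D₁) (x : ℕ) : Finset ℕ :=
  {q ∈ Icc 1 (wi K g x) | q = wi K g x ∨
    q + (B - wi K g x) ∈ Lt (W.Wd B) W.nd B (W.pi x)}

/-- rich levels -/
noncomputable def Win.H (W : Win p m K r g δ B D₁) (Y x : ℕ) : Finset ℕ :=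
  {q ∈ Ico 1 (wi K g x) | q + (B - wi K g x) ∈ Th (W.Wd B) W.nd B Y (W.pi x)}

/-- a point of the window `0` -/
noncomputable def Win.h₀ (W : Win p m K r g δ B D₁) : ℕ := (W.win 0 (Nat.zero_le _)).choose

/-- heavy siblings -/
noncomputable def Win.Hv (W : Win p m K r g δ B D₁) (x q : ℕ) : Finset ℕ :=
  if q = wi K g x then {W.h₀} else
    {h ∈ W.Wd (wi K g x) |
      W.nd (q + (B - wi K g x)) (W.pi h) = W.nd (q + (B - wi K g x)) (W.pi x) ∧
      W.nd (q + (B - wi K g x) - 1) (W.pi h) =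
        hvc (W.Wd B) W.nd (q + (B - wi K g x)) (W.nd (q + (B - wi K g x)) (W.pi x))}

/-- the light part of the node of `x` at level `q` is at most `1 / Y` of the node -/
def Win.Rich (W : Win p m K r g δ B D₁) (Y x q : ℕ) : Prop :=
  #(cls (W.Wd B) W.nd (q + (B - wi K g x)) (W.nd (q + (B - wi K g x)) (W.pi x))) ≤
    Y * lp (W.Wd B) W.nd (q + (B - wi K g x)) (W.nd (q + (B - wi K g x)) (W.pi x))

/-- the number of points of the window of `x` in the node of `x` at level `q` -/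
noncomputable def Win.nn (W : Win p m K r g δ B D₁) (x q : ℕ) : ℕ :=
  #{x' ∈ W.Wd (wi K g x) |
    W.nd (q + (B - wi K g x)) (W.pi x') = W.nd (q + (B - wi K g x)) (W.pi x)}

open Classical in
/-- fine points: `y, e` determine the rich levels, `P` the density condition -/
noncomputable def Win.F (W : Win p m K r g δ B D₁) (y e P : ℕ) : Finset ℕ :=
  {x ∈ W.V | g * K ^ 2 ≤ x ∧ x < g * K ^ B ∧
    (∀ x' ∈ W.V, x' ≠ x → (g * K : ℤ) < |(x : ℤ) - x'|) ∧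
    (∀ q ∈ W.L x \ W.H (y ^ e) x, q < wi K g x → ¬ W.Rich (y ^ (e + 1)) x q) ∧
    (∀ q < wi K g x, #(cls (W.Wd B) W.nd (q + (B - wi K g x))
      (W.nd (q + (B - wi K g x)) (W.pi x))) ≤ P * W.nn x q) ∧
    ∀ a ∈ W.L x \ W.H (y ^ e) x, ∀ b ∈ W.L x \ W.H (y ^ e) x, a < b → a + 6 < b}

end Pool.Agent.DCA
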