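import Pool.Agent.Lib.DCA.WPi
import Pool.Agent.Lib.DCA.WNd

/-!
# Windows: the nodes of the points of `U`

`node q x = (0, 0)` iff `x < g K ^ (q+1)` (otherwise the first component is `wi + 1 > 0`).
`node_mono`: if both are `(0,0)` at level `q` then both points are `< g K ^ (q+1) ≤ g K ^ (q+2)`. Otherwise both are `≥ g K ^ (q+1)` and have the same `i = wi` and the same `nd (q + (B - i))` at `pi`; if
`x < g K ^ (q+2)` then `i = q + 1` (`wi_eq`) and the same holds for `x'` (`wi_spec`), so both nodes at level `q + 1` are `(0,0)`; else `nested` (`W.nested`, `pi_mem`; `(q + 1) + (B - i) = (q + (B - i)) + 1`).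
`node_top`: `x < g K ^ (B+1)` for `x ∈ U`.
`node_le`: both `(0,0)`: both in `[0, g K ^ (q+1))`. Otherwise same window `i` (`mem_Wd`), `s = B - i`, `nd_le` at level `q + s`: `|pi x - pi x'| ≤ m g K ^ (q+s)`, `pi_near` for both:
`K ^ s |x - x'| ≤ m g K ^ (q+s) + 4 (m+1) r K ^ s`, so `|x - x'| ≤ m g K ^ q + 4 (m+1) r ≤ (m + 1) g K ^ q ≤ g K ^ (q+1)` (`r_le`, `K_ge`).
`node_ge`: (a) both `≥ g K ^ (q+1)`, same window `i`: `nd` different at level `q + s`: `|pi x - pi x'| > g K ^ (q+s)`; `K ^ s |x - x'| ≥ g K ^ (q+s) - 4 (m+1) r K ^ s`, so `2 |x - x'| ≥ 2 g K ^ q - 8 (m+1) r ≥ g K ^ q`.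
(b) different windows `i < i'` (or `x < g`; in any case `x < g K ^ i' ≤ x'`, `i' = wi x' ≥ q + 1`), or `x < g K ^ (q+1) ≤ x'` (take `i' = wi x'` again: if `x ≥ g K ^ i'` then `x ≥ g K ^ (q+1)`, so `x < g K ^ i'`): `bd` at `i' ≤ B`: `x + δ K ^ i' ≤ g K ^ i'` and
`(g + δ) K ^ i' ≤ x'` so `x' - x ≥ 2 δ K ^ i' ≥ 2 δ K ^ (q+1)`; and `δ K ≥ r K ≥ 16 (m+1) g ≥ g`, so `2 |x - x'| ≥ g K ^ q`.
-/

set_option autoImplicit false

open Finset

namespace Pool.Agent.DCA

variable {p m K r g δ B D₁ : ℕ}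

private theorem WNode_pow {a b : ℕ} (W : Win p m K r g δ B D₁) (h : a ≤ b) :
    g * K ^ a ≤ g * K ^ b := by
  have hK := W.K_ge
  exact Nat.mul_le_mul_left _ (Nat.pow_le_pow_right (by omega) h)

private theorem WNode_big (W : Win p m K r g δ B D₁) {q x : ℕ} (hx : x ∈ W.U)
    (h : ¬ x < g * K ^ (q + 1)) : x ∈ W.Wd (wi K g x) ∧ wi K g x ≤ B ∧ q + 1 ≤ wi K g x ∧
      g * K ^ (wi K g x) ≤ x ∧ x < g * K ^ (wi K g x + 1) := by
  have hK := W.K_ge
  have hg := W.g_pos
  have hgx : g ≤ x := by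
    have h1 : g * 1 ≤ g * K ^ (q + 1) := Nat.mul_le_mul_left _ (Nat.one_le_pow _ _ (by omega))
    omega
  obtain ⟨h1, h2⟩ := W.mem_Wd hx hgx
  obtain ⟨h3, h4⟩ := wi_spec K g x (by omega) hg hgx
  refine ⟨h1, h2, ?_, h3, h4⟩
  by_contra hcon
  have h5 := WNode_pow W (show wi K g x + 1 ≤ q + 1 by omega)
  omega

private theorem WNode_gap (W : Win p m K r g δ B D₁) {q i x x' : ℕ} (hx : x ∈ W.U)
    (hx' : x' ∈ W.U) (hi : i ≤ B + 1) (hq : q + 1 ≤ i) (h1 : x < g * K ^ i)
    (h2 : g * K ^ i ≤ x') : g * K ^ q + 2 * x ≤ 2 * x' := by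
  have hV : x ∈ W.V := (mem_filter.mp hx).1
  have hV' : x' ∈ W.V := (mem_filter.mp hx').1
  have hK := W.K_ge
  have hg := W.g_pos
  have hKi : 1 ≤ K ^ i := Nat.one_le_pow _ _ (by omega)
  have hδ := W.hδ
  have hr := W.hr
  have hKr := W.hK
  have hδ0 : 1 ≤ δ := by
    have : 1 ≤ 16 * (m + 2) * r := by nlinarith
    omega
  have a1 : x + δ * K ^ i ≤ g * K ^ i := by
    rcases W.bd i hi x hV with h | h
    · exact h
    · exfalso
      have : g * K ^ i ≤ (g + δ) * K ^ i := Nat.mul_le_mul_right _ (by omega)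
      omega
  have a2 : (g + δ) * K ^ i ≤ x' := by
    rcases W.bd i hi x' hV' with h | h
    · exfalso
      have : 1 ≤ δ * K ^ i := Nat.one_le_iff_ne_zero.mpr (by positivity)
      omega
    · exact h
  have a3 : x + 2 * (δ * K ^ i) ≤ x' := by
    have : (g + δ) * K ^ i = g * K ^ i + δ * K ^ i := by ring
    omega
  have a4 : g ≤ δ * K := by
    have b1 : 16 * (m + 2) * r * K ≤ δ * K := Nat.mul_le_mul_right _ hδ
    have b2 : g ≤ 16 * (m + 1) * g := by nlinarith
    have b3 : 16 * (m + 1) * g ≤ K * r := hKr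
    have b4 : K * r ≤ 16 * (m + 2) * r * K := by nlinarith [Nat.zero_le (K * r), Nat.zero_le (m * (K * r))]
    omega
  have a5 : g * K ^ q ≤ δ * K ^ i := by
    calc g * K ^ q ≤ δ * K * K ^ q := Nat.mul_le_mul_right _ a4
      _ = δ * K ^ (q + 1) := by ring
      _ ≤ δ * K ^ i := Nat.mul_le_mul_left _ (Nat.pow_le_pow_right (by omega) hq)
  omega

theorem Win.node_mono (W : Win p m K r g δ B D₁) : ∀ q, ∀ x ∈ W.U, ∀ x' ∈ W.U,
    W.node q x = W.node q x' → W.node (q + 1) x = W.node (q + 1) x' := by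
  intro q x hx x' hx' h
  have hK := W.K_ge
  have hg := W.g_pos
  have hmono := WNode_pow W (show q + 1 ≤ q + 1 + 1 by omega)
  by_cases h1 : x < g * K ^ (q + 1)
  · by_cases h2 : x' < g * K ^ (q + 1)
    · unfold Win.node
      rw [if_pos (by omega), if_pos (by omega)]
    · exfalso
      unfold Win.node at h
      rw [if_pos h1, if_neg h2, Prod.mk.injEq] at h
      omega
  · by_cases h2 : x' < g * K ^ (q + 1)
    · exfalso
      unfold Win.node at h
      rw [if_pos h2, if_neg h1, Prod.mk.injEq] at h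
      omega
    · obtain ⟨w1, w2, w3, w4, w5⟩ := WNode_big W hx h1
      obtain ⟨v1, v2, v3, v4, v5⟩ := WNode_big W hx' h2
      unfold Win.node at h
      rw [if_neg h1, if_neg h2, Prod.mk.injEq] at h
      obtain ⟨e1, e2⟩ := h
      have e3 : wi K g x = wi K g x' := by omega
      by_cases h3 : x < g * K ^ (q + 1 + 1)
      · have i1 : wi K g x = q + 1 := wi_eq K g x (q + 1) (by omega) hg (by omega) h3
        rw [← e3, i1] at v5
        unfold Win.node
        rw [if_pos h3, if_pos v5]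
      · have h4 : ¬ x' < g * K ^ (q + 1 + 1) := by
          intro h5
          have i1 : wi K g x' = q + 1 := wi_eq K g x' (q + 1) (by omega) hg (by omega) h5
          rw [e3, i1] at w5
          exact h3 w5
        unfold Win.node
        rw [if_neg h3, if_neg h4, Prod.mk.injEq]
        refine ⟨e1, ?_⟩
        have e4 : q + 1 + (B - wi K g x) = q + (B - wi K g x) + 1 := by omega
        have e5 : q + 1 + (B - wi K g x') = q + (B - wi K g x) + 1 := by omega
        rw [e4, e5]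
        rw [← e3] at e2
        exact W.nested (by omega) _ _ (W.pi_mem w2 w1) _ (W.pi_mem v2 v1) e2

theorem Win.node_top (W : Win p m K r g δ B D₁) : ∀ x ∈ W.U, ∀ x' ∈ W.U,
    W.node B x = W.node B x' := by
  intro x hx x' hx'
  unfold Win.node
  rw [if_pos (mem_filter.mp hx).2, if_pos (mem_filter.mp hx').2]

private theorem WNode_four (W : Win p m K r g δ B D₁) (q : ℕ) :
    8 * ((m + 1) * r) ≤ g * K ^ q := by
  have hK := W.K_ge
  have h1 := W.r_le
  have h2 : g * 1 ≤ g * K ^ q := Nat.mul_le_mul_left _ (Nat.one_le_pow _ _ (by omega))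
  have h3 : 8 * ((m + 1) * r) ≤ 16 * (m + 2) * r := by nlinarith
  omega

theorem Win.node_le (W : Win p m K r g δ B D₁) : ∀ q, ∀ x ∈ W.U, ∀ x' ∈ W.U,
    W.node q x = W.node q x' → |(x : ℤ) - x'| ≤ ((g * K ^ (q + 1) : ℕ) : ℤ) := by
  intro q x hx x' hx' h
  have hK := W.K_ge
  have hg := W.g_pos
  by_cases h1 : x < g * K ^ (q + 1)
  · by_cases h2 : x' < g * K ^ (q + 1)
    · rw [abs_le]
      constructor <;> omega
    · exfalso
      unfold Win.node at h
      rw [if_pos h1, if_neg h2, Prod.mk.injEq] at h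
      omega
  · by_cases h2 : x' < g * K ^ (q + 1)
    · exfalso
      unfold Win.node at h
      rw [if_pos h2, if_neg h1, Prod.mk.injEq] at h
      omega
    · obtain ⟨w1, w2, w3, w4, w5⟩ := WNode_big W hx h1
      obtain ⟨v1, v2, v3, v4, v5⟩ := WNode_big W hx' h2
      unfold Win.node at h
      rw [if_neg h1, if_neg h2, Prod.mk.injEq] at h
      obtain ⟨e1, e2⟩ := h
      have e3 : wi K g x' = wi K g x := by omega
      rw [e3] at e2 v1 v2
      have n1 := W.pi_near w2 w1
      have n2 := W.pi_near v2 v1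
      have n3 := W.nd_le _ (W.pi_mem w2 w1) (W.pi_mem v2 v1) e2
      have hs : (0 : ℤ) < (K : ℤ) ^ (B - wi K g x) := by
        have : (0 : ℤ) < K := by omega
        positivity
      have h8 : 8 * (((m : ℤ) + 1) * r) ≤ g * (K : ℤ) ^ q := by exact_mod_cast WNode_four W q
      set s : ℕ := B - wi K g x with hsdef
      have hpow : (K : ℤ) ^ (q + s) = K ^ q * K ^ s := pow_add _ _ _
      rw [hpow] at n3
      have t1 : (K : ℤ) ^ s * |(x : ℤ) - x'| ≤
          (K : ℤ) ^ s * (m * (g * (K : ℤ) ^ q) + 4 * (((m : ℤ) + 1) * r)) := by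
        have : (K : ℤ) ^ s * |(x : ℤ) - x'| = |(K : ℤ) ^ s * x - K ^ s * x'| := by
          rw [← mul_sub, abs_mul, abs_of_pos hs]
        rw [this]
        rw [abs_le] at n1 n2 n3 ⊢
        constructor <;> nlinarith [n1.1, n1.2, n2.1, n2.2, n3.1, n3.2]
      have t2 := le_of_mul_le_mul_left t1 hs
      refine t2.trans ?_
      push_cast
      have t3 : ((m : ℤ) + 1) ≤ K := by omega
      have t4 : (0 : ℤ) ≤ g * (K : ℤ) ^ q := by positivity
      have t5 : ((m : ℤ) + 1) * (g * (K : ℤ) ^ q) ≤ K * (g * (K : ℤ) ^ q) :=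
        mul_le_mul_of_nonneg_right t3 t4
      have t6 : (g : ℤ) * (K : ℤ) ^ (q + 1) = K * (g * (K : ℤ) ^ q) := by ring
      rw [t6]
      nlinarith [t5, h8, t4]

theorem Win.node_ge (W : Win p m K r g δ B D₁) : ∀ q, ∀ x ∈ W.U, ∀ x' ∈ W.U,
    W.node q x ≠ W.node q x' → ((g * K ^ q : ℕ) : ℤ) ≤ 2 * |(x : ℤ) - x'| := by
  intro q x hx x' hx' h
  have hK := W.K_ge
  have hg := W.g_pos
  have fin1 : g * K ^ q + 2 * x ≤ 2 * x' → ((g * K ^ q : ℕ) : ℤ) ≤ 2 * |(x : ℤ) - x'| := by
    intro h0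
    have : -((x : ℤ) - x') ≤ |(x : ℤ) - x'| := neg_le_abs _
    omega
  have fin2 : g * K ^ q + 2 * x' ≤ 2 * x → ((g * K ^ q : ℕ) : ℤ) ≤ 2 * |(x : ℤ) - x'| := by
    intro h0
    have : ((x : ℤ) - x') ≤ |(x : ℤ) - x'| := le_abs_self _
    omega
  by_cases h1 : x < g * K ^ (q + 1)
  · by_cases h2 : x' < g * K ^ (q + 1)
    · exfalso
      apply h
      unfold Win.node
      rw [if_pos h1, if_pos h2]
    · obtain ⟨v1, v2, v3, v4, v5⟩ := WNode_big W hx' h2
      have := WNode_pow W v3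
      exact fin1 (WNode_gap W hx hx' (by omega) v3 (by omega) v4)
  · obtain ⟨w1, w2, w3, w4, w5⟩ := WNode_big W hx h1
    by_cases h2 : x' < g * K ^ (q + 1)
    · have := WNode_pow W w3
      exact fin2 (WNode_gap W hx' hx (by omega) w3 (by omega) w4)
    · obtain ⟨v1, v2, v3, v4, v5⟩ := WNode_big W hx' h2
      rcases lt_trichotomy (wi K g x) (wi K g x') with hlt | heq | hgt
      · have := WNode_pow W (show wi K g x + 1 ≤ wi K g x' by omega)
        exact fin1 (WNode_gap W hx hx' (by omega) v3 (by omega) v4)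
      · unfold Win.node at h
        rw [if_neg h1, if_neg h2] at h
        rw [← heq] at h v1 v2
        have hne : W.nd (q + (B - wi K g x)) (W.pi x) ≠ W.nd (q + (B - wi K g x)) (W.pi x') :=
          fun hcon => h (by rw [hcon])
        have n1 := W.pi_near w2 w1
        have n2 := W.pi_near v2 v1
        have n3 := W.nd_ge _ (W.pi_mem w2 w1) (W.pi_mem v2 v1) hne
        have hs : (0 : ℤ) < (K : ℤ) ^ (B - wi K g x) := by
          have : (0 : ℤ) < K := by omega
          positivity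
        have h8 : 8 * (((m : ℤ) + 1) * r) ≤ g * (K : ℤ) ^ q := by exact_mod_cast WNode_four W q
        set s : ℕ := B - wi K g x with hsdef
        have hpow : ((g * K ^ (q + s) : ℕ) : ℤ) = g * K ^ q * (K : ℤ) ^ s := by
          push_cast
          rw [pow_add]
          ring
        rw [hpow] at n3
        have t1 : (K : ℤ) ^ s * (g * (K : ℤ) ^ q - 4 * (((m : ℤ) + 1) * r)) ≤
            (K : ℤ) ^ s * |(x : ℤ) - x'| := by
          have e0 : (K : ℤ) ^ s * |(x : ℤ) - x'| = |(K : ℤ) ^ s * x - K ^ s * x'| := by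
            rw [← mul_sub, abs_mul, abs_of_pos hs]
          have e1 : |(W.pi x : ℤ) - W.pi x'| ≤ |(W.pi x : ℤ) - K ^ s * x| +
              |(K : ℤ) ^ s * x - K ^ s * x'| + |(W.pi x' : ℤ) - K ^ s * x'| := by
            have e2 : (W.pi x : ℤ) - W.pi x' = ((W.pi x : ℤ) - K ^ s * x) +
              ((K : ℤ) ^ s * x - K ^ s * x') + -((W.pi x' : ℤ) - K ^ s * x') := by ring
            rw [e2]
            refine (abs_add_le _ _).trans ?_
            rw [abs_neg]
            exact add_le_add_left (abs_add_le _ _) _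
          rw [e0]
          nlinarith [e1, n1, n2, n3]
        have t2 := le_of_mul_le_mul_left t1 hs
        push_cast
        nlinarith [t2, h8]
      · have := WNode_pow W (show wi K g x' + 1 ≤ wi K g x by omega)
        exact fin2 (WNode_gap W hx' hx (by omega) w3 (by omega) w4)

end Pool.Agent.DCA
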