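import Pool.Agent.Lib.DCA.WBasic

/-!
# Windows: the image in the top window

All by induction on `B - i` for the iterates (first prove for `s` with `i + s ≤ B` and `x ∈ Wd i`: `kap^[s] x ∈ Wd (i + s)`,
`|kap^[s] x - K ^ s x| ≤ 2 (m+1) r K ^ s` [more precisely the error `e s` satisfies `e (s+1) ≤ K (m+1) r + K e s`, so `e s ≤ (m+1) r (K + … + K ^ s) ≤ 2 (m+1) r K ^ s`; a
convenient induction hypothesis is `e s ≤ 2 (m+1) r (K ^ s - 1)`, as `K (m+1) r ≤ 2 (m+1) r (K - 1)`; `|kap z - K z| ≤ K (m+1) r` from `kap_lo`, `kap_hi`], and injectivity from `kap_inj`).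
`wi K g x = i` for `x ∈ Wd i` (`wi_mem`).
-/

set_option autoImplicit false

open Finset

namespace Pool.Agent.DCA

variable {p m K r g δ B D₁ : ℕ}

private theorem WPi_iter (W : Win p m K r g δ B D₁) {i x : ℕ} (hx : x ∈ W.Wd i) :
    ∀ s, i + s ≤ B → W.kap^[s] x ∈ W.Wd (i + s) := by
  intro s
  induction s with
  | zero => intro _; simpa using hx
  | succ s ih =>
    intro hs
    rw [Function.iterate_succ_apply']
    exact W.kap_win (i := i + s) (by omega) (ih (by omega))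

private theorem WPi_bounds (W : Win p m K r g δ B D₁) {j z : ℕ} (hj : j ≤ B)
    (hz : z ∈ W.Wd j) : z ∈ W.V ∧ r ≤ z ∧ z < g * K ^ (B + 1) := by
  rw [Win.Wd, Finset.mem_filter] at hz
  have hg := W.r_le
  have hK := W.K_ge
  have h1 : 1 ≤ K ^ j := Nat.one_le_pow _ _ (by omega)
  have h2 : K ^ (j + 1) ≤ K ^ (B + 1) := Nat.pow_le_pow_right (by omega) (by omega)
  have h3 : r ≤ 16 * (m + 2) * r := Nat.le_mul_of_pos_left r (by positivity)
  refine ⟨hz.1, ?_, ?_⟩
  · calc r ≤ g := h3.trans hg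
      _ = g * 1 := (mul_one g).symm
      _ ≤ g * K ^ j := Nat.mul_le_mul_left g h1
      _ ≤ z := hz.2.1
  · exact lt_of_lt_of_le hz.2.2 (Nat.mul_le_mul_left g h2)

private theorem WPi_near (W : Win p m K r g δ B D₁) {i x : ℕ} (hx : x ∈ W.Wd i) :
    ∀ s, i + s ≤ B → |(W.kap^[s] x : ℤ) - K ^ s * x| ≤ 2 * ((m + 1) * r) * (K ^ s - 1) := by
  intro s
  induction s with
  | zero => intro _; simp
  | succ s ih =>
    intro hs
    rw [Function.iterate_succ_apply']
    have hz := WPi_iter W hx s (by omega)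
    have h0 := ih (by omega)
    generalize W.kap^[s] x = z at hz h0 ⊢
    obtain ⟨hV, hr, hB⟩ := WPi_bounds W (by omega) hz
    have h1 := W.kap_lo z hV hr hB
    have h2 := W.kap_hi z hV hr hB
    have hK : 16 * (m + 1) ≤ K := W.K_ge
    have h1' : 4 * ((K : ℤ) * z) ≤ 4 * W.kap z + K * r := by exact_mod_cast h1
    have h2' : (W.kap z : ℤ) ≤ K * (z + (m + 1) * r) := by exact_mod_cast h2
    have hK' : (2 : ℤ) ≤ K := by exact_mod_cast (by omega : 2 ≤ K)
    have hr0 : (0 : ℤ) ≤ r := Int.natCast_nonneg r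
    have hm0 : (0 : ℤ) ≤ m := Int.natCast_nonneg m
    have hA : (0 : ℤ) ≤ (m + 1) * r := by positivity
    have hAr : (r : ℤ) ≤ (m + 1) * r := by nlinarith
    rw [abs_le] at h0 ⊢
    have e1 : (K : ℤ) ^ (s + 1) = K * K ^ s := by ring
    rw [e1]
    generalize (K : ℤ) ^ s = Q at h0 ⊢
    have hK0 : (0 : ℤ) ≤ K := by linarith
    have k1 := mul_le_mul_of_nonneg_left h0.1 hK0
    have k2 := mul_le_mul_of_nonneg_left h0.2 hK0
    have k3 : (K : ℤ) * r ≤ K * ((m + 1) * r) := mul_le_mul_of_nonneg_left hAr hK0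
    have k4 : 2 * (((m : ℤ) + 1) * r) ≤ K * ((m + 1) * r) := mul_le_mul_of_nonneg_right hK' hA
    constructor
    · nlinarith
    · nlinarith

private theorem WPi_inj (W : Win p m K r g δ B D₁) {i x y : ℕ} (hx : x ∈ W.Wd i)
    (hy : y ∈ W.Wd i) : ∀ s, i + s ≤ B → W.kap^[s] x = W.kap^[s] y → x = y := by
  intro s
  induction s with
  | zero => intro _ h; simpa using h
  | succ s ih =>
    intro hs h
    rw [Function.iterate_succ_apply', Function.iterate_succ_apply'] at h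
    obtain ⟨hV, hr, hB⟩ := WPi_bounds W (by omega) (WPi_iter W hx s (by omega))
    obtain ⟨hV', hr', hB'⟩ := WPi_bounds W (by omega) (WPi_iter W hy s (by omega))
    refine ih (by omega) (W.kap_inj ?_ ?_ hr hr' h)
    · rw [Win.U, Finset.mem_filter]; exact ⟨hV, hB⟩
    · rw [Win.U, Finset.mem_filter]; exact ⟨hV', hB'⟩

theorem Win.pi_mem (W : Win p m K r g δ B D₁) {i x : ℕ} (hi : i ≤ B) (hx : x ∈ W.Wd i) :
    W.pi x ∈ W.Wd B := by
  have h := WPi_iter W hx (B - i) (by omega)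
  rw [Win.pi, W.wi_mem hx]
  rwa [Nat.add_sub_cancel' hi] at h

theorem Win.pi_near (W : Win p m K r g δ B D₁) {i x : ℕ} (hi : i ≤ B) (hx : x ∈ W.Wd i) :
    |(W.pi x : ℤ) - K ^ (B - i) * x| ≤ 2 * ((m + 1) * r) * K ^ (B - i) := by
  have h := WPi_near W hx (B - i) (by omega)
  rw [Win.pi, W.wi_mem hx]
  refine h.trans ?_
  have hA : (0 : ℤ) ≤ 2 * ((m + 1) * r) := by positivity
  nlinarith

theorem Win.pi_inj (W : Win p m K r g δ B D₁) {i x y : ℕ} (hi : i ≤ B) (hx : x ∈ W.Wd i)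
    (hy : y ∈ W.Wd i) (h : W.pi x = W.pi y) : x = y := by
  rw [Win.pi, Win.pi, W.wi_mem hx, W.wi_mem hy] at h
  exact WPi_inj W hx hy (B - i) (by omega) h

end Pool.Agent.DCA
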