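import Pool.Agent.Lib.DCA.WBasic

/-!
# Windows: small points

`small`. PROOF. At most one point of `V` is `< r` (`sep`). A point `r ≤ x < g` has `x + δ ≤ g` (`bd` at `0`), `4 kap x ≥ 4 K x - K r ≥ 3 K r ≥ 4 g` (`hK`: `K r ≥ 16 g`), `kap x ≤ K (x + (m+1) r) < K g` (`(m+1) r < δ`): `kap x ∈ Wd 0`; injective.
So at most `1 + #(Wd 0)` points are `< g`. With `Wd 0`, `Wd 1` and `1 ≤ #(Wd B)`: `≤ 4 #(Wd B)`.
-/

set_option autoImplicit false

open Finset

namespace Pool.Agent.DCA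

variable {p m K r g δ B D₁ : ℕ}

theorem Win.small (W : Win p m K r g δ B D₁) (hB : 2 ≤ B) :
    #{x ∈ W.V | x < g * K ^ 2} ≤ 4 * #(W.Wd B) := by
  have hKpos : 0 < K := by
    have := W.K_ge
    omega
  have hg1 := W.g_pos
  have hpow : ∀ n : ℕ, 1 ≤ K ^ n := fun n => Nat.one_le_pow _ _ hKpos
  have hgB : g ≤ g * K ^ (B + 1) := Nat.le_mul_of_pos_right _ (hpow _)
  have hδ := W.hδ
  have hr := W.hr
  have hK := W.hK
  -- points below `r`
  have h1 : #{x ∈ W.V | x < r} ≤ 1 := by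
    rw [Finset.card_le_one]
    intro a ha b hb
    rw [Finset.mem_filter] at ha hb
    by_contra hne
    rcases lt_or_gt_of_ne hne with h | h
    · have := W.sep a ha.1 b hb.1 h
      omega
    · have := W.sep b hb.1 a ha.1 h
      omega
  -- points between `r` and `g`
  have h2 : #{x ∈ W.V | r ≤ x ∧ x < g} ≤ #(W.Wd 0) := by
    refine Finset.card_le_card_of_injOn W.kap ?_ ?_
    · intro x hx
      have hx' := Finset.mem_filter.1 (Finset.mem_coe.1 hx)
      obtain ⟨hxV, hrx, hxg⟩ := hx'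
      have hxB : x < g * K ^ (B + 1) := lt_of_lt_of_le hxg hgB
      have hmem := W.kap_mem x hxV hrx hxB
      have hlo := W.kap_lo x hxV hrx hxB
      have hhi := W.kap_hi x hxV hrx hxB
      have hbd := W.bd 0 (Nat.zero_le _) x hxV
      rw [pow_zero, mul_one, mul_one, mul_one] at hbd
      have hxδ : x + δ ≤ g := by
        rcases hbd with h | h
        · exact h
        · omega
      have hKr : 16 * g ≤ K * r := by
        refine le_trans ?_ hK
        rw [Nat.mul_assoc 16 (m + 1) g]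
        exact Nat.mul_le_mul_left _ (Nat.le_mul_of_pos_left _ (Nat.succ_pos m))
      have hKx : K * r ≤ K * x := Nat.mul_le_mul_left _ hrx
      have hge : g ≤ W.kap x := by omega
      have hlt2 : x + (m + 1) * r < g := by
        have e1 : 16 * (m + 2) * r = 16 * ((m + 1) * r) + 16 * r := by ring
        rw [e1] at hδ
        omega
      have hlt : W.kap x < g * K := by
        calc W.kap x ≤ K * (x + (m + 1) * r) := hhi
          _ < K * g := (Nat.mul_lt_mul_left hKpos).2 hlt2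
          _ = g * K := Nat.mul_comm _ _
      refine Finset.mem_coe.2 ?_
      unfold Win.Wd
      rw [Finset.mem_filter, pow_zero, mul_one, zero_add, pow_one]
      exact ⟨hmem, hge, hlt⟩
    · intro x hx y hy hxy
      have hx' := Finset.mem_filter.1 (Finset.mem_coe.1 hx)
      have hy' := Finset.mem_filter.1 (Finset.mem_coe.1 hy)
      refine W.kap_inj ?_ ?_ hx'.2.1 hy'.2.1 hxy
      · exact Finset.mem_filter.2 ⟨hx'.1, lt_of_lt_of_le hx'.2.2 hgB⟩
      · exact Finset.mem_filter.2 ⟨hy'.1, lt_of_lt_of_le hy'.2.2 hgB⟩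
  have hsub : {x ∈ W.V | x < g * K ^ 2} ⊆
      (({x ∈ W.V | x < r} ∪ {x ∈ W.V | r ≤ x ∧ x < g}) ∪ W.Wd 0) ∪ W.Wd 1 := by
    intro x hx
    rw [Finset.mem_filter] at hx
    obtain ⟨hxV, hx2⟩ := hx
    unfold Win.Wd
    simp only [Finset.mem_union, Finset.mem_filter, pow_zero, mul_one, zero_add, pow_one]
    by_cases c1 : x < r
    · exact Or.inl (Or.inl (Or.inl ⟨hxV, c1⟩))
    by_cases c2 : x < g
    · exact Or.inl (Or.inl (Or.inr ⟨hxV, not_lt.1 c1, c2⟩))
    by_cases c3 : x < g * K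
    · exact Or.inl (Or.inr ⟨hxV, not_lt.1 c2, c3⟩)
    · exact Or.inr ⟨hxV, not_lt.1 c3, hx2⟩
  have h3 := Finset.card_le_card hsub
  have h4 := Finset.card_union_le
    (({x ∈ W.V | x < r} ∪ {x ∈ W.V | r ≤ x ∧ x < g}) ∪ W.Wd 0) (W.Wd 1)
  have h5 := Finset.card_union_le
    ({x ∈ W.V | x < r} ∪ {x ∈ W.V | r ≤ x ∧ x < g}) (W.Wd 0)
  have h6 := Finset.card_union_le {x ∈ W.V | x < r} {x ∈ W.V | r ≤ x ∧ x < g}
  have h7 := W.card_le (Nat.zero_le B)
  have h8 := W.card_le (i := 1) (by omega)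
  have h9 := W.card_pos (le_refl B)
  have h10 := h7
  omega

end Pool.Agent.DCA
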